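import Pool.Agent.Q191.RP.Glue

/-!
# The reflected diagram has the adjoint operator
-/

set_option autoImplicit false

namespace Pool.Agent.Q191.RP

open Matrix Finset
open scoped Kronecker
open Pool.Agent.H550R3.Jones (WM IsMod IsInt Gen br brf tens irr W crossP crossN Adm)
open Pool.Agent.H927R2.J.SanYB (brf_ne)
open Pool.Agent.W715.VC (brf_succ')

variable {N : ℕ}

/-! ### the crossings -/

lemma prod_up (v : ℂ) (c n : ℕ) :
    brf v c * ∏ t ∈ range n, br v ((c : ℤ) + 1 + t) = brf v (c + n) := by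
  induction n with
  | zero => simp
  | succ n ih =>
    rw [prod_range_succ, ← mul_assoc, ih]
    have h1 : c + (n + 1) = (c + n) + 1 := by ring
    rw [h1, brf_succ']
    congr 2
    push_cast
    ring

lemma stm_P {v : ℂ} (hv : Adm N v) (hc : (starRingEnd ℂ) v = v⁻¹) :
    stm v (crossP N v) = crossN N v := by
  ext p q
  unfold stm crossP crossN Om rv
  have l1 := p.1.2
  have l2 := p.2.2
  have l3 := q.1.2
  have l4 := q.2.2
  simp only [Fin.val_rev]
  by_cases hcd : (p.1 : ℕ) + p.2 = q.1 + q.2 ∧ (q.1 : ℕ) ≤ p.2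
  · have hcd' : (N - ((q.1 : ℕ) + 1)) + (N - ((q.2 : ℕ) + 1)) =
        (N - ((p.1 : ℕ) + 1)) + (N - ((p.2 : ℕ) + 1)) ∧ N - ((p.2 : ℕ) + 1) ≤ N - ((q.1 : ℕ) + 1) := by
      omega
    rw [if_pos hcd', if_pos hcd]
    obtain ⟨n, hn⟩ : ∃ n, (p.2 : ℕ) = q.1 + n := ⟨p.2 - q.1, by omega⟩
    have hn2 : (q.2 : ℕ) = p.1 + n := by omega
    have e1 : N - ((q.1 : ℕ) + 1) - (N - ((p.2 : ℕ) + 1)) = n := by omega
    have e2 : (p.2 : ℕ) - q.1 = n := by omega
    rw [e1, e2]
    have hP : brf v (p.1 : ℕ) * ∏ t ∈ range n, br v ((N : ℤ) - ((N - ((p.1 : ℕ) + 1) : ℕ) : ℤ) + t) =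
        brf v (q.2 : ℕ) := by
      rw [hn2, ← prod_up]
      congr 1
      refine prod_congr rfl fun t _ => ?_
      congr 1
      omega
    have hQ : brf v (N - 1 - (q.2 : ℕ)) * ∏ t ∈ range n, br v ((N : ℤ) - (q.2 : ℕ) + t) =
        brf v (N - 1 - (p.1 : ℕ)) := by
      have h1 : N - 1 - (p.1 : ℕ) = (N - 1 - (q.2 : ℕ)) + n := by omega
      rw [h1, ← prod_up]
      congr 1
      refine prod_congr rfl fun t _ => ?_
      congr 1
      omega
    have b1 : brf v p.1 ≠ 0 := brf_ne hv p.1.2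
    have b2 : brf v p.2 ≠ 0 := brf_ne hv p.2.2
    have b3 : brf v q.1 ≠ 0 := brf_ne hv q.1.2
    have b4 : brf v q.2 ≠ 0 := brf_ne hv q.2.2
    have b5 : brf v n ≠ 0 := brf_ne hv (by omega)
    have b6 : brf v (N - 1) ≠ 0 := brf_ne hv (by omega)
    have b7 : brf v (N - 1 - p.1) ≠ 0 := brf_ne hv (by omega)
    have b8 : brf v (N - 1 - q.1) ≠ 0 := brf_ne hv (by omega)
    have b9 : brf v (N - 1 - p.2) ≠ 0 := brf_ne hv (by omega)
    have b10 : brf v (N - 1 - q.2) ≠ 0 := brf_ne hv (by omega)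
    have c1 : N - ((q.1 : ℕ) + 1) = N - 1 - q.1 := by omega
    have c2 : N - ((p.2 : ℕ) + 1) = N - 1 - p.2 := by omega
    have g1 : (∏ t ∈ range n, br v ((N : ℤ) - ((N - ((p.1 : ℕ) + 1) : ℕ) : ℤ) + t)) =
        brf v (q.2 : ℕ) / brf v (p.1 : ℕ) := by rw [← hP]; field_simp
    have g2 : (∏ t ∈ range n, br v ((N : ℤ) - (q.2 : ℕ) + t)) =
        brf v (N - 1 - (p.1 : ℕ)) / brf v (N - 1 - (q.2 : ℕ)) := by rw [← hQ]; field_simp
    rw [g1, g2, c1, c2]
    simp only [map_mul, map_div₀, cj_zpow hc, cj_brf hc, cj_pow hc]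
    unfold rr
    have e6 : v ^ (-(-((N : ℤ) - 1) * (1 + ((N - ((p.1 : ℕ) + 1) : ℕ) : ℤ) + ((N - 1 - (p.2 : ℕ) : ℕ) : ℤ)) +
        2 * ((N - 1 - (q.1 : ℕ) : ℕ) : ℤ) * ((N - ((q.2 : ℕ) + 1) : ℕ) : ℤ))) =
        v ^ (((N : ℤ) - 1) * (1 + (q.1 : ℕ) + (q.2 : ℕ)) - 2 * (q.1 : ℕ) * (q.2 : ℕ)) := by
      congr 1
      have d1 : ((N - ((p.1 : ℕ) + 1) : ℕ) : ℤ) = (N : ℤ) - 1 - (p.1 : ℕ) := by omega
      have d2 : ((N - 1 - (p.2 : ℕ) : ℕ) : ℤ) = (N : ℤ) - 1 - (p.2 : ℕ) := by omega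
      have d3 : ((N - 1 - (q.1 : ℕ) : ℕ) : ℤ) = (N : ℤ) - 1 - (q.1 : ℕ) := by omega
      have d4 : ((N - ((q.2 : ℕ) + 1) : ℕ) : ℤ) = (N : ℤ) - 1 - (q.2 : ℕ) := by omega
      rw [d1, d2, d3, d4]
      have h3 : ((p.1 : ℕ) : ℤ) + (p.2 : ℕ) = (q.1 : ℕ) + (q.2 : ℕ) := by omega
      linear_combination (-((N : ℤ) - 1)) * h3
    rw [e6]
    have s1 : ((-1 : ℂ) ^ (N - 1 - (q.1 : ℕ))) = (-1) ^ (N - 1 - (p.2 : ℕ)) * (-1) ^ n := by
      rw [← pow_add]; congr 1; omega
    have s2 : ((-1 : ℂ) ^ (q.2 : ℕ)) = (-1) ^ (p.1 : ℕ) * (-1) ^ n := by rw [hn2, pow_add]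
    rw [s1, s2]
    have s3 : ((-1 : ℂ) ^ (p.1 : ℕ)) ≠ 0 := pow_ne_zero _ (by norm_num)
    have s4 : ((-1 : ℂ) ^ n) ≠ 0 := pow_ne_zero _ (by norm_num)
    have s5 : ((-1 : ℂ) ^ (N - 1 - (p.2 : ℕ))) ≠ 0 := pow_ne_zero _ (by norm_num)
    have s6 : v ^ (n * (n - 1) / 2) ≠ 0 := pow_ne_zero _ hv.1
    generalize v ^ (n * (n - 1) / 2) = X at *
    generalize v ^ (((N : ℤ) - 1) * (1 + (q.1 : ℕ) + (q.2 : ℕ)) - 2 * (q.1 : ℕ) * (q.2 : ℕ)) = Y
    generalize ((-1 : ℂ) ^ (p.1 : ℕ)) = S1 at *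
    generalize ((-1 : ℂ) ^ n) = S2 at *
    generalize ((-1 : ℂ) ^ (N - 1 - (p.2 : ℕ))) = S3 at *
    field_simp
  · have hcd' : ¬ ((N - ((q.1 : ℕ) + 1)) + (N - ((q.2 : ℕ) + 1)) =
        (N - ((p.1 : ℕ) + 1)) + (N - ((p.2 : ℕ) + 1)) ∧ N - ((p.2 : ℕ) + 1) ≤ N - ((q.1 : ℕ) + 1)) := by
      omega
    rw [if_neg hcd', if_neg hcd, map_zero, mul_zero]

lemma stm_N {v : ℂ} (hv : Adm N v) (hc : (starRingEnd ℂ) v = v⁻¹) :
    stm v (crossN N v) = crossP N v := by
  rw [← stm_P hv hc, stm_stm hv hc]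

lemma kap_rr (v : ℂ) (k : ℕ) :
    kap N v k = (-1) ^ k * v ^ ((k : ℤ) * ((N : ℤ) - 2 - k)) * rr N v k := rfl

lemma kap_cj {v : ℂ} (hv : Adm N v) (hc : (starRingEnd ℂ) v = v⁻¹) {k : ℕ} (hk : k < N) :
    kap N v k * (starRingEnd ℂ) (kap N v k) = rr N v k ^ 2 := by
  rw [kap_rr, map_mul, map_mul, cj_rr hc hk, cj_zpow hc, map_pow, map_neg, map_one, _root_.zpow_neg]
  have h1 : v ^ ((k : ℤ) * ((N : ℤ) - 2 - k)) ≠ 0 := zpow_ne_zero _ hv.1
  have h2 : ((-1 : ℂ) ^ k) * (-1) ^ k = 1 := by rw [← mul_pow]; norm_num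
  field_simp
  linear_combination rr N v k ^ 2 * h2

/-- the cap is the adjoint of the cup -/
lemma cap_cj {v : ℂ} (hv : Adm N v) (hc : (starRingEnd ℂ) v = v⁻¹) (p : I2 N) :
    capv N v p * Om v p = (starRingEnd ℂ) (cupv N v (rv p)) := by
  unfold capv cupv rv Om
  have l1 := p.1.2
  have l2 := p.2.2
  simp only [Fin.val_rev]
  by_cases h : (p.1 : ℕ) + p.2 = N - 1
  · rw [if_pos h, if_pos (by omega)]
    have h1 : N - ((p.1 : ℕ) + 1) = p.2 := by omega
    rw [h1]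
    have h2 := kap_cj hv hc (k := (p.2 : ℕ)) l2
    have h3 : rr N v (p.1 : ℕ) = rr N v (p.2 : ℕ) := by
      have h4 := rr_rev v p.2
      rw [← h4]
      congr 1
      rw [Fin.val_rev]; omega
    have h5 := kap_ne hv (k := (p.2 : ℕ)) l2
    rw [h3]
    field_simp
    linear_combination -h2
  · rw [if_neg h, if_neg (by omega), map_zero, zero_mul]

/-! ### the pairing -/

/-- the sesquilinear pairing of functions of `k` strands -/
noncomputable def pr (v : ℂ) : ℕ → LF N → LF N → ℂ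
  | 0, g, f => (starRingEnd ℂ) (g []) * f []
  | k + 1, g, f => ∑ a : Fin N, (rr N v a)⁻¹ * pr v k (fun t => g (a.rev :: t)) (fun t => f (a :: t))

lemma pr_sum_right (v : ℂ) {ι : Type} (S : Finset ι) (c : ι → ℂ) : ∀ (k : ℕ) (g : LF N)
    (f : ι → LF N), pr v k g (fun t => ∑ i ∈ S, c i * f i t) = ∑ i ∈ S, c i * pr v k g (f i)
  | 0, g, f => by
    simp only [pr, mul_sum]
    refine sum_congr rfl fun i _ => ?_
    ring
  | k + 1, g, f => by
    simp only [pr]
    have h : ∀ a : Fin N, pr v k (fun t => g (a.rev :: t)) (fun t => ∑ i ∈ S, c i * f i (a :: t)) =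
        ∑ i ∈ S, c i * pr v k (fun t => g (a.rev :: t)) (fun t => f i (a :: t)) :=
      fun a => pr_sum_right v S c k _ _
    simp only [h, mul_sum]
    rw [sum_comm]
    refine sum_congr rfl fun i _ => ?_
    refine sum_congr rfl fun a _ => ?_
    ring

lemma pr_sum_left (v : ℂ) {ι : Type} (S : Finset ι) (c : ι → ℂ) : ∀ (k : ℕ) (g : ι → LF N)
    (f : LF N), pr v k (fun t => ∑ i ∈ S, c i * g i t) f =
      ∑ i ∈ S, (starRingEnd ℂ) (c i) * pr v k (g i) f
  | 0, g, f => by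
    simp only [pr, map_sum, map_mul, sum_mul]
    refine sum_congr rfl fun i _ => ?_
    ring
  | k + 1, g, f => by
    simp only [pr]
    have h : ∀ a : Fin N, pr v k (fun t => ∑ i ∈ S, c i * g i (a.rev :: t)) (fun t => f (a :: t)) =
        ∑ i ∈ S, (starRingEnd ℂ) (c i) * pr v k (fun t => g i (a.rev :: t)) (fun t => f (a :: t)) :=
      fun a => pr_sum_left v S c k _ _
    simp only [h, mul_sum]
    rw [sum_comm]
    refine sum_congr rfl fun i _ => ?_
    refine sum_congr rfl fun a _ => ?_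
    ring

lemma pr_smul_right (v : ℂ) (k : ℕ) (g f : LF N) (c : ℂ) :
    pr v k g (fun t => c * f t) = c * pr v k g f := by
  have h := pr_sum_right v {()} (fun _ => c) k g (fun _ => f)
  simpa using h

lemma pr_smul_left (v : ℂ) (k : ℕ) (g f : LF N) (c : ℂ) :
    pr v k (fun t => c * g t) f = (starRingEnd ℂ) c * pr v k g f := by
  have h := pr_sum_left v {()} (fun _ => c) k (fun _ => g) f
  simpa using h

lemma pr_two (v : ℂ) (k : ℕ) (g f : LF N) : pr v (k + 2) g f =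
    ∑ q : I2 N, (Om v q)⁻¹ * pr v k (fun t => g (q.1.rev :: q.2.rev :: t))
      (fun t => f (q.1 :: q.2 :: t)) := by
  rw [Fintype.sum_prod_type]
  simp only [pr, mul_sum]
  refine sum_congr rfl fun a _ => ?_
  refine sum_congr rfl fun b _ => ?_
  unfold Om
  rw [mul_inv]
  ring

/-- adjoint operators -/
def Adj (v : ℂ) (n m : ℕ) (A A' : LF N →ₗ[ℂ] LF N) : Prop :=
  ∀ g f : LF N, pr v m g (A f) = pr v n (A' g) f

lemma Adj.id (v : ℂ) (n : ℕ) : Adj (N := N) v n n LinearMap.id LinearMap.id := fun _ _ => rfl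

lemma Adj.comp {v : ℂ} {n m k : ℕ} {A A' B B' : LF N →ₗ[ℂ] LF N} (hA : Adj v n m A A')
    (hB : Adj v m k B B') : Adj v n k (B ∘ₗ A) (A' ∘ₗ B') := by
  intro g f
  rw [LinearMap.comp_apply, LinearMap.comp_apply, hB, hA]

lemma Adj.sh {v : ℂ} {n m : ℕ} {A A' : LF N →ₗ[ℂ] LF N} (hA : Adj v n m A A') :
    Adj v (n + 1) (m + 1) (sh A) (sh A') := by
  intro g f
  simp only [pr]
  refine sum_congr rfl fun a _ => ?_
  congr 1
  exact hA _ _

lemma Adj_mat {v : ℂ} (hv : Adm N v) (hc : (starRingEnd ℂ) v = v⁻¹) (k : ℕ)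
    (X : Matrix (I2 N) (I2 N) ℂ) : Adj v (k + 2) (k + 2) (matL X) (matL (stm v X)) := by
  intro g f
  rw [pr_two, pr_two]
  have h1 : ∀ q : I2 N, pr v k (fun t => g (q.1.rev :: q.2.rev :: t)) (fun t => matL X f (q.1 :: q.2 :: t)) =
      ∑ r : I2 N, X q r * pr v k (fun t => g (q.1.rev :: q.2.rev :: t)) (fun t => f (r.1 :: r.2 :: t)) :=
    fun q => pr_sum_right v univ (fun r : I2 N => X q r) k _ (fun r t => f (r.1 :: r.2 :: t))
  have h2 : ∀ q : I2 N, pr v k (fun t => matL (stm v X) g (q.1.rev :: q.2.rev :: t))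
      (fun t => f (q.1 :: q.2 :: t)) = ∑ r : I2 N, (starRingEnd ℂ) (stm v X (rv q) r) *
        pr v k (fun t => g (r.1 :: r.2 :: t)) (fun t => f (q.1 :: q.2 :: t)) :=
    fun q => pr_sum_left v univ (fun r : I2 N => stm v X (rv q) r) k (fun r t => g (r.1 :: r.2 :: t)) _
  simp only [h1, h2, mul_sum]
  rw [sum_comm]
  refine sum_congr rfl fun q _ => ?_
  rw [← Equiv.sum_comp rvE]
  refine sum_congr rfl fun r _ => ?_
  change (Om v (rv r))⁻¹ * (X (rv r) q * pr v k (fun t => g (r.1.rev.rev :: r.2.rev.rev :: t)) _) = _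
  rw [Fin.rev_rev, Fin.rev_rev]
  simp only [stm, map_mul, map_div₀, cj_Om hc, Complex.conj_conj, rv_rv, Om_rv]
  have n1 := Om_ne hv r
  have n2 := Om_ne hv q
  field_simp

lemma Adj_cup {v : ℂ} (hv : Adm N v) (hc : (starRingEnd ℂ) v = v⁻¹) (k : ℕ) :
    Adj v k (k + 2) (cupL N v) (capL N v) := by
  intro g f
  rw [pr_two]
  have h1 : ∀ q : I2 N, pr v k (fun t => g (q.1.rev :: q.2.rev :: t)) (fun t => cupL N v f (q.1 :: q.2 :: t)) =
      cupv N v q * pr v k (fun t => g (q.1.rev :: q.2.rev :: t)) f :=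
    fun q => pr_smul_right v k _ f (cupv N v q)
  have h2 : pr v k (capL N v g) f = ∑ q : I2 N, (starRingEnd ℂ) (capv N v q) *
      pr v k (fun t => g (q.1 :: q.2 :: t)) f :=
    pr_sum_left v univ (fun q : I2 N => capv N v q) k (fun q t => g (q.1 :: q.2 :: t)) f
  rw [h2]
  simp only [h1]
  rw [← Equiv.sum_comp rvE]
  refine sum_congr rfl fun q _ => ?_
  change (Om v (rv q))⁻¹ * (cupv N v (rv q) * pr v k (fun t => g (q.1.rev.rev :: q.2.rev.rev :: t)) f) = _
  rw [Fin.rev_rev, Fin.rev_rev, Om_rv]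
  have n1 := Om_ne hv q
  have h3 := congrArg (starRingEnd ℂ) (cap_cj hv hc q)
  rw [map_mul, cj_Om hc, Complex.conj_conj] at h3
  rw [← h3]
  field_simp

lemma Adj_cap {v : ℂ} (hv : Adm N v) (hc : (starRingEnd ℂ) v = v⁻¹) (k : ℕ) :
    Adj v (k + 2) k (capL N v) (cupL N v) := by
  intro g f
  rw [pr_two]
  have h1 : ∀ q : I2 N, pr v k (fun t => cupL N v g (q.1.rev :: q.2.rev :: t)) (fun t => f (q.1 :: q.2 :: t)) =
      (starRingEnd ℂ) (cupv N v (rv q)) * pr v k g (fun t => f (q.1 :: q.2 :: t)) :=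
    fun q => pr_smul_left v k g _ (cupv N v (rv q))
  have h2 : pr v k g (capL N v f) = ∑ q : I2 N, capv N v q *
      pr v k g (fun t => f (q.1 :: q.2 :: t)) :=
    pr_sum_right v univ (fun q : I2 N => capv N v q) k g (fun q t => f (q.1 :: q.2 :: t))
  rw [h2]
  refine sum_congr rfl fun q _ => ?_
  rw [h1, ← cap_cj hv hc]
  have n1 := Om_ne hv q
  field_simp

lemma Adj_iter {v : ℂ} {n m : ℕ} {A A' : LF N →ₗ[ℂ] LF N} (hA : Adj v n m A A') (i : ℕ) :
    Adj v (n + i) (m + i) (sh^[i] A) (sh^[i] A') := by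
  induction i with
  | zero => exact hA
  | succ i ih => rw [Function.iterate_succ_apply', Function.iterate_succ_apply']; exact ih.sh

lemma Adj_op {v : ℂ} (hv : Adm N v) (hc : (starRingEnd ℂ) v = v⁻¹) (P : Pc) {n m : ℕ}
    (h : P.strands n = some m) : Adj v n m (P.op N v) (P.star.op N v) := by
  rcases P with i | i | ⟨i, σ⟩
  · simp only [Pc.strands] at h
    split_ifs at h with hi
    have h1 : n + 2 = m := Option.some.inj h
    have h2 := Adj_iter (Adj_cup hv hc (n - i)) i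
    have e1 : n - i + i = n := by omega
    have e2 : n - i + 2 + i = m := by omega
    rw [e1, e2] at h2
    exact h2
  · simp only [Pc.strands] at h
    split_ifs at h with hi
    have h1 : n - 2 = m := Option.some.inj h
    have h2 := Adj_iter (Adj_cap hv hc (n - 2 - i)) i
    have e1 : n - 2 - i + 2 + i = n := by omega
    have e2 : n - 2 - i + i = m := by omega
    rw [e1, e2] at h2
    exact h2
  · simp only [Pc.strands] at h
    split_ifs at h with hi
    have h1 : n = m := Option.some.inj h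
    have h2 := Adj_iter (Adj_mat hv hc (n - 2 - i) (if σ then crossP N v else crossN N v)) i
    have e1 : n - 2 - i + 2 + i = n := by omega
    rw [e1] at h2
    have h3 : stm v (if σ = true then crossP N v else crossN N v) =
        if (!σ) = true then crossP N v else crossN N v := by
      cases σ with
      | true => rw [if_pos rfl, if_neg (by simp)]; exact stm_P hv hc
      | false => rw [if_neg (by simp), if_pos (by simp)]; exact stm_N hv hc
    rw [h3] at h2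
    rw [← h1]
    exact h2

lemma Adj_run {v : ℂ} (hv : Adm N v) (hc : (starRingEnd ℂ) v = v⁻¹) (D : List Pc) :
    ∀ {n m : ℕ}, Is n m D → Adj v n m (runL N v D) (runL N v (ds D)) := by
  induction D with
  | nil =>
    intro n m h
    rw [Is_nil] at h
    subst h
    exact Adj.id v n
  | cons P D ih =>
    intro n m h
    rw [Is_cons] at h
    obtain ⟨k, h1, h2⟩ := h
    rw [runL_cons, ds_cons, runL_append]
    exact (Adj_op hv hc P h1).comp (ih h2)

/-- the matrix of the reflected diagram -/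
lemma MM_ds {v : ℂ} (hv : Adm N v) (hc : (starRingEnd ℂ) v = v⁻¹) {D : List Pc} (hD : Is 2 2 D) :
    MM N v (ds D) = stm v (MM N v D) := by
  ext p q
  have h1 := Adj_run hv hc D hD (dl q) (dl (rv p))
  have hL : pr v 2 (dl q) (runL N v D (dl (rv p))) = (Om v q)⁻¹ * MM N v D (rv q) (rv p) := by
    rw [pr_two v 0, sum_eq_single (rv q)]
    · simp only [pr]
      have h2 : dl q [(rv q).1.rev, (rv q).2.rev] = 1 := by
        unfold rv
        simp only [Fin.rev_rev]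
        rw [dl_pair, if_pos rfl]
      rw [h2, map_one, one_mul, Om_rv]
      rfl
    · intro r _ hr
      simp only [pr]
      have h2 : dl q [r.1.rev, r.2.rev] = 0 := by
        have := dl_pair q (rv r)
        rw [if_neg] at this
        · exact this
        · intro h; apply hr; rw [← h, rv_rv]
      rw [h2, map_zero, zero_mul, mul_zero]
    · intro h; exact absurd (mem_univ _) h
  have hR : pr v 2 (runL N v (ds D) (dl q)) (dl (rv p)) =
      (Om v p)⁻¹ * (starRingEnd ℂ) (MM N v (ds D) p q) := by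
    rw [pr_two v 0, sum_eq_single (rv p)]
    · simp only [pr]
      have h2 : dl (rv p) [(rv p).1, (rv p).2] = 1 := by
        rw [dl_pair, if_pos rfl]
      rw [h2, mul_one, Om_rv]
      unfold rv
      simp only [Fin.rev_rev]
      rfl
    · intro r _ hr
      simp only [pr]
      have h2 : dl (rv p) [r.1, r.2] = 0 := by
        rw [dl_pair, if_neg hr]
      rw [h2, mul_zero, mul_zero]
    · intro h; exact absurd (mem_univ _) h
  rw [hL, hR] at h1
  have n1 := Om_ne hv p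
  have n2 := Om_ne hv q
  simp only [stm]
  have h3 : (starRingEnd ℂ) (MM N v (ds D) p q) = Om v p / Om v q * MM N v D (rv q) (rv p) := by
    field_simp
    field_simp at h1
    linear_combination -h1
  have h4 := congrArg (starRingEnd ℂ) h3
  rw [Complex.conj_conj, map_mul, map_div₀, cj_Om hc, cj_Om hc] at h4
  exact h4

end Pool.Agent.Q191.RP
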