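import Pool.Agent.Q191.RP.Lop

/-!
# The commutant of `U_q(sl_2)` on two strands: a matrix is determined by one column
-/

set_option autoImplicit false

namespace Pool.Agent.Q191.RP

open Matrix Finset
open scoped Kronecker
open Pool.Agent.H550R3.Jones (WM IsMod IsInt Gen br brf tens irr W crossP crossN Adm)
open Pool.Agent.Q191.FT (lam lam_sub lam_neg Cas Cas_E Cas_F)
open Pool.Agent.H927R2.J.SanYB (brf_ne)
open Pool.Agent.W715.VC (brf_succ')

variable {N : ℕ}

/-- a column of a matrix -/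
def col (X : Matrix (I2 N) (I2 N) ℂ) (c d : ℕ) : I2 N → ℂ := fun p => ht (X p) c d

lemma col_mul (Y X : Matrix (I2 N) (I2 N) ℂ) (c d : ℕ) : col (Y * X) c d = Y *ᵥ col X c d := by
  funext p
  by_cases h : c < N ∧ d < N
  · have h1 : ∀ r, col X c d r = X r (⟨c, h.1⟩, ⟨d, h.2⟩) := fun r => ht_in _ h.1 h.2
    have h2 : col (Y * X) c d p = (Y * X) p (⟨c, h.1⟩, ⟨d, h.2⟩) := ht_in _ h.1 h.2
    rw [h2, Matrix.mul_apply, Matrix.mulVec, dotProduct]
    refine sum_congr rfl fun r _ => ?_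
    rw [h1]
  · have h1 : ∀ r, col X c d r = 0 := fun r => ht_out _ h
    have h2 : col (Y * X) c d p = 0 := ht_out _ h
    rw [h2, Matrix.mulVec, dotProduct]
    symm
    apply sum_eq_zero
    intro r _
    rw [h1, mul_zero]

lemma col_sub (Y X : Matrix (I2 N) (I2 N) ℂ) (c d : ℕ) : col (Y - X) c d = col Y c d - col X c d := by
  funext p
  exact ht_sub _ _ _ _

lemma col_smul (r : ℂ) (X : Matrix (I2 N) (I2 N) ℂ) (c d : ℕ) : col (r • X) c d = r • col X c d := by
  funext p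
  exact ht_smul _ _ _ _

lemma col_add (Y X : Matrix (I2 N) (I2 N) ℂ) (c d : ℕ) : col (Y + X) c d = col Y c d + col X c d := by
  funext p
  exact ht_add _ _ _ _

lemma col_E {v : ℂ} {X : Matrix (I2 N) (I2 N) ℂ} (h : X * (W v N).E = (W v N).E * X) {c d : ℕ}
    (hc : c < N) (hd : d < N) (p : I2 N) : ((W v N).E *ᵥ col X c d) p =
      (if 0 < c then br v ((N : ℤ) - c) * v ^ ((N : ℤ) - 1 - 2 * d) * col X (c - 1) d p else 0) +
        (if 0 < d then br v ((N : ℤ) - d) * col X c (d - 1) p else 0) := by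
  rw [← col_mul, ← h]
  change ht (X p ᵥ* (W v N).E) c d = _
  exact vec_W_E v _ hc hd

lemma col_F {v : ℂ} {X : Matrix (I2 N) (I2 N) ℂ} (h : X * (W v N).F = (W v N).F * X) {c d : ℕ}
    (hc : c < N) (hd : d < N) (p : I2 N) : ((W v N).F *ᵥ col X c d) p =
      br v ((c : ℤ) + 1) * col X (c + 1) d p +
        v ^ (-((N : ℤ) - 1 - 2 * c)) * (br v ((d : ℤ) + 1) * col X c (d + 1) p) := by
  rw [← col_mul, ← h]
  change ht (X p ᵥ* (W v N).F) c d = _
  exact vec_W_F v _ hc hd

lemma col_out (X : Matrix (I2 N) (I2 N) ℂ) {c d : ℕ} (h : ¬ (c < N ∧ d < N)) : col X c d = 0 := by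
  funext p
  exact ht_out _ h

/-- K1 -/
lemma InA_zero {v : ℂ} (hv : Adm N v) {X : Matrix (I2 N) (I2 N) ℂ} (hX : InA v X)
    (h0 : col X 0 (N - 1) = 0) : X = 0 := by
  have h1 : ∀ c, c < N → col X c (N - 1) = 0 := by
    intro c
    induction c with
    | zero => intro _; exact h0
    | succ c ih =>
      intro hc
      have ih' := ih (by omega)
      funext p
      have h2 := col_F hX.f (c := c) (d := N - 1) (by omega) (by omega) p
      rw [ih', mulVec_zero, col_out X (c := c) (d := N - 1 + 1) (by omega)] at h2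
      simp only [Pi.zero_apply, mul_zero, add_zero] at h2
      have h3 := hv.2 (c + 1) (by omega) hc
      push_cast at h3
      exact (mul_eq_zero.1 h2.symm).resolve_left h3
  have h2 : ∀ j, ∀ c, c < N → j < N → col X c (N - 1 - j) = 0 := by
    intro j
    induction j with
    | zero => intro c hc _; exact h1 c hc
    | succ j ih =>
      intro c hc hj
      funext p
      have h2 := col_E hX.e (c := c) (d := N - 1 - j) hc (by omega) p
      rw [ih c hc (by omega), mulVec_zero, if_pos (by omega : 0 < N - 1 - j)] at h2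
      have h3 : (if 0 < c then br v ((N : ℤ) - c) * v ^ ((N : ℤ) - 1 - 2 * ((N - 1 - j : ℕ) : ℤ)) *
          col X (c - 1) (N - 1 - j) p else 0) = 0 := by
        split_ifs with h
        · rw [ih (c - 1) (by omega) (by omega)]; simp
        · rfl
      rw [h3, zero_add] at h2
      have h4 := hv.2 (j + 1) (by omega) hj
      have h5 : (N : ℤ) - ((N - 1 - j : ℕ) : ℤ) = ((j + 1 : ℕ) : ℤ) := by omega
      rw [h5] at h2
      have h6 : N - 1 - (j + 1) = N - 1 - j - 1 := by omega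
      rw [h6]
      exact (mul_eq_zero.1 h2.symm).resolve_left h4
  ext p q
  have h3 := congrFun (h2 (N - 1 - q.2) q.1 q.1.2 (by have := q.2.2; omega)) p
  have h4 : N - 1 - (N - 1 - (q.2 : ℕ)) = q.2 := by have := q.2.2; omega
  rw [h4] at h3
  change ht (X p) q.1 q.2 = 0 at h3
  rw [ht_of] at h3
  exact h3

/-! ### closure properties -/

lemma InA.sub {v : ℂ} {X Y : Matrix (I2 N) (I2 N) ℂ} (hX : InA v X) (hY : InA v Y) :
    InA v (X - Y) := by
  refine ⟨?_, ?_, ?_⟩
  · rw [sub_mul, mul_sub, hX.e, hY.e]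
  · rw [sub_mul, mul_sub, hX.f, hY.f]
  · intro p q h
    by_contra h1
    apply h
    have h2 : X p q = 0 := by by_contra h2; exact h1 (hX.k _ _ h2)
    have h3 : Y p q = 0 := by by_contra h2; exact h1 (hY.k _ _ h2)
    rw [Matrix.sub_apply, h2, h3, sub_zero]

lemma InA.add {v : ℂ} {X Y : Matrix (I2 N) (I2 N) ℂ} (hX : InA v X) (hY : InA v Y) :
    InA v (X + Y) := by
  refine ⟨?_, ?_, ?_⟩
  · rw [add_mul, mul_add, hX.e, hY.e]
  · rw [add_mul, mul_add, hX.f, hY.f]
  · intro p q h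
    by_contra h1
    apply h
    have h2 : X p q = 0 := by by_contra h2; exact h1 (hX.k _ _ h2)
    have h3 : Y p q = 0 := by by_contra h2; exact h1 (hY.k _ _ h2)
    rw [Matrix.add_apply, h2, h3, add_zero]

lemma InA.smul {v : ℂ} {X : Matrix (I2 N) (I2 N) ℂ} (hX : InA v X) (r : ℂ) : InA v (r • X) := by
  refine ⟨?_, ?_, ?_⟩
  · rw [Matrix.smul_mul, Matrix.mul_smul, hX.e]
  · rw [Matrix.smul_mul, Matrix.mul_smul, hX.f]
  · intro p q h
    exact hX.k p q (right_ne_zero_of_mul (by simpa using h))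

lemma InA.mul {v : ℂ} {X Y : Matrix (I2 N) (I2 N) ℂ} (hX : InA v X) (hY : InA v Y) :
    InA v (X * Y) := by
  refine ⟨?_, ?_, ?_⟩
  · rw [mul_assoc, hY.e, ← mul_assoc, hX.e, mul_assoc]
  · rw [mul_assoc, hY.f, ← mul_assoc, hX.f, mul_assoc]
  · intro p q h
    rw [Matrix.mul_apply] at h
    obtain ⟨r, _, hr⟩ := exists_ne_zero_of_sum_ne_zero h
    rw [hX.k _ _ (left_ne_zero_of_mul hr), hY.k _ _ (right_ne_zero_of_mul hr)]

lemma InA.one (v : ℂ) : InA v (1 : Matrix (I2 N) (I2 N) ℂ) := by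
  refine ⟨by simp, by simp, ?_⟩
  intro p q h
  have : p = q := by
    by_contra h1
    exact h (Matrix.one_apply_ne h1)
  rw [this]

lemma InA.zero (v : ℂ) : InA v (0 : Matrix (I2 N) (I2 N) ℂ) :=
  ⟨by simp, by simp, fun p q h => absurd rfl h⟩

lemma InA.sum {v : ℂ} {ι : Type} (S : Finset ι) (X : ι → Matrix (I2 N) (I2 N) ℂ)
    (h : ∀ i ∈ S, InA v (X i)) : InA v (∑ i ∈ S, X i) := by
  classical
  induction S using Finset.induction_on with
  | empty => simpa using InA.zero v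
  | insert a S ha ih =>
    rw [sum_insert ha]
    exact (h a (mem_insert_self a S)).add (ih fun i hi => h i (mem_insert_of_mem hi))

/-- coordinates of a matrix in the commutant -/
def tv (X : Matrix (I2 N) (I2 N) ℂ) (k : ℕ) : ℂ := ht (col X 0 (N - 1)) k (N - 1 - k)

lemma tv_sub (X Y : Matrix (I2 N) (I2 N) ℂ) (k : ℕ) : tv (X - Y) k = tv X k - tv Y k := by
  unfold tv
  rw [col_sub, ht_sub]

lemma tv_add (X Y : Matrix (I2 N) (I2 N) ℂ) (k : ℕ) : tv (X + Y) k = tv X k + tv Y k := by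
  unfold tv
  rw [col_add, ht_add]

lemma tv_smul (r : ℂ) (X : Matrix (I2 N) (I2 N) ℂ) (k : ℕ) : tv (r • X) k = r * tv X k := by
  unfold tv
  rw [col_smul, ht_smul]

lemma tv_zero (k : ℕ) : tv (0 : Matrix (I2 N) (I2 N) ℂ) k = 0 := by
  have h := tv_smul (N := N) 0 0 k
  rwa [zero_smul, zero_mul] at h

lemma tv_sum {ι : Type} (S : Finset ι) (X : ι → Matrix (I2 N) (I2 N) ℂ) (k : ℕ) :
    tv (∑ i ∈ S, X i) k = ∑ i ∈ S, tv (X i) k := by
  classical
  induction S using Finset.induction_on with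
  | empty => simpa using tv_zero k
  | insert a S ha ih => rw [sum_insert ha, sum_insert ha, tv_add, ih]

/-- the column is supported on the weight zero part -/
lemma col_wt {v : ℂ} {X : Matrix (I2 N) (I2 N) ℂ} (hX : InA v X) {a b : ℕ} (ha : a < N) (hb : b < N)
    (h : a + b ≠ N - 1) : ht (col X 0 (N - 1)) a b = 0 := by
  rw [ht_in _ ha hb]
  change ht (X _) 0 (N - 1) = 0
  rw [ht_in _ (by omega) (by omega)]
  by_contra h1
  have := hX.k _ _ h1
  simp only [] at this
  omega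

lemma ht_tv {X : Matrix (I2 N) (I2 N) ℂ} {a b : ℕ} (h : a + b = N - 1) :
    ht (col X 0 (N - 1)) a b = tv X a := by
  unfold tv
  congr 1
  omega

lemma InA_ext {v : ℂ} (hv : Adm N v) {X Y : Matrix (I2 N) (I2 N) ℂ} (hX : InA v X) (hY : InA v Y)
    (h : ∀ k, k < N → tv X k = tv Y k) : X = Y := by
  rw [← sub_eq_zero]
  apply InA_zero hv (hX.sub hY)
  apply ht_ext
  intro a b ha hb
  rw [ht_zero, col_sub, ht_sub]
  by_cases h1 : a + b = N - 1
  · rw [ht_tv h1, ht_tv h1, h a ha, sub_self]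
  · rw [col_wt hX ha hb h1, col_wt hY ha hb h1, sub_self]

/-! ### the Casimir operator -/

/-- the Casimir operator on two strands -/
noncomputable def xx (N : ℕ) (v : ℂ) : Matrix (I2 N) (I2 N) ℂ := Cas v (W v N)

lemma W_mod {v : ℂ} (hv : v ≠ 0) : IsMod v (W v N) := by
  have h := Pool.Agent.H345J.taskMod v hv
  exact h.2 _ _ _ _ (h.1 N) (h.1 N)

lemma InA_xx {v : ℂ} (hv : v ≠ 0) : InA v (xx N v) := by
  refine ⟨Cas_E hv (W_mod hv), Cas_F hv (W_mod hv), ?_⟩
  intro p q h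
  have hw : (W v N).wt p = (W v N).wt q := by
    unfold xx Cas at h
    rw [Matrix.add_apply, Matrix.mul_apply, diagonal_apply] at h
    by_contra h1
    have h2 : p ≠ q := fun h3 => h1 (by rw [h3])
    rw [if_neg h2, add_zero] at h
    obtain ⟨r, _, hr⟩ := exists_ne_zero_of_sum_ne_zero h
    have h4 := (W_mod hv).hF _ _ (left_ne_zero_of_mul hr)
    have h5 := (W_mod hv).hE _ _ (right_ne_zero_of_mul hr)
    omega
  rw [W_wt, W_wt] at hw
  omega

/-- `E` applied to a column of weight zero -/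
noncomputable def yv (N : ℕ) (v : ℂ) (t : ℕ → ℂ) (a : ℕ) : ℂ :=
  br v ((N : ℤ) - 1 - a) * v ^ (2 * (a : ℤ) + 3 - N) * t (a + 1) + br v ((a : ℤ) + 1) * t a

lemma E_col {v : ℂ} {X : Matrix (I2 N) (I2 N) ℂ} {a b : ℕ}
    (h : a + b + 1 = N - 1) : ht ((W v N).E *ᵥ col X 0 (N - 1)) a b = yv N v (tv X) a := by
  rw [W_E_vec v _ (by omega) (by omega), ht_tv (by omega), ht_tv (by omega)]
  unfold yv
  have h1 : (N : ℤ) - a - 1 = (N : ℤ) - 1 - a := by ring
  have h2 : (N : ℤ) - 1 - 2 * b = 2 * (a : ℤ) + 3 - N := by omega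
  have h3 : (N : ℤ) - b - 1 = (a : ℤ) + 1 := by omega
  rw [h1, h2, h3]

/-- K4, the action of the Casimir operator on coordinates -/
lemma tv_xx {v : ℂ} {X : Matrix (I2 N) (I2 N) ℂ} {k : ℕ} (hk : k < N) :
    tv (xx N v * X) k = br v k * yv N v (tv X) (k - 1) +
      v ^ (2 * (k : ℤ) + 1 - N) * br v ((N : ℤ) - 1 - k) * yv N v (tv X) k + lam v 1 * tv X k := by
  unfold tv
  rw [col_mul]
  unfold xx Cas
  rw [add_mulVec, ht_add, ← mulVec_mulVec, W_F_vec v _ hk (by omega)]
  congr 1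
  · congr 1
    · rcases Nat.eq_zero_or_pos k with h0 | h0
      · rw [h0]; push_cast; rw [br_zero', zero_mul, zero_mul]
      · rw [E_col (by omega)]
        rfl
    · have h1 : -((N : ℤ) - 1 - 2 * k) = 2 * (k : ℤ) + 1 - N := by ring
      have h2 : ((N - 1 - k : ℕ) : ℤ) = (N : ℤ) - 1 - k := by omega
      rw [h1, h2, mul_assoc]
      congr 1
      by_cases h3 : k = N - 1
      · have h4 : (N : ℤ) - 1 - k = 0 := by omega
        rw [h4, br_zero', zero_mul, zero_mul]
      · rw [E_col (by omega)]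
        rfl
  · rw [ht_in _ hk (by omega), ht_in _ hk (by omega), mulVec_diagonal, W_wt]
    congr 2
    simp only []
    omega

end Pool.Agent.Q191.RP
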