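import Pool.Agent.W715.VC.Cross
import Pool.Agent.Q191.FT.Cas

/-!
# Two strands: coordinates, cup and cap
-/

set_option autoImplicit false

namespace Pool.Agent.Q191.RP

open Matrix Finset
open scoped Kronecker
open Pool.Agent.H550R3.Jones (WM IsMod IsInt Gen br brf tens irr W crossP crossN Adm)
open Pool.Agent.Q191.FT (lam lam_sub lam_neg Cas Cas_E Cas_F)

variable {N : ℕ}

/-- pairs of states -/
abbrev I2 (N : ℕ) := Fin N × Fin N

/-- coordinates, zero outside of the range -/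
def ht (z : I2 N → ℂ) (a b : ℕ) : ℂ := if h : a < N ∧ b < N then z (⟨a, h.1⟩, ⟨b, h.2⟩) else 0

lemma ht_of (z : I2 N → ℂ) (p : I2 N) : ht z p.1 p.2 = z p := by
  unfold ht
  rw [dif_pos ⟨p.1.2, p.2.2⟩]

lemma ht_in (z : I2 N → ℂ) {a b : ℕ} (ha : a < N) (hb : b < N) : ht z a b = z (⟨a, ha⟩, ⟨b, hb⟩) := by
  unfold ht
  rw [dif_pos ⟨ha, hb⟩]

lemma ht_out (z : I2 N → ℂ) {a b : ℕ} (h : ¬ (a < N ∧ b < N)) : ht z a b = 0 := by
  unfold ht
  rw [dif_neg h]

lemma ht_ext {x y : I2 N → ℂ} (h : ∀ a b, a < N → b < N → ht x a b = ht y a b) : x = y := by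
  funext p
  rw [← ht_of x, ← ht_of y]
  exact h _ _ p.1.2 p.2.2

lemma ht_add (x y : I2 N → ℂ) (a b : ℕ) : ht (x + y) a b = ht x a b + ht y a b := by
  unfold ht; split_ifs <;> simp

lemma ht_sub (x y : I2 N → ℂ) (a b : ℕ) : ht (x - y) a b = ht x a b - ht y a b := by
  unfold ht; split_ifs <;> simp

lemma ht_smul (r : ℂ) (x : I2 N → ℂ) (a b : ℕ) : ht (r • x) a b = r * ht x a b := by
  unfold ht; split_ifs <;> simp

lemma ht_zero (a b : ℕ) : ht (0 : I2 N → ℂ) a b = 0 := by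
  unfold ht; split_ifs <;> rfl

lemma br_zero' (v : ℂ) : br v 0 = 0 := by simp [br]

lemma sum_E (v : ℂ) (a : Fin N) (g : Fin N → ℂ) : ∑ q, (irr v N).E a q * g q =
    br v ((N : ℤ) - (a : ℕ) - 1) * (if h : (a : ℕ) + 1 < N then g ⟨a + 1, h⟩ else 0) := by
  split_ifs with h
  · rw [sum_eq_single (⟨a + 1, h⟩ : Fin N)]
    · simp only [irr, if_true]
      congr 2
      push_cast
      ring
    · intro q _ hq
      have : ¬ (q : ℕ) = a + 1 := fun h' => hq (Fin.ext h')
      simp [irr, this]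
    · intro h'; exact absurd (mem_univ _) h'
  · rw [mul_zero]
    apply sum_eq_zero
    intro q _
    have : ¬ (q : ℕ) = a + 1 := by have := q.2; omega
    simp [irr, this]

lemma sum_F (v : ℂ) (a : Fin N) (g : Fin N → ℂ) : ∑ q, (irr v N).F a q * g q =
    br v (a : ℕ) * g ⟨a - 1, by have := a.2; omega⟩ := by
  by_cases h : 0 < (a : ℕ)
  · rw [sum_eq_single (⟨a - 1, by have := a.2; omega⟩ : Fin N)]
    · have : (a : ℕ) = a - 1 + 1 := by omega
      simp [irr, ← this]
    · intro q _ hq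
      have : ¬ (a : ℕ) = q + 1 := fun h' => hq (Fin.ext (by simp only []; omega))
      simp [irr, this]
    · intro h'; exact absurd (mem_univ _) h'
  · have h0 : (a : ℕ) = 0 := by omega
    have h1 : br v ((a : ℕ) : ℤ) = 0 := by rw [h0]; exact br_zero' v
    rw [h1, zero_mul]
    apply sum_eq_zero
    intro q _
    have : ¬ (a : ℕ) = q + 1 := by omega
    simp [irr, this]

/-- the matrix of `E` on two strands -/
lemma W_E_apply (v : ℂ) (a b : Fin N) (q : I2 N) : (W v N).E (a, b) q =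
    (irr v N).E a q.1 * (if b = q.2 then v ^ ((N : ℤ) - 1 - 2 * (b : ℕ)) else 0) +
      (if a = q.1 then 1 else 0) * (irr v N).E b q.2 := by
  simp only [W, tens, Matrix.add_apply, kroneckerMap_apply, WM.K, diagonal_apply, one_mul,
    Matrix.one_apply]
  rfl

lemma W_F_apply (v : ℂ) (a b : Fin N) (q : I2 N) : (W v N).F (a, b) q =
    (irr v N).F a q.1 * (if b = q.2 then 1 else 0) +
      (if a = q.1 then v ^ (-((N : ℤ) - 1 - 2 * (a : ℕ))) else 0) * (irr v N).F b q.2 := by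
  simp only [W, tens, Matrix.add_apply, kroneckerMap_apply, WM.K, diagonal_apply,
    Matrix.one_apply]
  congr 2
  split_ifs
  · congr 1
    simp only [irr]
    ring
  · rfl

lemma W_wt (v : ℂ) (p : I2 N) : (W v N).wt p = 2 * ((N : ℤ) - 1 - (p.1 : ℕ) - (p.2 : ℕ)) := by
  simp only [W, tens, irr]
  ring

lemma W_E_vec (v : ℂ) (z : I2 N → ℂ) {a b : ℕ} (ha : a < N) (hb : b < N) :
    ht ((W v N).E *ᵥ z) a b =
      br v ((N : ℤ) - a - 1) * v ^ ((N : ℤ) - 1 - 2 * b) * ht z (a + 1) b +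
        br v ((N : ℤ) - b - 1) * ht z a (b + 1) := by
  rw [ht_in _ ha hb]
  change ∑ q : I2 N, (W v N).E (⟨a, ha⟩, ⟨b, hb⟩) q * z q = _
  simp only [W_E_apply, Fintype.sum_prod_type, add_mul, sum_add_distrib]
  congr 1
  · have h1 : ∀ x : Fin N, ∑ y : Fin N, (irr v N).E ⟨a, ha⟩ x *
        (if (⟨b, hb⟩ : Fin N) = y then v ^ ((N : ℤ) - 1 - 2 * (b : ℕ)) else 0) * z (x, y) =
        (irr v N).E ⟨a, ha⟩ x * (v ^ ((N : ℤ) - 1 - 2 * (b : ℕ)) * z (x, ⟨b, hb⟩)) := by
      intro x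
      rw [sum_eq_single (⟨b, hb⟩ : Fin N)]
      · rw [if_pos rfl]; ring
      · intro y _ hy
        rw [if_neg (fun h => hy h.symm)]; ring
      · intro h; exact absurd (mem_univ _) h
    rw [sum_congr rfl fun x _ => h1 x, sum_E]
    by_cases h : a + 1 < N
    · rw [dif_pos h, ht_in _ h hb]; simp only []; ring
    · rw [dif_neg h, ht_out _ (by omega)]; ring
  · rw [sum_eq_single (⟨a, ha⟩ : Fin N)]
    · simp only [if_true, one_mul]
      rw [sum_E]
      by_cases h : b + 1 < N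
      · rw [dif_pos h, ht_in _ ha h]
      · rw [dif_neg h, ht_out _ (by omega)]
    · intro x _ hx
      apply sum_eq_zero
      intro y _
      rw [if_neg (fun h => hx h.symm)]; ring
    · intro h; exact absurd (mem_univ _) h

lemma W_F_vec (v : ℂ) (z : I2 N → ℂ) {a b : ℕ} (ha : a < N) (hb : b < N) :
    ht ((W v N).F *ᵥ z) a b =
      br v a * ht z (a - 1) b + v ^ (-((N : ℤ) - 1 - 2 * a)) * (br v b * ht z a (b - 1)) := by
  rw [ht_in _ ha hb]
  change ∑ q : I2 N, (W v N).F (⟨a, ha⟩, ⟨b, hb⟩) q * z q = _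
  simp only [W_F_apply, Fintype.sum_prod_type, add_mul, sum_add_distrib]
  congr 1
  · have h1 : ∀ x : Fin N, ∑ y : Fin N, (irr v N).F ⟨a, ha⟩ x *
        (if (⟨b, hb⟩ : Fin N) = y then (1 : ℂ) else 0) * z (x, y) =
        (irr v N).F ⟨a, ha⟩ x * z (x, ⟨b, hb⟩) := by
      intro x
      rw [sum_eq_single (⟨b, hb⟩ : Fin N)]
      · rw [if_pos rfl]; ring
      · intro y _ hy
        rw [if_neg (fun h => hy h.symm)]; ring
      · intro h; exact absurd (mem_univ _) h
    rw [sum_congr rfl fun x _ => h1 x, sum_F, ht_in _ (by omega) hb]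
  · rw [sum_eq_single (⟨a, ha⟩ : Fin N)]
    · simp only [if_true]
      have h2 := sum_F v ⟨b, hb⟩ (fun y => z (⟨a, ha⟩, y))
      simp only [] at h2
      rw [ht_in _ ha (by omega), ← h2, mul_sum]
      refine sum_congr rfl fun y _ => ?_
      ring
    · intro x _ hx
      apply sum_eq_zero
      intro y _
      rw [if_neg (fun h => hx h.symm)]; ring
    · intro h; exact absurd (mem_univ _) h

end Pool.Agent.Q191.RP
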