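import Pool.Agent.Q191.RP.Clo

/-!
# Chains of tangles
-/

set_option autoImplicit false

namespace Pool.Agent.Q191.RP

open Matrix Finset
open scoped Kronecker
open Pool.Agent.H550R3.Jones (WM IsMod IsInt Gen br brf tens irr W crossP crossN Adm)
open Pool.Agent.H927R2.J.SanYB (brf_ne)
open Pool.Agent.W715.VC (brf_succ')

variable {N : ℕ}

/-- logarithmic convexity -/
lemma nq_logconv {v : ℂ} (hv : Good N v) (hN : 2 ≤ N) {R Y : Matrix (I2 N) (I2 N) ℂ}
    (hR : InA v R) (hY : InA v Y) :
    nq v (stm v R * rho v Y) ^ 2 ≤ nq v Y * nq v (R * rho v (stm v R * rho v Y)) := by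
  have hA := hv.adm
  have hc := hv.cj
  set X := stm v R * rho v Y with hX
  have hrY := InA_rho hA hY
  have hsR := InA_stm hA hc hR
  have hXA : InA v X := hsR.mul hrY
  have hrX := InA_rho hA hXA
  have h1 : hf v (rho v (rho v Y)) (R * rho v X) = (nq v X : ℝ) := by
    rw [← hf_eq hv hN (InA_rho hA hrY) (hR.mul hrX), stm_rho hA hc]
    have h2 : BB v (by omega) (rhi v (stm v (rho v Y))) (R * rho v X) =
        BB v (by omega) X (R * stm v (rho v Y)) := by
      unfold BB
      rw [rho_rhi hA, mul_assoc, mul_assoc, InA_comm hA hrX (InA_stm hA hc hrY)]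
    have h3 : R * stm v (rho v Y) = stm v X := by
      rw [hX, stm_mul hA, stm_stm hA hc, InA_comm hA hR (InA_stm hA hc hrY)]
    rw [h2, h3, BB_symm hA hN hXA (InA_stm hA hc hXA), hf_eq hv hN hXA hXA, hf_self]
  have h4 := hf_cs hv (rho v (rho v Y)) (R * rho v X)
  rw [h1, nq_rho hv hN hrY, nq_rho hv hN hY, Complex.norm_real,
    Real.norm_of_nonneg (nq_nonneg hv X)] at h4
  exact h4

/-- one step -/
def step (R Y : List Pc) : List Pc := rot Y ++ R

lemma Is_step {R Y : List Pc} (hR : Is 2 2 R) (hY : Is 2 2 Y) : Is 2 2 (step R Y) :=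
  Is_append (Is_rot hY) hR

lemma MM_step (v : ℂ) {R Y : List Pc} (hR : Is 2 2 R) (hY : Is 2 2 Y) :
    MM N v (step R Y) = MM N v R * rho v (MM N v Y) := by
  unfold step
  rw [MM_append v (Is_rot hY) hR, MM_rot v hY]

lemma ds_ds (D : List Pc) : ds (ds D) = D := by
  unfold ds
  rw [List.map_reverse, List.reverse_reverse, List.map_map]
  have h : Pc.star ∘ Pc.star = id := by
    funext P
    rcases P with i | i | ⟨i, σ⟩
    · rfl
    · rfl
    · simp [Pc.star]
  rw [h, List.map_id]

/-- logarithmic convexity for diagrams -/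
lemma nq_step {v : ℂ} (hv : Good N v) (hN : 2 ≤ N) {R Y : List Pc} (hR : Is 2 2 R)
    (hY : Is 2 2 Y) : nq v (MM N v (step (ds R) Y)) ^ 2 ≤
      nq v (MM N v Y) * nq v (MM N v (step R (step (ds R) Y))) := by
  rw [MM_step v hR (Is_step (Is_ds hR) hY), MM_step v (Is_ds hR) hY, MM_ds hv.adm hv.cj hR]
  exact nq_logconv hv hN (InA_MM hv.adm hR) (InA_MM hv.adm hY)

/-- the chain of a tangle -/
def chain (R Y : List Pc) : ℕ → List Pc
  | 0 => Y
  | n + 1 => step (if n % 2 = 0 then ds R else R) (chain R Y n)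

lemma Is_chain {R Y : List Pc} (hR : Is 2 2 R) (hY : Is 2 2 Y) : ∀ n, Is 2 2 (chain R Y n)
  | 0 => hY
  | n + 1 => by
    unfold chain
    split_ifs
    · exact Is_step (Is_ds hR) (Is_chain hR hY n)
    · exact Is_step hR (Is_chain hR hY n)

/-- the norms of the tangles of a chain -/
noncomputable def mm (N : ℕ) (v : ℂ) (R Y : List Pc) (n : ℕ) : ℝ := nq v (MM N v (chain R Y n))

lemma mm_logconv {v : ℂ} (hv : Good N v) (hN : 2 ≤ N) {R Y : List Pc} (hR : Is 2 2 R)
    (hY : Is 2 2 Y) (n : ℕ) : mm N v R Y (n + 1) ^ 2 ≤ mm N v R Y n * mm N v R Y (n + 2) := by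
  unfold mm
  rcases Nat.mod_two_eq_zero_or_one n with h | h
  · have h1 : (n + 1) % 2 ≠ 0 := by omega
    have e1 : chain R Y (n + 2) = step R (step (ds R) (chain R Y n)) := by
      change step (if (n + 1) % 2 = 0 then ds R else R) (step (if n % 2 = 0 then ds R else R)
        (chain R Y n)) = _
      rw [if_neg h1, if_pos h]
    have e2 : chain R Y (n + 1) = step (ds R) (chain R Y n) := by
      change step (if n % 2 = 0 then ds R else R) (chain R Y n) = _
      rw [if_pos h]
    rw [e1, e2]
    exact nq_step hv hN hR (Is_chain hR hY n)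
  · have h1 : (n + 1) % 2 = 0 := by omega
    have h2 : ¬ n % 2 = 0 := by omega
    have e1 : chain R Y (n + 2) = step (ds R) (step R (chain R Y n)) := by
      change step (if (n + 1) % 2 = 0 then ds R else R) (step (if n % 2 = 0 then ds R else R)
        (chain R Y n)) = _
      rw [if_pos h1, if_neg h2]
    have e2 : chain R Y (n + 1) = step R (chain R Y n) := by
      change step (if n % 2 = 0 then ds R else R) (chain R Y n) = _
      rw [if_neg h2]
    rw [e1, e2]
    have h3 := nq_step hv hN (Is_ds hR) (Is_chain hR hY n)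
    rw [ds_ds] at h3
    exact h3

/-- the consequence of logarithmic convexity -/
lemma logconv_pow {m : ℕ → ℝ} (h0 : 0 < m 0) (hm : ∀ n, 0 ≤ m n)
    (h : ∀ n, m (n + 1) ^ 2 ≤ m n * m (n + 2)) : ∀ n, m 1 ^ (n + 1) ≤ m (n + 1) * m 0 ^ n := by
  -- either `m 1 = 0`, or all `m n` are positive
  intro n
  rcases (hm 1).eq_or_lt with h1 | h1
  · rw [← h1, zero_pow (by omega)]
    exact mul_nonneg (hm _) (pow_nonneg h0.le _)
  · have hpos : ∀ n, 0 < m n ∧ 0 < m (n + 1) := by
      intro n
      induction n with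
      | zero => exact ⟨h0, h1⟩
      | succ n ih =>
        refine ⟨ih.2, ?_⟩
        have h2 := h n
        by_contra h3
        have h4 : m (n + 2) = 0 := le_antisymm (not_lt.1 h3) (hm _)
        rw [h4, mul_zero] at h2
        have := ih.2
        nlinarith [sq_nonneg (m (n + 1)), sq_pos_of_pos this]
    have hr : ∀ n, m 1 * m n ≤ m 0 * m (n + 1) := by
      intro n
      induction n with
      | zero => rw [mul_comm]
      | succ n ih =>
        have h2 := h n
        obtain ⟨p0, p1⟩ := hpos n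
        have h3 : m 1 * m n * m (n + 1) ≤ m 0 * (m n * m (n + 2)) := by
          calc m 1 * m n * m (n + 1) ≤ m 0 * m (n + 1) * m (n + 1) :=
                mul_le_mul_of_nonneg_right ih p1.le
            _ = m 0 * m (n + 1) ^ 2 := by ring
            _ ≤ m 0 * (m n * m (n + 2)) := mul_le_mul_of_nonneg_left h2 h0.le
        have h4 : m n * (m 1 * m (n + 1)) ≤ m n * (m 0 * m (n + 2)) := by
          calc m n * (m 1 * m (n + 1)) = m 1 * m n * m (n + 1) := by ring
            _ ≤ m 0 * (m n * m (n + 2)) := h3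
            _ = m n * (m 0 * m (n + 2)) := by ring
        exact le_of_mul_le_mul_left h4 p0
    induction n with
    | zero => simp
    | succ n ih =>
      have h2 := hr (n + 1)
      calc m 1 ^ (n + 1 + 1) = m 1 * m 1 ^ (n + 1) := by ring
        _ ≤ m 1 * (m (n + 1) * m 0 ^ n) := mul_le_mul_of_nonneg_left ih h1.le
        _ = (m 1 * m (n + 1)) * m 0 ^ n := by ring
        _ ≤ (m 0 * m (n + 2)) * m 0 ^ n := mul_le_mul_of_nonneg_right h2 (pow_nonneg h0.le _)
        _ = m (n + 1 + 1) * m 0 ^ (n + 1) := by ring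

/-- the norm of the rotated identity -/
lemma rho_rho_one {v : ℂ} (hv : Adm N v) : rho v (rho v (1 : Matrix (I2 N) (I2 N) ℂ)) = 1 := by
  ext p q
  simp only [rho, Matrix.one_apply]
  by_cases h : p = q
  · subst h
    rw [if_pos rfl, if_pos (by simp)]
    have h1 := kap_ne hv p.1.2
    have h2 := kap_ne hv p.2.2
    field_simp
  · rw [if_neg h, if_neg, mul_zero, mul_zero]
    intro h1
    apply h
    rw [Prod.mk.injEq] at h1
    obtain ⟨h2, h3⟩ := h1
    have h4 : q.2 = p.2 := by
      have := congrArg Fin.rev h2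
      simpa using this
    have h5 : q.1 = p.1 := by
      have := congrArg Fin.rev h3
      simpa using this
    exact Prod.ext h5.symm h4.symm

end Pool.Agent.Q191.RP
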