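import Pool.Agent.Q191.RP.Grw

/-!
# Closures of tangles at roots of unity, rational modifications of tangles
-/

set_option autoImplicit false

namespace Pool.Agent.Q191.RP

open Matrix Finset
open scoped Kronecker
open Pool.Agent.H550R3.Jones (WM IsMod IsInt Gen br brf tens irr W crossP crossN Adm)
open Pool.Agent.H927R2.J.SanYB (brf_ne)
open Pool.Agent.W715.VC (brf_succ')

variable {N : ℕ}

/-! ### the closure on the right -/

lemma kap_root {v : ℂ} (hv : Kr N v) {k : ℕ} (hk : k < N) :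
    kap N v k = v ^ (-((k : ℤ) * (k + 2))) := by
  have h0 := hv.adm.1
  induction k with
  | zero => rw [kap_zero hv.adm hk]; simp
  | succ k ih =>
    have ih' := ih (by omega)
    have h1 := kap_succ hv.adm hk
    have hb : br v ((k : ℤ) + 1) ≠ 0 := by
      have := hv.adm.2 (k + 1) (by omega) hk
      push_cast at this
      exact this
    have h2 : v ^ (2 * (N : ℤ)) = v ^ (N : ℤ) * v ^ (N : ℤ) := by
      rw [← zpow_add₀ h0]; congr 1; ring
    have hN1 := hv.vN
    rw [h2] at hN1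
    have p1 : v ^ (N : ℤ) ≠ 0 := zpow_ne_zero _ h0
    have h3 : br v ((N : ℤ) - 1 - k) = -(v ^ (N : ℤ) * br v ((k : ℤ) + 1)) := by
      unfold br
      have g1 : (N : ℤ) - 1 - k = N + -((k : ℤ) + 1) := by ring
      have g2 : -((N : ℤ) - 1 - k) = -(N : ℤ) + ((k : ℤ) + 1) := by ring
      rw [g2, g1, zpow_add₀ h0, zpow_add₀ h0 (-(N : ℤ)), _root_.zpow_neg v (N : ℤ)]
      have h4 : (v ^ (N : ℤ))⁻¹ = v ^ (N : ℤ) := by
        rw [inv_eq_iff_eq_inv, eq_comm, inv_eq_iff_eq_inv]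
        exact (eq_inv_of_mul_eq_one_left hN1)
      rw [h4]
      ring
    have h5 : v ^ ((N : ℤ) - 3 - 2 * k) = v ^ (N : ℤ) * v ^ (-(2 * (k : ℤ) + 3)) := by
      rw [← zpow_add₀ h0]; congr 1; ring
    rw [h3, h5, ih'] at h1
    have h6 : v ^ (-(((k + 1 : ℕ) : ℤ) * (((k + 1 : ℕ) : ℤ) + 2))) =
        v ^ (-((k : ℤ) * (k + 2))) * v ^ (-(2 * (k : ℤ) + 3)) := by
      rw [← zpow_add₀ h0]; congr 1; push_cast; ring
    rw [h6]
    have h7 : (v ^ (N : ℤ) * br v ((k : ℤ) + 1)) * kap N v (k + 1) =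
        (v ^ (N : ℤ) * br v ((k : ℤ) + 1)) * (v ^ (-((k : ℤ) * (k + 2))) * v ^ (-(2 * (k : ℤ) + 3))) := by
      linear_combination -h1
    exact mul_left_cancel₀ (mul_ne_zero p1 hb) h7

/-- the scalar -/
noncomputable def uu (N : ℕ) (v : ℂ) : ℂ :=
  v ^ (((N : ℤ) - 1) * ((N : ℤ) - 1)) / (brf v (N - 1) ^ 2 * kap N v (N - 1))

lemma rhi_one {v : ℂ} (hv : Kr N v) (hN : 0 < N) :
    rhi v (1 : Matrix (I2 N) (I2 N) ℂ) = uu N v • PP N v (N - 1) := by
  have h0 := hv.adm.1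
  apply InA_ext hv.adm (InA_rhi hv.adm (InA.one v)) ((InA_PP h0 _).smul _)
  intro k hk
  rw [tv_smul, tv_PP hv.adm hN (N - 1) (by omega) k hk, cjk_M hv.adm hk]
  have hb : brf v (N - 1) ≠ 0 := brf_ne hv.adm (by omega)
  have hkM := kap_ne hv.adm (k := N - 1) (by omega)
  have h1 : tv (rhi v (1 : Matrix (I2 N) (I2 N) ℂ)) k = kap N v k / kap N v (N - 1) := by
    rw [tv_eq (k := k) (rhi v (1 : Matrix (I2 N) (I2 N) ℂ)) (⟨k, hk⟩, ⟨N - 1 - k, by omega⟩)
      (⟨0, hN⟩, ⟨N - 1, by omega⟩) rfl rfl rfl rfl]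
    simp only [rhi]
    have e1 : (⟨N - 1 - k, by omega⟩ : Fin N).rev = ⟨k, hk⟩ := by
      apply Fin.ext; rw [Fin.val_rev]; simp only []; omega
    have e2 : (⟨0, hN⟩ : Fin N).rev = ⟨N - 1, by omega⟩ := by
      apply Fin.ext; rw [Fin.val_rev]
    rw [e1, e2, Matrix.one_apply_eq, mul_one]
  rw [h1, kap_root hv hk]
  unfold uu
  have h2 : v ^ (-((k : ℤ) * (k + 2))) = v ^ (((N : ℤ) - 1) * ((N : ℤ) - 1)) *
      v ^ (-(((N : ℤ) - 1 - k) * ((N : ℤ) - 1 - k))) := by
    rw [← zpow_add₀ h0]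
    have h3 : ((N : ℤ) - 1) * ((N : ℤ) - 1) + -(((N : ℤ) - 1 - k) * ((N : ℤ) - 1 - k)) =
        -((k : ℤ) * (k + 2)) + 2 * (N : ℤ) * k := by ring
    rw [h3, zpow_add₀ h0, _root_.zpow_mul, hv.vN, _root_.one_zpow, mul_one]
  rw [h2]
  field_simp

/-- the closure on the right at the roots of unity -/
lemma pt_root {v : ℂ} (hv : Kr N v) (hN : 2 ≤ N) {T : Matrix (I2 N) (I2 N) ℂ} (hT : InA v T) :
    ‖pt v (by omega) T‖ ^ 2 = WR N v (N - 1) * ‖gam v T ⟨N - 1, by omega⟩‖ ^ 2 := by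
  have h1 : pt v (by omega) T = BB v (by omega) (rhi v 1) T := by
    unfold BB
    rw [rho_rhi hv.adm, mul_one]
  have h2 : BB v (by omega) (PP N v (N - 1)) T = WW N v (N - 1) * gam v T ⟨N - 1, by omega⟩ := by
    conv_lhs => rw [← sum_gam hv.adm hT]
    have h3 := BB_sum v (by omega : 0 < N) {()} univ (fun _ : Unit => PP N v (N - 1))
      (fun i : Fin N => gam v T i • PP N v i)
    rw [sum_singleton, sum_singleton] at h3
    rw [h3, sum_eq_single (⟨N - 1, by omega⟩ : Fin N)]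
    · rw [BB_smul_right, BB_PP hv.adm hN (N - 1) (N - 1) (by omega) (by omega), if_pos rfl]
      ring
    · intro j _ hj
      rw [BB_smul_right, BB_PP hv.adm hN j (N - 1) (by omega) j.2, if_neg, mul_zero]
      intro h'; exact hj (Fin.ext h'.symm)
    · intro h; exact absurd (mem_univ _) h
  rw [h1, rhi_one hv (by omega), BB_smul_left, h2, norm_mul, norm_mul, mul_pow, mul_pow,
    WW_root hv, WR_root hv, Complex.norm_real]
  have hb : ‖brf v (N - 1)‖ ≠ 0 := norm_ne_zero_iff.2 (brf_ne hv.adm (by omega))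
  have h4 : ‖uu N v‖ = 1 / ‖brf v (N - 1)‖ ^ 2 := by
    unfold uu
    rw [norm_div, norm_mul, norm_pow, norm_zp hv, kap_root hv (by omega), norm_zp hv, mul_one]
  have h5 : ‖‖brf v (N - 1)‖ ^ 4‖ = ‖brf v (N - 1)‖ ^ 4 := by
    rw [Real.norm_of_nonneg (by positivity)]
  rw [h4, h5]
  field_simp

/-- the double is at least the sum of the squares of the two closures -/
lemma nq_ge {v : ℂ} (hv : Kr N v) (hN : 2 ≤ N) {T : Matrix (I2 N) (I2 N) ℂ} (hT : InA v T) :
    ‖gam v T ⟨0, by omega⟩‖ ^ 2 + ‖pt v (by omega) T‖ ^ 2 ≤ nq v T := by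
  rw [pt_root hv hN hT]
  unfold nq
  have hne : (⟨0, by omega⟩ : Fin N) ≠ ⟨N - 1, by omega⟩ := by
    intro h
    have := congrArg Fin.val h
    simp only [] at this
    omega
  have h1 := sum_le_sum_of_subset_of_nonneg (f := fun i : Fin N => WR N v i * ‖gam v T i‖ ^ 2)
    (subset_univ {(⟨0, by omega⟩ : Fin N), ⟨N - 1, by omega⟩})
    (fun i _ _ => by
      have := WR_nonneg hv.good i.2
      positivity)
  rw [sum_pair hne] at h1
  refine le_trans (le_of_eq ?_) h1
  rw [WR_zero, one_mul]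

/-! ### words -/

/-- modifications of a tangle -/
inductive Mv
  | cross (σ : Bool)
  | turn

/-- the modified tangle -/
def bld : List Mv → List Pc → List Pc
  | [], T => T
  | .cross σ :: w, T => bld w (T ++ [Pc.cross 0 σ])
  | .turn :: w, T => bld w (rot T)

/-- the number of crossings of a word -/
def cnt : List Mv → ℕ
  | [] => 0
  | .cross _ :: w => cnt w + 1
  | .turn :: w => cnt w

lemma bld_append (w u : List Mv) : ∀ T : List Pc, bld (w ++ u) T = bld u (bld w T) := by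
  induction w with
  | nil => intro T; rfl
  | cons m w ih =>
    intro T
    cases m with
    | cross σ => exact ih _
    | turn => exact ih _

lemma cnt_append (w u : List Mv) : cnt (w ++ u) = cnt w + cnt u := by
  induction w with
  | nil => simp [cnt]
  | cons m w ih =>
    cases m with
    | cross σ => rw [List.cons_append, cnt, cnt, ih]; ring
    | turn => rw [List.cons_append, cnt, cnt, ih]

lemma Is_cross (σ : Bool) : Is 2 2 [Pc.cross 0 σ] := by
  apply Is_single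
  simp [Pc.strands]

lemma Is_bld (w : List Mv) : ∀ {T : List Pc}, Is 2 2 T → Is 2 2 (bld w T) := by
  induction w with
  | nil => intro T hT; exact hT
  | cons m w ih =>
    intro T hT
    cases m with
    | cross σ => exact ih (Is_append hT (Is_cross σ))
    | turn => exact ih (Is_rot hT)

lemma MM_cross (v : ℂ) (σ : Bool) :
    MM N v [Pc.cross 0 σ] = if σ then crossP N v else crossN N v := by
  apply Rp_unique (Rp_MM v (Is_cross σ))
  rw [runL_cons, runL_nil]
  exact Rp_mat _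

lemma nq_crossing {v : ℂ} (hv : Kr N v) {B : ℝ} (hB0 : 0 ≤ B)
    (hB : ∀ i j : ℕ, j ≤ i → i < N → ‖brf v i‖ ≤ B * (‖brf v (i - j)‖ * ‖brf v j‖))
    {T : List Pc} (hT : Is 2 2 T) (σ : Bool) :
    nq v (MM N v (T ++ [Pc.cross 0 σ])) ≤ ((N : ℝ) * B) ^ 2 * nq v (MM N v T) := by
  rw [MM_append v hT (Is_cross σ), MM_cross]
  cases σ with
  | true => rw [if_pos rfl]; exact nq_P hv hB0 hB (InA_MM hv.adm hT)
  | false => rw [if_neg (by simp)]; exact nq_N hv hB0 hB (InA_MM hv.adm hT)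

lemma nq_rot {v : ℂ} (hv : Good N v) (hN : 2 ≤ N) {T : List Pc} (hT : Is 2 2 T) :
    nq v (MM N v (rot T)) = nq v (MM N v T) := by
  rw [MM_rot v hT]
  exact nq_rho hv hN (InA_MM hv.adm hT)

lemma nq_bld {v : ℂ} (hv : Kr N v) (hN : 2 ≤ N) {B : ℝ} (hB0 : 0 ≤ B)
    (hB : ∀ i j : ℕ, j ≤ i → i < N → ‖brf v i‖ ≤ B * (‖brf v (i - j)‖ * ‖brf v j‖)) (w : List Mv) :
    ∀ {T : List Pc}, Is 2 2 T →
    nq v (MM N v (bld w T)) ≤ (((N : ℝ) * B) ^ 2) ^ cnt w * nq v (MM N v T) := by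
  induction w with
  | nil => intro T _; simp [bld, cnt]
  | cons m w ih =>
    intro T hT
    have hp : 0 ≤ (((N : ℝ) * B) ^ 2) ^ cnt w := by positivity
    cases m with
    | cross σ =>
      refine (ih (Is_append hT (Is_cross σ))).trans ?_
      have h1 := nq_crossing hv hB0 hB hT σ
      have h2 : (((N : ℝ) * B) ^ 2) ^ cnt (Mv.cross σ :: w) =
          (((N : ℝ) * B) ^ 2) ^ cnt w * ((N : ℝ) * B) ^ 2 := by
        rw [cnt, pow_succ]
      rw [h2, mul_assoc]
      exact mul_le_mul_of_nonneg_left h1 hp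
    | turn =>
      refine (ih (Is_rot hT)).trans ?_
      rw [nq_rot hv.good hN hT]
      exact le_refl _

/-! ### the double -/

/-- the double of a tangle -/
def dbl (T : List Pc) : List Pc := glue (ds T) T

lemma val_dbl {v : ℂ} (hv : Good N v) (hN : 2 ≤ N) {T : List Pc} (hT : Is 2 2 T) :
    val (N := N) v (by omega) (dbl T) = (nq v (MM N v T) : ℝ) := by
  have hT' := InA_MM hv.adm hT
  unfold dbl
  rw [val_glue v _ (Is_ds hT) hT, MM_ds hv.adm hv.cj hT, hf_eq hv hN hT' hT', hf_self]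

/-- the Cauchy-Schwarz inequality for two tangles -/
lemma val_cs {v : ℂ} (hv : Good N v) (hN : 2 ≤ N) {S T : List Pc} (hS : Is 2 2 S) (hT : Is 2 2 T) :
    ‖val (N := N) v (by omega) (glue S T)‖ ^ 2 ≤ nq v (MM N v S) * nq v (MM N v T) := by
  have hS' := InA_MM hv.adm hS
  have hT' := InA_MM hv.adm hT
  have h1 : val (N := N) v (by omega) (glue S T) = hf v (stm v (MM N v S)) (MM N v T) := by
    rw [val_glue v _ hS hT, ← hf_eq hv hN (InA_stm hv.adm hv.cj hS') hT', stm_stm hv.adm hv.cj]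
  rw [h1, ← nq_stm hv hS']
  exact hf_cs hv _ _

end Pool.Agent.Q191.RP
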