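import Pool.Agent.Q191.RP.Pos
import Pool.Agent.W715.VC.Sb

/-!
# The crossing in the Newton basis
-/

set_option autoImplicit false

namespace Pool.Agent.Q191.RP

open Matrix Finset
open scoped Kronecker
open Pool.Agent.H550R3.Jones (WM IsMod IsInt Gen br brf tens irr W crossP crossN Adm)
open Pool.Agent.H927R2.J.SanYB (brf_ne)
open Pool.Agent.W715.VC (brf_succ' sb sb_zero sb_closed qbin sb_self)
open Pool.Agent.Q191.FT (lam lam_sub lam_neg Cas Cas_E Cas_F)

variable {N : ℕ}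

lemma cjk_M {v : ℂ} (hv : Adm N v) {k : ℕ} (hk : k < N) :
    cjk N v (N - 1) k = brf v (N - 1) ^ 2 * v ^ (-(((N : ℤ) - 1 - k) * ((N : ℤ) - 1 - k))) := by
  unfold cjk
  have n4 : brf v (N - 1 - k) ≠ 0 := brf_ne hv (by omega)
  have n0 : brf v 0 = 1 := by simp [brf]
  rw [if_pos (by omega), Nat.sub_self, n0, one_mul, div_self n4, mul_one]
  congr 2
  have : ((N - 1 : ℕ) : ℤ) = (N : ℤ) - 1 := by omega
  rw [this]

lemma zjk_M {v : ℂ} (hv : Adm N v) {k : ℕ} (hk : k < N) :
    zjk N v (N - 1) k = br v (N : ℤ) * brf v (N - 1) ^ 2 *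
      v ^ (-(((N : ℤ) - 1 - k) * ((N : ℤ) - 2 - k))) := by
  unfold zjk
  have n4 : brf v (N - 1 - k) ≠ 0 := brf_ne hv (by omega)
  have n0 : brf v 0 = 1 := by simp [brf]
  rw [if_pos (by omega), Nat.sub_self, n0, one_mul, div_self n4, mul_one]
  have : ((N - 1 : ℕ) : ℤ) = (N : ℤ) - 1 := by omega
  rw [this]
  have h2 : (N : ℤ) - 1 + 1 = N := by ring
  rw [h2]

/-- the last step of the recursion of the Newton basis -/
lemma cjk_top {v : ℂ} (hv : Adm N v) {k : ℕ} (hk : k < N) :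
    br v k * zjk N v (N - 1) (k - 1) +
      v ^ (2 * (k : ℤ) + 1 - N) * br v ((N : ℤ) - 1 - k) * zjk N v (N - 1) k =
      br v ((N : ℤ) - 1) * br v (N : ℤ) * cjk N v (N - 1) k := by
  rw [cjk_M hv hk, zjk_M hv hk, zjk_M hv (k := k - 1) (by omega)]
  have h1 : br v k * (br v (N : ℤ) * brf v (N - 1) ^ 2 *
      v ^ (-(((N : ℤ) - 1 - ((k - 1 : ℕ) : ℤ)) * ((N : ℤ) - 2 - ((k - 1 : ℕ) : ℤ))))) =
      br v k * (br v (N : ℤ) * brf v (N - 1) ^ 2 *
      (v ^ (-(((N : ℤ) - 1 - k) * ((N : ℤ) - 1 - k))) * v ^ (-((N : ℤ) - 1 - k)))) := by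
    rcases Nat.eq_zero_or_pos k with h0 | h0
    · rw [h0]; push_cast; rw [br_zero', zero_mul, zero_mul]
    · have d4 : ((k - 1 : ℕ) : ℤ) = (k : ℤ) - 1 := by omega
      rw [d4, ← zpow_add₀ hv.1]
      congr 3
      ring
  have h2 : v ^ (2 * (k : ℤ) + 1 - N) * v ^ (-(((N : ℤ) - 1 - k) * ((N : ℤ) - 2 - k))) =
      v ^ (-(((N : ℤ) - 1 - k) * ((N : ℤ) - 1 - k))) * v ^ (k : ℤ) := by
    rw [← zpow_add₀ hv.1, ← zpow_add₀ hv.1]
    congr 1
    ring
  have h3 := br_add hv.1 (k : ℤ) ((N : ℤ) - 1 - k)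
  have e1 : (k : ℤ) + ((N : ℤ) - 1 - k) = (N : ℤ) - 1 := by ring
  rw [e1] at h3
  rw [h1]
  linear_combination (br v ((N : ℤ) - 1 - k) * br v (N : ℤ) * brf v (N - 1) ^ 2) * h2 +
    (br v (N : ℤ) * brf v (N - 1) ^ 2 * v ^ (-(((N : ℤ) - 1 - k) * ((N : ℤ) - 1 - k)))) * h3

/-- the Newton basis ends -/
lemma PP_top {v : ℂ} (hv : Adm N v) (hN : 0 < N) : PP N v N = 0 := by
  apply InA_ext hv (InA_PP hv.1 N) (InA.zero v)
  intro k hk
  rw [tv_zero]
  obtain ⟨m, hm⟩ : ∃ m, N = m + 1 := ⟨N - 1, by omega⟩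
  have hm' : N - 1 = m := by omega
  have hP : PP N v N = xx N v * PP N v m - lam v (2 * m + 1) • PP N v m := by
    conv_lhs => rw [show PP N v N = PP N v (m + 1) from by rw [← hm]]
    rfl
  have ih' := tv_PP hv hN m (by omega)
  have hy : ∀ a, a + 1 < N → yv N v (tv (PP N v m)) a = zjk N v m a := by
    intro a ha
    rw [← yv_cjk hv (by omega) ha]
    unfold yv
    rw [ih' a (by omega), ih' (a + 1) ha]
  rw [hP, tv_sub, tv_smul, tv_xx hk, ih' k hk]
  have h1 : br v k * yv N v (tv (PP N v m)) (k - 1) = br v k * zjk N v m (k - 1) := by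
    rcases Nat.eq_zero_or_pos k with h0 | h0
    · rw [h0]; push_cast; rw [br_zero', zero_mul, zero_mul]
    · rw [hy _ (by omega)]
  have h2 : br v ((N : ℤ) - 1 - k) * yv N v (tv (PP N v m)) k =
      br v ((N : ℤ) - 1 - k) * zjk N v m k := by
    by_cases h3 : k = N - 1
    · have h4 : (N : ℤ) - 1 - k = 0 := by omega
      rw [h4, br_zero', zero_mul, zero_mul]
    · rw [hy _ (by omega)]
  have h3 := cjk_top hv hk
  rw [hm'] at h3
  have h4 := lam_sub hv.1 ((m : ℤ) + 1) m
  have e1 : (m : ℤ) + 1 + m = 2 * m + 1 := by ring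
  have e2 : (m : ℤ) + 1 - m = 1 := by ring
  rw [e1, e2] at h4
  have e3 : (N : ℤ) - 1 = m := by omega
  have e4 : (N : ℤ) = (m : ℤ) + 1 := by omega
  rw [e3] at h3
  have h5 : br v (N : ℤ) = br v ((m : ℤ) + 1) := by rw [e4]
  rw [h5] at h3
  rw [e3] at h2 ⊢
  linear_combination h1 + v ^ (2 * (k : ℤ) + 1 - N) * h2 + h3 - cjk N v m k * h4

/-! ### the crossing -/

/-- the constant -/
noncomputable def Cst (N : ℕ) (v : ℂ) : ℂ := (-1) ^ (N - 1) * v ^ (-(((N : ℤ) - 1) * ((N : ℤ) + 1)))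

/-- the matrix of the positive crossing in the Newton basis -/
noncomputable def sg (N : ℕ) (v : ℂ) (i j : ℕ) : ℂ :=
  if j ≤ i then Cst N v * (-1) ^ i * v ^ (((j : ℤ) + 1) * i) * (brf v j / (brf v (i - j) * brf v i))
  else 0

/-- the alternating sum of Gaussian binomial coefficients -/
lemma alt_sum {v : ℂ} (hv : v ≠ 0) {m : ℕ} (hm : 0 < m) :
    ∑ n ∈ range (m + 1), (-1) ^ n * sb v m n * v ^ ((n : ℤ) * (1 - m)) = 0 := by
  have h := qbin hv (v ^ (-(2 * (m : ℤ)))) m
  have h0 : ∏ j ∈ range m, (1 - v ^ (-(2 * (m : ℤ))) * v ^ (2 * (j + 1))) = 0 := by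
    rw [prod_eq_zero_iff]
    refine ⟨m - 1, mem_range.2 (by omega), ?_⟩
    have h1 : v ^ (2 * (m - 1 + 1)) = v ^ (2 * (m : ℤ)) := by
      rw [← zpow_natCast]
      congr 1
      omega
    rw [h1, ← zpow_add₀ hv, neg_add_cancel, zpow_zero, sub_self]
  rw [h0] at h
  rw [h]
  refine sum_congr rfl fun n _ => ?_
  rw [mul_assoc ((-1) ^ n * sb v m n)]
  congr 1
  rw [← zpow_natCast, ← zpow_natCast, ← _root_.zpow_mul, ← zpow_add₀ hv]
  congr 1
  push_cast
  ring

lemma tv_crossP {v : ℂ} (hv : Adm N v) {k : ℕ} (hk : k < N) :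
    tv (crossP N v) k = if k = N - 1 then v ^ (-(((N : ℤ) - 1) * N)) else 0 := by
  rw [tv_eq (k := k) (crossP N v) (⟨k, hk⟩, ⟨N - 1 - k, by omega⟩) (⟨0, by omega⟩, ⟨N - 1, by omega⟩)
    rfl rfl rfl rfl]
  unfold crossP
  simp only []
  by_cases h : k = N - 1
  · subst h
    rw [if_pos (by omega), if_pos rfl, Nat.sub_self]
    have n2 : brf v (N - 1) ≠ 0 := brf_ne hv (by omega)
    have n0 : brf v 0 = 1 := by simp [brf]
    simp only [Nat.cast_zero, mul_zero, add_zero, range_zero, prod_empty, n0, mul_one,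
      div_self n2, zero_mul, Nat.zero_div, pow_zero]
    congr 1
    have : ((N - 1 : ℕ) : ℤ) = (N : ℤ) - 1 := by omega
    rw [this]
    ring
  · rw [if_neg (by omega), if_neg h]

/-- the coefficients of the positive crossing -/
lemma P_exp0 {v : ℂ} (hv : Adm N v) (hN : 0 < N) :
    crossP N v = ∑ i ∈ range N, sg N v i 0 • PP N v i := by
  apply InA_ext hv (InA_P hv) (InA.sum _ (fun i => sg N v i 0 • PP N v i)
    fun i _ => (InA_PP hv.1 i).smul _)
  intro k hk
  rw [tv_sum, tv_crossP hv hk]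
  obtain ⟨m, hm⟩ : ∃ m, N = k + (m + 1) := ⟨N - 1 - k, by omega⟩
  have hm2 : N - 1 - k = m := by omega
  have hterm : ∀ i, i < N → tv (sg N v i 0 • PP N v i) k = if k ≤ i then
      Cst N v * (-1) ^ i * v ^ (i : ℤ) * (v ^ (-(((i : ℤ) - k) * m)) * sb v m (i - k)) else 0 := by
    intro i hi
    rw [tv_smul, tv_PP hv hN i hi k hk]
    unfold sg cjk
    rw [if_pos (Nat.zero_le i)]
    by_cases h : k ≤ i
    · rw [if_pos ⟨h, hi⟩, if_pos h, hm2]
      have n1 : brf v i ≠ 0 := brf_ne hv hi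
      have n0 : brf v 0 = 1 := by simp [brf]
      have n2 : brf v (i - k) ≠ 0 := brf_ne hv (by omega)
      have n3 : brf v (N - 1 - i) ≠ 0 := brf_ne hv (by omega)
      have h1 := sb_closed hv.1 m (i - k) (by omega)
      have h2 : m - (i - k) = N - 1 - i := by omega
      rw [h2] at h1
      have h3 : sb v m (i - k) = brf v m / (brf v (N - 1 - i) * brf v (i - k)) := by
        rw [← h1]; field_simp
      have h4 : (N : ℤ) - 1 - k = m := by omega
      rw [h3, h4, Nat.sub_zero, n0]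
      have h5 : v ^ ((((0 : ℕ) : ℤ) + 1) * (i : ℤ)) = v ^ (i : ℤ) := by
        congr 1
        push_cast
        ring
      rw [h5]
      field_simp
    · rw [if_neg (fun h' => h h'.1), if_neg h, mul_zero]
  have hsum : ∑ i ∈ range N, tv (sg N v i 0 • PP N v i) k =
      ∑ n ∈ range (m + 1), Cst N v * (-1) ^ k * v ^ (k : ℤ) *
        ((-1) ^ n * sb v m n * v ^ ((n : ℤ) * (1 - m))) := by
    rw [sum_congr rfl fun i hi => hterm i (mem_range.1 hi), hm, sum_range_add]
    have h0 : ∑ x ∈ range k, (if k ≤ x then Cst (k + (m + 1)) v * (-1) ^ x * v ^ (x : ℤ) *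
        (v ^ (-(((x : ℤ) - k) * m)) * sb v m (x - k)) else 0) = 0 := by
      apply sum_eq_zero
      intro x hx
      rw [mem_range] at hx
      rw [if_neg (by omega)]
    rw [h0, zero_add]
    refine sum_congr rfl fun n _ => ?_
    rw [if_pos (by omega), Nat.add_sub_cancel_left, pow_add]
    push_cast
    have h1 : v ^ ((k : ℤ) + n) * v ^ (-(((k : ℤ) + n - k) * m)) =
        v ^ (k : ℤ) * v ^ ((n : ℤ) * (1 - m)) := by
      rw [← zpow_add₀ hv.1, ← zpow_add₀ hv.1]
      congr 1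
      ring
    linear_combination (Cst (k + (m + 1)) v * (-1) ^ k * (-1) ^ n * sb v m n) * h1
  rw [hsum, ← mul_sum]
  by_cases h : k = N - 1
  · have hm0 : m = 0 := by omega
    subst hm0
    rw [if_pos h]
    simp only [zero_add, sum_range_one, pow_zero, sb_zero, Nat.cast_zero, zero_mul, zpow_zero, mul_one]
    unfold Cst
    rw [h]
    have h1 : ((-1 : ℂ) ^ (N - 1)) * (-1) ^ (N - 1) = 1 := by rw [← mul_pow]; norm_num
    have h2 : v ^ (-(((N : ℤ) - 1) * ((N : ℤ) + 1))) * v ^ ((N - 1 : ℕ) : ℤ) =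
        v ^ (-(((N : ℤ) - 1) * N)) := by
      rw [← zpow_add₀ hv.1]
      congr 1
      have : ((N - 1 : ℕ) : ℤ) = (N : ℤ) - 1 := by omega
      rw [this]
      ring
    linear_combination -(v ^ (-(((N : ℤ) - 1) * ((N : ℤ) + 1))) * v ^ ((N - 1 : ℕ) : ℤ)) * h1 - h2
  · rw [if_neg h, alt_sum hv.1 (by omega), mul_zero]

/-- the recursion of the coefficients -/
lemma sg_succ {v : ℂ} (hv : Adm N v) {i j : ℕ} (hi : i + 1 < N) :
    sg N v i j + (lam v (2 * ((i + 1 : ℕ) : ℤ) + 1) - lam v (2 * j + 1)) * sg N v (i + 1) j =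
      sg N v (i + 1) (j + 1) := by
  have h4 := lam_sub hv.1 ((i : ℤ) + j + 2) ((i : ℤ) + 1 - j)
  have e1 : (i : ℤ) + j + 2 + ((i : ℤ) + 1 - j) = 2 * ((i + 1 : ℕ) : ℤ) + 1 := by push_cast; ring
  have e2 : (i : ℤ) + j + 2 - ((i : ℤ) + 1 - j) = 2 * j + 1 := by ring
  rw [e1, e2] at h4
  rw [h4]
  unfold sg
  by_cases h : j ≤ i
  · rw [if_pos h, if_pos (by omega), if_pos (by omega)]
    have d1 : i + 1 - j = (i - j) + 1 := by omega
    have d2 : i + 1 - (j + 1) = i - j := by omega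
    have e4 : ((i - j : ℕ) : ℤ) + 1 = (i : ℤ) + 1 - j := by omega
    rw [d1, d2, brf_succ' v (i - j), brf_succ' v i, brf_succ' v j, e4]
    have n1 : brf v (i - j) ≠ 0 := brf_ne hv (by omega)
    have n2 : brf v i ≠ 0 := brf_ne hv (by omega)
    have n3 : br v ((i : ℤ) + 1) ≠ 0 := by
      have := hv.2 (i + 1) (by omega) hi
      push_cast at this
      exact this
    have n5 : br v ((i : ℤ) + 1 - j) ≠ 0 := by
      have := hv.2 (i - j + 1) (by omega) (by omega)
      push_cast at this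
      rwa [e4] at this
    have f1 : v ^ (((j : ℤ) + 1) * ((i + 1 : ℕ) : ℤ)) =
        v ^ (((j : ℤ) + 1) * i) * v ^ ((j : ℤ) + 1) := by
      rw [← zpow_add₀ hv.1]; congr 1
    have f2 : v ^ ((((j + 1 : ℕ) : ℤ) + 1) * ((i + 1 : ℕ) : ℤ)) =
        v ^ (((j : ℤ) + 1) * i) * v ^ ((j : ℤ) + 1) * v ^ ((i : ℤ) + 1) := by
      rw [← zpow_add₀ hv.1, ← zpow_add₀ hv.1]; congr 1; push_cast; ring
    rw [f1, f2, pow_succ]
    have hk : v ^ ((j : ℤ) + 1) * br v ((i : ℤ) + j + 2) = br v ((i : ℤ) + 1) +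
        v ^ ((j : ℤ) + 1) * v ^ ((i : ℤ) + 1) * br v ((j : ℤ) + 1) := by
      unfold br
      have g1 : (i : ℤ) + j + 2 = ((i : ℤ) + 1) + ((j : ℤ) + 1) := by ring
      rw [g1]
      simp only [neg_add, zpow_add₀ hv.1, _root_.zpow_neg, zpow_one]
      have p1 : v ^ (i : ℤ) ≠ 0 := zpow_ne_zero _ hv.1
      have p2 : v ^ (j : ℤ) ≠ 0 := zpow_ne_zero _ hv.1
      have p3 := hv.1
      generalize v ^ (i : ℤ) = A at *
      generalize v ^ (j : ℤ) = B at *
      field_simp
      ring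
    generalize v ^ ((j : ℤ) + 1) = U at *
    generalize v ^ ((i : ℤ) + 1) = V at *
    generalize v ^ (((j : ℤ) + 1) * i) = X at *
    generalize br v ((i : ℤ) + 1) = b1 at *
    generalize br v ((j : ℤ) + 1) = b2 at *
    generalize br v ((i : ℤ) + 1 - j) = b3 at *
    generalize br v ((i : ℤ) + j + 2) = b4 at *
    generalize brf v (i - j) = c1 at *
    generalize brf v i = c2 at *
    generalize brf v j = c3 at *
    field_simp
    linear_combination (-(Cst N v * X * c3)) * hk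
  · by_cases h1 : j = i + 1
    · subst h1
      rw [if_neg (by omega), if_pos (by omega), if_neg (by omega)]
      have : (i : ℤ) + 1 - ((i + 1 : ℕ) : ℤ) = 0 := by push_cast; ring
      rw [this, br_zero']
      ring
    · rw [if_neg (by omega), if_neg (by omega), if_neg (by omega)]
      ring

/-- the positive crossing acts by a triangular matrix -/
lemma P_exp {v : ℂ} (hv : Adm N v) (j : ℕ) (hj : j < N) :
    crossP N v * PP N v j = ∑ i ∈ range N, sg N v i j • PP N v i := by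
  induction j with
  | zero =>
    change crossP N v * 1 = _
    rw [mul_one]
    exact P_exp0 hv (by omega)
  | succ j ih =>
    have ih' := ih (by omega)
    have h1 : crossP N v * PP N v (j + 1) =
        xx N v * (crossP N v * PP N v j) - lam v (2 * j + 1) • (crossP N v * PP N v j) := by
      change crossP N v * (xx N v * PP N v j - lam v (2 * j + 1) • PP N v j) = _
      rw [mul_sub, ← mul_assoc, ← xx_comm (InA_P hv), mul_assoc, Matrix.mul_smul]
    rw [h1, ih', mul_sum, smul_sum, ← sum_sub_distrib]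
    have h2 : ∀ i, xx N v * (sg N v i j • PP N v i) - lam v (2 * j + 1) • (sg N v i j • PP N v i) =
        sg N v i j • PP N v (i + 1) +
          ((lam v (2 * (i : ℤ) + 1) - lam v (2 * j + 1)) * sg N v i j) • PP N v i := by
      intro i
      change _ = sg N v i j • (xx N v * PP N v i - lam v (2 * i + 1) • PP N v i) + _
      rw [Matrix.mul_smul, smul_sub, smul_smul, smul_smul, sub_mul, sub_smul, mul_comm (sg N v i j)]
      abel
    rw [sum_congr rfl fun i _ => h2 i, sum_add_distrib]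
    obtain ⟨n, hn⟩ : ∃ n, N = n + 1 := ⟨N - 1, by omega⟩
    have h3 : ∑ i ∈ range N, sg N v i j • PP N v (i + 1) =
        ∑ i ∈ range n, sg N v i j • PP N v (i + 1) := by
      have hr : range N = range (n + 1) := by rw [hn]
      have ht : PP N v (n + 1) = 0 := by rw [← hn]; exact PP_top hv (by omega)
      rw [hr, sum_range_succ, ht, smul_zero, add_zero]
    have h4 : ∑ i ∈ range N, ((lam v (2 * (i : ℤ) + 1) - lam v (2 * j + 1)) * sg N v i j) • PP N v i =
        ∑ i ∈ range n, ((lam v (2 * ((i + 1 : ℕ) : ℤ) + 1) - lam v (2 * j + 1)) * sg N v (i + 1) j) •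
          PP N v (i + 1) + 0 := by
      conv_lhs => rw [show range N = range (n + 1) from by rw [hn], sum_range_succ']
      congr 1
      unfold sg
      by_cases h : j = 0
      · subst h
        push_cast
        rw [sub_self, zero_mul, zero_smul]
      · rw [if_neg (by omega), mul_zero, zero_smul]
    have h5 : ∑ i ∈ range N, sg N v i (j + 1) • PP N v i =
        ∑ i ∈ range n, sg N v (i + 1) (j + 1) • PP N v (i + 1) + 0 := by
      conv_lhs => rw [show range N = range (n + 1) from by rw [hn], sum_range_succ']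
      congr 1
      unfold sg
      rw [if_neg (by omega), zero_smul]
    rw [h3, h4, h5, add_zero, add_zero, ← sum_add_distrib]
    refine sum_congr rfl fun i hi => ?_
    rw [mem_range] at hi
    rw [← add_smul, sg_succ hv (by omega)]

/-- the coefficients of a product with the crossing -/
lemma gam_P {v : ℂ} (hv : Adm N v) {T : Matrix (I2 N) (I2 N) ℂ} (hT : InA v T) (i : Fin N) :
    gam v (crossP N v * T) i = ∑ j : Fin N, sg N v i j * gam v T j := by
  have h1 : ∑ i : Fin N, (∑ j : Fin N, sg N v i j * gam v T j) • PP N v i = crossP N v * T := by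
    conv_rhs => rw [← sum_gam hv hT, mul_sum]
    have h2 : ∀ j : Fin N, crossP N v * (gam v T j • PP N v j) =
        ∑ i : Fin N, (sg N v i j * gam v T j) • PP N v i := by
      intro j
      rw [Matrix.mul_smul, P_exp hv j j.2, smul_sum, ← Fin.sum_univ_eq_sum_range
        (fun i => gam v T j • sg N v i j • PP N v i) N]
      refine sum_congr rfl fun i _ => ?_
      rw [smul_smul, mul_comm]
    rw [sum_congr rfl fun j _ => h2 j, sum_comm]
    refine sum_congr rfl fun i _ => ?_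
    rw [sum_smul]
  rw [gam_of hv _ h1]

end Pool.Agent.Q191.RP
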