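import Pool.Agent.Q191.RP.Base

/-!
# Cup and cap are invariant
-/

set_option autoImplicit false

namespace Pool.Agent.Q191.RP

open Matrix Finset
open scoped Kronecker
open Pool.Agent.H550R3.Jones (WM IsMod IsInt Gen br brf tens irr W crossP crossN Adm)
open Pool.Agent.H927R2.J.SanYB (brf_ne)
open Pool.Agent.W715.VC (brf_succ')

variable {N : ℕ}

lemma sum_E' (v : ℂ) (a : Fin N) (g : Fin N → ℂ) : ∑ q, g q * (irr v N).E q a =
    if 0 < (a : ℕ) then br v ((N : ℤ) - (a : ℕ)) * g ⟨a - 1, by have := a.2; omega⟩ else 0 := by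
  split_ifs with h
  · rw [sum_eq_single (⟨a - 1, by have := a.2; omega⟩ : Fin N)]
    · have : (a : ℕ) = a - 1 + 1 := by omega
      simp only [irr, ← this, if_true]
      ring
    · intro q _ hq
      have : ¬ (a : ℕ) = q + 1 := fun h' => hq (Fin.ext (by simp only []; omega))
      simp [irr, this]
    · intro h'; exact absurd (mem_univ _) h'
  · apply sum_eq_zero
    intro q _
    have : ¬ (a : ℕ) = q + 1 := by omega
    simp [irr, this]

lemma sum_F' (v : ℂ) (a : Fin N) (g : Fin N → ℂ) : ∑ q, g q * (irr v N).F q a =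
    br v ((a : ℕ) + 1) * (if h : (a : ℕ) + 1 < N then g ⟨a + 1, h⟩ else 0) := by
  split_ifs with h
  · rw [sum_eq_single (⟨a + 1, h⟩ : Fin N)]
    · simp only [irr, if_true]
      push_cast
      ring
    · intro q _ hq
      have : ¬ (q : ℕ) = a + 1 := fun h' => hq (Fin.ext h')
      simp [irr, this]
    · intro h'; exact absurd (mem_univ _) h'
  · rw [mul_zero]
    apply sum_eq_zero
    intro q _
    have : ¬ (q : ℕ) = a + 1 := by have := q.2; omega
    simp [irr, this]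

lemma vec_W_E (v : ℂ) (z : I2 N → ℂ) {c d : ℕ} (hc : c < N) (hd : d < N) :
    ht (z ᵥ* (W v N).E) c d =
      (if 0 < c then br v ((N : ℤ) - c) * v ^ ((N : ℤ) - 1 - 2 * d) * ht z (c - 1) d else 0) +
        (if 0 < d then br v ((N : ℤ) - d) * ht z c (d - 1) else 0) := by
  rw [ht_in _ hc hd]
  change ∑ p : I2 N, z p * (W v N).E p (⟨c, hc⟩, ⟨d, hd⟩) = _
  have h0 : ∀ x y : Fin N, z (x, y) * (W v N).E (x, y) (⟨c, hc⟩, ⟨d, hd⟩) =
      z (x, y) * ((irr v N).E x ⟨c, hc⟩ * (if y = ⟨d, hd⟩ then v ^ ((N : ℤ) - 1 - 2 * (y : ℕ)) else 0)) +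
        z (x, y) * ((if x = ⟨c, hc⟩ then 1 else 0) * (irr v N).E y ⟨d, hd⟩) := by
    intro x y
    rw [W_E_apply]
    ring
  simp only [Fintype.sum_prod_type, h0, sum_add_distrib]
  congr 1
  · have h1 : ∀ x : Fin N, ∑ y : Fin N, z (x, y) * ((irr v N).E x ⟨c, hc⟩ *
        (if y = ⟨d, hd⟩ then v ^ ((N : ℤ) - 1 - 2 * (y : ℕ)) else 0)) =
        v ^ ((N : ℤ) - 1 - 2 * d) * z (x, ⟨d, hd⟩) * (irr v N).E x ⟨c, hc⟩ := by
      intro x
      rw [sum_eq_single (⟨d, hd⟩ : Fin N)]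
      · rw [if_pos rfl]; ring
      · intro y _ hy
        rw [if_neg hy]; ring
      · intro h; exact absurd (mem_univ _) h
    rw [sum_congr rfl fun x _ => h1 x,
      sum_E' v ⟨c, hc⟩ (fun x => v ^ ((N : ℤ) - 1 - 2 * d) * z (x, ⟨d, hd⟩))]
    simp only []
    split_ifs with h
    · rw [ht_in _ (by omega) hd]; ring
    · rfl
  · rw [sum_eq_single (⟨c, hc⟩ : Fin N)]
    · simp only [if_true, one_mul]
      rw [sum_E' v ⟨d, hd⟩ (fun y => z (⟨c, hc⟩, y))]
      simp only []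
      split_ifs with h
      · rw [ht_in _ hc (by omega)]
      · rfl
    · intro x _ hx
      apply sum_eq_zero
      intro y _
      rw [if_neg hx]; ring
    · intro h; exact absurd (mem_univ _) h

lemma vec_W_F (v : ℂ) (z : I2 N → ℂ) {c d : ℕ} (hc : c < N) (hd : d < N) :
    ht (z ᵥ* (W v N).F) c d =
      br v ((c : ℤ) + 1) * ht z (c + 1) d +
        v ^ (-((N : ℤ) - 1 - 2 * c)) * (br v ((d : ℤ) + 1) * ht z c (d + 1)) := by
  rw [ht_in _ hc hd]
  change ∑ p : I2 N, z p * (W v N).F p (⟨c, hc⟩, ⟨d, hd⟩) = _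
  have h0 : ∀ x y : Fin N, z (x, y) * (W v N).F (x, y) (⟨c, hc⟩, ⟨d, hd⟩) =
      z (x, y) * ((irr v N).F x ⟨c, hc⟩ * (if y = ⟨d, hd⟩ then 1 else 0)) +
        z (x, y) * ((if x = ⟨c, hc⟩ then v ^ (-((N : ℤ) - 1 - 2 * (x : ℕ))) else 0) *
          (irr v N).F y ⟨d, hd⟩) := by
    intro x y
    rw [W_F_apply]
    ring
  simp only [Fintype.sum_prod_type, h0, sum_add_distrib]
  congr 1
  · have h1 : ∀ x : Fin N, ∑ y : Fin N, z (x, y) * ((irr v N).F x ⟨c, hc⟩ *
        (if y = ⟨d, hd⟩ then 1 else 0)) = z (x, ⟨d, hd⟩) * (irr v N).F x ⟨c, hc⟩ := by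
      intro x
      rw [sum_eq_single (⟨d, hd⟩ : Fin N)]
      · rw [if_pos rfl]; ring
      · intro y _ hy
        rw [if_neg hy]; ring
      · intro h; exact absurd (mem_univ _) h
    rw [sum_congr rfl fun x _ => h1 x, sum_F' v ⟨c, hc⟩ (fun x => z (x, ⟨d, hd⟩))]
    simp only []
    by_cases h : c + 1 < N
    · rw [dif_pos h, ht_in _ h hd]
    · rw [dif_neg h, ht_out _ (by omega)]
  · rw [sum_eq_single (⟨c, hc⟩ : Fin N)]
    · simp only [if_true]
      have h2 := sum_F' v ⟨d, hd⟩ (fun y => z (⟨c, hc⟩, y))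
      simp only [] at h2
      have h3 : (if h : d + 1 < N then z (⟨c, hc⟩, ⟨d + 1, h⟩) else 0) = ht z c (d + 1) := by
        by_cases h : d + 1 < N
        · rw [dif_pos h, ht_in _ hc h]
        · rw [dif_neg h, ht_out _ (by omega)]
      rw [h3] at h2
      rw [← h2, mul_sum]
      refine sum_congr rfl fun y _ => ?_
      ring
    · intro x _ hx
      apply sum_eq_zero
      intro y _
      rw [if_neg hx]; ring
    · intro h; exact absurd (mem_univ _) h

/-! ### cup and cap -/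

/-- the coefficients of the invariant vector -/
noncomputable def kap (N : ℕ) (v : ℂ) (k : ℕ) : ℂ :=
  (-1) ^ k * v ^ ((k : ℤ) * ((N : ℤ) - 2 - k)) * (brf v k * brf v (N - 1 - k) / brf v (N - 1))

lemma kap_ne {v : ℂ} (hv : Adm N v) {k : ℕ} (hk : k < N) : kap N v k ≠ 0 := by
  unfold kap
  refine mul_ne_zero (mul_ne_zero (pow_ne_zero _ (by norm_num)) (zpow_ne_zero _ hv.1)) ?_
  exact div_ne_zero (mul_ne_zero (brf_ne hv hk) (brf_ne hv (by omega))) (brf_ne hv (by omega))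

lemma kap_succ {v : ℂ} (hv : Adm N v) {k : ℕ} (hk : k + 1 < N) :
    kap N v (k + 1) * br v ((N : ℤ) - 1 - k) = -(kap N v k * br v ((k : ℤ) + 1) *
      v ^ ((N : ℤ) - 3 - 2 * k)) := by
  unfold kap
  have h1 : N - 1 - k = (N - 1 - (k + 1)) + 1 := by omega
  rw [h1, brf_succ', brf_succ']
  have h2 : br v (((N - 1 - (k + 1) : ℕ) : ℤ) + 1) = br v ((N : ℤ) - 1 - k) := by
    congr 1
    omega
  rw [h2]
  have h3 : v ^ (((k + 1 : ℕ) : ℤ) * ((N : ℤ) - 2 - ((k + 1 : ℕ) : ℤ))) =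
      v ^ ((k : ℤ) * ((N : ℤ) - 2 - k)) * v ^ ((N : ℤ) - 3 - 2 * k) := by
    rw [← zpow_add₀ hv.1]
    congr 1
    push_cast
    ring
  rw [h3, pow_succ]
  have h4 : brf v (N - 1) ≠ 0 := brf_ne hv (by omega)
  field_simp

lemma kap_zero {v : ℂ} (hv : Adm N v) (hN : 0 < N) : kap N v 0 = 1 := by
  unfold kap
  have h4 : brf v (N - 1) ≠ 0 := brf_ne hv (by omega)
  simp only [pow_zero, Nat.cast_zero, zero_mul, zpow_zero, Nat.sub_zero, one_mul]
  have : brf v 0 = 1 := by simp [brf]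
  rw [this, one_mul, div_self h4]

/-- the cup -/
noncomputable def cupv (N : ℕ) (v : ℂ) (p : I2 N) : ℂ :=
  if (p.1 : ℕ) + p.2 = N - 1 then kap N v p.1 else 0

/-- the cap -/
noncomputable def capv (N : ℕ) (v : ℂ) (p : I2 N) : ℂ :=
  if (p.1 : ℕ) + p.2 = N - 1 then (kap N v p.2)⁻¹ else 0

lemma ht_cup (v : ℂ) {a b : ℕ} (ha : a < N) (hb : b < N) :
    ht (cupv N v) a b = if a + b = N - 1 then kap N v a else 0 := by
  rw [ht_in _ ha hb]; rfl

lemma ht_cap (v : ℂ) {a b : ℕ} (ha : a < N) (hb : b < N) :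
    ht (capv N v) a b = if a + b = N - 1 then (kap N v b)⁻¹ else 0 := by
  rw [ht_in _ ha hb]; rfl

lemma E_cup {v : ℂ} (hv : Adm N v) : (W v N).E *ᵥ cupv N v = 0 := by
  apply ht_ext
  intro a b ha hb
  rw [W_E_vec v _ ha hb, ht_zero]
  by_cases h : a + b + 1 = N - 1
  · rw [ht_cup v (by omega) hb, ht_cup v ha (by omega), if_pos (by omega), if_pos (by omega)]
    have h1 := kap_succ hv (k := a) (by omega)
    have h2 : (N : ℤ) - b - 1 = (a : ℤ) + 1 := by omega
    have h3 : (N : ℤ) - 1 - 2 * b = -((N : ℤ) - 3 - 2 * a) := by omega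
    have h4 : (N : ℤ) - a - 1 = (N : ℤ) - 1 - a := by ring
    rw [h2, h3, h4, _root_.zpow_neg]
    have h5 : v ^ ((N : ℤ) - 3 - 2 * a) ≠ 0 := zpow_ne_zero _ hv.1
    generalize v ^ ((N : ℤ) - 3 - 2 * a) = X at *
    field_simp
    linear_combination h1
  · have h1 : ht (cupv N v) (a + 1) b = 0 := by
      by_cases h2 : a + 1 < N
      · rw [ht_cup v h2 hb, if_neg (by omega)]
      · rw [ht_out _ (by omega)]
    have h2 : ht (cupv N v) a (b + 1) = 0 := by
      by_cases h2 : b + 1 < N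
      · rw [ht_cup v ha h2, if_neg (by omega)]
      · rw [ht_out _ (by omega)]
    rw [h1, h2]; ring

lemma F_cup {v : ℂ} (hv : Adm N v) : (W v N).F *ᵥ cupv N v = 0 := by
  apply ht_ext
  intro a b ha hb
  rw [W_F_vec v _ ha hb, ht_zero]
  by_cases h : a + b = N
  · rw [ht_cup v (by omega) hb, ht_cup v ha (by omega), if_pos (by omega), if_pos (by omega)]
    obtain ⟨k, rfl⟩ : ∃ k, a = k + 1 := ⟨a - 1, by omega⟩
    have h1 := kap_succ hv (k := k) (by omega)
    have h2 : (b : ℤ) = (N : ℤ) - 1 - k := by omega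
    have h3 : -((N : ℤ) - 1 - 2 * ((k + 1 : ℕ) : ℤ)) = -((N : ℤ) - 3 - 2 * k) := by push_cast; ring
    rw [h2, h3, _root_.zpow_neg, Nat.add_sub_cancel]
    push_cast
    have h5 : v ^ ((N : ℤ) - 3 - 2 * k) ≠ 0 := zpow_ne_zero _ hv.1
    generalize v ^ ((N : ℤ) - 3 - 2 * k) = X at *
    field_simp
    linear_combination h1
  · have h1 : br v a * ht (cupv N v) (a - 1) b = 0 := by
      rcases Nat.eq_zero_or_pos a with h0 | h0
      · rw [h0]; push_cast; rw [br_zero', zero_mul]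
      · rw [ht_cup v (by omega) hb, if_neg (by omega), mul_zero]
    have h2 : br v b * ht (cupv N v) a (b - 1) = 0 := by
      rcases Nat.eq_zero_or_pos b with h0 | h0
      · rw [h0]; push_cast; rw [br_zero', zero_mul]
      · rw [ht_cup v ha (by omega), if_neg (by omega), mul_zero]
    rw [h1, h2]; ring

lemma cap_E {v : ℂ} (hv : Adm N v) : capv N v ᵥ* (W v N).E = 0 := by
  apply ht_ext
  intro a b ha hb
  rw [vec_W_E v _ ha hb, ht_zero]
  by_cases h : a + b = N
  · rw [ht_cap v (by omega) hb, ht_cap v ha (by omega), if_pos (by omega), if_pos (by omega),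
      if_pos (by omega), if_pos (by omega)]
    obtain ⟨k, rfl⟩ : ∃ k, b = k + 1 := ⟨b - 1, by omega⟩
    have h1 := kap_succ hv (k := k) (by omega)
    have h2 : (N : ℤ) - a = (k : ℤ) + 1 := by omega
    have h3 : (N : ℤ) - 1 - 2 * ((k + 1 : ℕ) : ℤ) = (N : ℤ) - 3 - 2 * k := by push_cast; ring
    have h4 : (N : ℤ) - ((k + 1 : ℕ) : ℤ) = (N : ℤ) - 1 - k := by push_cast; ring
    rw [h2, h3, h4, Nat.add_sub_cancel]
    have k1 := kap_ne hv (k := k) (by omega)
    have k2 := kap_ne hv (k := k + 1) (by omega)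
    generalize v ^ ((N : ℤ) - 3 - 2 * k) = X at *
    field_simp
    linear_combination h1
  · have h1 : (if 0 < a then br v ((N : ℤ) - a) * v ^ ((N : ℤ) - 1 - 2 * b) *
        ht (capv N v) (a - 1) b else 0) = 0 := by
      split_ifs with h0
      · rw [ht_cap v (by omega) hb, if_neg (by omega), mul_zero]
      · rfl
    have h2 : (if 0 < b then br v ((N : ℤ) - b) * ht (capv N v) a (b - 1) else 0) = 0 := by
      split_ifs with h0
      · rw [ht_cap v ha (by omega), if_neg (by omega), mul_zero]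
      · rfl
    rw [h1, h2]; ring

lemma cap_F {v : ℂ} (hv : Adm N v) : capv N v ᵥ* (W v N).F = 0 := by
  apply ht_ext
  intro a b ha hb
  rw [vec_W_F v _ ha hb, ht_zero]
  by_cases h : a + b + 1 = N - 1
  · rw [ht_cap v (by omega) hb, ht_cap v ha (by omega), if_pos (by omega), if_pos (by omega)]
    have h1 := kap_succ hv (k := b) (by omega)
    have h2 : (N : ℤ) - 1 - b = (a : ℤ) + 1 := by omega
    have h3 : -((N : ℤ) - 1 - 2 * a) = (N : ℤ) - 3 - 2 * b := by omega
    rw [h3]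
    rw [h2] at h1
    have k1 := kap_ne hv (k := b) (by omega)
    have k2 := kap_ne hv (k := b + 1) (by omega)
    generalize v ^ ((N : ℤ) - 3 - 2 * b) = X at *
    field_simp
    linear_combination h1
  · have h1 : ht (capv N v) (a + 1) b = 0 := by
      by_cases h2 : a + 1 < N
      · rw [ht_cap v h2 hb, if_neg (by omega)]
      · rw [ht_out _ (by omega)]
    have h2 : ht (capv N v) a (b + 1) = 0 := by
      by_cases h2 : b + 1 < N
      · rw [ht_cap v ha h2, if_neg (by omega)]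
      · rw [ht_out _ (by omega)]
    rw [h1, h2]; ring

end Pool.Agent.Q191.RP
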