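import Pool.Agent.Q191.RP.Star

/-!
# Tangle diagrams with two strands below and two strands above
-/

set_option autoImplicit false

namespace Pool.Agent.Q191.RP

open Matrix Finset
open scoped Kronecker
open Pool.Agent.H550R3.Jones (WM IsMod IsInt Gen br brf tens irr W crossP crossN Adm)
open Pool.Agent.H927R2.J.SanYB (brf_ne)

variable {N : ℕ}

/-- `A` maps functions of `n` strands to functions of `m` strands -/
structure Loc (n m : ℕ) (A : LF N →ₗ[ℂ] LF N) : Prop where
  dep : ∀ f g s, s.length = m → (∀ t : List (Fin N), t.length = n → f t = g t) → A f s = A g s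
  app : ∀ f s r, s.length = m → A f (s ++ r) = A (fun t => f (t ++ r)) s

lemma Loc.id (n : ℕ) : Loc n n (LinearMap.id : LF N →ₗ[ℂ] LF N) :=
  ⟨fun _ _ s hs h => h s hs, fun _ _ _ _ => rfl⟩

lemma Loc.comp {n m k : ℕ} {A B : LF N →ₗ[ℂ] LF N} (hA : Loc n m A) (hB : Loc m k B) :
    Loc n k (B ∘ₗ A) := by
  refine ⟨fun f g s hs h => ?_, fun f s r hs => ?_⟩
  · exact hB.dep _ _ s hs fun t ht => hA.dep f g t ht h
  · rw [LinearMap.comp_apply, LinearMap.comp_apply, hB.app _ _ _ hs]
    exact hB.dep _ _ s hs fun t ht => hA.app f t r ht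

lemma Loc.sh {n m : ℕ} {A : LF N →ₗ[ℂ] LF N} (hA : Loc n m A) : Loc (n + 1) (m + 1) (sh A) := by
  refine ⟨fun f g s hs h => ?_, fun f s r hs => ?_⟩
  · rcases s with _ | ⟨a, s⟩
    · simp at hs
    · rw [sh_cons, sh_cons]
      exact hA.dep _ _ s (by simpa using hs) fun t ht => h (a :: t) (by simp [ht])
  · rcases s with _ | ⟨a, s⟩
    · simp at hs
    · rw [List.cons_append, sh_cons, sh_cons]
      exact hA.app (fun t => f (a :: t)) s r (by simpa using hs)

lemma Loc.pad {n m : ℕ} {A : LF N →ₗ[ℂ] LF N} (hA : Loc n m A) (k : ℕ) : Loc (n + k) (m + k) A := by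
  have hsplit : ∀ s : List (Fin N), s.length = m + k → s = s.take m ++ s.drop m ∧
      (s.take m).length = m ∧ (s.drop m).length = k := by
    intro s hs
    refine ⟨(List.take_append_drop m s).symm, ?_, ?_⟩
    · rw [List.length_take]; omega
    · rw [List.length_drop]; omega
  refine ⟨fun f g s hs h => ?_, fun f s r hs => ?_⟩
  · obtain ⟨h1, h2, h3⟩ := hsplit s hs
    rw [h1, hA.app _ _ _ h2, hA.app _ _ _ h2]
    exact hA.dep _ _ _ h2 fun t ht => h _ (by rw [List.length_append, ht, h3])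
  · obtain ⟨h1, h2, h3⟩ := hsplit s hs
    have h4 : s ++ r = s.take m ++ (s.drop m ++ r) := by
      rw [← List.append_assoc, List.take_append_drop]
    rw [h4, hA.app _ _ _ h2]
    conv_rhs => rw [h1]
    rw [hA.app _ _ _ h2]
    exact congrArg (fun h => A h (List.take m s)) (funext fun t => by rw [List.append_assoc])

lemma Loc_cup (v : ℂ) : Loc 0 2 (cupL N v) := by
  refine ⟨fun f g s hs h => ?_, fun f s r hs => ?_⟩
  · rcases s with _ | ⟨a, _ | ⟨b, _ | ⟨c, s⟩⟩⟩
    · simp at hs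
    · simp at hs
    · change cupv N v (a, b) * f [] = cupv N v (a, b) * g []
      rw [h [] rfl]
    · simp at hs
  · rcases s with _ | ⟨a, _ | ⟨b, _ | ⟨c, s⟩⟩⟩
    · simp at hs
    · simp at hs
    · rfl
    · simp at hs

lemma Loc_cap (v : ℂ) : Loc 2 0 (capL N v) := by
  refine ⟨fun f g s hs h => ?_, fun f s r hs => ?_⟩
  · rcases s with _ | ⟨a, s⟩
    · change ∑ q : I2 N, capv N v q * f (q.1 :: q.2 :: []) = ∑ q : I2 N, capv N v q * g (q.1 :: q.2 :: [])
      refine sum_congr rfl fun q _ => ?_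
      rw [h _ rfl]
    · simp at hs
  · rcases s with _ | ⟨a, s⟩
    · rfl
    · simp at hs

lemma Loc_mat (X : Matrix (I2 N) (I2 N) ℂ) : Loc 2 2 (matL X) := by
  refine ⟨fun f g s hs h => ?_, fun f s r hs => ?_⟩
  · rcases s with _ | ⟨a, _ | ⟨b, _ | ⟨c, s⟩⟩⟩
    · simp at hs
    · simp at hs
    · change ∑ q : I2 N, X (a, b) q * f (q.1 :: q.2 :: []) = ∑ q : I2 N, X (a, b) q * g (q.1 :: q.2 :: [])
      refine sum_congr rfl fun q _ => ?_
      rw [h _ rfl]
    · simp at hs
  · rcases s with _ | ⟨a, _ | ⟨b, _ | ⟨c, s⟩⟩⟩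
    · simp at hs
    · simp at hs
    · rfl
    · simp at hs

/-- the matrix of an operator on two strands -/
noncomputable def mt (A : LF N →ₗ[ℂ] LF N) : Matrix (I2 N) (I2 N) ℂ := fun p q => A (dl q) [p.1, p.2]

lemma Rp_mt {A : LF N →ₗ[ℂ] LF N} (hA : Loc 2 2 A) : Rp A (mt A) := by
  intro f a b
  have h1 : A f [a, b] = A (∑ q : I2 N, f [q.1, q.2] • dl q) [a, b] := by
    refine hA.dep _ _ _ rfl fun t ht => ?_
    rcases t with _ | ⟨c, _ | ⟨d, _ | ⟨e, t⟩⟩⟩
    · simp at ht
    · simp at ht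
    · rw [Finset.sum_apply, sum_eq_single (c, d)]
      · rw [Pi.smul_apply, smul_eq_mul]
        have := dl_pair (c, d) (c, d)
        rw [if_pos rfl] at this
        rw [this, mul_one]
      · intro q _ hq
        rw [Pi.smul_apply, smul_eq_mul]
        have := dl_pair q (c, d)
        rw [if_neg (fun h => hq h.symm)] at this
        rw [this, mul_zero]
      · intro h; exact absurd (mem_univ _) h
    · simp at ht
  rw [h1, map_sum, Finset.sum_apply]
  refine sum_congr rfl fun q _ => ?_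
  rw [map_smul, Pi.smul_apply, smul_eq_mul, mul_comm]
  rfl

lemma app2 {A : LF N →ₗ[ℂ] LF N} (hA : Loc 2 2 A) {X : Matrix (I2 N) (I2 N) ℂ} (hX : Rp A X)
    (f : LF N) (a b : Fin N) (r : List (Fin N)) :
    A f (a :: b :: r) = ∑ q : I2 N, X (a, b) q * f (q.1 :: q.2 :: r) := by
  have h1 := hA.app f [a, b] r rfl
  rw [hX] at h1
  exact h1

lemma Rp_unique {A : LF N →ₗ[ℂ] LF N} {X Y : Matrix (I2 N) (I2 N) ℂ} (hX : Rp A X) (hY : Rp A Y) :
    X = Y := by
  ext p q
  have h1 := hX (dl q) p.1 p.2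
  have h2 := hY (dl q) p.1 p.2
  rw [h1] at h2
  have hd : ∀ (Z : I2 N → ℂ) (q : I2 N), ∑ p : I2 N, Z p * dl q [p.1, p.2] = Z q := by
    intro Y q
    rw [sum_eq_single q]
    · rw [dl_pair, if_pos rfl, mul_one]
    · intro p _ hp
      rw [dl_pair, if_neg hp, mul_zero]
    · intro h; exact absurd (mem_univ _) h
  rw [hd, hd] at h2
  exact h2

lemma Rp_comp {A B : LF N →ₗ[ℂ] LF N} {X Y : Matrix (I2 N) (I2 N) ℂ} (hA : Rp A X) (hB : Rp B Y) :
    Rp (B ∘ₗ A) (Y * X) := by
  intro f a b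
  rw [LinearMap.comp_apply, hB]
  have h1 : ∀ q : I2 N, Y (a, b) q * A f [q.1, q.2] = ∑ r : I2 N, Y (a, b) q * X q r * f [r.1, r.2] := by
    intro q
    rw [hA f q.1 q.2, mul_sum]
    refine sum_congr rfl fun r _ => ?_
    ring
  rw [sum_congr rfl fun q _ => h1 q, sum_comm]
  refine sum_congr rfl fun r _ => ?_
  rw [Matrix.mul_apply, sum_mul]

lemma Rp_id : Rp (LinearMap.id : LF N →ₗ[ℂ] LF N) 1 := by
  intro f a b
  rw [sum_eq_single (a, b)]
  · rw [Matrix.one_apply_eq, one_mul]; rfl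
  · intro q _ hq
    rw [Matrix.one_apply_ne (fun h => hq h.symm), zero_mul]
  · intro h; exact absurd (mem_univ _) h

lemma Rp_mat (X : Matrix (I2 N) (I2 N) ℂ) : Rp (matL X) X := fun _ _ _ => rfl

lemma Loc_rot {v : ℂ} {A : LF N →ₗ[ℂ] LF N} (hA : Loc 2 2 A) : Loc 2 2 (rotL v A) :=
  ((Loc_cup v).pad 2).comp ((hA.sh.pad 1).comp (Loc_cap v).sh.sh)

lemma Rp_rot {v : ℂ} {A : LF N →ₗ[ℂ] LF N} (hA : Loc 2 2 A) {X : Matrix (I2 N) (I2 N) ℂ}
    (hX : Rp A X) : Rp (rotL v A) (rho v X) := by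
  intro f a b
  rw [← Rp_rho_aux v X f a b]
  unfold rotL
  simp only [LinearMap.comp_apply]
  change ∑ q : I2 N, capv N v q * (A (fun t => cupL N v f (a :: t)) (b :: q.1 :: [q.2])) =
    ∑ q : I2 N, capv N v q * (matL X (fun t => cupL N v f (a :: t)) (b :: q.1 :: [q.2]))
  refine sum_congr rfl fun q _ => ?_
  rw [app2 hA hX]
  rfl

/-! ### diagrams -/

/-- the pieces of a diagram -/
inductive Pc
  | cup (i : ℕ)
  | cap (i : ℕ)
  | cross (i : ℕ) (σ : Bool)

/-- shift by one strand -/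
def Pc.shift : Pc → Pc
  | .cup i => .cup (i + 1)
  | .cap i => .cap (i + 1)
  | .cross i σ => .cross (i + 1) σ

/-- the reflected piece -/
def Pc.star : Pc → Pc
  | .cup i => .cap i
  | .cap i => .cup i
  | .cross i σ => .cross i (!σ)

/-- the number of strands above the piece -/
def Pc.strands : Pc → ℕ → Option ℕ
  | .cup i, n => if i ≤ n then some (n + 2) else none
  | .cap i, n => if i + 2 ≤ n then some (n - 2) else none
  | .cross i _, n => if i + 2 ≤ n then some n else none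

/-- the operator of a piece -/
noncomputable def Pc.op (N : ℕ) (v : ℂ) : Pc → (LF N →ₗ[ℂ] LF N)
  | .cup i => sh^[i] (cupL N v)
  | .cap i => sh^[i] (capL N v)
  | .cross i σ => sh^[i] (matL (if σ then crossP N v else crossN N v))

/-- a diagram with `n` strands below and `m` strands above -/
def Is (n m : ℕ) (D : List Pc) : Prop := D.foldl (fun k P => k.bind P.strands) (some n) = some m

lemma foldl_none (D : List Pc) :
    D.foldl (fun k P => k.bind P.strands) (none : Option ℕ) = none := by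
  induction D with
  | nil => rfl
  | cons P D ih => rw [List.foldl_cons]; exact ih

lemma Is_nil (n m : ℕ) : Is n m [] ↔ n = m := by
  unfold Is
  simp

lemma Is_cons (n m : ℕ) (P : Pc) (D : List Pc) :
    Is n m (P :: D) ↔ ∃ k, P.strands n = some k ∧ Is k m D := by
  unfold Is
  rw [List.foldl_cons]
  change D.foldl (fun k P => k.bind P.strands) (P.strands n) = some m ↔ _
  constructor
  · intro h
    rcases hP : P.strands n with _ | k
    · rw [hP, foldl_none] at h
      exact absurd h (by simp)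
    · rw [hP] at h
      exact ⟨k, rfl, h⟩
  · rintro ⟨k, h1, h2⟩
    rw [h1]
    exact h2

lemma Is_append {n k m : ℕ} {D E : List Pc} (hD : Is n k D) (hE : Is k m E) : Is n m (D ++ E) := by
  unfold Is at *
  rw [List.foldl_append, hD, hE]

/-- the operator of a diagram -/
noncomputable def runL (N : ℕ) (v : ℂ) (D : List Pc) : LF N →ₗ[ℂ] LF N :=
  D.foldl (fun A P => P.op N v ∘ₗ A) LinearMap.id

lemma runL_aux (v : ℂ) (D : List Pc) (A : LF N →ₗ[ℂ] LF N) :
    D.foldl (fun A P => P.op N v ∘ₗ A) A = runL N v D ∘ₗ A := by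
  induction D generalizing A with
  | nil => rfl
  | cons P D ih =>
    unfold runL
    rw [List.foldl_cons, List.foldl_cons, ih, ih (Pc.op N v P ∘ₗ LinearMap.id)]
    rfl

lemma runL_nil (v : ℂ) : runL N v [] = LinearMap.id := rfl

lemma runL_cons (v : ℂ) (P : Pc) (D : List Pc) :
    runL N v (P :: D) = runL N v D ∘ₗ P.op N v := by
  unfold runL
  rw [List.foldl_cons, runL_aux]
  rfl

lemma runL_append (v : ℂ) (D E : List Pc) :
    runL N v (D ++ E) = runL N v E ∘ₗ runL N v D := by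
  unfold runL
  rw [List.foldl_append, runL_aux]
  rfl

lemma sh_comp (A B : LF N →ₗ[ℂ] LF N) (f : LF N) (a : Fin N) (r : List (Fin N)) :
    (sh B ∘ₗ sh A) f (a :: r) = sh (B ∘ₗ A) f (a :: r) := by
  rw [LinearMap.comp_apply, sh_cons, sh_cons, LinearMap.comp_apply]
  rfl

lemma Loc_iter {n m : ℕ} {A : LF N →ₗ[ℂ] LF N} (hA : Loc n m A) (i : ℕ) :
    Loc (n + i) (m + i) (sh^[i] A) := by
  induction i with
  | zero => exact hA
  | succ i ih => rw [Function.iterate_succ_apply']; exact ih.sh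

lemma Loc_op (v : ℂ) (P : Pc) {n m : ℕ} (h : P.strands n = some m) : Loc n m (P.op N v) := by
  rcases P with i | i | ⟨i, σ⟩
  · simp only [Pc.strands] at h
    split_ifs at h with hi
    have h1 : n + 2 = m := Option.some.inj h
    have h2 := (Loc_iter (Loc_cup (N := N) v) i).pad (n - i)
    have e1 : 0 + i + (n - i) = n := by omega
    have e2 : 2 + i + (n - i) = m := by omega
    rw [e1, e2] at h2
    exact h2
  · simp only [Pc.strands] at h
    split_ifs at h with hi
    have h1 : n - 2 = m := Option.some.inj h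
    have h2 := (Loc_iter (Loc_cap (N := N) v) i).pad (n - 2 - i)
    have e1 : 2 + i + (n - 2 - i) = n := by omega
    have e2 : 0 + i + (n - 2 - i) = m := by omega
    rw [e1, e2] at h2
    exact h2
  · simp only [Pc.strands] at h
    split_ifs at h with hi
    have h1 : n = m := Option.some.inj h
    have h2 := (Loc_iter (Loc_mat (if σ then crossP N v else crossN N v)) i).pad (n - 2 - i)
    have e1 : 2 + i + (n - 2 - i) = n := by omega
    rw [e1] at h2
    rw [← h1]
    exact h2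

lemma Loc_run (v : ℂ) (D : List Pc) : ∀ {n m : ℕ}, Is n m D → Loc n m (runL N v D) := by
  induction D with
  | nil =>
    intro n m h
    rw [Is_nil] at h
    subst h
    exact Loc.id n
  | cons P D ih =>
    intro n m h
    rw [Is_cons] at h
    obtain ⟨k, h1, h2⟩ := h
    rw [runL_cons]
    exact (Loc_op v P h1).comp (ih h2)

/-! ### the operators commute with the action -/

lemma InA_P {v : ℂ} (hv : Adm N v) : InA v (crossP N v) :=
  ⟨Pool.Agent.W715.VC.P_comm_E hv, Pool.Agent.W715.VC.P_comm_F hv,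
    fun _ _ h => Pool.Agent.W715.VC.P_wt h⟩

lemma InA_N {v : ℂ} (hv : Adm N v) : InA v (crossN N v) :=
  ⟨Pool.Agent.W715.VC.comm_inv (Pool.Agent.W715.VC.PQ hv) (Pool.Agent.W715.VC.QP hv)
      (Pool.Agent.W715.VC.P_comm_E hv),
    Pool.Agent.W715.VC.comm_inv (Pool.Agent.W715.VC.PQ hv) (Pool.Agent.W715.VC.QP hv)
      (Pool.Agent.W715.VC.P_comm_F hv),
    fun _ _ h => Pool.Agent.W715.VC.Q_wt h⟩

lemma Cm_iter {v : ℂ} {A : LF N →ₗ[ℂ] LF N} (hA : Cm v A) (i : ℕ) : Cm v (sh^[i] A) := by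
  induction i with
  | zero => exact hA
  | succ i ih => rw [Function.iterate_succ_apply']; exact ih.sh

lemma Cm_op {v : ℂ} (hv : Adm N v) (P : Pc) : Cm v (P.op N v) := by
  rcases P with i | i | ⟨i, σ⟩
  · exact Cm_iter (Cm_cup hv) i
  · exact Cm_iter (Cm_cap hv) i
  · refine Cm_iter (Cm_mat hv.1 ?_) i
    cases σ with
    | true => rw [if_pos rfl]; exact InA_P hv
    | false => rw [if_neg (by simp)]; exact InA_N hv

lemma Cm_run {v : ℂ} (hv : Adm N v) (D : List Pc) : Cm v (runL N v D) := by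
  induction D with
  | nil => exact Cm.id v
  | cons P D ih => rw [runL_cons]; exact ih.comp (Cm_op hv P)

/-- the matrix of a diagram -/
noncomputable def MM (N : ℕ) (v : ℂ) (D : List Pc) : Matrix (I2 N) (I2 N) ℂ := mt (runL N v D)

lemma Rp_MM (v : ℂ) {D : List Pc} (hD : Is 2 2 D) : Rp (runL N v D) (MM N v D) :=
  Rp_mt (Loc_run v D hD)

lemma InA_MM {v : ℂ} (hv : Adm N v) {D : List Pc} (hD : Is 2 2 D) : InA v (MM N v D) :=
  InA_of hv.1 (Cm_run hv D) (Rp_MM v hD)

lemma MM_append (v : ℂ) {D E : List Pc} (hD : Is 2 2 D) (hE : Is 2 2 E) :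
    MM N v (D ++ E) = MM N v E * MM N v D := by
  apply Rp_unique (Rp_MM v (Is_append hD hE))
  rw [runL_append]
  exact Rp_comp (Rp_MM v hD) (Rp_MM v hE)

end Pool.Agent.Q191.RP
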