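import Pool.Agent.Q191.RP.Chain

/-!
# Growth rates
-/

set_option autoImplicit false

namespace Pool.Agent.Q191.RP

open Matrix Finset Filter Topology
open scoped Kronecker Real
open Pool.Agent.H550R3.Jones (WM IsMod IsInt Gen br brf tens irr W crossP crossN Adm)
open Pool.Agent.H927R2.J.SanYB (brf_ne)
open Pool.Agent.W715.VC (brf_succ' rt)
open GapVol (lob)

/-- the value at `exp (π i / N)` -/
noncomputable def kv (D : List Pc) (N : ℕ) : ℂ := if h : 0 < N then val (N := N) (rt N) h D else 0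

/-- growth rate at most `V` -/
def UB (D : List Pc) (V : ℝ) : Prop :=
  ∀ ε : ℝ, 0 < ε → ∀ᶠ N : ℕ in atTop, ‖kv D N‖ ≤ Real.exp (N * (V + ε) / (2 * π))

/-- growth rate at least `V` -/
def LBd (D : List Pc) (V : ℝ) : Prop :=
  ∀ ε : ℝ, 0 < ε → ∀ᶠ N : ℕ in atTop, Real.exp (N * (V - ε) / (2 * π)) ≤ ‖kv D N‖

lemma kv_dbl {N : ℕ} (hN : 2 ≤ N) {T : List Pc} (hT : Is 2 2 T) :
    kv (dbl T) N = (nq (N := N) (rt N) (MM N (rt N) T) : ℝ) := by
  unfold kv
  rw [dif_pos (by omega)]
  exact val_dbl (Kr_rt (by omega)).good hN hT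

lemma norm_kv_dbl {N : ℕ} (hN : 2 ≤ N) {T : List Pc} (hT : Is 2 2 T) :
    ‖kv (dbl T) N‖ = nq (N := N) (rt N) (MM N (rt N) T) := by
  rw [kv_dbl hN hT, Complex.norm_real, Real.norm_of_nonneg]
  exact nq_nonneg (Kr_rt (by omega)).good _

lemma pow_le_exp (c : ℕ) {η : ℝ} (hη : 0 < η) : ∀ᶠ N : ℕ in atTop, (N : ℝ) ^ c ≤ Real.exp (η * N) := by
  have h := isLittleO_pow_exp_pos_mul_atTop c hη
  have h1 := (h.bound (show (0 : ℝ) < 1 by norm_num))
  have h2 := tendsto_natCast_atTop_atTop (R := ℝ) |>.eventually h1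
  filter_upwards [h2] with N hN
  rw [one_mul, Real.norm_of_nonneg (by positivity), Real.norm_of_nonneg (Real.exp_pos _).le] at hN
  exact hN

/-- the growth rate of two tangles joined by a rational region -/
theorem ub_glue {S T : List Pc} (hS : Is 2 2 S) (hT : Is 2 2 T) {a b : ℝ} (ha : UB (dbl S) a)
    (hb : UB (dbl T) b) (w u : List Mv) :
    UB (glue (bld w S) (bld u T)) ((a + b) / 2 + 2 * (3 * lob (π / 3)) * ((cnt w + cnt u : ℕ) : ℝ)) := by
  intro ε hε
  set c := cnt w + cnt u with hc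
  have hpi := Real.pi_pos
  set δ : ℝ := ε / 3 with hδ
  set η : ℝ := ε / (6 * π * (c + 1)) with hη
  have hη0 : 0 < η := by positivity
  filter_upwards [ha δ (by positivity), hb δ (by positivity), qbin_growth η hη0,
    pow_le_exp c (show 0 < ε / (6 * π) by positivity), eventually_ge_atTop 2] with N h1 h2 h3 h4 hN
  have hKr := Kr_rt (N := N) (by omega)
  set B : ℝ := Real.exp (N / π * (3 * lob (π / 3)) + η * N) with hB
  have hB0 : 0 ≤ B := (Real.exp_pos _).le
  rw [norm_kv_dbl hN hS] at h1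
  rw [norm_kv_dbl hN hT] at h2
  have n1 := nq_bld hKr hN hB0 h3 w hS
  have n2 := nq_bld hKr hN hB0 h3 u hT
  have n0 := val_cs hKr.good hN (Is_bld w hS) (Is_bld u hT)
  have p1 := nq_nonneg hKr.good (MM N (rt N) S)
  have p2 := nq_nonneg hKr.good (MM N (rt N) T)
  have q2 := nq_nonneg hKr.good (MM N (rt N) (bld u T))
  have e1 : ‖kv (glue (bld w S) (bld u T)) N‖ ^ 2 ≤ ((((N : ℝ) * B) ^ 2) ^ cnt w *
      Real.exp (N * (a + δ) / (2 * π))) * ((((N : ℝ) * B) ^ 2) ^ cnt u *
      Real.exp (N * (b + δ) / (2 * π))) := by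
    unfold kv
    rw [dif_pos (by omega : 0 < N)]
    refine n0.trans ?_
    have m1 : nq (rt N) (MM N (rt N) (bld w S)) ≤ (((N : ℝ) * B) ^ 2) ^ cnt w *
        Real.exp (N * (a + δ) / (2 * π)) := n1.trans (by gcongr)
    have m2 : nq (rt N) (MM N (rt N) (bld u T)) ≤ (((N : ℝ) * B) ^ 2) ^ cnt u *
        Real.exp (N * (b + δ) / (2 * π)) := n2.trans (by gcongr)
    exact mul_le_mul m1 m2 q2 (by positivity)
  have e2 : ((((N : ℝ) * B) ^ 2) ^ cnt w * Real.exp (N * (a + δ) / (2 * π))) *
      ((((N : ℝ) * B) ^ 2) ^ cnt u * Real.exp (N * (b + δ) / (2 * π))) =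
      ((N : ℝ) ^ c * B ^ c * Real.exp (N * (a + b + 2 * δ) / (4 * π))) ^ 2 := by
    have g1 : Real.exp (N * (a + δ) / (2 * π)) * Real.exp (N * (b + δ) / (2 * π)) =
        Real.exp (N * (a + b + 2 * δ) / (4 * π)) ^ 2 := by
      rw [← Real.exp_add, ← Real.exp_nat_mul]
      congr 1
      push_cast
      field_simp
      ring
    have g2 : (((N : ℝ) * B) ^ 2) ^ cnt w * (((N : ℝ) * B) ^ 2) ^ cnt u =
        ((N : ℝ) ^ c * B ^ c) ^ 2 := by
      rw [← pow_add, ← mul_pow, ← pow_mul, ← pow_mul, mul_comm 2]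
    calc _ = ((((N : ℝ) * B) ^ 2) ^ cnt w * (((N : ℝ) * B) ^ 2) ^ cnt u) *
          (Real.exp (N * (a + δ) / (2 * π)) * Real.exp (N * (b + δ) / (2 * π))) := by ring
      _ = _ := by rw [g1, g2]; ring
  rw [e2] at e1
  have e3 : ‖kv (glue (bld w S) (bld u T)) N‖ ≤
      (N : ℝ) ^ c * B ^ c * Real.exp (N * (a + b + 2 * δ) / (4 * π)) :=
    le_of_sq_le_sq e1 (by positivity)
  refine e3.trans ?_
  have e4 : B ^ c = Real.exp (c * (N / π * (3 * lob (π / 3)) + η * N)) := by
    rw [hB, ← Real.exp_nat_mul]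
  calc (N : ℝ) ^ c * B ^ c * Real.exp (N * (a + b + 2 * δ) / (4 * π)) ≤
      Real.exp (ε / (6 * π) * N) * Real.exp (c * (N / π * (3 * lob (π / 3)) + η * N)) *
        Real.exp (N * (a + b + 2 * δ) / (4 * π)) := by
        rw [e4]
        gcongr
    _ = Real.exp (ε / (6 * π) * N + c * (N / π * (3 * lob (π / 3)) + η * N) +
        N * (a + b + 2 * δ) / (4 * π)) := by rw [Real.exp_add, Real.exp_add]
    _ ≤ Real.exp (N * ((a + b) / 2 + 2 * (3 * lob (π / 3)) * (c : ℝ) + ε) / (2 * π)) := by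
        rw [Real.exp_le_exp]
        have hc1 : (c : ℝ) * η ≤ ε / (6 * π) := by
          rw [hη]
          rw [mul_div_assoc', div_le_div_iff₀ (by positivity) (by positivity)]
          have : (0 : ℝ) ≤ c := Nat.cast_nonneg c
          nlinarith [mul_pos hε hpi]
        have hN0 : (0 : ℝ) ≤ N := Nat.cast_nonneg N
        have h5 : (c : ℝ) * η * N ≤ ε / (6 * π) * N := mul_le_mul_of_nonneg_right hc1 hN0
        have h6 : N * ((a + b) / 2 + 2 * (3 * lob (π / 3)) * (c : ℝ) + ε) / (2 * π) =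
            ε / (6 * π) * N + ε / (6 * π) * N + c * (N / π * (3 * lob (π / 3))) +
              N * (a + b + 2 * δ) / (4 * π) := by
          rw [hδ]
          field_simp
          ring
        rw [h6, mul_add]
        linarith

/-! ### the figure eight knot -/

lemma MM_two (N : ℕ) (v : ℂ) (σ : Bool) : MM N v [Pc.cross 0 σ, Pc.cross 0 σ] =
    (if σ then crossP N v else crossN N v) * (if σ then crossP N v else crossN N v) := by
  have h := MM_append (N := N) v (Is_cross σ) (Is_cross σ)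
  rw [MM_cross] at h
  exact h

lemma Is_two (σ : Bool) : Is 2 2 [Pc.cross 0 σ, Pc.cross 0 σ] := Is_append (Is_cross σ) (Is_cross σ)

lemma nq_MM_two {N : ℕ} (hN : 2 ≤ N) (σ : Bool) :
    nq (N := N) (rt N) (MM N (rt N) [Pc.cross 0 σ, Pc.cross 0 σ]) = ∑ i : Fin N, ‖brf (rt N) i‖ ^ 2 := by
  have hKr := Kr_rt (N := N) (by omega)
  rw [MM_two]
  cases σ with
  | true => rw [if_pos rfl]; exact nq_two hKr
  | false =>
    rw [if_neg (by simp)]
    have h1 : stm (rt N) (crossP N (rt N) * crossP N (rt N)) = crossN N (rt N) * crossN N (rt N) := by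
      rw [stm_mul hKr.adm, stm_P hKr.adm hKr.cj]
    rw [← h1, nq_stm hKr.good ((InA_P hKr.adm).mul (InA_P hKr.adm))]
    exact nq_two hKr

lemma ub_two (σ : Bool) : UB (dbl [Pc.cross 0 σ, Pc.cross 0 σ]) (2 * (3 * lob (π / 3))) := by
  intro ε hε
  have hpi := Real.pi_pos
  filter_upwards [brf_growth (ε / (4 * π)) (by positivity),
    pow_le_exp 1 (show 0 < ε / (4 * π) by positivity), eventually_ge_atTop 2] with N h1 h2 hN
  rw [norm_kv_dbl hN (Is_two σ), nq_MM_two hN σ]
  calc ∑ i : Fin N, ‖brf (rt N) i‖ ^ 2 ≤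
      ∑ _i : Fin N, Real.exp (N / π * (3 * lob (π / 3)) + ε / (4 * π) * N) :=
        sum_le_sum fun i _ => h1 i i.2
    _ = (N : ℝ) ^ 1 * Real.exp (N / π * (3 * lob (π / 3)) + ε / (4 * π) * N) := by
        rw [sum_const, card_univ, Fintype.card_fin, nsmul_eq_mul, pow_one]
    _ ≤ Real.exp (ε / (4 * π) * N) * Real.exp (N / π * (3 * lob (π / 3)) + ε / (4 * π) * N) := by
        gcongr
    _ = Real.exp (N * (2 * (3 * lob (π / 3)) + ε) / (2 * π)) := by
        rw [← Real.exp_add]
        congr 1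
        field_simp
        ring

/-! ### two-bridge links -/

/-- the moves of a twist region -/
def tw (a : ℤ) : List Mv := List.replicate a.natAbs (Mv.cross (decide (0 < a)))

/-- the moves of a sequence of twist regions -/
def wd : List ℤ → List Mv
  | [] => []
  | a :: l => Mv.turn :: (tw a ++ wd l)

/-- the two-bridge link -/
def tb : List ℤ → List Pc
  | [] => denom []
  | a :: l => denom (bld (tw a ++ wd l) [])

lemma cnt_rep (n : ℕ) (σ : Bool) : cnt (List.replicate n (Mv.cross σ)) = n := by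
  induction n with
  | zero => rfl
  | succ n ih => rw [List.replicate_succ, cnt, ih]

lemma cnt_wd (l : List ℤ) : cnt (wd l) = (l.map Int.natAbs).sum := by
  induction l with
  | nil => rfl
  | cons a l ih =>
    rw [wd, cnt, cnt_append, ih, List.map_cons, List.sum_cons]
    unfold tw
    rw [cnt_rep]

lemma bld_rep (n : ℕ) (σ : Bool) (T : List Pc) :
    bld (List.replicate n (Mv.cross σ)) T = T ++ List.replicate n (Pc.cross 0 σ) := by
  induction n generalizing T with
  | zero => simp [bld]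
  | succ n ih =>
    rw [List.replicate_succ, bld, ih, List.replicate_succ, List.append_assoc]
    rfl

lemma wd_append (l m : List ℤ) : wd (l ++ m) = wd l ++ wd m := by
  induction l with
  | nil => rfl
  | cons a l ih => rw [List.cons_append, wd, wd, ih]; simp

theorem ub_tb (a b : ℤ) (m : List ℤ) (ha : 2 ≤ a.natAbs) (hb : 2 ≤ b.natAbs) :
    UB (tb (a :: (m ++ [b]))) (2 * (3 * lob (π / 3)) *
      (((a :: (m ++ [b])).map Int.natAbs).sum - 3 : ℕ)) := by
  set σ := decide (0 < a) with hσ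
  set τ := decide (0 < b) with hτ
  set X := bld (List.replicate (a.natAbs - 2) (Mv.cross σ) ++ wd m) [Pc.cross 0 σ, Pc.cross 0 σ] with hX
  set Y := bld (List.replicate (b.natAbs - 2) (Mv.cross τ)) [Pc.cross 0 τ, Pc.cross 0 τ] with hY
  have h1 : tb (a :: (m ++ [b])) = glue X Y := by
    change denom (bld (tw a ++ wd (m ++ [b])) []) = _
    rw [glue_eq, wd_append, ← List.append_assoc, bld_append]
    have e1 : bld (tw a ++ wd m) [] = X := by
      unfold tw
      obtain ⟨n, hn⟩ : ∃ n, a.natAbs = n + 2 := ⟨a.natAbs - 2, by omega⟩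
      rw [hX, hn, Nat.add_sub_cancel, List.replicate_succ, List.replicate_succ]
      rfl
    have e2 : bld (wd [b]) (bld (tw a ++ wd m) []) = rot (bld (tw a ++ wd m) []) ++ Y := by
      unfold wd wd tw
      rw [List.append_nil, bld, bld_rep, hY, bld_rep]
      obtain ⟨n, hn⟩ : ∃ n, b.natAbs = n + 2 := ⟨b.natAbs - 2, by omega⟩
      rw [hn, Nat.add_sub_cancel, List.replicate_succ, List.replicate_succ]
      rfl
    rw [e2, e1]
  rw [h1]
  have h2 := ub_glue (Is_two σ) (Is_two τ) (ub_two σ) (ub_two τ)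
    (List.replicate (a.natAbs - 2) (Mv.cross σ) ++ wd m) (List.replicate (b.natAbs - 2) (Mv.cross τ))
  have h3 : (2 * (3 * lob (π / 3)) + 2 * (3 * lob (π / 3))) / 2 + 2 * (3 * lob (π / 3)) *
      ((cnt (List.replicate (a.natAbs - 2) (Mv.cross σ) ++ wd m) +
        cnt (List.replicate (b.natAbs - 2) (Mv.cross τ)) : ℕ) : ℝ) =
      2 * (3 * lob (π / 3)) * (((a :: (m ++ [b])).map Int.natAbs).sum - 3 : ℕ) := by
    rw [cnt_append, cnt_rep, cnt_rep, cnt_wd, List.map_cons, List.sum_cons, List.map_append,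
      List.sum_append, List.map_cons, List.map_nil, List.sum_cons, List.sum_nil]
    have e3 : a.natAbs + ((m.map Int.natAbs).sum + (b.natAbs + 0)) - 3 =
        (a.natAbs - 2 + (m.map Int.natAbs).sum + (b.natAbs - 2)) + 1 := by omega
    rw [e3]
    push_cast
    ring
  rw [h3] at h2
  exact h2

/-! ### lower bounds -/

/-- the double of a tangle and its closures -/
theorem lb_dbl {T : List Pc} (hT : Is 2 2 T) {V : ℝ}
    (h : LBd (numer T) V ∨ LBd (denom T) V) : LBd (dbl T) (2 * V) := by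
  intro ε hε
  have hpi := Real.pi_pos
  have key : ∀ N : ℕ, 2 ≤ N → ‖kv (numer T) N‖ ^ 2 + ‖kv (denom T) N‖ ^ 2 ≤ ‖kv (dbl T) N‖ := by
    intro N hN
    have hKr := Kr_rt (N := N) (by omega)
    have h1 := nq_ge hKr hN (InA_MM hKr.adm hT)
    rw [norm_kv_dbl hN hT]
    unfold kv
    rw [dif_pos (by omega), dif_pos (by omega), val_numer hKr.adm _ hT, val_denom _ _ hT]
    exact h1
  have hsq : ∀ (N : ℕ), Real.exp (N * (2 * V - ε) / (2 * π)) =
      Real.exp (N * (V - ε / 2) / (2 * π)) ^ 2 := by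
    intro N
    rw [← Real.exp_nat_mul]
    congr 1
    push_cast
    field_simp
  rcases h with h | h
  · filter_upwards [h (ε / 2) (by positivity), eventually_ge_atTop 2] with N h1 hN
    have h2 := key N hN
    rw [hsq]
    have h3 : Real.exp (N * (V - ε / 2) / (2 * π)) ^ 2 ≤ ‖kv (numer T) N‖ ^ 2 := by gcongr
    have h4 : 0 ≤ ‖kv (denom T) N‖ ^ 2 := by positivity
    linarith
  · filter_upwards [h (ε / 2) (by positivity), eventually_ge_atTop 2] with N h1 hN
    have h2 := key N hN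
    rw [hsq]
    have h3 : Real.exp (N * (V - ε / 2) / (2 * π)) ^ 2 ≤ ‖kv (denom T) N‖ ^ 2 := by gcongr
    have h4 : 0 ≤ ‖kv (numer T) N‖ ^ 2 := by positivity
    linarith

/-- zigzag tangles: `C(2, 1, …, 1)` -/
def zig : ℕ → List Pc
  | 0 => [Pc.cross 0 false, Pc.cross 0 false]
  | n + 1 => rot (zig n) ++ [Pc.cross 0 (decide (n % 2 = 0))]

lemma Is_zig : ∀ n, Is 2 2 (zig n)
  | 0 => Is_two false
  | n + 1 => Is_append (Is_rot (Is_zig n)) (Is_cross _)

/-- the norms of the zigzag tangles -/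
noncomputable def zm (N : ℕ) (v : ℂ) : ℕ → ℝ
  | 0 => nq (N := N) v (crossN N v)
  | n + 1 => nq (N := N) v (MM N v (zig n))

lemma zm_logconv {N : ℕ} {v : ℂ} (hv : Good N v) (hN : 2 ≤ N) (n : ℕ) :
    zm N v (n + 1) ^ 2 ≤ zm N v n * zm N v (n + 2) := by
  have hA := hv.adm
  have hc := hv.cj
  -- general step
  have hstep : ∀ (σ : Bool) (Y Z : Matrix (I2 N) (I2 N) ℂ), InA v Y → InA v Z →
      Z = (if σ then crossP N v else crossN N v) * rho v Y →
      nq v Z ^ 2 ≤ nq v Y * nq v ((if !σ then crossP N v else crossN N v) * rho v Z) := by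
    intro σ Y Z hY _ hZ
    subst hZ
    cases σ with
    | true =>
      have h := nq_logconv hv hN (InA_N hA) hY
      rw [stm_N hA hc] at h
      simpa using h
    | false =>
      have h := nq_logconv hv hN (InA_P hA) hY
      rw [stm_P hA hc] at h
      simpa using h
  rcases n with _ | n
  · -- start
    have h1 : MM N v (zig 0) = crossN N v * crossN N v := by
      unfold zig
      rw [MM_two]; simp
    have h2 : MM N v (zig 1) = crossP N v * rho v (MM N v (zig 0)) := by
      change MM N v (rot (zig 0) ++ [Pc.cross 0 (decide (0 % 2 = 0))]) = _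
      rw [MM_append v (Is_rot (Is_zig 0)) (Is_cross _), MM_rot v (Is_zig 0), MM_cross]
      simp
    have h3 := hstep false (rhi v (crossN N v)) (MM N v (zig 0)) (InA_rhi hA (InA_N hA))
      (InA_MM hA (Is_zig 0)) (by rw [h1, rho_rhi hA]; simp)
    have h4 : nq v (rhi v (crossN N v)) = nq v (crossN N v) := by
      rw [← nq_rho hv hN (InA_rhi hA (InA_N hA)), rho_rhi hA]
    change nq v (MM N v (zig 0)) ^ 2 ≤ nq v (crossN N v) * nq v (MM N v (zig 1))
    rw [h4] at h3
    rw [h2]
    simpa using h3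
  · have hz : ∀ k, MM N v (zig (k + 1)) =
        (if decide (k % 2 = 0) then crossP N v else crossN N v) * rho v (MM N v (zig k)) := by
      intro k
      change MM N v (rot (zig k) ++ [Pc.cross 0 (decide (k % 2 = 0))]) = _
      rw [MM_append v (Is_rot (Is_zig k)) (Is_cross _), MM_rot v (Is_zig k), MM_cross]
    have h3 := hstep (decide (n % 2 = 0)) (MM N v (zig n)) (MM N v (zig (n + 1)))
      (InA_MM hA (Is_zig n)) (InA_MM hA (Is_zig (n + 1))) (hz n)
    change nq v (MM N v (zig (n + 1))) ^ 2 ≤ nq v (MM N v (zig n)) * nq v (MM N v (zig (n + 2)))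
    rw [hz (n + 1)]
    have h5 : (!decide (n % 2 = 0)) = decide ((n + 1) % 2 = 0) := by
      rcases Nat.mod_two_eq_zero_or_one n with h | h
      · have h6 : ¬ (n + 1) % 2 = 0 := by omega
        simp [h, h6]
      · have h6 : (n + 1) % 2 = 0 := by omega
        simp [h, h6]
    rw [h5] at h3
    exact h3

lemma zm_zero {N : ℕ} {v : ℂ} (hv : Kr N v) : zm N v 0 = N := by
  change nq v (crossN N v) = N
  rw [← stm_P hv.adm hv.cj, nq_stm hv.good (InA_P hv.adm), nq_cross hv]

/-- the lower bound for the doubles of the zigzag tangles -/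
theorem lb_zig (n : ℕ) : LBd (dbl (zig n)) (2 * (3 * lob (π / 3)) * (n + 1)) := by
  intro ε hε
  have hpi := Real.pi_pos
  set η : ℝ := ε / (4 * π * (n + 1)) with hη
  have hη0 : 0 < η := by positivity
  filter_upwards [brf_lower η hη0, pow_le_exp n (show 0 < ε / (4 * π) by positivity),
    eventually_ge_atTop 2] with N h1 h2 hN
  have hKr := Kr_rt (N := N) (by omega)
  have hN0 : (0 : ℝ) < N := by exact_mod_cast (by omega : 0 < N)
  have h0 : 0 < zm N (rt N) 0 := by rw [zm_zero hKr]; exact hN0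
  have hnn : ∀ k, 0 ≤ zm N (rt N) k := by
    intro k
    cases k with
    | zero => exact h0.le
    | succ k => exact nq_nonneg hKr.good _
  have h3 := logconv_pow h0 hnn (fun k => zm_logconv hKr.good hN k) n
  rw [zm_zero hKr] at h3
  have h4 : zm N (rt N) 1 = ∑ i : Fin N, ‖brf (rt N) i‖ ^ 2 := by
    change nq (rt N) (MM N (rt N) (zig 0)) = _
    exact nq_MM_two hN false
  rw [norm_kv_dbl hN (Is_zig n)]
  change _ ≤ zm N (rt N) (n + 1)
  rw [h4] at h3
  have h5 : Real.exp (N / π * (3 * lob (π / 3)) - η * N) ^ (n + 1) ≤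
      zm N (rt N) (n + 1) * Real.exp (ε / (4 * π) * N) := by
    calc Real.exp (N / π * (3 * lob (π / 3)) - η * N) ^ (n + 1) ≤
        (∑ i : Fin N, ‖brf (rt N) i‖ ^ 2) ^ (n + 1) := by gcongr
      _ ≤ zm N (rt N) (n + 1) * (N : ℝ) ^ n := h3
      _ ≤ zm N (rt N) (n + 1) * Real.exp (ε / (4 * π) * N) := by
          have := hnn (n + 1)
          gcongr
  have h6 : Real.exp (N * (2 * (3 * lob (π / 3)) * (n + 1) - ε) / (2 * π)) *
      Real.exp (ε / (4 * π) * N) =
      Real.exp (N / π * (3 * lob (π / 3)) - η * N) ^ (n + 1) := by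
    rw [← Real.exp_add, ← Real.exp_nat_mul]
    congr 1
    rw [hη]
    push_cast
    field_simp
    ring
  rw [← h6] at h5
  exact le_of_mul_le_mul_right h5 (Real.exp_pos _)

/-- the number of crossings -/
lemma ds_append (D E : List Pc) : ds (D ++ E) = ds E ++ ds D := by
  unfold ds
  rw [List.map_append, List.reverse_append]

/-- the upper bound for the doubles of the zigzag tangles -/
theorem ub_zig (n : ℕ) : UB (dbl (zig n)) (2 * (3 * lob (π / 3)) * (2 * n + 1)) := by
  -- the norm of `zig n`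
  have hw : ∀ n : ℕ, ∃ w : List Mv, zig n = bld w [Pc.cross 0 false, Pc.cross 0 false] ∧ cnt w = n := by
    intro n
    induction n with
    | zero => exact ⟨[], rfl, rfl⟩
    | succ n ih =>
      obtain ⟨w, h1, h2⟩ := ih
      refine ⟨w ++ [Mv.turn, Mv.cross (decide (n % 2 = 0))], ?_, ?_⟩
      · rw [bld_append, ← h1]
        rfl
      · rw [cnt_append, h2]
        rfl
  obtain ⟨w, h1, h2⟩ := hw n
  -- use the bound of the norm
  intro ε hε
  have hpi := Real.pi_pos
  -- the double is the square of the norm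
  set c := cnt w with hc
  set η : ℝ := ε / (8 * π * (c + 1)) with hη
  have hη0 : 0 < η := by positivity
  filter_upwards [ub_two false (ε / 4) (by positivity), qbin_growth η hη0,
    pow_le_exp (2 * c) (show 0 < ε / (8 * π) by positivity), eventually_ge_atTop 2] with N g1 g2 g3 hN
  have hKr := Kr_rt (N := N) (by omega)
  set B : ℝ := Real.exp (N / π * (3 * lob (π / 3)) + η * N) with hB
  rw [norm_kv_dbl hN (Is_two false)] at g1
  have n1 := nq_bld hKr hN (Real.exp_pos _).le g2 w (Is_two false)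
  rw [norm_kv_dbl hN (Is_zig n), h1]
  refine n1.trans ?_
  have e4 : (((N : ℝ) * B) ^ 2) ^ cnt w =
      (N : ℝ) ^ (2 * c) * Real.exp ((2 * c : ℕ) * (N / π * (3 * lob (π / 3)) + η * N)) := by
    rw [← hc, ← pow_mul, mul_pow, hB, ← Real.exp_nat_mul]
  calc (((N : ℝ) * B) ^ 2) ^ cnt w * nq (rt N) (MM N (rt N) [Pc.cross 0 false, Pc.cross 0 false]) ≤
      (Real.exp (ε / (8 * π) * N) * Real.exp ((2 * c : ℕ) * (N / π * (3 * lob (π / 3)) + η * N))) *
        Real.exp (N * (2 * (3 * lob (π / 3)) + ε / 4) / (2 * π)) := by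
        rw [e4]
        have hnn := nq_nonneg hKr.good (MM N (rt N) [Pc.cross 0 false, Pc.cross 0 false])
        gcongr
    _ = Real.exp (ε / (8 * π) * N + (2 * c : ℕ) * (N / π * (3 * lob (π / 3)) + η * N) +
        N * (2 * (3 * lob (π / 3)) + ε / 4) / (2 * π)) := by rw [Real.exp_add, Real.exp_add]
    _ ≤ Real.exp (N * (2 * (3 * lob (π / 3)) * (2 * n + 1) + ε) / (2 * π)) := by
        rw [Real.exp_le_exp]
        have hc1 : (c : ℝ) * η ≤ ε / (8 * π) := by
          rw [hη]
          rw [mul_div_assoc', div_le_div_iff₀ (by positivity) (by positivity)]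
          have : (0 : ℝ) ≤ c := Nat.cast_nonneg c
          nlinarith [mul_pos hε hpi]
        have hN0 : (0 : ℝ) ≤ N := Nat.cast_nonneg N
        have h5 : (c : ℝ) * η * N ≤ ε / (8 * π) * N := mul_le_mul_of_nonneg_right hc1 hN0
        have h6 : N * (2 * (3 * lob (π / 3)) * (2 * n + 1) + ε) / (2 * π) =
            4 * (ε / (8 * π) * N) + 2 * n * (N / π * (3 * lob (π / 3))) +
              N * (2 * (3 * lob (π / 3))) / (2 * π) := by
          field_simp
          ring
        have h7 : N * (2 * (3 * lob (π / 3)) + ε / 4) / (2 * π) =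
            N * (2 * (3 * lob (π / 3))) / (2 * π) + ε / (8 * π) * N := by
          field_simp
          ring
        rw [h6, h7]
        push_cast
        rw [h2, mul_add]
        rw [h2] at h5
        nlinarith

end Pool.Agent.Q191.RP
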