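import Pool.Agent.Q191.RP.Newton

/-!
# The bilinear form on the commutant
-/

set_option autoImplicit false

namespace Pool.Agent.Q191.RP

open Matrix Finset
open scoped Kronecker
open Pool.Agent.H550R3.Jones (WM IsMod IsInt Gen br brf tens irr W crossP crossN Adm)
open Pool.Agent.Q191.FT (lam lam_sub lam_neg Cas Cas_E Cas_F)
open Pool.Agent.H927R2.J.SanYB (brf_ne)
open Pool.Agent.W715.VC (brf_succ')

variable {N : ℕ}

/-- the Casimir operator is central -/
lemma xx_comm {v : ℂ} {T : Matrix (I2 N) (I2 N) ℂ} (hT : InA v T) :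
    xx N v * T = T * xx N v := by
  unfold xx Cas
  rw [add_mul, mul_add, mul_assoc, ← hT.e, ← mul_assoc, ← hT.f, mul_assoc]
  congr 1
  ext p q
  rw [diagonal_mul, mul_diagonal]
  by_cases h : T p q = 0
  · rw [h]; ring
  · have h1 := hT.k p q h
    have h2 : (W v N).wt p = (W v N).wt q := by
      rw [W_wt, W_wt]
      omega
    rw [h2]; ring

/-- the conjugated Casimir operator -/
noncomputable def YY (v : ℂ) (X : Matrix (I2 N) (I2 N) ℂ) : Matrix (I2 N) (I2 N) ℂ :=
  rhi v (xx N v * rho v X)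

lemma InA_YY {v : ℂ} (hv : Adm N v) {X : Matrix (I2 N) (I2 N) ℂ} (hX : InA v X) :
    InA v (YY v X) := InA_rhi hv ((InA_xx hv.1).mul (InA_rho hv hX))

lemma YY_zero {v : ℂ} (hv : Adm N v) (hN : 2 ≤ N) : YY v (PP N v 0) = lam v 1 • PP N v 0 := by
  apply InA_ext hv (InA_YY hv (InA_PP hv.1 0)) ((InA_PP hv.1 0).smul _)
  intro k hk
  unfold YY
  rw [tv_Y hv hN (InA_PP hv.1 0) hk, tv_smul, tv_PP hv (by omega) 0 (by omega) k hk,
    cjk_zero hv (by omega) k]
  by_cases h1 : k + 1 < N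
  · rw [tv_PP hv (by omega) 0 (by omega) (k + 1) h1, cjk_zero hv (by omega) (k + 1),
      if_neg (Nat.succ_ne_zero k)]
    by_cases h : k = 0
    · subst h; push_cast; simp
    · rw [if_neg h]; ring
  · have h2 : (N : ℤ) - 1 - k = 0 := by omega
    have h3 : ¬ k = 0 := by omega
    rw [h2, br_zero', if_neg h3]
    ring

lemma YY_succ {v : ℂ} (hv : Adm N v) {j : ℕ} (hj : j + 1 < N) :
    YY v (PP N v (j + 1)) = lam v (2 * ((j + 1 : ℕ) : ℤ) + 1) • PP N v (j + 1) +
      om N v (j + 1) • PP N v j := by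
  apply InA_ext hv (InA_YY hv (InA_PP hv.1 _))
    (((InA_PP hv.1 _).smul _).add ((InA_PP hv.1 _).smul _))
  intro k hk
  unfold YY
  have h0 : 0 < N := by omega
  rw [tv_Y hv (by omega) (InA_PP hv.1 _) hk, tv_add, tv_smul, tv_smul,
    tv_PP hv h0 (j + 1) hj k hk, tv_PP hv h0 j (by omega) k hk]
  rw [← Y_cjk hv hj]
  congr 1
  by_cases h1 : k + 1 < N
  · rw [tv_PP hv h0 (j + 1) hj (k + 1) h1]
  · have h2 : (N : ℤ) - 1 - k = 0 := by omega
    rw [h2, br_zero']
    ring

/-- the partial trace -/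
noncomputable def pt (v : ℂ) (hN : 0 < N) (Z : Matrix (I2 N) (I2 N) ℂ) : ℂ :=
  ∑ p : Fin N, kap N v p / kap N v p.rev * Z (⟨0, hN⟩, p) (⟨0, hN⟩, p)

/-- the bilinear form -/
noncomputable def BB (v : ℂ) (hN : 0 < N) (S T : Matrix (I2 N) (I2 N) ℂ) : ℂ := pt v hN (T * rho v S)

lemma pt_add (v : ℂ) (hN : 0 < N) (Y Z : Matrix (I2 N) (I2 N) ℂ) :
    pt v hN (Y + Z) = pt v hN Y + pt v hN Z := by
  unfold pt
  rw [← sum_add_distrib]
  refine sum_congr rfl fun p _ => ?_
  rw [Matrix.add_apply]; ring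

lemma pt_smul (v : ℂ) (hN : 0 < N) (r : ℂ) (Z : Matrix (I2 N) (I2 N) ℂ) :
    pt v hN (r • Z) = r * pt v hN Z := by
  unfold pt
  rw [mul_sum]
  refine sum_congr rfl fun p _ => ?_
  rw [Matrix.smul_apply, smul_eq_mul]; ring

lemma pt_sum (v : ℂ) (hN : 0 < N) {ι : Type} (S : Finset ι) (Z : ι → Matrix (I2 N) (I2 N) ℂ) :
    pt v hN (∑ i ∈ S, Z i) = ∑ i ∈ S, pt v hN (Z i) := by
  classical
  induction S using Finset.induction_on with
  | empty => simp [pt]
  | insert a S ha ih => rw [sum_insert ha, sum_insert ha, pt_add, ih]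

lemma BB_add_right (v : ℂ) (hN : 0 < N) (S T T' : Matrix (I2 N) (I2 N) ℂ) :
    BB v hN S (T + T') = BB v hN S T + BB v hN S T' := by
  unfold BB; rw [add_mul, pt_add]

lemma BB_smul_right (v : ℂ) (hN : 0 < N) (r : ℂ) (S T : Matrix (I2 N) (I2 N) ℂ) :
    BB v hN S (r • T) = r * BB v hN S T := by
  unfold BB; rw [Matrix.smul_mul, pt_smul]

lemma BB_add_left (v : ℂ) (hN : 0 < N) (S S' T : Matrix (I2 N) (I2 N) ℂ) :
    BB v hN (S + S') T = BB v hN S T + BB v hN S' T := by
  unfold BB; rw [rho_add, mul_add, pt_add]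

lemma BB_smul_left (v : ℂ) (hN : 0 < N) (r : ℂ) (S T : Matrix (I2 N) (I2 N) ℂ) :
    BB v hN (r • S) T = r * BB v hN S T := by
  unfold BB; rw [rho_smul, Matrix.mul_smul, pt_smul]

lemma BB_sub_right (v : ℂ) (hN : 0 < N) (S T T' : Matrix (I2 N) (I2 N) ℂ) :
    BB v hN S (T - T') = BB v hN S T - BB v hN S T' := by
  have h : T - T' = T + (-1 : ℂ) • T' := by rw [neg_smul, one_smul, sub_eq_add_neg]
  rw [h, BB_add_right, BB_smul_right]; ring

lemma BB_sum (v : ℂ) (hN : 0 < N) {ι κ : Type} (I : Finset ι) (K : Finset κ)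
    (S : ι → Matrix (I2 N) (I2 N) ℂ) (T : κ → Matrix (I2 N) (I2 N) ℂ) :
    BB v hN (∑ i ∈ I, S i) (∑ k ∈ K, T k) = ∑ i ∈ I, ∑ k ∈ K, BB v hN (S i) (T k) := by
  unfold BB
  rw [rho_sum, sum_mul, pt_sum, sum_comm]
  refine sum_congr rfl fun k _ => ?_
  rw [mul_sum, pt_sum]

/-- self-adjointness of the Casimir operator -/
lemma BB_xx {v : ℂ} (hv : Adm N v) (hN : 0 < N) (S : Matrix (I2 N) (I2 N) ℂ)
    {T : Matrix (I2 N) (I2 N) ℂ} (hT : InA v T) : BB v hN S (xx N v * T) = BB v hN (YY v S) T := by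
  unfold BB YY
  rw [rho_rhi hv, xx_comm hT, mul_assoc]

/-- the value on the identity is given by the cap -/
lemma BB_one {v : ℂ} (hv : Adm N v) (hN : 0 < N) (S : Matrix (I2 N) (I2 N) ℂ) :
    BB v hN S 1 = (capv N v ᵥ* S) ((⟨0, hN⟩ : Fin N).rev, ⟨0, hN⟩) := by
  unfold BB pt
  rw [one_mul, Matrix.vecMul, dotProduct,
    sum_capv v (fun q => S q ((⟨0, hN⟩ : Fin N).rev, ⟨0, hN⟩)), ← Equiv.sum_comp Fin.revPerm]
  refine sum_congr rfl fun p _ => ?_
  simp only [Fin.revPerm_apply, rho, Fin.rev_rev]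
  have h1 := kap_ne hv (k := (p.rev : Fin N)) p.rev.2
  have h2 := kap_ne hv (k := (p : Fin N)) p.2
  have h3 := kap_zero hv hN
  simp only [h3]
  field_simp

lemma cap_xx {v : ℂ} (hv : Adm N v) : capv N v ᵥ* xx N v = lam v 1 • capv N v := by
  unfold xx Cas
  rw [vecMul_add, ← vecMul_vecMul, cap_F hv, zero_vecMul, zero_add]
  funext p
  rw [vecMul_diagonal, Pi.smul_apply, smul_eq_mul, W_wt]
  unfold capv
  split_ifs with h
  · have h1 : 2 * ((N : ℤ) - 1 - (p.1 : ℕ) - (p.2 : ℕ)) + 1 = 1 := by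
      have := p.1.2; omega
    rw [h1]; ring
  · ring

lemma cup_xx {v : ℂ} (hv : Adm N v) : xx N v *ᵥ cupv N v = lam v 1 • cupv N v := by
  unfold xx Cas
  rw [add_mulVec, ← mulVec_mulVec, E_cup hv, mulVec_zero, zero_add]
  funext p
  rw [mulVec_diagonal, Pi.smul_apply, smul_eq_mul, W_wt]
  unfold cupv
  split_ifs with h
  · have h1 : 2 * ((N : ℤ) - 1 - (p.1 : ℕ) - (p.2 : ℕ)) + 1 = 1 := by
      have := p.1.2; omega
    rw [h1]
  · ring

lemma cap_PP {v : ℂ} (hv : Adm N v) (j : ℕ) :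
    capv N v ᵥ* PP N v j = if j = 0 then capv N v else 0 := by
  induction j with
  | zero => rw [if_pos rfl]; exact vecMul_one _
  | succ j ih =>
    rw [if_neg (by omega)]
    change capv N v ᵥ* (xx N v * PP N v j - lam v (2 * j + 1) • PP N v j) = 0
    rw [vecMul_sub, ← vecMul_vecMul, cap_xx hv, vecMul_smul, smul_vecMul, ih]
    by_cases h : j = 0
    · subst h
      rw [if_pos rfl]
      push_cast
      simp
    · rw [if_neg h]
      simp

lemma cup_PP {v : ℂ} (hv : Adm N v) (j : ℕ) :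
    PP N v j *ᵥ cupv N v = if j = 0 then cupv N v else 0 := by
  induction j with
  | zero => rw [if_pos rfl]; exact one_mulVec _
  | succ j ih =>
    rw [if_neg (by omega)]
    change (xx N v * PP N v j - lam v (2 * j + 1) • PP N v j) *ᵥ cupv N v = 0
    rw [xx_comm (InA_PP hv.1 j), sub_mulVec, ← mulVec_mulVec, cup_xx hv, smul_mulVec, mulVec_smul, ih]
    by_cases h : j = 0
    · subst h
      rw [if_pos rfl]
      push_cast
      simp
    · rw [if_neg h]
      simp

lemma BB_PP_one {v : ℂ} (hv : Adm N v) (hN : 0 < N) (i : ℕ) :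
    BB v hN (PP N v i) 1 = if i = 0 then 1 else 0 := by
  rw [BB_one hv hN, cap_PP hv]
  split_ifs with h
  · unfold capv
    rw [if_pos, kap_zero hv hN, inv_one]
    simp only [Fin.val_rev]
    omega
  · rfl

/-- the weights of the orthogonal basis -/
noncomputable def WW (N : ℕ) (v : ℂ) (i : ℕ) : ℂ := ∏ k ∈ range i, om N v (k + 1)

/-- the Newton basis is orthogonal -/
lemma BB_PP {v : ℂ} (hv : Adm N v) (hN : 2 ≤ N) (j : ℕ) : ∀ i, i < N → j < N →
    BB v (by omega) (PP N v i) (PP N v j) = if i = j then WW N v i else 0 := by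
  have hN0 : 0 < N := by omega
  induction j with
  | zero =>
    intro i hi _
    change BB v _ (PP N v i) 1 = _
    rw [BB_PP_one hv hN0]
    split_ifs with h
    · subst h; simp [WW]
    · rfl
  | succ j ih =>
    intro i hi hj
    have h1 : PP N v (j + 1) = xx N v * PP N v j - lam v (2 * j + 1) • PP N v j := rfl
    rw [h1, BB_sub_right, BB_smul_right, BB_xx hv _ _ (InA_PP hv.1 j), ih i hi (by omega)]
    rcases i with _ | i
    · rw [YY_zero hv hN, BB_smul_left, ih 0 (by omega) (by omega), if_neg (by omega : ¬ 0 = j + 1)]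
      by_cases h : j = 0
      · subst h
        push_cast
        simp
      · rw [if_neg (fun h' => h h'.symm)]
        simp
    · rw [YY_succ hv hi, BB_add_left, BB_smul_left, BB_smul_left, ih (i + 1) hi (by omega),
        ih i (by omega) (by omega)]
      by_cases h2 : i = j
      · subst h2
        rw [if_neg (by omega), if_pos rfl, if_pos rfl]
        have h3 : WW N v (i + 1) = WW N v i * om N v (i + 1) := by
          unfold WW; rw [prod_range_succ]
        rw [h3]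
        ring
      · by_cases h3 : i + 1 = j
        · subst h3
          rw [if_pos rfl, if_neg (by omega), if_neg (by omega)]
          push_cast
          ring
        · rw [if_neg h3, if_neg h2, if_neg (by omega)]
          ring

/-! ### coefficients in the Newton basis -/

/-- the matrix of coordinates -/
noncomputable def Cc (N : ℕ) (v : ℂ) : Matrix (Fin N) (Fin N) ℂ := fun k j => cjk N v j k

lemma Cc_det {v : ℂ} (hv : Adm N v) : IsUnit (Cc N v).det := by
  have h : (Cc N v).BlockTriangular id := by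
    intro i j hij
    simp only [id] at hij
    unfold Cc cjk
    rw [if_neg]
    intro h'
    have : (j : ℕ) < i := hij
    omega
  rw [det_of_isUpperTriangular h, isUnit_iff_ne_zero]
  refine prod_ne_zero_iff.2 fun i _ => ?_
  unfold Cc cjk
  have h1 : brf v (N - 1 - i) ≠ 0 := brf_ne hv (by have := i.2; omega)
  have h2 : brf v i ≠ 0 := brf_ne hv i.2
  have h5 : brf v 0 = 1 := by simp [brf]
  rw [if_pos ⟨le_refl _, i.2⟩, Nat.sub_self, h5, mul_one, div_self h1, mul_one]
  exact mul_ne_zero (pow_ne_zero _ h2) (zpow_ne_zero _ hv.1)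

/-- the coefficients of a matrix of the commutant in the Newton basis -/
noncomputable def gam (v : ℂ) (T : Matrix (I2 N) (I2 N) ℂ) : Fin N → ℂ :=
  (Cc N v)⁻¹ *ᵥ fun k => tv T k

lemma sum_gam {v : ℂ} (hv : Adm N v) {T : Matrix (I2 N) (I2 N) ℂ} (hT : InA v T) :
    ∑ j : Fin N, gam v T j • PP N v j = T := by
  apply InA_ext hv (InA.sum univ (fun j : Fin N => gam v T j • PP N v j)
    fun j _ => (InA_PP hv.1 j).smul _) hT
  intro k hk
  rw [tv_sum]
  have h1 : (Cc N v *ᵥ gam v T) ⟨k, hk⟩ = tv T k := by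
    unfold gam
    rw [mulVec_mulVec, mul_nonsing_inv _ (Cc_det hv), one_mulVec]
  rw [← h1, Matrix.mulVec, dotProduct]
  refine sum_congr rfl fun j _ => ?_
  rw [tv_smul, tv_PP hv (by omega) j j.2 k hk, mul_comm]
  rfl

lemma gam_of {v : ℂ} (hv : Adm N v) {T : Matrix (I2 N) (I2 N) ℂ} (c : Fin N → ℂ)
    (h : ∑ j : Fin N, c j • PP N v j = T) : gam v T = c := by
  have h1 : (fun k : Fin N => tv T k) = Cc N v *ᵥ c := by
    funext k
    rw [← h, tv_sum, Matrix.mulVec, dotProduct]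
    refine sum_congr rfl fun j _ => ?_
    rw [tv_smul, tv_PP hv (by have := k.2; omega) j j.2 k k.2, mul_comm]
    rfl
  unfold gam
  rw [h1, mulVec_mulVec, nonsing_inv_mul _ (Cc_det hv), one_mulVec]

/-- the form in coordinates -/
lemma BB_gam {v : ℂ} (hv : Adm N v) (hN : 2 ≤ N) {S T : Matrix (I2 N) (I2 N) ℂ} (hS : InA v S)
    (hT : InA v T) : BB v (by omega) S T = ∑ i : Fin N, WW N v i * gam v S i * gam v T i := by
  conv_lhs => rw [← sum_gam hv hS, ← sum_gam hv hT]
  rw [BB_sum]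
  refine sum_congr rfl fun i _ => ?_
  rw [sum_eq_single i]
  · rw [BB_smul_left, BB_smul_right, BB_PP hv hN i i i.2 i.2, if_pos rfl]
    ring
  · intro j _ hj
    rw [BB_smul_left, BB_smul_right, BB_PP hv hN j i i.2 j.2, if_neg]
    · ring
    · intro h'; exact hj (Fin.ext h'.symm)
  · intro h; exact absurd (mem_univ _) h

lemma cup_gam {v : ℂ} (hv : Adm N v) (hN : 0 < N) {T : Matrix (I2 N) (I2 N) ℂ} (hT : InA v T) :
    T *ᵥ cupv N v = gam v T ⟨0, hN⟩ • cupv N v := by
  conv_lhs => rw [← sum_gam hv hT]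
  rw [sum_mulVec, sum_eq_single (⟨0, hN⟩ : Fin N)]
  · rw [smul_mulVec, cup_PP hv, if_pos rfl]
  · intro j _ hj
    rw [smul_mulVec, cup_PP hv, if_neg, smul_zero]
    intro h'; exact hj (Fin.ext h')
  · intro h; exact absurd (mem_univ _) h

lemma cap_gam {v : ℂ} (hv : Adm N v) (hN : 0 < N) {T : Matrix (I2 N) (I2 N) ℂ} (hT : InA v T) :
    capv N v ᵥ* T = gam v T ⟨0, hN⟩ • capv N v := by
  conv_lhs => rw [← sum_gam hv hT]
  rw [vecMul_sum, sum_eq_single (⟨0, hN⟩ : Fin N)]
  · rw [vecMul_smul, cap_PP hv, if_pos rfl]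
  · intro j _ hj
    rw [vecMul_smul, cap_PP hv, if_neg, smul_zero]
    intro h'; exact hj (Fin.ext h')
  · intro h; exact absurd (mem_univ _) h

end Pool.Agent.Q191.RP
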