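import Pool.Agent.Q191.RP.Dia

/-!
# Gluing of tangle diagrams
-/

set_option autoImplicit false

namespace Pool.Agent.Q191.RP

open Matrix Finset
open scoped Kronecker
open Pool.Agent.H550R3.Jones (WM IsMod IsInt Gen br brf tens irr W crossP crossN Adm)
open Pool.Agent.H927R2.J.SanYB (brf_ne)

variable {N : ℕ}

lemma strands_pad {P : Pc} {n m : ℕ} (h : P.strands n = some m) (k : ℕ) :
    P.strands (n + k) = some (m + k) := by
  rcases P with i | i | ⟨i, σ⟩ <;> simp only [Pc.strands] at h ⊢ <;> split_ifs at h with hi <;>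
    have h1 := Option.some.inj h
  · rw [if_pos (by omega)]
    congr 1
    omega
  · rw [if_pos (by omega)]
    congr 1
    omega
  · rw [if_pos (by omega)]
    congr 1
    omega

lemma strands_shift {P : Pc} {n m : ℕ} (h : P.strands n = some m) :
    P.shift.strands (n + 1) = some (m + 1) := by
  rcases P with i | i | ⟨i, σ⟩ <;> simp only [Pc.strands, Pc.shift] at h ⊢ <;>
    split_ifs at h with hi <;> have h1 := Option.some.inj h
  · rw [if_pos (by omega)]
    congr 1
    omega
  · rw [if_pos (by omega)]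
    congr 1
    omega
  · rw [if_pos (by omega)]
    congr 1
    omega

lemma strands_star {P : Pc} {n m : ℕ} (h : P.strands n = some m) :
    P.star.strands m = some n := by
  rcases P with i | i | ⟨i, σ⟩ <;> simp only [Pc.strands, Pc.star] at h ⊢ <;>
    split_ifs at h with hi <;> have h1 := Option.some.inj h
  · rw [if_pos (by omega)]
    congr 1
    omega
  · rw [if_pos (by omega)]
    congr 1
    omega
  · rw [if_pos (by omega)]
    congr 1
    omega

lemma Is_pad {D : List Pc} : ∀ {n m : ℕ}, Is n m D → ∀ k, Is (n + k) (m + k) D := by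
  induction D with
  | nil =>
    intro n m h k
    rw [Is_nil] at h ⊢
    omega
  | cons P D ih =>
    intro n m h k
    rw [Is_cons] at h ⊢
    obtain ⟨l, h1, h2⟩ := h
    exact ⟨l + k, strands_pad h1 k, ih h2 k⟩

lemma Is_shift {D : List Pc} : ∀ {n m : ℕ}, Is n m D → Is (n + 1) (m + 1) (D.map Pc.shift) := by
  induction D with
  | nil =>
    intro n m h
    rw [Is_nil] at h
    rw [List.map_nil, Is_nil]
    omega
  | cons P D ih =>
    intro n m h
    rw [Is_cons] at h
    rw [List.map_cons, Is_cons]
    obtain ⟨l, h1, h2⟩ := h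
    exact ⟨l + 1, strands_shift h1, ih h2⟩

/-- the diagram turned upside down, with the mirror image of all crossings -/
def ds (D : List Pc) : List Pc := (D.map Pc.star).reverse

lemma ds_cons (P : Pc) (D : List Pc) : ds (P :: D) = ds D ++ [P.star] := by
  unfold ds
  rw [List.map_cons, List.reverse_cons]

lemma Is_single {P : Pc} {n m : ℕ} (h : P.strands n = some m) : Is n m [P] := by
  rw [Is_cons]
  exact ⟨m, h, (Is_nil m m).2 rfl⟩

lemma Is_ds {D : List Pc} : ∀ {n m : ℕ}, Is n m D → Is m n (ds D) := by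
  induction D with
  | nil =>
    intro n m h
    rw [Is_nil] at h
    exact (Is_nil m n).2 h.symm
  | cons P D ih =>
    intro n m h
    rw [Is_cons] at h
    obtain ⟨l, h1, h2⟩ := h
    rw [ds_cons]
    exact Is_append (ih h2) (Is_single (strands_star h1))

lemma op_shift (v : ℂ) (P : Pc) : P.shift.op N v = sh (P.op N v) := by
  rcases P with i | i | ⟨i, σ⟩ <;> simp only [Pc.op, Pc.shift, Function.iterate_succ_apply']

lemma run_shift (v : ℂ) (D : List Pc) : ∀ (f : LF N) (a : Fin N) (r : List (Fin N)),
    runL N v (D.map Pc.shift) f (a :: r) = runL N v D (fun t => f (a :: t)) r := by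
  induction D with
  | nil => intro f a r; rfl
  | cons P D ih =>
    intro f a r
    rw [List.map_cons, runL_cons, runL_cons, LinearMap.comp_apply, LinearMap.comp_apply, ih,
      op_shift]
    rfl

/-- the quarter turn of a diagram -/
def rot (D : List Pc) : List Pc := [Pc.cup 0] ++ D.map Pc.shift ++ [Pc.cap 2]

lemma Is_rot {D : List Pc} (hD : Is 2 2 D) : Is 2 2 (rot D) := by
  unfold rot
  refine Is_append (k := 4) (Is_append (k := 4) (Is_single ?_) ?_) (Is_single ?_)
  · simp [Pc.strands]
  · exact Is_pad (Is_shift hD) 1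
  · simp [Pc.strands]

lemma MM_rot (v : ℂ) {D : List Pc} (hD : Is 2 2 D) : MM N v (rot D) = rho v (MM N v D) := by
  apply Rp_unique (Rp_MM v (Is_rot hD))
  have h := Rp_rot (N := N) (v := v) (Loc_run v D hD) (Rp_MM v hD)
  intro f a b
  rw [← h f a b]
  unfold rot rotL
  rw [runL_append, runL_append]
  simp only [LinearMap.comp_apply]
  change ∑ q : I2 N, capv N v q * (runL N v (D.map Pc.shift) (cupL N v f) (a :: b :: q.1 :: [q.2])) =
    ∑ q : I2 N, capv N v q * (runL N v D (fun t => cupL N v f (a :: t)) (b :: q.1 :: [q.2]))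
  refine sum_congr rfl fun q _ => ?_
  rw [run_shift]

/-- the entry at the highest weight vector -/
noncomputable def val (v : ℂ) (hN : 0 < N) (D : List Pc) : ℂ :=
  runL N v D (fun s => if s = [⟨0, hN⟩] then 1 else 0) [⟨0, hN⟩]

/-- the closure on the right -/
def denom (D : List Pc) : List Pc := [Pc.cup 1] ++ D ++ [Pc.cap 1]

/-- the other closure -/
def numer (D : List Pc) : List Pc := [Pc.cup 0] ++ D ++ [Pc.cap 1]

/-- two tangles glued along their boundaries -/
def glue (S T : List Pc) : List Pc :=
  [Pc.cup 1, Pc.cup 0] ++ S.map Pc.shift ++ [Pc.cap 2] ++ T ++ [Pc.cap 1]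

lemma glue_eq (S T : List Pc) : glue S T = denom (rot S ++ T) := by
  unfold glue denom rot
  simp

lemma val_denom (v : ℂ) (hN : 0 < N) {D : List Pc} (hD : Is 2 2 D) :
    val v hN (denom D) = pt v hN (MM N v D) := by
  set z : Fin N := ⟨0, hN⟩ with hz
  unfold val denom
  rw [runL_append, runL_append]
  simp only [LinearMap.comp_apply]
  rw [← hz]
  change ∑ q : I2 N, capv N v q * (runL N v D (sh (cupL N v) (fun s => if s = [z] then 1 else 0))
    (z :: q.1 :: [q.2])) = _
  have h1 : ∀ q : I2 N, runL N v D (sh (cupL N v) (fun s => if s = [z] then 1 else 0))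
      (z :: q.1 :: [q.2]) = kap N v q.2.rev * MM N v D (z, q.1) (z, q.2.rev) := by
    intro q
    rw [app2 (Loc_run v D hD) (Rp_MM v hD)]
    have h2 : ∀ r : I2 N, sh (cupL N v) (fun s => if s = [z] then (1 : ℂ) else 0) (r.1 :: r.2 :: [q.2]) =
        cupv N v (r.2, q.2) * (if r.1 = z then 1 else 0) := by
      intro r
      change cupv N v (r.2, q.2) * (if [r.1] = [z] then (1 : ℂ) else 0) = _
      congr 1
      by_cases h : r.1 = z
      · rw [h, if_pos rfl, if_pos rfl]
      · rw [if_neg h, if_neg (by simpa using h)]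
    simp only [h2]
    rw [Fintype.sum_prod_type, sum_eq_single z]
    · rw [← sum_cupv2 v q.2 (fun x => MM N v D (z, q.1) (z, x))]
      refine sum_congr rfl fun x _ => ?_
      rw [if_pos rfl]; ring
    · intro c _ hc
      apply sum_eq_zero
      intro x _
      rw [if_neg hc]; ring
    · intro h; exact absurd (mem_univ _) h
  simp only [h1]
  rw [sum_capv v (fun q => kap N v q.2.rev * MM N v D (z, q.1) (z, q.2.rev)),
    ← Equiv.sum_comp Fin.revPerm]
  unfold pt
  refine sum_congr rfl fun p _ => ?_
  simp only [Fin.revPerm_apply, Fin.rev_rev]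
  rw [← hz]
  ring

lemma val_numer {v : ℂ} (hv : Adm N v) (hN : 0 < N) {D : List Pc} (hD : Is 2 2 D) :
    val v hN (numer D) = gam v (MM N v D) ⟨0, hN⟩ := by
  set z : Fin N := ⟨0, hN⟩ with hz
  unfold val numer
  rw [runL_append, runL_append]
  simp only [LinearMap.comp_apply]
  rw [← hz]
  change ∑ q : I2 N, capv N v q * (runL N v D (cupL N v (fun s => if s = [z] then 1 else 0))
    (z :: q.1 :: [q.2])) = _
  have h1 : ∀ q : I2 N, runL N v D (cupL N v (fun s => if s = [z] then 1 else 0))
      (z :: q.1 :: [q.2]) = (MM N v D *ᵥ cupv N v) (z, q.1) * (if q.2 = z then 1 else 0) := by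
    intro q
    rw [app2 (Loc_run v D hD) (Rp_MM v hD), Matrix.mulVec, dotProduct, sum_mul]
    refine sum_congr rfl fun r _ => ?_
    change _ * (cupv N v (r.1, r.2) * (if [q.2] = [z] then (1 : ℂ) else 0)) = _
    by_cases h : q.2 = z
    · rw [h, if_pos rfl, if_pos rfl]; ring
    · rw [if_neg h, if_neg (by simpa using h)]; ring
  simp only [h1]
  rw [sum_capv v (fun q => (MM N v D *ᵥ cupv N v) (z, q.1) * (if q.2 = z then 1 else 0)),
    sum_eq_single z]
  · rw [if_pos rfl, mul_one, cup_gam hv hN (InA_MM hv hD)]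
    have h2 : cupv N v (z, z.rev) = kap N v z := by
      unfold cupv
      rw [if_pos]
      simp only [Fin.val_rev]
      have := z.2
      omega
    rw [Pi.smul_apply, smul_eq_mul, h2]
    have h3 := kap_ne hv z.2
    field_simp
    rw [hz]
  · intro c _ hc
    simp only []
    rw [if_neg hc]; ring
  · intro h; exact absurd (mem_univ _) h

lemma val_glue (v : ℂ) (hN : 0 < N) {S T : List Pc} (hS : Is 2 2 S) (hT : Is 2 2 T) :
    val v hN (glue S T) = BB v hN (MM N v S) (MM N v T) := by
  rw [glue_eq, val_denom v hN (Is_append (Is_rot hS) hT), MM_append v (Is_rot hS) hT, MM_rot v hS]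
  rfl

end Pool.Agent.Q191.RP
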