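import Pool.Agent.Q191.RP.Mom

/-!
# Strict positivity, moment sequences
-/

set_option autoImplicit false

namespace Pool.Agent.Q191.RP

open Matrix Finset Filter Topology
open scoped Kronecker Real
open Pool.Agent.H550R3.Jones (WM IsMod IsInt Gen br brf tens irr W crossP crossN Adm)
open Pool.Agent.H927R2.J.SanYB (brf_ne)
open Pool.Agent.W715.VC (brf_succ' rt)
open GapVol (lob)

variable {N : ℕ}

/-- the points at which the form is positive definite -/
structure Pst (N : ℕ) (v : ℂ) : Prop where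
  good : Good N v
  w : ∀ i : ℕ, i < N → 0 < WR N v i

lemma Kr.pst {v : ℂ} (hv : Kr N v) : Pst N v := by
  refine ⟨hv.good, fun i hi => ?_⟩
  rw [WR_root hv]
  have := norm_pos_iff.2 (brf_ne hv.adm hi)
  positivity

/-! ### an arc of the unit circle -/

/-- `exp (π i / r)` -/
noncomputable def av (r : ℝ) : ℂ := Complex.exp (Real.pi * Complex.I / r)

lemma av_zpow (r : ℝ) (n : ℤ) : av r ^ n = Complex.exp (((π * n / r : ℝ) : ℂ) * Complex.I) := by
  unfold av
  rw [← Complex.exp_int_mul]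
  congr 1
  push_cast
  ring

lemma br_av (r : ℝ) (n : ℤ) : br (av r) n = 2 * Complex.I * (Real.sin (π * n / r) : ℝ) := by
  unfold br
  rw [av_zpow, av_zpow]
  have e : ((π * ((-n : ℤ) : ℝ) / r : ℝ) : ℂ) * Complex.I = -(((π * n / r : ℝ) : ℂ) * Complex.I) := by
    push_cast
    ring
  rw [e, Complex.ofReal_sin, Complex.sin]
  have e2 : -(((π * n / r : ℝ) : ℂ)) * Complex.I = -((((π * n / r : ℝ) : ℂ)) * Complex.I) := by ring
  rw [e2]
  generalize Complex.exp (((π * n / r : ℝ) : ℂ) * Complex.I) = A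
  generalize Complex.exp (-(((π * n / r : ℝ) : ℂ) * Complex.I)) = B
  linear_combination (-(B - A)) * Complex.I_mul_I

lemma Pst_av {N : ℕ} {r : ℝ} (hN : 1 ≤ N) (h1 : (N : ℝ) - 1 / 2 < r) (h2 : r < N + 1) :
    Pst N (av r) := by
  have hN1 : (1 : ℝ) ≤ N := by exact_mod_cast hN
  have hr : 0 < r := by linarith
  have hpi := Real.pi_pos
  have hs : ∀ k : ℕ, 0 < k → k < N → 0 < Real.sin (π * k / r) := by
    intro k hk0 hk
    have hk1 : (k : ℝ) + 1 ≤ N := by exact_mod_cast hk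
    have hk2 : (0 : ℝ) < k := by exact_mod_cast hk0
    apply Real.sin_pos_of_pos_of_lt_pi
    · positivity
    · rw [div_lt_iff₀ hr]
      exact mul_lt_mul_of_pos_left (by linarith) hpi
  have h0 : av r ≠ 0 := Complex.exp_ne_zero _
  have hadm : Adm N (av r) := by
    refine ⟨h0, fun k hk0 hk => ?_⟩
    rw [br_av]
    have h3 := (hs k hk0 hk).ne'
    refine mul_ne_zero (mul_ne_zero two_ne_zero Complex.I_ne_zero) ?_
    exact_mod_cast h3
  have hcj : (starRingEnd ℂ) (av r) = (av r)⁻¹ := by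
    unfold av
    rw [← Complex.exp_conj, ← Complex.exp_neg]
    congr 1
    simp only [map_div₀, map_mul, Complex.conj_I, Complex.conj_ofReal]
    ring
  have key : ∀ k : ℕ, 0 < k → k < N → ∃ s : ℝ, 0 < s ∧
      br (av r) ((N : ℤ) + k) * br (av r) ((N : ℤ) - k) = s := by
    intro k hk0 hk
    have hk1 : (k : ℝ) + 1 ≤ N := by exact_mod_cast hk
    have hk2 : (1 : ℝ) ≤ k := by exact_mod_cast hk0
    refine ⟨4 * (Real.sin (π * (((N : ℤ) + k : ℤ) : ℝ) / r - π) * Real.sin (π * (((N : ℤ) - k : ℤ) : ℝ) / r)),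
      ?_, ?_⟩
    · have p1 : 0 < Real.sin (π * (((N : ℤ) + k : ℤ) : ℝ) / r - π) := by
        push_cast
        apply Real.sin_pos_of_pos_of_lt_pi
        · rw [sub_pos, lt_div_iff₀ hr]
          exact mul_lt_mul_of_pos_left (by linarith) hpi
        · rw [sub_lt_iff_lt_add, div_lt_iff₀ hr]
          have : π * ((N : ℝ) + k) < π * (2 * r) := mul_lt_mul_of_pos_left (by linarith) hpi
          linarith
      have p2 : 0 < Real.sin (π * (((N : ℤ) - k : ℤ) : ℝ) / r) := by
        push_cast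
        apply Real.sin_pos_of_pos_of_lt_pi
        · apply div_pos (mul_pos hpi (by linarith)) hr
        · rw [div_lt_iff₀ hr]
          exact mul_lt_mul_of_pos_left (by linarith) hpi
      positivity
    · rw [br_av, br_av, Real.sin_sub_pi]
      push_cast
      linear_combination (4 * Complex.sin (π * ((N : ℂ) + k) / r) * Complex.sin (π * ((N : ℂ) - k) / r)) *
        Complex.I_mul_I
  have hgood : Good N (av r) := ⟨hadm, hcj, fun k hk0 hk => by
    obtain ⟨s, hs, h⟩ := key k hk0 hk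
    exact ⟨s, hs.le, h⟩⟩
  refine ⟨hgood, fun i hi => ?_⟩
  have hom : ∀ k : ℕ, 0 < k → k < N → ∃ s : ℝ, 0 < s ∧ om N (av r) k = s := by
    intro k hk0 hk
    obtain ⟨s, hs0, h⟩ := key k hk0 hk
    have hb : br (av r) k ≠ 0 := hadm.2 k hk0 hk
    have := norm_pos_iff.2 hb
    refine ⟨‖br (av r) k‖ ^ 2 * s, by positivity, ?_⟩
    unfold om
    rw [h]
    have h1 := neg_br_sq hcj k
    push_cast at h1 ⊢
    rw [← h1]
    ring
  have hWW : ∀ i : ℕ, i < N → ∃ s : ℝ, 0 < s ∧ WW N (av r) i = s := by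
    intro i
    induction i with
    | zero => intro _; exact ⟨1, by norm_num, by simp [WW]⟩
    | succ i ih =>
      intro hi
      obtain ⟨s, hs0, h⟩ := ih (by omega)
      obtain ⟨t, ht0, h'⟩ := hom (i + 1) (by omega) hi
      refine ⟨s * t, by positivity, ?_⟩
      have h3 : WW N (av r) (i + 1) = WW N (av r) i * om N (av r) (i + 1) := by
        unfold WW; rw [prod_range_succ]
      rw [h3, h, h']
      push_cast
      ring
  obtain ⟨s, hs0, h⟩ := hWW i hi
  unfold WR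
  rw [h, Complex.ofReal_re]
  exact hs0

lemma Kr_pv' {N a : ℕ} (hN : 0 < N) (ha : Nat.Coprime a N) : Pst N (pv N a) := (Kr_pv hN ha).pst

theorem jon_cont' (D : List Pc) (N : ℕ) (hN : 1 ≤ N) {v : ℂ} (hv : Adm N v) :
    ContinuousAt (jon N D) v := by
  rw [jon_q]
  have e : Pool.Agent.W709.QAT.jones N (D.map Pc.q) = fun w : ℂ =>
      Pool.Agent.W709.QAT.run N w (D.map Pc.q) (fun s => if s = [⟨0, hN⟩] then 1 else 0) [⟨0, hN⟩] := by
    funext w
    unfold Pool.Agent.W709.QAT.jones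
    rw [dif_pos (show 0 < N from hN)]
  rw [e]
  exact Pool.Agent.W613.QAT.run_cont hv.1 hv.2 hN (D.map Pc.q)
    (fun _ s => if s = [⟨0, hN⟩] then 1 else 0) (fun s => continuousAt_const) _

/-! ### definiteness -/

lemma nq_eq_zero {v : ℂ} (hv : Pst N v) {T : Matrix (I2 N) (I2 N) ℂ} (hT : InA v T)
    (h : nq v T = 0) : T = 0 := by
  have h1 : ∀ i : Fin N, gam v T i = 0 := by
    intro i
    unfold nq at h
    have h2 := (sum_eq_zero_iff_of_nonneg (fun i _ => by
      have := WR_nonneg hv.good i.2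
      positivity)).1 h i (mem_univ i)
    have h3 := hv.w i i.2
    rcases mul_eq_zero.1 h2 with h4 | h4
    · exact absurd h4 h3.ne'
    · exact norm_eq_zero.1 (pow_eq_zero_iff (two_ne_zero)|>.1 h4)
  rw [← sum_gam hv.good.adm hT]
  apply sum_eq_zero
  intro i _
  rw [h1, zero_smul]

lemma Xz_inj {v : ℂ} (hv : Adm N v) (a : ℤ) {Y : Matrix (I2 N) (I2 N) ℂ} (h : Xz N v a * Y = 0) :
    Y = 0 := by
  have hPN : crossP N v * crossN N v = 1 := Pool.Agent.W715.VC.PQ hv
  have hNP : crossN N v * crossP N v = 1 := Pool.Agent.W715.VC.QP hv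
  have key : ∀ n : ℕ, crossN N v ^ n * crossP N v ^ n = 1 ∧ crossP N v ^ n * crossN N v ^ n = 1 := by
    intro n
    induction n with
    | zero => simp
    | succ n ih =>
      constructor
      · rw [pow_succ, pow_succ', mul_assoc, ← mul_assoc (crossN N v) (crossP N v), hNP, one_mul, ih.1]
      · rw [pow_succ, pow_succ', mul_assoc, ← mul_assoc (crossP N v) (crossN N v), hPN, one_mul, ih.2]
  unfold Xz Xs at h
  cases hd : decide (0 < a) with
  | true =>
    rw [hd] at h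
    simp only [if_true] at h
    have h2 := congrArg (fun Z => crossN N v ^ a.natAbs * Z) h
    simp only [mul_zero] at h2
    rwa [← mul_assoc, (key _).1, one_mul] at h2
  | false =>
    rw [hd] at h
    simp only [Bool.false_eq_true, if_false] at h
    have h2 := congrArg (fun Z => crossP N v ^ a.natAbs * Z) h
    simp only [mul_zero] at h2
    rwa [← mul_assoc, (key _).2, one_mul] at h2

lemma op_inj {v : ℂ} (hv : Adm N v) (hN : 2 ≤ N) (l : List ℤ) : ∀ {Y : Matrix (I2 N) (I2 N) ℂ},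
    InA v Y → op N v l Y = 0 → Y = 0 := by
  induction l with
  | nil => intro Y _ h; exact h
  | cons a l ih =>
    intro Y hY h
    have h1 := ih ((InA_Xz hv a).mul (InA_rho hv hY)) h
    have h2 := Xz_inj hv a h1
    have h3 := rho2_id hv hN hY
    rw [h2] at h3
    rw [← h3]
    have h4 := rho_smul v (0 : ℂ) (0 : Matrix (I2 N) (I2 N) ℂ)
    rw [zero_smul, zero_smul] at h4
    exact h4

lemma pos_tl {v : ℂ} (hv : Pst N v) (hN : 2 ≤ N) (l : List ℤ) : 0 < nq v (MM N v (tl l)) := by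
  have hA := hv.good.adm
  refine lt_of_le_of_ne (nq_nonneg hv.good _) (fun h => ?_)
  have i1 : InA v (rho v (1 : Matrix (I2 N) (I2 N) ℂ)) := InA_rho hA (InA.one v)
  rw [MM_tl hA] at h
  have h1 := nq_eq_zero hv (InA_op hA l i1) h.symm
  have h2 := op_inj hA hN l i1 h1
  have h3 := rho_rho_one (N := N) hA
  rw [h2] at h3
  have h4 := rho_smul v (0 : ℂ) (0 : Matrix (I2 N) (I2 N) ℂ)
  rw [zero_smul, zero_smul] at h4
  rw [h4] at h3
  have h5 := congrFun (congrFun h3 (⟨0, by omega⟩, ⟨0, by omega⟩)) (⟨0, by omega⟩, ⟨0, by omega⟩)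
  rw [Matrix.one_apply_eq] at h5
  exact zero_ne_one h5

/-! ### orthonormal coordinates -/

lemma gam_add {v : ℂ} (hv : Adm N v) {X Y : Matrix (I2 N) (I2 N) ℂ} (hX : InA v X) (hY : InA v Y) :
    gam v (X + Y) = gam v X + gam v Y := by
  apply gam_of hv
  conv_rhs => rw [← sum_gam hv hX, ← sum_gam hv hY]
  rw [← sum_add_distrib]
  refine sum_congr rfl fun j _ => ?_
  rw [Pi.add_apply, add_smul]

lemma gam_smul {v : ℂ} (hv : Adm N v) {X : Matrix (I2 N) (I2 N) ℂ} (hX : InA v X) (c : ℂ) :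
    gam v (c • X) = c • gam v X := by
  apply gam_of hv
  conv_rhs => rw [← sum_gam hv hX]
  rw [smul_sum]
  refine sum_congr rfl fun j _ => ?_
  rw [Pi.smul_apply, smul_eq_mul, mul_smul]

/-- the coordinates -/
noncomputable def Ph (N : ℕ) (v : ℂ) (T : Matrix (I2 N) (I2 N) ℂ) : EuclideanSpace ℂ (Fin N) :=
  WithLp.toLp 2 fun i => ((Real.sqrt (WR N v i) : ℝ) : ℂ) * gam v T i

/-- the matrix with given coordinates -/
noncomputable def Ps (N : ℕ) (v : ℂ) (x : EuclideanSpace ℂ (Fin N)) : Matrix (I2 N) (I2 N) ℂ :=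
  ∑ i : Fin N, (x i / ((Real.sqrt (WR N v i) : ℝ) : ℂ)) • PP N v i

lemma InA_Ps {v : ℂ} (hv : Adm N v) (x : EuclideanSpace ℂ (Fin N)) : InA v (Ps N v x) :=
  InA.sum univ (fun i : Fin N => (x i / ((Real.sqrt (WR N v i) : ℝ) : ℂ)) • PP N v i)
    fun i _ => (InA_PP hv.1 i).smul _

lemma sq_ne {v : ℂ} (hv : Pst N v) (i : Fin N) : ((Real.sqrt (WR N v i) : ℝ) : ℂ) ≠ 0 := by
  have h := Real.sqrt_pos.2 (hv.w i i.2)
  exact_mod_cast h.ne'

lemma Ph_Ps {v : ℂ} (hv : Pst N v) (x : EuclideanSpace ℂ (Fin N)) : Ph N v (Ps N v x) = x := by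
  have h1 : gam v (Ps N v x) = fun i => x i / ((Real.sqrt (WR N v i) : ℝ) : ℂ) :=
    gam_of hv.good.adm _ rfl
  ext i
  change ((Real.sqrt (WR N v i) : ℝ) : ℂ) * gam v (Ps N v x) i = x i
  rw [h1]
  exact mul_div_cancel₀ (x i) (sq_ne hv i)

lemma Ps_Ph {v : ℂ} (hv : Pst N v) {T : Matrix (I2 N) (I2 N) ℂ} (hT : InA v T) :
    Ps N v (Ph N v T) = T := by
  conv_rhs => rw [← sum_gam hv.good.adm hT]
  unfold Ps
  refine sum_congr rfl fun i _ => ?_
  congr 1
  change ((Real.sqrt (WR N v i) : ℝ) : ℂ) * gam v T i / ((Real.sqrt (WR N v i) : ℝ) : ℂ) = _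
  exact mul_div_cancel_left₀ _ (sq_ne hv i)

lemma inner_Ph {v : ℂ} (hv : Pst N v) (A B : Matrix (I2 N) (I2 N) ℂ) :
    inner ℂ (Ph N v A) (Ph N v B) = hf v A B := by
  rw [PiLp.inner_apply]
  unfold hf
  refine sum_congr rfl fun i _ => ?_
  change inner ℂ (((Real.sqrt (WR N v i) : ℝ) : ℂ) * gam v A i)
    (((Real.sqrt (WR N v i) : ℝ) : ℂ) * gam v B i) = _
  rw [RCLike.inner_apply, map_mul, Complex.conj_ofReal]
  have h : ((Real.sqrt (WR N v i) : ℝ) : ℂ) * ((Real.sqrt (WR N v i) : ℝ) : ℂ) = (WR N v i : ℂ) := by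
    rw [← Complex.ofReal_mul, Real.mul_self_sqrt (hv.w i i.2).le]
  rw [← h]
  ring

/-! ### words of tangles -/

/-- the operator of a word -/
noncomputable def opm (v : ℂ) : List (Matrix (I2 N) (I2 N) ℂ) → Matrix (I2 N) (I2 N) ℂ →
    Matrix (I2 N) (I2 N) ℂ
  | [], Y => Y
  | R :: l, Y => opm v l (R * rho v Y)

lemma InA_opm {v : ℂ} (hv : Adm N v) (l : List (Matrix (I2 N) (I2 N) ℂ)) (hl : ∀ R ∈ l, InA v R) :
    ∀ {Y : Matrix (I2 N) (I2 N) ℂ}, InA v Y → InA v (opm v l Y) := by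
  induction l with
  | nil => intro Y hY; exact hY
  | cons R l ih =>
    intro Y hY
    exact ih (fun S hS => hl S (List.mem_cons_of_mem _ hS))
      ((hl R List.mem_cons_self).mul (InA_rho hv hY))

lemma opm_append (v : ℂ) (l m : List (Matrix (I2 N) (I2 N) ℂ)) (Y : Matrix (I2 N) (I2 N) ℂ) :
    opm v (l ++ m) Y = opm v m (opm v l Y) := by
  induction l generalizing Y with
  | nil => rfl
  | cons R l ih => exact ih _

lemma opm_add (v : ℂ) (l : List (Matrix (I2 N) (I2 N) ℂ)) : ∀ X Y : Matrix (I2 N) (I2 N) ℂ,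
    opm v l (X + Y) = opm v l X + opm v l Y := by
  induction l with
  | nil => intro X Y; rfl
  | cons a l ih =>
    intro X Y
    change opm v l (a * rho v (X + Y)) = opm v l (a * rho v X) + opm v l (a * rho v Y)
    rw [rho_add, mul_add, ih]

lemma opm_smul (v : ℂ) (l : List (Matrix (I2 N) (I2 N) ℂ)) : ∀ (c : ℂ) (X : Matrix (I2 N) (I2 N) ℂ),
    opm v l (c • X) = c • opm v l X := by
  induction l with
  | nil => intro c X; rfl
  | cons a l ih =>
    intro c X
    change opm v l (a * rho v (c • X)) = c • opm v l (a * rho v X)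
    rw [rho_smul, mul_smul_comm, ih]

/-- the adjoint word -/
noncomputable def adj (v : ℂ) (l : List (Matrix (I2 N) (I2 N) ℂ)) : List (Matrix (I2 N) (I2 N) ℂ) :=
  (l.map (stm v)).reverse

lemma adj_append (v : ℂ) (l m : List (Matrix (I2 N) (I2 N) ℂ)) :
    adj v (l ++ m) = adj v m ++ adj v l := by
  unfold adj
  rw [List.map_append, List.reverse_append]

lemma adj_adj {v : ℂ} (hv : Adm N v) (hc : (starRingEnd ℂ) v = v⁻¹)
    (l : List (Matrix (I2 N) (I2 N) ℂ)) : adj v (adj v l) = l := by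
  unfold adj
  rw [List.map_reverse, List.reverse_reverse, List.map_map]
  have : (stm v ∘ stm v) = (id : Matrix (I2 N) (I2 N) ℂ → Matrix (I2 N) (I2 N) ℂ) := by
    funext X
    exact stm_stm hv hc X
  rw [this, List.map_id]

lemma InA_adj {v : ℂ} (hv : Adm N v) (hc : (starRingEnd ℂ) v = v⁻¹)
    {l : List (Matrix (I2 N) (I2 N) ℂ)} (hl : ∀ R ∈ l, InA v R) : ∀ R ∈ adj v l, InA v R := by
  intro R hR
  unfold adj at hR
  rw [List.mem_reverse, List.mem_map] at hR
  obtain ⟨S, hS, rfl⟩ := hR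
  exact InA_stm hv hc (hl S hS)

/-- the adjoint -/
lemma hf_opm {v : ℂ} (hv : Good N v) (hN : 2 ≤ N) (l : List (Matrix (I2 N) (I2 N) ℂ))
    (hl : ∀ R ∈ l, InA v R) : ∀ {A B : Matrix (I2 N) (I2 N) ℂ}, InA v A → InA v B →
    hf v A (opm v l B) = hf v (opm v (adj v l) A) B := by
  induction l with
  | nil => intro A B _ _; rfl
  | cons a l ih =>
    intro A B hA hB
    have hv' := hv.adm
    have hl' : ∀ R ∈ l, InA v R := fun S hS => hl S (List.mem_cons_of_mem _ hS)
    have ha : InA v a := hl a List.mem_cons_self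
    have e : adj v (a :: l) = adj v l ++ [stm v a] := by
      unfold adj
      rw [List.map_cons, List.reverse_cons]
    rw [e, opm_append]
    change hf v A (opm v l (a * rho v B)) = hf v (stm v a * rho v _) B
    rw [ih hl' hA (ha.mul (InA_rho hv' hB)),
      hf_step hv hN (InA_opm hv' _ (InA_adj hv' hv.cj hl') hA) hB ha]

/-- the operator of a word in coordinates -/
noncomputable def Lo {v : ℂ} (hv : Pst N v) (w : List (Matrix (I2 N) (I2 N) ℂ))
    (hw : ∀ R ∈ w, InA v R) : EuclideanSpace ℂ (Fin N) →ₗ[ℂ] EuclideanSpace ℂ (Fin N) where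
  toFun x := Ph N v (opm v w (Ps N v x))
  map_add' x y := by
    have hA := hv.good.adm
    have h1 : Ps N v (x + y) = Ps N v x + Ps N v y := by
      unfold Ps
      rw [← sum_add_distrib]
      refine sum_congr rfl fun i _ => ?_
      rw [← add_smul]
      congr 1
      change (x i + y i) / _ = _
      exact add_div _ _ _
    rw [h1, opm_add]
    ext i
    change ((Real.sqrt (WR N v i) : ℝ) : ℂ) * gam v (_ + _) i = _ * gam v _ i + _ * gam v _ i
    rw [gam_add hA (InA_opm hA w hw (InA_Ps hA x)) (InA_opm hA w hw (InA_Ps hA y)), Pi.add_apply]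
    ring
  map_smul' c x := by
    have hA := hv.good.adm
    have h1 : Ps N v (c • x) = c • Ps N v x := by
      unfold Ps
      rw [smul_sum]
      refine sum_congr rfl fun i _ => ?_
      rw [smul_smul]
      congr 1
      change c * x i / _ = _
      ring
    rw [h1, opm_smul]
    ext i
    change ((Real.sqrt (WR N v i) : ℝ) : ℂ) * gam v (c • _) i = c * (_ * gam v _ i)
    rw [gam_smul hA (InA_opm hA w hw (InA_Ps hA x)), Pi.smul_apply, smul_eq_mul]
    ring

/-- the periodic words -/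
noncomputable def pwm (v : ℂ) (l : List (Matrix (I2 N) (I2 N) ℂ)) : ℕ → List (Matrix (I2 N) (I2 N) ℂ)
  | 0 => []
  | n + 1 => (l ++ adj v l) ++ pwm v l n

/-- moment sequences -/
theorem moments {v : ℂ} (hv : Pst N v) (hN : 2 ≤ N) (l : List (Matrix (I2 N) (I2 N) ℂ))
    (hl : ∀ R ∈ l, InA v R) {Y : Matrix (I2 N) (I2 N) ℂ}
    (hY : InA v Y) : ∃ w μ : Fin N → ℝ, (∀ k, 0 ≤ w k ∧ 0 ≤ μ k) ∧
      ∀ n : ℕ, hf v Y (opm v (pwm v l n) Y) = ((∑ k, w k * μ k ^ n : ℝ) : ℂ) := by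
  have hG := hv.good
  have hA := hG.adm
  have hla := InA_adj hA hG.cj hl
  have hll : ∀ R ∈ l ++ adj v l, InA v R := by
    intro R hR
    rcases List.mem_append.1 hR with h | h
    · exact hl R h
    · exact hla R h
  have hadj : ∀ {A B : Matrix (I2 N) (I2 N) ℂ}, InA v A → InA v B →
      hf v A (opm v (l ++ adj v l) B) = hf v (opm v (l ++ adj v l) A) B := by
    intro A B iA iB
    rw [hf_opm hG hN _ hll iA iB]
    have e : adj v (l ++ adj v l) = l ++ adj v l := by
      rw [adj_append, adj_adj hA hG.cj]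
    rw [e]
  have hsym : (Lo hv (l ++ adj v l) hll).IsSymmetric := by
    intro x y
    have ix := InA_Ps hA x
    have iy := InA_Ps hA y
    have e1 : inner ℂ (Lo hv (l ++ adj v l) hll x) y =
        inner ℂ (Ph N v (opm v (l ++ adj v l) (Ps N v x))) (Ph N v (Ps N v y)) := by
      rw [Ph_Ps hv]; rfl
    have e2 : inner ℂ x (Lo hv (l ++ adj v l) hll y) =
        inner ℂ (Ph N v (Ps N v x)) (Ph N v (opm v (l ++ adj v l) (Ps N v y))) := by
      rw [Ph_Ps hv]; rfl
    rw [e1, e2, inner_Ph hv, inner_Ph hv, hadj ix iy]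
  have hn : Module.finrank ℂ (EuclideanSpace ℂ (Fin N)) = N := finrank_euclideanSpace_fin
  set u := hsym.eigenvectorBasis hn with hu
  set μ := hsym.eigenvalues hn with hμ
  have hLu : ∀ k, Lo hv (l ++ adj v l) hll (u k) = (μ k : ℂ) • u k := fun k =>
    hsym.apply_eigenvectorBasis hn k
  have hμ0 : ∀ k, 0 ≤ μ k := by
    intro k
    have ik := InA_Ps hA (u k)
    have h1 : inner ℂ (u k) (Lo hv (l ++ adj v l) hll (u k)) = (μ k : ℂ) := by
      rw [hLu, inner_smul_right, inner_self_eq_norm_sq_to_K, u.orthonormal.1 k]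
      simp
    have h2 : inner ℂ (u k) (Lo hv (l ++ adj v l) hll (u k)) =
        hf v (Ps N v (u k)) (opm v (l ++ adj v l) (Ps N v (u k))) := by
      rw [← inner_Ph hv, Ph_Ps hv]
      rfl
    have h3 : hf v (Ps N v (u k)) (opm v (l ++ adj v l) (Ps N v (u k))) =
        (nq v (opm v l (Ps N v (u k))) : ℝ) := by
      rw [opm_append, hf_opm hG hN _ hla ik (InA_opm hA l hl ik), adj_adj hA hG.cj, hf_self]
    rw [h1] at h2
    rw [h3] at h2
    have h4 : μ k = nq v (opm v l (Ps N v (u k))) := by exact_mod_cast h2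
    rw [h4]
    exact nq_nonneg hG _
  have hiter : ∀ (n : ℕ) {Z : Matrix (I2 N) (I2 N) ℂ}, InA v Z →
      ((Lo hv (l ++ adj v l) hll)^[n]) (Ph N v Z) = Ph N v (opm v (pwm v l n) Z) := by
    intro n
    induction n with
    | zero => intro Z _; rfl
    | succ n ih =>
      intro Z hZ
      have e1 : Lo hv (l ++ adj v l) hll (Ph N v Z) = Ph N v (opm v (l ++ adj v l) Z) := by
        change Ph N v (opm v (l ++ adj v l) (Ps N v (Ph N v Z))) = _
        rw [Ps_Ph hv hZ]
      rw [Function.iterate_succ_apply, e1, ih (InA_opm hA _ hll hZ), pwm,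
        opm_append v (l ++ adj v l)]
  have hpow : ∀ (n : ℕ) (k : Fin N) (y : EuclideanSpace ℂ (Fin N)),
      inner ℂ (u k) (((Lo hv (l ++ adj v l) hll)^[n]) y) = (μ k : ℂ) ^ n * inner ℂ (u k) y := by
    intro n k
    induction n with
    | zero => intro y; simp
    | succ n ih =>
      intro y
      rw [Function.iterate_succ_apply, ih, ← hsym (u k) y, hLu, inner_smul_left, Complex.conj_ofReal,
        pow_succ]
      ring
  refine ⟨fun k => ‖inner ℂ (u k) (Ph N v Y)‖ ^ 2, μ, fun k => ⟨by positivity, hμ0 k⟩, fun n => ?_⟩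
  rw [← inner_Ph hv, ← hiter n hY, ← u.sum_inner_mul_inner]
  push_cast
  refine sum_congr rfl fun k _ => ?_
  rw [hpow, ← inner_conj_symm (Ph N v Y) (u k)]
  have h5 : (starRingEnd ℂ) (inner ℂ (u k) (Ph N v Y)) * inner ℂ (u k) (Ph N v Y) =
      ((‖inner ℂ (u k) (Ph N v Y)‖ : ℝ) : ℂ) ^ 2 := by
    rw [mul_comm, Complex.mul_conj, Complex.normSq_eq_norm_sq]
    push_cast
    rfl
  rw [← h5]
  ring

/-! ### words of diagrams -/

/-- tangles joined to a tangle, with a quarter turn before each of them -/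
def bt : List (List Pc) → List Pc → List Pc
  | [], T => T
  | R :: l, T => bt l (rot T ++ R)

/-- the mirror image -/
def ants (l : List (List Pc)) : List (List Pc) := (l.map ds).reverse

/-- the periodic words -/
def pwt (l : List (List Pc)) : ℕ → List (List Pc)
  | 0 => []
  | n + 1 => (l ++ ants l) ++ pwt l n

lemma Is_bt (l : List (List Pc)) (hl : ∀ R ∈ l, Is 2 2 R) : ∀ {T : List Pc}, Is 2 2 T →
    Is 2 2 (bt l T) := by
  induction l with
  | nil => intro T hT; exact hT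
  | cons R l ih =>
    intro T hT
    exact ih (fun S hS => hl S (List.mem_cons_of_mem _ hS))
      (Is_append (Is_rot hT) (hl R List.mem_cons_self))

lemma MM_bt (v : ℂ) (l : List (List Pc)) (hl : ∀ R ∈ l, Is 2 2 R) : ∀ {T : List Pc}, Is 2 2 T →
    MM N v (bt l T) = opm v (l.map (MM N v)) (MM N v T) := by
  induction l with
  | nil => intro T _; rfl
  | cons R l ih =>
    intro T hT
    have hR := hl R List.mem_cons_self
    rw [bt, ih (fun S hS => hl S (List.mem_cons_of_mem _ hS)) (Is_append (Is_rot hT) hR),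
      MM_append v (Is_rot hT) hR, MM_rot v hT]
    rfl

lemma Is_ants {l : List (List Pc)} (hl : ∀ R ∈ l, Is 2 2 R) : ∀ R ∈ ants l, Is 2 2 R := by
  intro R hR
  unfold ants at hR
  rw [List.mem_reverse, List.mem_map] at hR
  obtain ⟨S, hS, rfl⟩ := hR
  exact Is_ds (hl S hS)

lemma Is_pwt {l : List (List Pc)} (hl : ∀ R ∈ l, Is 2 2 R) (n : ℕ) : ∀ R ∈ pwt l n, Is 2 2 R := by
  induction n with
  | zero => intro R hR; simp [pwt] at hR
  | succ n ih =>
    intro R hR
    rw [pwt, List.mem_append, List.mem_append] at hR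
    rcases hR with (h | h) | h
    · exact hl R h
    · exact Is_ants hl R h
    · exact ih R h

lemma map_ants {v : ℂ} (hv : Adm N v) (hc : (starRingEnd ℂ) v = v⁻¹) {l : List (List Pc)}
    (hl : ∀ R ∈ l, Is 2 2 R) : (ants l).map (MM N v) = adj v (l.map (MM N v)) := by
  unfold ants adj
  rw [List.map_reverse, List.map_map, List.map_map]
  congr 1
  apply List.map_congr_left
  intro R hR
  exact MM_ds hv hc (hl R hR)

lemma map_pwt {v : ℂ} (hv : Adm N v) (hc : (starRingEnd ℂ) v = v⁻¹) {l : List (List Pc)}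
    (hl : ∀ R ∈ l, Is 2 2 R) (n : ℕ) : (pwt l n).map (MM N v) = pwm v (l.map (MM N v)) n := by
  induction n with
  | zero => rfl
  | succ n ih => rw [pwt, List.map_append, List.map_append, map_ants hv hc hl, ih, pwm]

/-- periodic words of tangles -/
theorem moments_bt {v : ℂ} (hv : Pst N v) (hN : 2 ≤ N) {l : List (List Pc)}
    (hl : ∀ R ∈ l, Is 2 2 R) {T : List Pc} (hT : Is 2 2 T) :
    ∃ w μ : Fin N → ℝ, (∀ k, 0 ≤ w k ∧ 0 ≤ μ k) ∧
      ∀ n : ℕ, val (N := N) v (by omega) (glue (ds T) (bt (pwt l n) T)) =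
        ((∑ k, w k * μ k ^ n : ℝ) : ℂ) := by
  have hA := hv.good.adm
  have hl2 : ∀ R ∈ l.map (MM N v), InA v R := by
    intro R hR
    obtain ⟨S, hS, rfl⟩ := List.mem_map.1 hR
    exact InA_MM hA (hl S hS)
  obtain ⟨w, μ, h0, h1⟩ := moments hv hN (l.map (MM N v)) hl2 (InA_MM hA hT)
  refine ⟨w, μ, h0, fun n => ?_⟩
  rw [val_gram hv.good hN hT (Is_bt _ (Is_pwt hl n) hT), MM_bt v _ (Is_pwt hl n) hT,
    map_pwt hA hv.good.cj hl]
  exact h1 n

/-! ### two-bridge links -/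

lemma op_opm (v : ℂ) (l : List ℤ) : ∀ Y : Matrix (I2 N) (I2 N) ℂ,
    op N v l Y = opm v (l.map (Xz N v)) Y := by
  induction l with
  | nil => intro Y; rfl
  | cons a l ih => intro Y; exact ih _

/-- the mirror image of a list of twist regions -/
def anti (l : List ℤ) : List ℤ := (l.map fun a => -a).reverse

lemma anti_anti (l : List ℤ) : anti (anti l) = l := by
  unfold anti
  rw [List.map_reverse, List.reverse_reverse, List.map_map]
  have : ((fun a : ℤ => -a) ∘ fun a => -a) = id := by funext a; simp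
  rw [this, List.map_id]

/-- the periodic lists -/
def pw (l : List ℤ) : ℕ → List ℤ
  | 0 => []
  | n + 1 => (l ++ anti l) ++ pw l n

lemma map_anti {v : ℂ} (hv : Adm N v) (hc : (starRingEnd ℂ) v = v⁻¹) (l : List ℤ) :
    (anti l).map (Xz N v) = adj v (l.map (Xz N v)) := by
  unfold anti adj
  rw [List.map_reverse, List.map_map, List.map_map]
  congr 1
  apply List.map_congr_left
  intro a _
  exact (stm_Xz hv hc a).symm

lemma map_pw {v : ℂ} (hv : Adm N v) (hc : (starRingEnd ℂ) v = v⁻¹) (l : List ℤ) (n : ℕ) :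
    (pw l n).map (Xz N v) = pwm v (l.map (Xz N v)) n := by
  induction n with
  | zero => rfl
  | succ n ih => rw [pw, List.map_append, List.map_append, map_anti hv hc, ih, pwm]

/-- periodic two-bridge links -/
theorem moments_tb {v : ℂ} (hv : Pst N v) (hN : 2 ≤ N) (a : ℤ) (m l : List ℤ) :
    ∃ w μ : Fin N → ℝ, (∀ k, 0 ≤ w k ∧ 0 ≤ μ k) ∧
      ∀ n : ℕ, val (N := N) v (by omega) (tb ((a :: m) ++ (pw l n ++ anti (a :: m)))) =
        ((∑ k, w k * μ k ^ n : ℝ) : ℂ) := by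
  have hG := hv.good
  have hA := hG.adm
  have i1 : InA v (rho v (1 : Matrix (I2 N) (I2 N) ℂ)) := InA_rho hA (InA.one v)
  have i2 := InA_op hA (a :: m) i1
  have hl2 : ∀ R ∈ l.map (Xz N v), InA v R := by
    intro R hR
    obtain ⟨S, hS, rfl⟩ := List.mem_map.1 hR
    exact InA_Xz hA S
  obtain ⟨w, μ, h0, h1⟩ := moments hv hN (l.map (Xz N v)) hl2 i2
  refine ⟨w, μ, h0, fun n => ?_⟩
  have h := val_tb hG hN a (m ++ (pw l n ++ anti (a :: m)))
  rw [List.cons_append, h, ← List.cons_append, op_append, op_append,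
    hf_op hG hN _ i1 (InA_op hA _ i2)]
  have e : ((anti (a :: m)).map fun a => -a).reverse = a :: m := anti_anti _
  rw [e, op_opm v (pw l n), map_pw hA hG.cj]
  exact h1 n

/-- palindromic two-bridge links -/
theorem pos_pal {v : ℂ} (hv : Pst N v) (hN : 2 ≤ N) (a : ℤ) (l : List ℤ) :
    ∃ r : ℝ, 0 < r ∧ val (N := N) v (by omega) (tb ((a :: l) ++ anti (a :: l))) = r :=
  ⟨_, pos_tl hv hN (a :: l), val_pal hv.good hN a l⟩

/-- palindromic two-bridge links and one half -/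
theorem pal_ge {v : ℂ} (hv : Kr N v) (hN : 2 ≤ N) (a : ℤ) (l : List ℤ) :
    ∃ r : ℝ, val (N := N) v (by omega) (tb ((a :: l) ++ anti (a :: l))) = r ∧
      ‖val (N := N) v (by omega) (tb (a :: l))‖ ^ 2 +
        ‖val (N := N) v (by omega) (numer (tl (a :: l)))‖ ^ 2 ≤ r := by
  refine ⟨_, val_pal hv.good hN a l, ?_⟩
  have h1 := nq_ge hv hN (InA_MM hv.adm (Is_tl (a :: l)))
  rw [tb_eq, val_denom v _ (Is_tl _), val_numer hv.adm _ (Is_tl _)]
  linarith

/-- doubles -/
theorem dbl_ge {v : ℂ} (hv : Kr N v) (hN : 2 ≤ N) {T : List Pc} (hT : Is 2 2 T) :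
    ∃ r : ℝ, val (N := N) v (by omega) (dbl T) = r ∧
      ‖val (N := N) v (by omega) (denom T)‖ ^ 2 +
        ‖val (N := N) v (by omega) (numer T)‖ ^ 2 ≤ r := by
  refine ⟨_, val_dbl hv.good hN hT, ?_⟩
  have h1 := nq_ge hv hN (InA_MM hv.adm hT)
  rw [val_denom v _ hT, val_numer hv.adm _ hT]
  linarith

/-! ### growth -/

/-- moment sequences are logarithmically convex -/
lemma mom_pow {K : ℕ} {w μ : Fin K → ℝ} (h : ∀ k, 0 ≤ w k ∧ 0 ≤ μ k) (n : ℕ) :
    (∑ k, w k * μ k ^ 1) ^ (n + 1) ≤ (∑ k, w k * μ k ^ (n + 1)) * (∑ k, w k * μ k ^ 0) ^ n := by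
  have hm : ∀ n : ℕ, 0 ≤ ∑ k, w k * μ k ^ n := fun n =>
    sum_nonneg fun k _ => mul_nonneg (h k).1 (pow_nonneg (h k).2 n)
  rcases (hm 0).eq_or_lt with h0 | h0
  · have hw : ∀ k, w k = 0 := by
      intro k
      have h1 := (sum_eq_zero_iff_of_nonneg (fun k _ => mul_nonneg (h k).1 (pow_nonneg (h k).2 0))).1
        h0.symm k (mem_univ k)
      simpa using h1
    simp [hw]
  · refine logconv_pow (m := fun n => ∑ k, w k * μ k ^ n) h0 hm (fun n => ?_) n
    have h1 := sum_mul_sq_le_sq_mul_sq univ (fun k => Real.sqrt (w k * μ k ^ n))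
      (fun k => Real.sqrt (w k * μ k ^ (n + 2)))
    have e1 : ∀ k, Real.sqrt (w k * μ k ^ n) * Real.sqrt (w k * μ k ^ (n + 2)) = w k * μ k ^ (n + 1) := by
      intro k
      obtain ⟨p1, p2⟩ := h k
      rw [← Real.sqrt_mul (mul_nonneg p1 (pow_nonneg p2 n))]
      have e : w k * μ k ^ n * (w k * μ k ^ (n + 2)) = (w k * μ k ^ (n + 1)) ^ 2 := by ring
      rw [e, Real.sqrt_sq (mul_nonneg p1 (pow_nonneg p2 _))]
    have e2 : ∀ k, Real.sqrt (w k * μ k ^ n) ^ 2 = w k * μ k ^ n := fun k =>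
      Real.sq_sqrt (mul_nonneg (h k).1 (pow_nonneg (h k).2 n))
    have e3 : ∀ k, Real.sqrt (w k * μ k ^ (n + 2)) ^ 2 = w k * μ k ^ (n + 2) := fun k =>
      Real.sq_sqrt (mul_nonneg (h k).1 (pow_nonneg (h k).2 (n + 2)))
    rw [sum_congr rfl fun k _ => e1 k, sum_congr rfl fun k _ => e2 k,
      sum_congr rfl fun k _ => e3 k] at h1
    exact h1

/-- the growth of periodic families -/
theorem lb_periodic {D : ℕ → List Pc} (hval : ∀ N : ℕ, 2 ≤ N → ∃ w μ : Fin N → ℝ,
      (∀ k, 0 ≤ w k ∧ 0 ≤ μ k) ∧ ∀ n : ℕ, kv (D n) N = ((∑ k, w k * μ k ^ n : ℝ) : ℂ))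
    {A B : ℝ} (hA : UB (D 0) A) (hB : LBd (D 1) B) (n : ℕ) :
    LBd (D (n + 1)) ((n + 1) * B - n * A) := by
  intro ε hε
  have hpi := Real.pi_pos
  filter_upwards [hA (ε / (2 * n + 2)) (by positivity), hB (ε / (2 * n + 2)) (by positivity),
    eventually_ge_atTop 2] with N h1 h2 hN
  obtain ⟨w, μ, h0, hs⟩ := hval N hN
  have hm : ∀ n : ℕ, 0 ≤ ∑ k, w k * μ k ^ n := fun n =>
    sum_nonneg fun k _ => mul_nonneg (h0 k).1 (pow_nonneg (h0 k).2 n)
  have hnorm : ∀ n, ‖kv (D n) N‖ = ∑ k, w k * μ k ^ n := by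
    intro n
    rw [hs n, Complex.norm_real, Real.norm_of_nonneg (hm n)]
  rw [hnorm] at h1 h2 ⊢
  have h3 := mom_pow h0 n
  have h4 : (∑ k, w k * μ k ^ 0) ^ n ≤ Real.exp (N * (A + ε / (2 * n + 2)) / (2 * π)) ^ n :=
    pow_le_pow_left₀ (hm 0) h1 n
  have h5 : Real.exp (N * (B - ε / (2 * n + 2)) / (2 * π)) ^ (n + 1) ≤
      (∑ k, w k * μ k ^ 1) ^ (n + 1) := pow_le_pow_left₀ (Real.exp_pos _).le h2 (n + 1)
  have h6 : Real.exp (N * (B - ε / (2 * n + 2)) / (2 * π)) ^ (n + 1) ≤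
      (∑ k, w k * μ k ^ (n + 1)) * Real.exp (N * (A + ε / (2 * n + 2)) / (2 * π)) ^ n :=
    h5.trans (h3.trans (mul_le_mul_of_nonneg_left h4 (hm _)))
  rw [← Real.exp_nat_mul, ← Real.exp_nat_mul] at h6
  have h7 : Real.exp (((n + 1 : ℕ) : ℝ) * (N * (B - ε / (2 * n + 2)) / (2 * π)) -
      (n : ℝ) * (N * (A + ε / (2 * n + 2)) / (2 * π))) ≤ ∑ k, w k * μ k ^ (n + 1) := by
    rw [Real.exp_sub, div_le_iff₀ (Real.exp_pos _)]
    exact h6
  refine le_trans ?_ h7
  rw [Real.exp_le_exp]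
  have hn0 : (0 : ℝ) ≤ n := Nat.cast_nonneg n
  have e : ((n + 1 : ℕ) : ℝ) * (N * (B - ε / (2 * n + 2)) / (2 * π)) -
      (n : ℝ) * (N * (A + ε / (2 * n + 2)) / (2 * π)) -
      N * (((n : ℝ) + 1) * B - n * A - ε) / (2 * π) =
      N / (2 * π) * (ε - (2 * n + 1) * (ε / (2 * n + 2))) := by
    push_cast
    field_simp
    ring
  have e2 : (2 * (n : ℝ) + 1) * (ε / (2 * n + 2)) ≤ ε := by
    rw [mul_div_assoc', div_le_iff₀ (by positivity)]
    nlinarith
  have e3 : 0 ≤ (N : ℝ) / (2 * π) * (ε - (2 * n + 1) * (ε / (2 * n + 2))) :=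
    mul_nonneg (by positivity) (by linarith)
  linarith

/-- the growth of periodic two-bridge links -/
theorem lb_tb (a : ℤ) (m l : List ℤ) {A B : ℝ}
    (hA : UB (tb ((a :: m) ++ (pw l 0 ++ anti (a :: m)))) A)
    (hB : LBd (tb ((a :: m) ++ (pw l 1 ++ anti (a :: m)))) B) (n : ℕ) :
    LBd (tb ((a :: m) ++ (pw l (n + 1) ++ anti (a :: m)))) ((n + 1) * B - n * A) := by
  refine lb_periodic (D := fun n => tb ((a :: m) ++ (pw l n ++ anti (a :: m)))) ?_ hA hB n
  intro N hN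
  obtain ⟨w, μ, h0, h1⟩ := moments_tb (Kr_rt (N := N) (by omega)).pst hN a m l
  refine ⟨w, μ, h0, fun n => ?_⟩
  unfold kv
  rw [dif_pos (by omega)]
  exact h1 n

/-- the growth of palindromic two-bridge links -/
theorem lb_pal (a : ℤ) (l : List ℤ) {V : ℝ} (h : LBd (tb (a :: l)) V) :
    LBd (tb ((a :: l) ++ anti (a :: l))) (2 * V) := by
  intro ε hε
  filter_upwards [h (ε / 2) (by positivity), eventually_ge_atTop 2] with N h1 hN
  obtain ⟨r, h2, h3⟩ := pal_ge (Kr_rt (N := N) (by omega)) hN a l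
  have h4 : kv (tb ((a :: l) ++ anti (a :: l))) N = r := by
    unfold kv
    rw [dif_pos (by omega)]
    exact h2
  have h5 : kv (tb (a :: l)) N = val (N := N) (rt N) (by omega) (tb (a :: l)) := by
    unfold kv
    rw [dif_pos (by omega)]
  rw [h4, Complex.norm_real]
  rw [h5] at h1
  have h6 : Real.exp (N * (2 * V - ε) / (2 * π)) = Real.exp (N * (V - ε / 2) / (2 * π)) ^ 2 := by
    rw [← Real.exp_nat_mul]
    congr 1
    push_cast
    field_simp
  rw [h6]
  have h7 := pow_le_pow_left₀ (Real.exp_pos _).le h1 2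
  refine h7.trans (le_trans ?_ (le_abs_self r))
  have h8 : 0 ≤ ‖val (N := N) (rt N) (by omega) (numer (tl (a :: l)))‖ ^ 2 := by positivity
  linarith

end Pool.Agent.Q191.RP
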