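import Pool.Agent.Q191.RP.Root
import Pool.Agent.Q191.FT.Lob3

/-!
# Growth
-/

set_option autoImplicit false

namespace Pool.Agent.Q191.RP

open Matrix Finset Filter Topology
open scoped Kronecker Real
open Pool.Agent.H550R3.Jones (WM IsMod IsInt Gen br brf tens irr W crossP crossN Adm)
open Pool.Agent.H927R2.J.SanYB (brf_ne)
open Pool.Agent.W715.VC (brf_succ' rt rt_ne adm rt_zpow br_rt sn rt_zpow_N)
open GapVol (lob)

variable {N : ℕ}

/-! ### the points -/

/-- `exp (π i a / N)` -/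
noncomputable def pv (N a : ℕ) : ℂ := Complex.exp (Real.pi * Complex.I * a / N)

lemma pv_zpow (N a : ℕ) (k : ℤ) :
    pv N a ^ k = Complex.exp (((Real.pi * (a * k) / N : ℝ) : ℂ) * Complex.I) := by
  rw [pv, ← Complex.exp_int_mul]
  congr 1
  push_cast
  ring

lemma pv_one (N : ℕ) : pv N 1 = rt N := by
  unfold pv rt
  congr 1
  push_cast
  ring

lemma br_pv (N a : ℕ) (k : ℤ) :
    br (pv N a) k = 2 * Complex.I * ((Real.sin (Real.pi * (a * k) / N) : ℝ) : ℂ) := by
  rw [br, pv_zpow, pv_zpow, Complex.ofReal_sin, Complex.sin]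
  have h1 : ((Real.pi * (a * ((-k : ℤ) : ℝ)) / N : ℝ) : ℂ) * Complex.I =
      -((Real.pi * (a * k) / N : ℝ) : ℂ) * Complex.I := by
    push_cast; ring
  rw [h1]
  have h2 := Complex.I_mul_I
  linear_combination (Complex.exp (((Real.pi * (a * k) / N : ℝ) : ℂ) * Complex.I) -
    Complex.exp (-((Real.pi * (a * k) / N : ℝ) : ℂ) * Complex.I)) * h2

lemma Kr_pv {N a : ℕ} (hN : 0 < N) (ha : Nat.Coprime a N) : Kr N (pv N a) := by
  have h0 : pv N a ≠ 0 := Complex.exp_ne_zero _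
  have hN' : (N : ℝ) ≠ 0 := by exact_mod_cast hN.ne'
  refine ⟨⟨h0, fun k hk0 hk => ?_⟩, ?_, ?_⟩
  · rw [br_pv]
    have h3 := Complex.I_ne_zero
    refine mul_ne_zero (mul_ne_zero two_ne_zero h3) ?_
    rw [Complex.ofReal_ne_zero, Real.sin_ne_zero_iff]
    intro n hn
    have hpi := Real.pi_ne_zero
    have h4 : (n : ℝ) * N = a * k := by
      field_simp at hn
      push_cast at hn
      linarith
    have h5 : n * (N : ℤ) = a * k := by exact_mod_cast h4
    have h6 : (N : ℤ) ∣ (a : ℤ) * k := ⟨n, by rw [← h5]; ring⟩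
    have h7 : N ∣ a * k := by exact_mod_cast h6
    have h8 : N ∣ k := (Nat.Coprime.dvd_of_dvd_mul_left (Nat.Coprime.symm ha) h7)
    have := Nat.le_of_dvd hk0 h8
    omega
  · unfold pv
    rw [← Complex.exp_conj, ← Complex.exp_neg]
    congr 1
    simp only [map_mul, map_div₀, Complex.conj_ofReal, Complex.conj_I, map_natCast]
    ring
  · rw [pv_zpow]
    have h1 : ((Real.pi * (a * ((2 * (N : ℤ) : ℤ) : ℝ)) / N : ℝ) : ℂ) * Complex.I =
        (a : ℂ) * (2 * Real.pi * Complex.I) := by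
      push_cast
      have : (N : ℂ) ≠ 0 := by exact_mod_cast hN.ne'
      field_simp
    rw [h1, Complex.exp_nat_mul, Complex.exp_two_pi_mul_I, one_pow]

lemma Kr_rt {N : ℕ} (hN : 0 < N) : Kr N (rt N) := by
  rw [← pv_one]
  exact Kr_pv hN (Nat.coprime_one_left N)

/-! ### growth -/

lemma log_brf {m : ℕ} (hm : m < N) : Real.log ‖brf (rt N) m‖ = EvenVol.S N m := by
  have hne : ∀ j ∈ range m, ‖br (rt N) ((j : ℤ) + 1)‖ ≠ 0 := by
    intro j hj
    rw [mem_range] at hj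
    rw [norm_ne_zero_iff]
    have := (adm N).2 (j + 1) (by omega) (by omega)
    push_cast at this
    exact this
  unfold brf EvenVol.S
  rw [norm_prod, Real.log_prod hne]
  refine sum_congr rfl fun j hj => ?_
  rw [mem_range] at hj
  unfold EvenVol.sg
  have h1 : ¬ N ∣ j + 1 := by
    intro h
    have := Nat.le_of_dvd (by omega) h
    omega
  rw [if_neg h1, br_rt, norm_mul, norm_mul, Complex.norm_I, Complex.norm_real, mul_one]
  congr 1
  unfold sn
  rw [abs_mul]
  have h2 : ‖(2 : ℂ)‖ = |(2 : ℝ)| := by simp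
  rw [h2, Real.norm_eq_abs]
  push_cast
  rfl

/-- the Gaussian binomial coefficients grow at most like `exp (N v_3 / π)` -/
lemma qbin_growth (ε : ℝ) (hε : 0 < ε) : ∀ᶠ N : ℕ in atTop, ∀ i j : ℕ, j ≤ i → i < N →
    ‖brf (rt N) i‖ ≤ Real.exp (N / π * (3 * lob (π / 3)) + ε * N) *
      (‖brf (rt N) (i - j)‖ * ‖brf (rt N) j‖) := by
  have h := Pool.Agent.Q191.FT.S_bound 1 (ε / 3) (by positivity)
  filter_upwards [h, eventually_ge_atTop 1] with N hN hN1 i j hji hi
  have hN0 : (0 : ℝ) < N := by exact_mod_cast hN1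
  have p1 : 0 < ‖brf (rt N) i‖ := norm_pos_iff.2 (brf_ne (adm N) hi)
  have p2 : 0 < ‖brf (rt N) (i - j)‖ := norm_pos_iff.2 (brf_ne (adm N) (by omega))
  have p3 : 0 < ‖brf (rt N) j‖ := norm_pos_iff.2 (brf_ne (adm N) (by omega))
  have b1 := abs_le.1 (hN i (by omega))
  have b2 := abs_le.1 (hN (i - j) (by omega))
  have b3 := abs_le.1 (hN j (by omega))
  rw [← log_brf (by omega)] at b1 b2 b3
  rw [← Real.log_le_log_iff p1 (by positivity), Real.log_mul (Real.exp_ne_zero _) (by positivity),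
    Real.log_exp, Real.log_mul p2.ne' p3.ne']
  have hl := Pool.Agent.Q191.FT.lobW (π * ((i - j : ℕ) : ℝ) / N) (π * (j : ℝ) / N)
  have e1 : π * ((i - j : ℕ) : ℝ) / N + π * (j : ℝ) / N = π * (i : ℝ) / N := by
    rw [Nat.cast_sub hji]
    ring
  rw [e1] at hl
  have h2 : N / π * (lob (π * ((i - j : ℕ) : ℝ) / N) + lob (π * (j : ℝ) / N) - lob (π * (i : ℝ) / N)) ≤
      N / π * (3 * lob (π / 3)) := by
    apply mul_le_mul_of_nonneg_left hl
    positivity
  rw [mul_sub, mul_add] at h2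
  linarith [b1.1, b1.2, b2.1, b2.2, b3.1, b3.2]

/-- the factorials grow at most like `exp (N v_3 / 2 π)` -/
lemma brf_growth (ε : ℝ) (hε : 0 < ε) : ∀ᶠ N : ℕ in atTop, ∀ i : ℕ, i < N →
    ‖brf (rt N) i‖ ^ 2 ≤ Real.exp (N / π * (3 * lob (π / 3)) + ε * N) := by
  have h := Pool.Agent.Q191.FT.S_bound 1 (ε / 2) (by positivity)
  filter_upwards [h, eventually_ge_atTop 1] with N hN hN1 i hi
  have hN0 : (0 : ℝ) < N := by exact_mod_cast hN1
  have p1 : 0 < ‖brf (rt N) i‖ := norm_pos_iff.2 (brf_ne (adm N) hi)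
  have b1 := abs_le.1 (hN i (by omega))
  rw [← log_brf (by omega)] at b1
  rw [← Real.log_le_log_iff (by positivity) (Real.exp_pos _), Real.log_exp, Real.log_pow]
  have h2 := (abs_le.1 (EvenVol.LobIneq.abs_lob_le (π * (i : ℝ) / N))).1
  have h3 : N / π * (-lob (π / 6)) ≤ N / π * lob (π * (i : ℝ) / N) :=
    mul_le_mul_of_nonneg_left h2 (by positivity)
  have h4 : 3 * lob (π / 3) = 2 * lob (π / 6) := GapVol.lob_dup
  rw [h4]
  push_cast
  have h5 : N / π * (2 * lob (π / 6)) = 2 * (N / π * lob (π / 6)) := by ring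
  rw [h5]
  linarith [b1.1, b1.2]

/-- `∑ |{i}!|^2` grows at least like `exp (N v_3 / π)` -/
lemma brf_lower (ε : ℝ) (hε : 0 < ε) : ∀ᶠ N : ℕ in atTop,
    Real.exp (N / π * (3 * lob (π / 3)) - ε * N) ≤ ∑ i : Fin N, ‖brf (rt N) i‖ ^ 2 := by
  have h := Pool.Agent.Q191.FT.S_bound 1 (ε / 4) (by positivity)
  have hpi := Real.pi_pos
  have hlim : Tendsto (fun N : ℕ => π * ((N - 1 - N / 6 : ℕ) : ℝ) / N) atTop (𝓝 (π - π / 6)) := by
    have h1 : Tendsto (fun N : ℕ => π - π * (1 / (N : ℝ)) - π * (((N / 6 : ℕ) : ℝ) / N)) atTop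
        (𝓝 (π - π * 0 - π * (1 / 6))) :=
      (tendsto_const_nhds.sub (tendsto_one_div_atTop_nhds_zero_nat.const_mul _)).sub
        (GapVol.div_six_tendsto.const_mul _)
    have h2 : π - π * 0 - π * (1 / 6) = π - π / 6 := by ring
    rw [h2] at h1
    refine h1.congr' ?_
    filter_upwards [eventually_ge_atTop 2] with N hN
    have h3 : (0 : ℝ) < N := by exact_mod_cast (by omega : 0 < N)
    have h4 : ((N - 1 - N / 6 : ℕ) : ℝ) = (N : ℝ) - 1 - ((N / 6 : ℕ) : ℝ) := by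
      rw [Nat.cast_sub (by omega), Nat.cast_sub (by omega)]
      norm_num
    rw [h4]
    field_simp
  have hl := (GapVol.lob_cont.tendsto (π - π / 6)).comp hlim
  rw [Pool.Agent.W709.QAT.lob_pi_sub] at hl
  have hev := hl.eventually (gt_mem_nhds (show -lob (π / 6) < -lob (π / 6) + π * (ε / 4) by
    have : 0 < π * (ε / 4) := by positivity
    linarith))
  filter_upwards [h, hev, eventually_ge_atTop 2] with N hN hN2 hN1
  have hN0 : (0 : ℝ) < N := by exact_mod_cast (by omega : 0 < N)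
  have hi : N - 1 - N / 6 < N := by omega
  have p1 : 0 < ‖brf (rt N) (N - 1 - N / 6)‖ := norm_pos_iff.2 (brf_ne (adm N) hi)
  have b1 := abs_le.1 (hN (N - 1 - N / 6) (by omega))
  rw [← log_brf hi] at b1
  have h3 : Real.exp (N / π * (3 * lob (π / 3)) - ε * N) ≤ ‖brf (rt N) (N - 1 - N / 6)‖ ^ 2 := by
    rw [← Real.le_log_iff_exp_le (by positivity), Real.log_pow]
    have h4 : 3 * lob (π / 3) = 2 * lob (π / 6) := GapVol.lob_dup
    rw [h4]
    push_cast
    simp only [Function.comp] at hN2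
    have h5 : N / π * lob (π * ((N - 1 - N / 6 : ℕ) : ℝ) / N) ≤ N / π * (-lob (π / 6) + π * (ε / 4)) :=
      mul_le_mul_of_nonneg_left hN2.le (by positivity)
    have h6 : N / π * (-lob (π / 6) + π * (ε / 4)) = -(N / π * lob (π / 6)) + ε / 4 * N := by
      field_simp
    have h7 : N / π * (2 * lob (π / 6)) = 2 * (N / π * lob (π / 6)) := by ring
    rw [h7]
    linarith [b1.1, b1.2]
  refine h3.trans ?_
  have h8 := single_le_sum (f := fun i : Fin N => ‖brf (rt N) i‖ ^ 2) (s := univ)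
    (fun i _ => by positivity) (mem_univ (⟨N - 1 - N / 6, hi⟩ : Fin N))
  exact h8

end Pool.Agent.Q191.RP
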