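import Pool.Agent.Q191.RP.Tr

/-!
# The half turn acts trivially; moment sequences
-/

set_option autoImplicit false

namespace Pool.Agent.Q191.RP

open Matrix Finset
open scoped Kronecker
open Pool.Agent.H550R3.Jones (WM IsMod IsInt Gen br brf tens irr W crossP crossN Adm)
open Pool.Agent.Q191.FT (lam lam_sub lam_neg Cas Cas_E Cas_F)
open Pool.Agent.H927R2.J.SanYB (brf_ne)
open Pool.Agent.W715.VC (brf_succ')

variable {N : ℕ}

lemma rho2_apply (v : ℂ) (X : Matrix (I2 N) (I2 N) ℂ) (p q : I2 N) : rho v (rho v X) p q =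
    (kap N v p.1 * kap N v p.2) / (kap N v q.1 * kap N v q.2) *
      X (q.2.rev, q.1.rev) (p.2.rev, p.1.rev) := by
  simp only [rho]
  rw [← mul_assoc, div_mul_div_comm, mul_comm (kap N v q.2)]

lemma rho2_mul {v : ℂ} (hv : Adm N v) (X Y : Matrix (I2 N) (I2 N) ℂ) :
    rho v (rho v (X * Y)) = rho v (rho v Y) * rho v (rho v X) := by
  ext p q
  rw [Matrix.mul_apply, rho2_apply, Matrix.mul_apply, mul_sum]
  have he : ∑ r : I2 N, (kap N v p.1 * kap N v p.2) / (kap N v q.1 * kap N v q.2) *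
      (X (q.2.rev, q.1.rev) r * Y r (p.2.rev, p.1.rev)) =
      ∑ r : I2 N, (kap N v p.1 * kap N v p.2) / (kap N v q.1 * kap N v q.2) *
      (X (q.2.rev, q.1.rev) (r.2.rev, r.1.rev) * Y (r.2.rev, r.1.rev) (p.2.rev, p.1.rev)) := by
    symm
    apply Fintype.sum_bijective (fun r : I2 N => ((r.2.rev, r.1.rev) : I2 N))
    · constructor
      · intro a b h
        simp only [Prod.mk.injEq, Fin.rev_inj] at h
        exact Prod.ext h.2 h.1
      · intro b
        exact ⟨(b.2.rev, b.1.rev), by simp⟩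
    · intro r
      rfl
  rw [he]
  refine sum_congr rfl fun r _ => ?_
  rw [rho2_apply, rho2_apply]
  have h1 := kap_ne hv r.1.2
  have h2 := kap_ne hv r.2.2
  have h3 := kap_ne hv q.1.2
  have h4 := kap_ne hv q.2.2
  field_simp

/-- the row of the Casimir operator -/
lemma xx_row (v : ℂ) (hN : 2 ≤ N) (u : I2 N → ℂ) : ht (xx N v *ᵥ u) 0 (N - 1) =
    v ^ (1 - (N : ℤ)) * br v ((N : ℤ) - 1) * (br v ((N : ℤ) - 1) * v ^ (3 - (N : ℤ)) * ht u 1 (N - 2) +
      br v 1 * ht u 0 (N - 1)) + lam v 1 * ht u 0 (N - 1) := by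
  unfold xx Cas
  rw [add_mulVec, ht_add, ← mulVec_mulVec, W_F_vec v _ (by omega) (by omega)]
  congr 1
  · have e0 : br v ((0 : ℕ) : ℤ) = 0 := by rw [Nat.cast_zero]; exact br_zero' v
    rw [e0, zero_mul, zero_add, W_E_vec v _ (by omega) (by omega)]
    have e1 : N - 1 - 1 = N - 2 := by omega
    have e2 : N - 1 - 1 + 1 = N - 1 := by omega
    have e3 : (N : ℤ) - ((N - 1 - 1 : ℕ) : ℤ) - 1 = 1 := by omega
    have e4 : (N : ℤ) - 1 - 2 * ((N - 1 - 1 : ℕ) : ℤ) = 3 - N := by omega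
    have e5 : -((N : ℤ) - 1 - 2 * ((0 : ℕ) : ℤ)) = 1 - N := by push_cast; ring
    have e6 : ((N - 1 : ℕ) : ℤ) = (N : ℤ) - 1 := by omega
    have e7 : (N : ℤ) - ((0 : ℕ) : ℤ) - 1 = (N : ℤ) - 1 := by push_cast; ring
    rw [e2, e3, e4, e5, e6, e7, e1]
    ring
  · rw [ht_in _ (by omega) (by omega), ht_in _ (by omega) (by omega), mulVec_diagonal, W_wt]
    congr 2
    simp only []
    omega

lemma kap_rat {v : ℂ} (hv : Adm N v) (hN : 2 ≤ N) :
    (kap N v 1 * kap N v (N - 2)) / (kap N v 0 * kap N v (N - 1)) =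
      v ^ (2 * (N : ℤ) - 4) * (br v 1 / br v ((N : ℤ) - 1)) ^ 2 := by
  obtain ⟨n, rfl⟩ : ∃ n, N = n + 2 := ⟨N - 2, by omega⟩
  rw [kap_zero hv (by omega), one_mul]
  unfold kap
  have e1 : n + 2 - 1 = n + 1 := by omega
  have e2 : n + 2 - 2 = n := by omega
  have e3 : n + 1 - 1 = n := by omega
  have e4 : n + 1 - n = 1 := by omega
  have e5 : n + 1 - (n + 1) = 0 := by omega
  rw [e2, e1, e3, e4, e5]
  have b0 : brf v 0 = 1 := by simp [brf]
  have b1 : brf v 1 = br v 1 := by simp [brf]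
  have bn : brf v (n + 1) = brf v n * br v ((n : ℤ) + 1) := brf_succ' v n
  have n1 : brf v n ≠ 0 := brf_ne hv (by omega)
  have n2 : br v ((n : ℤ) + 1) ≠ 0 := by
    have := hv.2 (n + 1) (by omega) (by omega)
    push_cast at this
    exact this
  have e6 : (((n + 2 : ℕ) : ℤ) - 1) = (n : ℤ) + 1 := by push_cast; ring
  rw [e6, bn, b0, b1]
  have h0 := hv.1
  have f1 : v ^ ((1 : ℕ) * (((n + 2 : ℕ) : ℤ) - 2 - (1 : ℕ))) = v ^ ((n : ℤ) - 1) := by
    congr 1; push_cast; ring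
  have f2 : v ^ ((n : ℤ) * (((n + 2 : ℕ) : ℤ) - 2 - n)) = 1 := by
    have : (n : ℤ) * (((n + 2 : ℕ) : ℤ) - 2 - n) = 0 := by push_cast; ring
    rw [this, zpow_zero]
  have f3 : v ^ (((n + 1 : ℕ) : ℤ) * (((n + 2 : ℕ) : ℤ) - 2 - ((n + 1 : ℕ) : ℤ))) =
      (v ^ ((n : ℤ) + 1))⁻¹ := by
    rw [← _root_.zpow_neg]
    congr 1; push_cast; ring
  have f4 : v ^ (2 * ((n + 2 : ℕ) : ℤ) - 4) = v ^ ((n : ℤ) - 1) * v ^ ((n : ℤ) + 1) := by
    rw [← zpow_add₀ h0]; congr 1; push_cast; ring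
  rw [f1, f2, f3, f4]
  have g1 : v ^ ((n : ℤ) + 1) ≠ 0 := zpow_ne_zero _ h0
  have s2 : ((-1 : ℂ) ^ (n + 1)) = -(-1) ^ n := by rw [pow_succ]; ring
  have s3 : ((-1 : ℂ) ^ n) ≠ 0 := pow_ne_zero _ (by norm_num)
  rw [s2]
  generalize ((-1 : ℂ) ^ n) = s at *
  generalize v ^ ((n : ℤ) + 1) = V at *
  generalize v ^ ((n : ℤ) - 1) = U at *
  generalize br v ((n : ℤ) + 1) = b at *
  generalize brf v n = c at *
  field_simp

lemma rho2_xx {v : ℂ} (hv : Adm N v) (hN : 2 ≤ N) : rho v (rho v (xx N v)) = xx N v := by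
  apply InA_ext hv (InA_rho hv (InA_rho hv (InA_xx hv.1))) (InA_xx hv.1)
  intro k hk
  -- the right side
  have hR : tv (xx N v) k = br v k * (if k = 1 then br v 1 else 0) +
      (if k = 0 then v ^ (1 - (N : ℤ)) * br v ((N : ℤ) - 1) * br v 1 + lam v 1 else 0) := by
    have h1 := tv_xx (v := v) (X := (1 : Matrix (I2 N) (I2 N) ℂ)) hk
    rw [mul_one] at h1
    rw [h1]
    have hy : ∀ a, a + 1 < N → yv N v (tv (1 : Matrix (I2 N) (I2 N) ℂ)) a = if a = 0 then br v 1 else 0 := by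
      intro a ha
      have t1 : tv (1 : Matrix (I2 N) (I2 N) ℂ) (a + 1) = if a + 1 = 0 then 1 else 0 :=
        tv_one (by omega) ha
      have t2 : tv (1 : Matrix (I2 N) (I2 N) ℂ) a = if a = 0 then 1 else 0 :=
        tv_one (by omega) (by omega)
      unfold yv
      rw [t1, t2, if_neg (by omega)]
      by_cases h : a = 0
      · subst h
        rw [if_pos rfl, if_pos rfl]
        push_cast
        rw [mul_zero, zero_add, mul_one]
      · rw [if_neg h, if_neg h]
        ring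
    rcases Nat.lt_or_ge k 1 with h | h
    · have hk0 : k = 0 := by omega
      subst hk0
      have e0 : br v ((0 : ℕ) : ℤ) = 0 := by rw [Nat.cast_zero]; exact br_zero' v
      have t2 : tv (1 : Matrix (I2 N) (I2 N) ℂ) 0 = if 0 = 0 then 1 else 0 :=
        tv_one (by omega) (by omega)
      have y0 := hy 0 (by omega)
      rw [if_pos rfl] at y0 t2
      rw [y0, t2, e0, if_pos rfl]
      push_cast
      ring_nf
    · have t2 : tv (1 : Matrix (I2 N) (I2 N) ℂ) k = if k = 0 then 1 else 0 :=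
        tv_one (by omega) hk
      have h0 : ¬ k = 0 := by omega
      rw [if_neg h0] at t2
      rw [t2, hy (k - 1) (by omega), if_neg h0]
      have h2 : v ^ (2 * (k : ℤ) + 1 - N) * br v ((N : ℤ) - 1 - k) * yv N v (tv (1 : Matrix (I2 N) (I2 N) ℂ)) k = 0 := by
        by_cases h3 : k = N - 1
        · have h4 : (N : ℤ) - 1 - k = 0 := by omega
          rw [h4, br_zero', mul_zero, zero_mul]
        · rw [hy k (by omega), if_neg (by omega), mul_zero]
      rw [h2]
      by_cases h5 : k = 1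
      · have h6 : k - 1 = 0 := by omega
        rw [if_pos h6, if_pos h5]; ring
      · have h6 : ¬ k - 1 = 0 := by omega
        rw [if_neg h6, if_neg h5]; ring
  -- the left side
  have hL : tv (rho v (rho v (xx N v))) k = (kap N v k * kap N v (N - 1 - k)) /
      (kap N v 0 * kap N v (N - 1)) * ht (xx N v *ᵥ Pi.single (⟨k, hk⟩, ⟨N - 1 - k, by omega⟩) 1) 0 (N - 1) := by
    rw [tv_eq (k := k) _ (⟨k, hk⟩, ⟨N - 1 - k, by omega⟩) (⟨0, by omega⟩, ⟨N - 1, by omega⟩)
      rfl rfl rfl rfl, rho2_apply]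
    congr 1
    rw [ht_in _ (by omega) (by omega), Matrix.mulVec_single_one]
    change _ = xx N v (⟨0, by omega⟩, ⟨N - 1, by omega⟩) (⟨k, hk⟩, ⟨N - 1 - k, by omega⟩)
    have g1 : (⟨0, by omega⟩ : Fin N).rev = ⟨N - 1, by omega⟩ := by
      apply Fin.ext; rw [Fin.val_rev]
    have g2 : (⟨N - 1, by omega⟩ : Fin N).rev = ⟨0, by omega⟩ := by
      apply Fin.ext; rw [Fin.val_rev]; change N - (N - 1 + 1) = 0; omega
    have g3 : (⟨N - 1 - k, by omega⟩ : Fin N).rev = ⟨k, hk⟩ := by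
      apply Fin.ext; rw [Fin.val_rev]; change N - (N - 1 - k + 1) = k; omega
    have g4 : (⟨k, hk⟩ : Fin N).rev = ⟨N - 1 - k, by omega⟩ := by
      apply Fin.ext; rw [Fin.val_rev]; change N - (k + 1) = N - 1 - k; omega
    rw [g1, g2, g3, g4]
  rw [hL, hR, xx_row v hN]
  have hs : ∀ a b : ℕ, a < N → b < N → ht (Pi.single ((⟨k, hk⟩, ⟨N - 1 - k, by omega⟩) : I2 N) (1 : ℂ)) a b =
      if a = k ∧ b = N - 1 - k then 1 else 0 := by
    intro a b ha hb
    rw [ht_in _ ha hb, Pi.single_apply]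
    by_cases h : a = k ∧ b = N - 1 - k
    · rw [if_pos h, if_pos]
      obtain ⟨h1, h2⟩ := h
      subst h1
      subst h2
      rfl
    · rw [if_neg h, if_neg]
      intro h'
      apply h
      simp only [Prod.mk.injEq, Fin.mk.injEq] at h'
      exact h'
  rw [hs 1 (N - 2) (by omega) (by omega), hs 0 (N - 1) (by omega) (by omega)]
  have n0 : kap N v 0 ≠ 0 := kap_ne hv (by omega)
  have n1 : kap N v (N - 1) ≠ 0 := kap_ne hv (by omega)
  by_cases h0 : k = 0
  · subst h0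
    rw [if_neg (by omega), if_pos (by omega), if_neg (by omega), if_pos rfl, Nat.sub_zero,
      div_self (mul_ne_zero n0 n1)]
    ring
  · by_cases h1 : k = 1
    · subst h1
      have e1 : N - 1 - 1 = N - 2 := by omega
      rw [e1, if_pos ⟨rfl, rfl⟩, if_neg (by omega), if_pos rfl, if_neg (by omega), kap_rat hv hN]
      have n2 : br v ((N : ℤ) - 1) ≠ 0 := by
        have h3 := hv.2 (N - 1) (by omega) (by omega)
        have e6 : ((N - 1 : ℕ) : ℤ) = (N : ℤ) - 1 := by omega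
        rwa [e6] at h3
      have f : v ^ (2 * (N : ℤ) - 4) * (v ^ (1 - (N : ℤ)) * v ^ (3 - (N : ℤ))) = 1 := by
        rw [← zpow_add₀ hv.1, ← zpow_add₀ hv.1]
        have : 2 * (N : ℤ) - 4 + (1 - N + (3 - N)) = 0 := by ring
        rw [this, zpow_zero]
      push_cast
      field_simp
      linear_combination (br v 1 ^ 2 * br v ((N : ℤ) - 1) ^ 2) * f
    · rw [if_neg (by omega), if_neg (by omega), if_neg h1, if_neg h0]
      ring

lemma rho_lin {v : ℂ} (X Y : Matrix (I2 N) (I2 N) ℂ) (c : ℂ) :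
    rho v (X - c • Y) = rho v X - c • rho v Y := by
  ext p q
  simp only [rho, Matrix.sub_apply, Matrix.smul_apply, smul_eq_mul]
  ring

/-- the half turn fixes the commutant -/
theorem rho2_id {v : ℂ} (hv : Adm N v) (hN : 2 ≤ N) {X : Matrix (I2 N) (I2 N) ℂ} (hX : InA v X) :
    rho v (rho v X) = X := by
  have hP : ∀ j, rho v (rho v (PP N v j)) = PP N v j := by
    intro j
    induction j with
    | zero => exact rho_rho_one hv
    | succ j ih =>
      change rho v (rho v (xx N v * PP N v j - lam v (2 * j + 1) • PP N v j)) = _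
      rw [rho_lin, rho_lin, rho2_mul hv, ih, rho2_xx hv hN, ← xx_comm (InA_PP hv.1 j)]
      rfl
  have hs : ∀ (s : Finset (Fin N)) (c : Fin N → ℂ), rho v (rho v (∑ j ∈ s, c j • PP N v j)) =
      ∑ j ∈ s, c j • PP N v j := by
    intro s c
    classical
    induction s using Finset.induction_on with
    | empty =>
      rw [sum_empty]
      ext p q
      simp [rho]
    | insert a s ha ih =>
      rw [sum_insert ha]
      have h1 : ∀ X Y : Matrix (I2 N) (I2 N) ℂ, rho v (X + Y) = rho v X + rho v Y := by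
        intro X Y
        ext p q
        simp only [rho, Matrix.add_apply]
        ring
      rw [h1, h1, ih, rho_smul, rho_smul, hP]
  conv_lhs => rw [← sum_gam hv hX]
  rw [hs, sum_gam hv hX]

lemma rhi_eq {v : ℂ} (hv : Adm N v) (hN : 2 ≤ N) {X : Matrix (I2 N) (I2 N) ℂ} (hX : InA v X) :
    rhi v X = rho v X := by
  have h := rho2_id hv hN (InA_rhi hv hX)
  rw [rho_rhi hv] at h
  exact h.symm

/-! ### moments -/

/-- the adjoint of a step -/
lemma hf_step {v : ℂ} (hv : Good N v) (hN : 2 ≤ N) {A B R : Matrix (I2 N) (I2 N) ℂ}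
    (hA : InA v A) (hB : InA v B) (hR : InA v R) :
    hf v A (R * rho v B) = hf v (stm v R * rho v A) B := by
  have hv' := hv.adm
  have hc := hv.cj
  have hrA := InA_rho hv' hA
  have hrB := InA_rho hv' hB
  have hsR := InA_stm hv' hc hR
  have e1 : hf v A (R * rho v B) = hf v (rho v (rho v A)) (R * rho v B) := by
    rw [rho2_id hv' hN hA]
  rw [e1, ← hf_eq hv hN (InA_rho hv' hrA) (hR.mul hrB), ← hf_eq hv hN (hsR.mul hrA) hB,
    stm_rho hv' hc]
  have h2 : BB v (by omega) (rhi v (stm v (rho v A))) (R * rho v B) =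
      BB v (by omega) B (R * stm v (rho v A)) := by
    unfold BB
    rw [rho_rhi hv', mul_assoc, mul_assoc, InA_comm hv' hrB (InA_stm hv' hc hrA)]
  rw [h2, BB_symm hv' hN hB (hR.mul (InA_stm hv' hc hrA)), stm_mul hv', stm_stm hv' hc,
    InA_comm hv' hR (InA_stm hv' hc hrA)]

end Pool.Agent.Q191.RP
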