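import Pool.Agent.Q191.RP.Cup

/-!
# Operators on the tensor powers of `V_N` which commute with `U_q(sl_2)`
-/

set_option autoImplicit false

namespace Pool.Agent.Q191.RP

open Matrix Finset
open scoped Kronecker
open Pool.Agent.H550R3.Jones (WM IsMod IsInt Gen br brf tens irr W crossP crossN Adm)

variable {N : ℕ}

/-- functions on the states of strands -/
abbrev LF (N : ℕ) := List (Fin N) → ℂ

/-- the weight -/
def wtL : List (Fin N) → ℤ
  | [] => 0
  | a :: r => ((N : ℤ) - 1 - 2 * (a : ℕ)) + wtL r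

/-- the action of `E` -/
noncomputable def Eo (v : ℂ) : List (Fin N) → LF N → ℂ
  | [], _ => 0
  | a :: r, f => (∑ a', (irr v N).E a a' * (v ^ wtL r * f (a' :: r))) +
      Eo v r (fun s => f (a :: s))

/-- the action of `F` -/
noncomputable def Fo (v : ℂ) : List (Fin N) → LF N → ℂ
  | [], _ => 0
  | a :: r, f => (∑ a', (irr v N).F a a' * f (a' :: r)) +
      v ^ (-((N : ℤ) - 1 - 2 * (a : ℕ))) * Fo v r (fun s => f (a :: s))

lemma Eo_add (v : ℂ) : ∀ (s : List (Fin N)) (f g : LF N), Eo v s (f + g) = Eo v s f + Eo v s g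
  | [], _, _ => by simp [Eo]
  | a :: r, f, g => by
    have h := Eo_add v r (fun s => f (a :: s)) (fun s => g (a :: s))
    have h2 : (fun s => (f + g) (a :: s)) = (fun s => f (a :: s)) + (fun s => g (a :: s)) := rfl
    simp only [Eo]
    rw [h2, h]
    simp only [Pi.add_apply, mul_add, sum_add_distrib]
    ring

lemma Eo_smul (v : ℂ) : ∀ (s : List (Fin N)) (c : ℂ) (f : LF N), Eo v s (c • f) = c * Eo v s f
  | [], _, _ => by simp [Eo]
  | a :: r, c, f => by
    have h := Eo_smul v r c (fun s => f (a :: s))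
    have h2 : (fun s => (c • f) (a :: s)) = c • (fun s => f (a :: s)) := rfl
    simp only [Eo]
    rw [h2, h, mul_add, mul_sum]
    congr 1
    refine sum_congr rfl fun x _ => ?_
    simp only [Pi.smul_apply, smul_eq_mul]
    ring

lemma Fo_add (v : ℂ) : ∀ (s : List (Fin N)) (f g : LF N), Fo v s (f + g) = Fo v s f + Fo v s g
  | [], _, _ => by simp [Fo]
  | a :: r, f, g => by
    have h := Fo_add v r (fun s => f (a :: s)) (fun s => g (a :: s))
    have h2 : (fun s => (f + g) (a :: s)) = (fun s => f (a :: s)) + (fun s => g (a :: s)) := rfl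
    simp only [Fo]
    rw [h2, h]
    simp only [Pi.add_apply, mul_add, sum_add_distrib]
    ring

lemma Fo_smul (v : ℂ) : ∀ (s : List (Fin N)) (c : ℂ) (f : LF N), Fo v s (c • f) = c * Fo v s f
  | [], _, _ => by simp [Fo]
  | a :: r, c, f => by
    have h := Fo_smul v r c (fun s => f (a :: s))
    have h2 : (fun s => (c • f) (a :: s)) = c • (fun s => f (a :: s)) := rfl
    simp only [Fo]
    rw [h2, h, mul_add, mul_sum]
    congr 1
    · refine sum_congr rfl fun x _ => ?_
      simp only [Pi.smul_apply, smul_eq_mul]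
      ring
    · ring

/-- `E` as a linear form -/
noncomputable def EoL (v : ℂ) (s : List (Fin N)) : LF N →ₗ[ℂ] ℂ where
  toFun f := Eo v s f
  map_add' := Eo_add v s
  map_smul' := Eo_smul v s

/-- `F` as a linear form -/
noncomputable def FoL (v : ℂ) (s : List (Fin N)) : LF N →ₗ[ℂ] ℂ where
  toFun f := Fo v s f
  map_add' := Fo_add v s
  map_smul' := Fo_smul v s

lemma Eo_sum (v : ℂ) (s : List (Fin N)) {ι : Type} (S : Finset ι) (c : ι → ℂ) (g : ι → LF N) :
    Eo v s (fun t => ∑ i ∈ S, c i * g i t) = ∑ i ∈ S, c i * Eo v s (g i) := by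
  have h1 : (fun t => ∑ i ∈ S, c i * g i t) = ∑ i ∈ S, c i • g i := by
    funext t
    simp [Finset.sum_apply]
  rw [h1]
  change EoL v s _ = _
  rw [map_sum]
  refine sum_congr rfl fun i _ => ?_
  rw [map_smul]
  rfl

lemma Fo_sum (v : ℂ) (s : List (Fin N)) {ι : Type} (S : Finset ι) (c : ι → ℂ) (g : ι → LF N) :
    Fo v s (fun t => ∑ i ∈ S, c i * g i t) = ∑ i ∈ S, c i * Fo v s (g i) := by
  have h1 : (fun t => ∑ i ∈ S, c i * g i t) = ∑ i ∈ S, c i • g i := by
    funext t
    simp [Finset.sum_apply]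
  rw [h1]
  change FoL v s _ = _
  rw [map_sum]
  refine sum_congr rfl fun i _ => ?_
  rw [map_smul]
  rfl

lemma Eo_two (v : ℂ) (hv : v ≠ 0) (a b : Fin N) (r : List (Fin N)) (f : LF N) :
    Eo v (a :: b :: r) f = v ^ wtL r * ∑ q : I2 N, (W v N).E (a, b) q * f (q.1 :: q.2 :: r) +
      Eo v r (fun s => f (a :: b :: s)) := by
  simp only [Eo]
  rw [← add_assoc]
  congr 1
  simp only [W_E_apply, Fintype.sum_prod_type, add_mul, sum_add_distrib, mul_add]
  congr 1
  · rw [mul_sum]
    refine sum_congr rfl fun x _ => ?_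
    rw [sum_eq_single b]
    · rw [if_pos rfl]
      simp only [wtL]
      rw [zpow_add₀ hv]
      ring
    · intro y _ hy
      rw [if_neg (fun h => hy h.symm)]; ring
    · intro h; exact absurd (mem_univ _) h
  · symm
    rw [sum_eq_single a]
    · simp only [mul_sum, if_true]
      refine sum_congr rfl fun x _ => ?_
      ring
    · intro y _ hy
      simp only [if_neg (fun h : a = y => hy h.symm), zero_mul, sum_const_zero]
    · intro h; exact absurd (mem_univ _) h

lemma Fo_two (v : ℂ) (a b : Fin N) (r : List (Fin N)) (f : LF N) :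
    Fo v (a :: b :: r) f = ∑ q : I2 N, (W v N).F (a, b) q * f (q.1 :: q.2 :: r) +
      v ^ (-((N : ℤ) - 1 - 2 * (a : ℕ))) * (v ^ (-((N : ℤ) - 1 - 2 * (b : ℕ))) *
        Fo v r (fun s => f (a :: b :: s))) := by
  simp only [Fo]
  rw [mul_add, ← add_assoc]
  congr 1
  simp only [W_F_apply, Fintype.sum_prod_type, add_mul, sum_add_distrib]
  congr 1
  · refine sum_congr rfl fun x _ => ?_
    rw [sum_eq_single b]
    · rw [if_pos rfl]
      ring
    · intro y _ hy
      rw [if_neg (fun h => hy h.symm)]; ring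
    · intro h; exact absurd (mem_univ _) h
  · symm
    rw [sum_eq_single a]
    · simp only [mul_sum, if_true]
      refine sum_congr rfl fun x _ => ?_
      ring
    · intro y _ hy
      simp only [if_neg (fun h : a = y => hy h.symm), zero_mul, sum_const_zero]
    · intro h; exact absurd (mem_univ _) h

/-! ### operators which commute with the action -/

/-- the operator commutes with `E`, `F` and preserves the weights -/
structure Cm (v : ℂ) (A : LF N →ₗ[ℂ] LF N) : Prop where
  e : ∀ f s, Eo v s (A f) = A (fun t => Eo v t f) s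
  f : ∀ f s, Fo v s (A f) = A (fun t => Fo v t f) s
  k : ∀ (g : ℤ → ℂ) f s, A (fun t => g (wtL t) * f t) s = g (wtL s) * A f s

lemma Cm.id (v : ℂ) : Cm (N := N) v LinearMap.id := ⟨fun _ _ => rfl, fun _ _ => rfl, fun _ _ _ => rfl⟩

lemma Cm.comp {v : ℂ} {A B : LF N →ₗ[ℂ] LF N} (hA : Cm v A) (hB : Cm v B) : Cm v (A ∘ₗ B) := by
  refine ⟨fun f s => ?_, fun f s => ?_, fun g f s => ?_⟩
  · rw [LinearMap.comp_apply, hA.e, LinearMap.comp_apply]
    exact congrArg (fun h => A h s) (funext fun t => hB.e f t)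
  · rw [LinearMap.comp_apply, hA.f, LinearMap.comp_apply]
    exact congrArg (fun h => A h s) (funext fun t => hB.f f t)
  · rw [LinearMap.comp_apply, LinearMap.comp_apply, ← hA.k]
    exact congrArg (fun h => A h s) (funext fun t => hB.k g f t)

/-- add a strand on the left -/
def sh (A : LF N →ₗ[ℂ] LF N) : LF N →ₗ[ℂ] LF N where
  toFun f s := match s with
    | [] => A f []
    | a :: r => A (fun t => f (a :: t)) r
  map_add' f g := by
    funext s
    rcases s with _ | ⟨a, r⟩
    · simp
    · simp only [Pi.add_apply]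
      have : (fun t => (f + g) (a :: t)) = (fun t => f (a :: t)) + (fun t => g (a :: t)) := rfl
      change A (fun t => (f + g) (a :: t)) r = _
      rw [this, map_add]
      rfl
  map_smul' c f := by
    funext s
    rcases s with _ | ⟨a, r⟩
    · simp
    · simp only [RingHom.id_apply, Pi.smul_apply]
      have : (fun t => (c • f) (a :: t)) = c • (fun t => f (a :: t)) := rfl
      change A (fun t => (c • f) (a :: t)) r = _
      rw [this, map_smul]
      rfl

lemma sh_nil (A : LF N →ₗ[ℂ] LF N) (f : LF N) : sh A f [] = A f [] := rfl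

lemma sh_cons (A : LF N →ₗ[ℂ] LF N) (f : LF N) (a : Fin N) (r : List (Fin N)) :
    sh A f (a :: r) = A (fun t => f (a :: t)) r := rfl

lemma Cm.sh {v : ℂ} {A : LF N →ₗ[ℂ] LF N} (hA : Cm v A) : Cm v (sh A) := by
  refine ⟨fun f s => ?_, fun f s => ?_, fun g f s => ?_⟩
  · rcases s with _ | ⟨a, r⟩
    · rw [sh_nil, ← hA.e]
      rfl
    · rw [sh_cons]
      have h1 : (fun t => Eo v (a :: t) f) = (∑ a', (irr v N).E a a' •
          (fun t => v ^ wtL t * f (a' :: t))) + fun t => Eo v t (fun s => f (a :: s)) := by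
        funext t
        simp only [Eo, Pi.add_apply, Finset.sum_apply, Pi.smul_apply, smul_eq_mul]
      rw [h1, map_add, map_sum, Pi.add_apply, Finset.sum_apply]
      simp only [map_smul, Pi.smul_apply, smul_eq_mul]
      have h2 : ∀ a', A (fun t => v ^ wtL t * f (a' :: t)) r =
          v ^ wtL r * A (fun t => f (a' :: t)) r := fun a' => hA.k (fun m => v ^ m) _ r
      simp only [h2]
      rw [← hA.e]
      rfl
  · rcases s with _ | ⟨a, r⟩
    · rw [sh_nil, ← hA.f]
      rfl
    · rw [sh_cons]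
      have h1 : (fun t => Fo v (a :: t) f) = (∑ a', (irr v N).F a a' •
          (fun t => f (a' :: t))) + v ^ (-((N : ℤ) - 1 - 2 * (a : ℕ))) •
            fun t => Fo v t (fun s => f (a :: s)) := by
        funext t
        simp only [Fo, Pi.add_apply, Finset.sum_apply, Pi.smul_apply, smul_eq_mul]
      rw [h1, map_add, map_sum, Pi.add_apply, Finset.sum_apply, map_smul, Pi.smul_apply, ← hA.f]
      simp only [map_smul, Pi.smul_apply, smul_eq_mul]
      rfl
  · rcases s with _ | ⟨a, r⟩
    · rw [sh_nil, sh_nil, hA.k]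
    · rw [sh_cons, sh_cons]
      exact hA.k (fun m => g (((N : ℤ) - 1 - 2 * (a : ℕ)) + m)) (fun t => f (a :: t)) r

/-- a matrix acting on the first two strands -/
def matL (X : Matrix (I2 N) (I2 N) ℂ) : LF N →ₗ[ℂ] LF N where
  toFun f s := match s with
    | a :: b :: r => ∑ q : I2 N, X (a, b) q * f (q.1 :: q.2 :: r)
    | _ => 0
  map_add' f g := by
    funext s
    rcases s with _ | ⟨a, _ | ⟨b, r⟩⟩
    · simp
    · simp
    · simp only [Pi.add_apply, mul_add, sum_add_distrib]
  map_smul' c f := by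
    funext s
    rcases s with _ | ⟨a, _ | ⟨b, r⟩⟩
    · simp
    · simp
    · simp only [RingHom.id_apply, Pi.smul_apply, smul_eq_mul, mul_sum]
      refine sum_congr rfl fun x _ => ?_
      ring

/-- the cup on the left -/
noncomputable def cupL (N : ℕ) (v : ℂ) : LF N →ₗ[ℂ] LF N where
  toFun f s := match s with
    | a :: b :: r => cupv N v (a, b) * f r
    | _ => 0
  map_add' f g := by
    funext s
    rcases s with _ | ⟨a, _ | ⟨b, r⟩⟩
    · simp
    · simp
    · simp only [Pi.add_apply, mul_add]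
  map_smul' c f := by
    funext s
    rcases s with _ | ⟨a, _ | ⟨b, r⟩⟩
    · simp
    · simp
    · simp only [RingHom.id_apply, Pi.smul_apply, smul_eq_mul]
      ring

/-- the cap on the left -/
noncomputable def capL (N : ℕ) (v : ℂ) : LF N →ₗ[ℂ] LF N where
  toFun f s := ∑ q : I2 N, capv N v q * f (q.1 :: q.2 :: s)
  map_add' f g := by
    funext s
    simp only [Pi.add_apply, mul_add, sum_add_distrib]
  map_smul' c f := by
    funext s
    simp only [RingHom.id_apply, Pi.smul_apply, smul_eq_mul, mul_sum]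
    refine sum_congr rfl fun x _ => ?_
    ring

/-- matrices on two strands which commute with the action -/
structure InA (v : ℂ) (X : Matrix (I2 N) (I2 N) ℂ) : Prop where
  e : X * (W v N).E = (W v N).E * X
  f : X * (W v N).F = (W v N).F * X
  k : ∀ p q : I2 N, X p q ≠ 0 → (p.1 : ℕ) + p.2 = q.1 + q.2

lemma Cm_mat {v : ℂ} (hv : v ≠ 0) {X : Matrix (I2 N) (I2 N) ℂ} (hX : InA v X) : Cm v (matL X) := by
  refine ⟨fun f s => ?_, fun f s => ?_, fun g f s => ?_⟩
  · rcases s with _ | ⟨a, _ | ⟨b, r⟩⟩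
    · rfl
    · change (∑ a', (irr v N).E a a' * (v ^ wtL ([] : List (Fin N)) * 0)) + 0 = 0
      simp
    · rw [Eo_two v hv]
      change v ^ wtL r * ∑ q : I2 N, (W v N).E (a, b) q * (∑ q' : I2 N, X q q' * f (q'.1 :: q'.2 :: r)) +
        Eo v r (fun s => ∑ q : I2 N, X (a, b) q * f (q.1 :: q.2 :: s)) =
        ∑ q : I2 N, X (a, b) q * Eo v (q.1 :: q.2 :: r) f
      rw [Eo_sum v r univ (fun q => X (a, b) q) (fun q s => f (q.1 :: q.2 :: s))]
      have h1 : ∀ q : I2 N, X (a, b) q * Eo v (q.1 :: q.2 :: r) f =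
          v ^ wtL r * ∑ q' : I2 N, X (a, b) q * (W v N).E q q' * f (q'.1 :: q'.2 :: r) +
          X (a, b) q * Eo v r (fun s => f (q.1 :: q.2 :: s)) := by
        intro q
        rw [Eo_two v hv, mul_add]
        congr 1
        rw [mul_left_comm, mul_sum]
        congr 1
        refine sum_congr rfl fun x _ => ?_
        ring
      rw [sum_congr rfl fun q _ => h1 q, sum_add_distrib, ← mul_sum]
      congr 2
      have h2 := congrFun (congrFun hX.e (a, b))
      simp only [Matrix.mul_apply] at h2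
      simp only [mul_sum]
      rw [sum_comm]
      conv_rhs => rw [sum_comm]
      refine sum_congr rfl fun q' _ => ?_
      rw [← sum_mul, h2 q', sum_mul]
      refine sum_congr rfl fun x _ => ?_
      ring
  · rcases s with _ | ⟨a, _ | ⟨b, r⟩⟩
    · rfl
    · change (∑ a', (irr v N).F a a' * 0) + v ^ (-((N : ℤ) - 1 - 2 * (a : ℕ))) * 0 = 0
      simp
    · rw [Fo_two v]
      change ∑ q : I2 N, (W v N).F (a, b) q * (∑ q' : I2 N, X q q' * f (q'.1 :: q'.2 :: r)) +
        v ^ (-((N : ℤ) - 1 - 2 * (a : ℕ))) * (v ^ (-((N : ℤ) - 1 - 2 * (b : ℕ))) *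
        Fo v r (fun s => ∑ q : I2 N, X (a, b) q * f (q.1 :: q.2 :: s))) =
        ∑ q : I2 N, X (a, b) q * Fo v (q.1 :: q.2 :: r) f
      rw [Fo_sum v r univ (fun q => X (a, b) q) (fun q s => f (q.1 :: q.2 :: s))]
      have h1 : ∀ q : I2 N, X (a, b) q * Fo v (q.1 :: q.2 :: r) f =
          ∑ q' : I2 N, X (a, b) q * (W v N).F q q' * f (q'.1 :: q'.2 :: r) +
          v ^ (-((N : ℤ) - 1 - 2 * (a : ℕ))) * (v ^ (-((N : ℤ) - 1 - 2 * (b : ℕ))) *
          (X (a, b) q * Fo v r (fun s => f (q.1 :: q.2 :: s)))) := by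
        intro q
        rw [Fo_two v, mul_add]
        congr 1
        · rw [mul_sum]
          refine sum_congr rfl fun x _ => ?_
          ring
        · by_cases h0 : X (a, b) q = 0
          · rw [h0]; ring
          · have h3 := hX.k _ _ h0
            simp only [] at h3
            rw [← mul_assoc (v ^ _) (v ^ _), ← zpow_add₀ hv, ← mul_assoc (v ^ _) (v ^ _), ← zpow_add₀ hv]
            have h4 : -((N : ℤ) - 1 - 2 * (q.1 : ℕ)) + -((N : ℤ) - 1 - 2 * (q.2 : ℕ)) =
                -((N : ℤ) - 1 - 2 * (a : ℕ)) + -((N : ℤ) - 1 - 2 * (b : ℕ)) := by omega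
            rw [h4]
            ring
      rw [sum_congr rfl fun q _ => h1 q, sum_add_distrib, ← mul_sum, ← mul_sum]
      congr 1
      have h2 := congrFun (congrFun hX.f (a, b))
      simp only [Matrix.mul_apply] at h2
      simp only [mul_sum]
      rw [sum_comm]
      conv_rhs => rw [sum_comm]
      refine sum_congr rfl fun q' _ => ?_
      rw [← sum_mul, h2 q', sum_mul]
      refine sum_congr rfl fun x _ => ?_
      ring
  · rcases s with _ | ⟨a, _ | ⟨b, r⟩⟩
    · change (0 : ℂ) = _ * 0
      rw [mul_zero]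
    · change (0 : ℂ) = _ * 0
      rw [mul_zero]
    · change ∑ q : I2 N, X (a, b) q * (g (wtL (q.1 :: q.2 :: r)) * f (q.1 :: q.2 :: r)) =
        g (wtL (a :: b :: r)) * ∑ q : I2 N, X (a, b) q * f (q.1 :: q.2 :: r)
      rw [mul_sum]
      refine sum_congr rfl fun q _ => ?_
      by_cases h0 : X (a, b) q = 0
      · rw [h0]; ring
      · have h3 := hX.k _ _ h0
        simp only [] at h3
        have h4 : wtL (q.1 :: q.2 :: r) = wtL (a :: b :: r) := by
          simp only [wtL]
          omega
        rw [h4]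
        ring

lemma Cm_cup {v : ℂ} (hv : Adm N v) : Cm v (cupL N v) := by
  refine ⟨fun f s => ?_, fun f s => ?_, fun g f s => ?_⟩
  · rcases s with _ | ⟨a, _ | ⟨b, r⟩⟩
    · rfl
    · change (∑ a', (irr v N).E a a' * (v ^ wtL ([] : List (Fin N)) * 0)) + 0 = 0
      simp
    · rw [Eo_two v hv.1]
      change v ^ wtL r * ∑ q : I2 N, (W v N).E (a, b) q * (cupv N v q * f r) +
        Eo v r (fun s => cupv N v (a, b) * f s) = cupv N v (a, b) * Eo v r f
      have h1 : ∑ q : I2 N, (W v N).E (a, b) q * (cupv N v q * f r) = 0 := by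
        have h2 := congrFun (E_cup hv) (a, b)
        simp only [Matrix.mulVec, dotProduct, Pi.zero_apply] at h2
        simp only [← mul_assoc]
        rw [← sum_mul, h2, zero_mul]
      rw [h1, mul_zero, zero_add]
      exact Eo_smul v r (cupv N v (a, b)) f
  · rcases s with _ | ⟨a, _ | ⟨b, r⟩⟩
    · rfl
    · change (∑ a', (irr v N).F a a' * 0) + v ^ (-((N : ℤ) - 1 - 2 * (a : ℕ))) * 0 = 0
      simp
    · rw [Fo_two v]
      change ∑ q : I2 N, (W v N).F (a, b) q * (cupv N v q * f r) +
        v ^ (-((N : ℤ) - 1 - 2 * (a : ℕ))) * (v ^ (-((N : ℤ) - 1 - 2 * (b : ℕ))) *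
        Fo v r (fun s => cupv N v (a, b) * f s)) = cupv N v (a, b) * Fo v r f
      have h1 : ∑ q : I2 N, (W v N).F (a, b) q * (cupv N v q * f r) = 0 := by
        have h2 := congrFun (F_cup hv) (a, b)
        simp only [Matrix.mulVec, dotProduct, Pi.zero_apply] at h2
        simp only [← mul_assoc]
        rw [← sum_mul, h2, zero_mul]
      have h3 := Fo_smul v r (cupv N v (a, b)) f
      rw [h1, zero_add]
      change _ * (_ * Fo v r (cupv N v (a, b) • f)) = _
      rw [h3]
      by_cases h0 : cupv N v (a, b) = 0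
      · rw [h0]; ring
      · have h4 : (a : ℕ) + b = N - 1 := by
          by_contra h5
          apply h0
          unfold cupv
          rw [if_neg h5]
        rw [← mul_assoc, ← zpow_add₀ hv.1]
        have h6 : -((N : ℤ) - 1 - 2 * (a : ℕ)) + -((N : ℤ) - 1 - 2 * (b : ℕ)) = 0 := by
          have := a.2; omega
        rw [h6, zpow_zero, one_mul]
  · rcases s with _ | ⟨a, _ | ⟨b, r⟩⟩
    · change (0 : ℂ) = _ * 0
      rw [mul_zero]
    · change (0 : ℂ) = _ * 0
      rw [mul_zero]
    · change cupv N v (a, b) * (g (wtL r) * f r) = g (wtL (a :: b :: r)) * (cupv N v (a, b) * f r)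
      by_cases h0 : cupv N v (a, b) = 0
      · rw [h0]; ring
      · have h4 : (a : ℕ) + b = N - 1 := by
          by_contra h5
          apply h0
          unfold cupv
          rw [if_neg h5]
        have h5 : wtL (a :: b :: r) = wtL r := by
          simp only [wtL]
          have := a.2
          omega
        rw [h5]
        ring

lemma Cm_cap {v : ℂ} (hv : Adm N v) : Cm v (capL N v) := by
  have hw : ∀ (q : I2 N), capv N v q ≠ 0 → (q.1 : ℕ) + q.2 = N - 1 := by
    intro q h0
    by_contra h5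
    apply h0
    unfold capv
    rw [if_neg h5]
  refine ⟨fun f s => ?_, fun f s => ?_, fun g f s => ?_⟩
  · change Eo v s (fun t => ∑ q : I2 N, capv N v q * f (q.1 :: q.2 :: t)) =
      ∑ q : I2 N, capv N v q * Eo v (q.1 :: q.2 :: s) f
    rw [Eo_sum v s univ (fun q => capv N v q) (fun q t => f (q.1 :: q.2 :: t))]
    have h1 : ∀ q : I2 N, capv N v q * Eo v (q.1 :: q.2 :: s) f =
        v ^ wtL s * ∑ q' : I2 N, capv N v q * (W v N).E q q' * f (q'.1 :: q'.2 :: s) +
        capv N v q * Eo v s (fun t => f (q.1 :: q.2 :: t)) := by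
      intro q
      rw [Eo_two v hv.1, mul_add]
      congr 1
      rw [mul_left_comm, mul_sum]
      congr 1
      refine sum_congr rfl fun x _ => ?_
      ring
    rw [sum_congr rfl fun q _ => h1 q, sum_add_distrib, ← mul_sum]
    have h2 : ∑ q : I2 N, ∑ q' : I2 N, capv N v q * (W v N).E q q' * f (q'.1 :: q'.2 :: s) = 0 := by
      rw [sum_comm]
      apply sum_eq_zero
      intro q' _
      have h3 := congrFun (cap_E hv) q'
      simp only [Matrix.vecMul, dotProduct, Pi.zero_apply] at h3
      rw [← sum_mul, h3, zero_mul]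
    rw [h2, mul_zero, zero_add]
  · change Fo v s (fun t => ∑ q : I2 N, capv N v q * f (q.1 :: q.2 :: t)) =
      ∑ q : I2 N, capv N v q * Fo v (q.1 :: q.2 :: s) f
    rw [Fo_sum v s univ (fun q => capv N v q) (fun q t => f (q.1 :: q.2 :: t))]
    have h1 : ∀ q : I2 N, capv N v q * Fo v (q.1 :: q.2 :: s) f =
        ∑ q' : I2 N, capv N v q * (W v N).F q q' * f (q'.1 :: q'.2 :: s) +
        capv N v q * Fo v s (fun t => f (q.1 :: q.2 :: t)) := by
      intro q
      rw [Fo_two v, mul_add]
      congr 1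
      · rw [mul_sum]
        refine sum_congr rfl fun x _ => ?_
        ring
      · by_cases h0 : capv N v q = 0
        · rw [h0]; ring
        · have h4 := hw q h0
          rw [← mul_assoc (v ^ _) (v ^ _), ← zpow_add₀ hv.1]
          have h6 : -((N : ℤ) - 1 - 2 * (q.1 : ℕ)) + -((N : ℤ) - 1 - 2 * (q.2 : ℕ)) = 0 := by
            have := q.1.2; omega
          rw [h6, zpow_zero, one_mul]
    rw [sum_congr rfl fun q _ => h1 q, sum_add_distrib]
    have h2 : ∑ q : I2 N, ∑ q' : I2 N, capv N v q * (W v N).F q q' * f (q'.1 :: q'.2 :: s) = 0 := by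
      rw [sum_comm]
      apply sum_eq_zero
      intro q' _
      have h3 := congrFun (cap_F hv) q'
      simp only [Matrix.vecMul, dotProduct, Pi.zero_apply] at h3
      rw [← sum_mul, h3, zero_mul]
    rw [h2, zero_add]
  · change ∑ q : I2 N, capv N v q * (g (wtL (q.1 :: q.2 :: s)) * f (q.1 :: q.2 :: s)) =
      g (wtL s) * ∑ q : I2 N, capv N v q * f (q.1 :: q.2 :: s)
    rw [mul_sum]
    refine sum_congr rfl fun q _ => ?_
    by_cases h0 : capv N v q = 0
    · rw [h0]; ring
    · have h4 := hw q h0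
      have h5 : wtL (q.1 :: q.2 :: s) = wtL s := by
        simp only [wtL]
        have := q.1.2
        omega
      rw [h5]
      ring

/-! ### back to matrices -/

/-- the indicator of a pair of states -/
def dl (q : I2 N) : LF N := fun s => if s = [q.1, q.2] then 1 else 0

lemma dl_pair (q p : I2 N) : dl q [p.1, p.2] = if p = q then 1 else 0 := by
  unfold dl
  by_cases h : p = q
  · rw [h, if_pos rfl, if_pos rfl]
  · rw [if_neg h, if_neg]
    intro h'
    apply h
    simp only [List.cons.injEq, and_true] at h'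
    exact Prod.ext h'.1 h'.2

/-- an operator given by a matrix on two strands -/
def Rp (A : LF N →ₗ[ℂ] LF N) (X : Matrix (I2 N) (I2 N) ℂ) : Prop :=
  ∀ f (a b : Fin N), A f [a, b] = ∑ q : I2 N, X (a, b) q * f [q.1, q.2]

lemma InA_of {v : ℂ} (hv : v ≠ 0) {A : LF N →ₗ[ℂ] LF N} (hA : Cm v A) {X : Matrix (I2 N) (I2 N) ℂ}
    (hX : Rp A X) : InA v X := by
  have hd : ∀ (Y : I2 N → ℂ) (q : I2 N), ∑ p : I2 N, Y p * dl q [p.1, p.2] = Y q := by
    intro Y q
    rw [sum_eq_single q]
    · rw [dl_pair, if_pos rfl, mul_one]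
    · intro p _ hp
      rw [dl_pair, if_neg hp, mul_zero]
    · intro h; exact absurd (mem_univ _) h
  have hE : ∀ (f : LF N) (a b : Fin N), Eo v [a, b] f = ∑ q : I2 N, (W v N).E (a, b) q * f [q.1, q.2] := by
    intro f a b
    rw [Eo_two v hv]
    simp only [wtL, zpow_zero, one_mul, Eo, add_zero]
  have hF : ∀ (f : LF N) (a b : Fin N), Fo v [a, b] f = ∑ q : I2 N, (W v N).F (a, b) q * f [q.1, q.2] := by
    intro f a b
    rw [Fo_two v]
    simp only [Fo, mul_zero, add_zero]
  refine ⟨?_, ?_, ?_⟩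
  · ext p q
    have h1 := hA.e (dl q) [p.1, p.2]
    rw [hE, hX] at h1
    simp only [hX (dl q)] at h1
    rw [Matrix.mul_apply, Matrix.mul_apply]
    have h2 : ∀ r : I2 N, (fun t => Eo v t (dl q)) [r.1, r.2] = (W v N).E r q := by
      intro r
      change Eo v [r.1, r.2] (dl q) = _
      rw [hE, hd]
    have h3 : ∀ r : I2 N, ∑ q' : I2 N, X (r.1, r.2) q' * dl q [q'.1, q'.2] = X r q := by
      intro r
      rw [hd]
    calc ∑ j, X p j * (W v N).E j q = ∑ r : I2 N, X (p.1, p.2) r * (fun t => Eo v t (dl q)) [r.1, r.2] := by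
          refine sum_congr rfl fun r _ => ?_
          rw [h2]
      _ = ∑ r : I2 N, (W v N).E (p.1, p.2) r * ∑ q' : I2 N, X (r.1, r.2) q' * dl q [q'.1, q'.2] := h1.symm
      _ = ∑ j, (W v N).E p j * X j q := by
          refine sum_congr rfl fun r _ => ?_
          rw [h3]
  · ext p q
    have h1 := hA.f (dl q) [p.1, p.2]
    rw [hF, hX] at h1
    simp only [hX (dl q)] at h1
    rw [Matrix.mul_apply, Matrix.mul_apply]
    have h2 : ∀ r : I2 N, (fun t => Fo v t (dl q)) [r.1, r.2] = (W v N).F r q := by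
      intro r
      change Fo v [r.1, r.2] (dl q) = _
      rw [hF, hd]
    have h3 : ∀ r : I2 N, ∑ q' : I2 N, X (r.1, r.2) q' * dl q [q'.1, q'.2] = X r q := by
      intro r
      rw [hd]
    calc ∑ j, X p j * (W v N).F j q = ∑ r : I2 N, X (p.1, p.2) r * (fun t => Fo v t (dl q)) [r.1, r.2] := by
          refine sum_congr rfl fun r _ => ?_
          rw [h2]
      _ = ∑ r : I2 N, (W v N).F (p.1, p.2) r * ∑ q' : I2 N, X (r.1, r.2) q' * dl q [q'.1, q'.2] := h1.symm
      _ = ∑ j, (W v N).F p j * X j q := by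
          refine sum_congr rfl fun r _ => ?_
          rw [h3]
  · intro p q hpq
    have h1 := hA.k (fun m => if m = wtL [q.1, q.2] then 1 else 0) (dl q) [p.1, p.2]
    rw [hX, hX, hd] at h1
    have h2 : ∑ r : I2 N, X (p.1, p.2) r * (fun t => (if wtL t = wtL [q.1, q.2] then (1 : ℂ) else 0) *
        dl q t) [r.1, r.2] = X (p.1, p.2) q := by
      rw [sum_eq_single q]
      · simp only [dl_pair, if_true, mul_one]
      · intro r _ hr
        simp only []
        rw [dl_pair, if_neg hr, mul_zero, mul_zero]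
      · intro h; exact absurd (mem_univ _) h
    simp only [] at h1 h2
    rw [h2] at h1
    by_contra hne
    rw [if_neg, zero_mul] at h1
    · exact hpq h1
    · intro h3
      simp only [wtL] at h3
      omega

end Pool.Agent.Q191.RP
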