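import Pool.Agent.Q191.RP.Inv

/-!
# Gram matrices, moment sequences, palindromic two-bridge links
-/

set_option autoImplicit false

namespace Pool.Agent.Q191.RP

open Matrix Finset Filter Topology
open scoped Kronecker Real
open Pool.Agent.H550R3.Jones (WM IsMod IsInt Gen br brf tens irr W crossP crossN Adm)
open Pool.Agent.H927R2.J.SanYB (brf_ne)
open Pool.Agent.W715.VC (brf_succ' rt)
open GapVol (lob)

variable {N : ℕ}

/-! ### Gram matrices -/

/-- Gram matrices are positive semidefinite -/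
theorem gram {v : ℂ} (hv : Good N v) {ι : Type} (s : Finset ι) (c : ι → ℂ)
    (X : ι → Matrix (I2 N) (I2 N) ℂ) : ∃ r : ℝ, 0 ≤ r ∧
      ∑ i ∈ s, ∑ j ∈ s, (starRingEnd ℂ) (c i) * c j * hf v (X i) (X j) = r := by
  refine ⟨∑ k : Fin N, WR N v k * ‖∑ i ∈ s, c i * gam v (X i) k‖ ^ 2, ?_, ?_⟩
  · refine sum_nonneg fun k _ => ?_
    have := WR_nonneg hv k.2
    positivity
  · push_cast
    have h1 : ∀ k : Fin N, ((WR N v k : ℝ) : ℂ) * ((‖∑ i ∈ s, c i * gam v (X i) k‖ : ℝ) : ℂ) ^ 2 =
        ∑ i ∈ s, ∑ j ∈ s, (starRingEnd ℂ) (c i) * c j *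
          ((WR N v k : ℂ) * (starRingEnd ℂ) (gam v (X i) k) * gam v (X j) k) := by
      intro k
      have h2 : ((‖∑ i ∈ s, c i * gam v (X i) k‖ : ℝ) : ℂ) ^ 2 =
          (starRingEnd ℂ) (∑ i ∈ s, c i * gam v (X i) k) * ∑ j ∈ s, c j * gam v (X j) k := by
        rw [mul_comm, Complex.mul_conj, Complex.normSq_eq_norm_sq]
        push_cast
        rfl
      rw [h2, map_sum, sum_mul_sum, mul_sum]
      refine sum_congr rfl fun i _ => ?_
      rw [mul_sum]
      refine sum_congr rfl fun j _ => ?_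
      rw [map_mul]
      ring
    have h3 : ∑ k : Fin N, ((WR N v k : ℝ) : ℂ) * ((‖∑ i ∈ s, c i * gam v (X i) k‖ : ℝ) : ℂ) ^ 2 =
        ∑ i ∈ s, ∑ j ∈ s, (starRingEnd ℂ) (c i) * c j * hf v (X i) (X j) := by
      rw [sum_congr rfl fun k _ => h1 k, sum_comm]
      refine sum_congr rfl fun i _ => ?_
      rw [sum_comm]
      refine sum_congr rfl fun j _ => ?_
      unfold hf
      rw [mul_sum]
    rw [← h3]

/-- the value of two tangles -/
lemma val_gram {v : ℂ} (hv : Good N v) (hN : 2 ≤ N) {S T : List Pc} (hS : Is 2 2 S) (hT : Is 2 2 T) :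
    val (N := N) v (by omega) (glue (ds S) T) = hf v (MM N v S) (MM N v T) := by
  rw [val_glue v _ (Is_ds hS) hT, MM_ds hv.adm hv.cj hS,
    hf_eq hv hN (InA_MM hv.adm hS) (InA_MM hv.adm hT)]

lemma hf_stm2 {v : ℂ} (hv : Good N v) {A B : Matrix (I2 N) (I2 N) ℂ} (hA : InA v A) (hB : InA v B) :
    hf v (stm v A) (stm v B) = hf v B A := by
  unfold hf
  refine sum_congr rfl fun i _ => ?_
  rw [gam_stm hv.adm hv.cj hA, gam_stm hv.adm hv.cj hB, Complex.conj_conj]
  ring

/-! ### chains -/

lemma chain_succ (R Y : List Pc) (n : ℕ) :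
    chain R Y (n + 1) = step (if n % 2 = 0 then ds R else R) (chain R Y n) := rfl

lemma hf_chain {v : ℂ} (hv : Good N v) (hN : 2 ≤ N) {R Y : List Pc} (hR : Is 2 2 R) (hY : Is 2 2 Y)
    {p q : ℕ} (h : q % 2 = (p + 1) % 2) :
    hf v (MM N v (chain R Y (p + 1))) (MM N v (chain R Y q)) =
      hf v (MM N v (chain R Y p)) (MM N v (chain R Y (q + 1))) := by
  have hA := hv.adm
  have hc := hv.cj
  have iR := InA_MM hA hR
  have iD := InA_MM hA (Is_ds hR)
  have ip := InA_MM hA (Is_chain hR hY p)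
  have iq := InA_MM hA (Is_chain hR hY q)
  have e1 : stm v (MM N v R) = MM N v (ds R) := (MM_ds hA hc hR).symm
  have e2 : stm v (MM N v (ds R)) = MM N v R := by rw [← e1, stm_stm hA hc]
  rw [chain_succ, chain_succ]
  rcases Nat.mod_two_eq_zero_or_one p with h0 | h0
  · have h1 : ¬ q % 2 = 0 := by omega
    rw [if_pos h0, if_neg h1, MM_step v (Is_ds hR) (Is_chain hR hY p), MM_step v hR (Is_chain hR hY q),
      hf_step hv hN ip iq iR, e1]
  · have h1 : q % 2 = 0 := by omega
    have h2 : ¬ p % 2 = 0 := by omega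
    rw [if_pos h1, if_neg h2, MM_step v hR (Is_chain hR hY p), MM_step v (Is_ds hR) (Is_chain hR hY q),
      hf_step hv hN ip iq iD, e2]

lemma hf_chain2 {v : ℂ} (hv : Good N v) (hN : 2 ≤ N) {R Y : List Pc} (hR : Is 2 2 R) (hY : Is 2 2 Y) :
    ∀ d m : ℕ, hf v (MM N v (chain R Y (m + 2 * d))) (MM N v (chain R Y m)) =
      (nq v (MM N v (chain R Y (m + d))) : ℝ) := by
  intro d
  induction d with
  | zero => intro m; rw [mul_zero, add_zero]; exact hf_self v _
  | succ d ih =>
    intro m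
    have h := ih (m + 1)
    have e1 : m + 2 * (d + 1) = (m + 1 + 2 * d) + 1 := by ring
    rw [e1, hf_chain hv hN hR hY (by omega), h, show m + 1 + d = m + (d + 1) by ring]

/-- the Gram matrix of a chain -/
theorem chain_gram {v : ℂ} (hv : Good N v) (hN : 2 ≤ N) {R Y : List Pc} (hR : Is 2 2 R)
    (hY : Is 2 2 Y) (i j : ℕ) (e : ℕ) :
    hf v (MM N v (chain R Y (2 * i + e))) (MM N v (chain R Y (2 * j + e))) =
      (nq v (MM N v (chain R Y (i + j + e))) : ℝ) := by
  have hh : ∀ A B : Matrix (I2 N) (I2 N) ℂ, hf v A B = (starRingEnd ℂ) (hf v B A) := by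
    intro A B
    unfold hf
    rw [map_sum]
    refine sum_congr rfl fun k _ => ?_
    rw [map_mul, map_mul, Complex.conj_conj, Complex.conj_ofReal]
    ring
  rcases le_total j i with h | h
  · have h1 := hf_chain2 hv hN hR hY (i - j) (2 * j + e)
    have e1 : 2 * j + e + 2 * (i - j) = 2 * i + e := by omega
    have e2 : 2 * j + e + (i - j) = i + j + e := by omega
    rw [e1, e2] at h1
    exact h1
  · have h1 := hf_chain2 hv hN hR hY (j - i) (2 * i + e)
    have e1 : 2 * i + e + 2 * (j - i) = 2 * j + e := by omega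
    have e2 : 2 * i + e + (j - i) = i + j + e := by omega
    rw [e1, e2] at h1
    rw [hh, h1, Complex.conj_ofReal]

/-- the Hankel matrices of a chain are positive semidefinite -/
theorem hankel {v : ℂ} (hv : Good N v) (hN : 2 ≤ N) {R Y : List Pc} (hR : Is 2 2 R)
    (hY : Is 2 2 Y) (e n : ℕ) (c : ℕ → ℝ) :
    0 ≤ ∑ i ∈ range n, ∑ j ∈ range n, c i * c j * mm N v R Y (i + j + e) := by
  obtain ⟨r, h0, h1⟩ := gram hv (range n) (fun i => (c i : ℂ)) (fun i => MM N v (chain R Y (2 * i + e)))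
  have h2 : ((∑ i ∈ range n, ∑ j ∈ range n, c i * c j * mm N v R Y (i + j + e) : ℝ) : ℂ) = (r : ℂ) := by
    rw [← h1]
    push_cast
    refine sum_congr rfl fun i _ => sum_congr rfl fun j _ => ?_
    rw [chain_gram hv hN hR hY i j e, Complex.conj_ofReal]
    rfl
  have h3 : ∑ i ∈ range n, ∑ j ∈ range n, c i * c j * mm N v R Y (i + j + e) = r := by
    exact_mod_cast h2
  rw [h3]
  exact h0

/-! ### palindromic two-bridge links -/

/-- the power of the crossing -/
noncomputable def Xz (N : ℕ) (v : ℂ) (a : ℤ) : Matrix (I2 N) (I2 N) ℂ :=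
  Xs N v (decide (0 < a)) ^ a.natAbs

lemma InA_Xz {v : ℂ} (hv : Adm N v) (a : ℤ) : InA v (Xz N v a) := by
  unfold Xz Xs
  cases decide (0 < a) with
  | true => exact InA_pow hv _
  | false => exact InA_powN hv _

lemma stm_Xz {v : ℂ} (hv : Adm N v) (hc : (starRingEnd ℂ) v = v⁻¹) (a : ℤ) :
    stm v (Xz N v a) = Xz N v (-a) := by
  have hN1 : ∀ n, stm v (crossN N v ^ n) = crossP N v ^ n := by
    intro n
    have h := stm_Npow hv hc n (InA.one v)
    rw [mul_one, stm_one hv, mul_one] at h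
    exact h
  have hP1 : ∀ n, stm v (crossP N v ^ n) = crossN N v ^ n := by
    intro n
    rw [← hN1 n, stm_stm hv hc]
  unfold Xz Xs
  rw [Int.natAbs_neg]
  rcases lt_trichotomy a 0 with h | h | h
  · rw [decide_eq_false (by omega), decide_eq_true (by omega : 0 < -a)]
    exact hN1 _
  · subst h
    simp [stm_one hv]
  · rw [decide_eq_true h, decide_eq_false (by omega)]
    exact hP1 _

/-- the tangle of a sequence of twist regions -/
def tl : List ℤ → List Pc
  | [] => rot []
  | a :: l => bld (tw a ++ wd l) []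

/-- the operators of the tangles, from the last twist region -/
noncomputable def op (N : ℕ) (v : ℂ) : List ℤ → Matrix (I2 N) (I2 N) ℂ → Matrix (I2 N) (I2 N) ℂ
  | [], Y => Y
  | a :: l, Y => op N v l (Xz N v a * rho v Y)

lemma InA_op {v : ℂ} (hv : Adm N v) (l : List ℤ) : ∀ {Y : Matrix (I2 N) (I2 N) ℂ}, InA v Y →
    InA v (op N v l Y) := by
  induction l with
  | nil => intro Y hY; exact hY
  | cons a l ih => intro Y hY; exact ih ((InA_Xz hv a).mul (InA_rho hv hY))

lemma op_append (v : ℂ) (l m : List ℤ) (Y : Matrix (I2 N) (I2 N) ℂ) :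
    op N v (l ++ m) Y = op N v m (op N v l Y) := by
  induction l generalizing Y with
  | nil => rfl
  | cons a l ih => exact ih _

/-- the adjoint -/
lemma hf_op {v : ℂ} (hv : Good N v) (hN : 2 ≤ N) (l : List ℤ) : ∀ {A B : Matrix (I2 N) (I2 N) ℂ},
    InA v A → InA v B →
    hf v A (op N v l B) = hf v (op N v (l.map fun a => -a).reverse A) B := by
  induction l with
  | nil => intro A B _ _; rfl
  | cons a l ih =>
    intro A B hA hB
    have hv' := hv.adm
    rw [List.map_cons, List.reverse_cons, op_append]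
    change hf v A (op N v l (Xz N v a * rho v B)) = hf v (Xz N v (-a) * rho v _) B
    rw [ih hA ((InA_Xz hv' a).mul (InA_rho hv' hB)), hf_step hv hN (InA_op hv' _ hA) hB (InA_Xz hv' a),
      stm_Xz hv' hv.cj]

lemma Is_wd (l : List ℤ) {T : List Pc} (hT : Is 2 2 T) : Is 2 2 (bld (wd l) T) := Is_bld _ hT

lemma MM_tw (v : ℂ) (a : ℤ) {T : List Pc} (hT : Is 2 2 T) :
    MM N v (bld (tw a) T) = Xz N v a * MM N v T := by
  unfold tw
  rw [bld_rep]
  exact (MM_rep (N := N) v _ hT _).2

lemma MM_wd (v : ℂ) (l : List ℤ) : ∀ {T : List Pc}, Is 2 2 T →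
    MM N v (bld (wd l) T) = op N v l (MM N v T) := by
  induction l with
  | nil => intro T _; rfl
  | cons a l ih =>
    intro T hT
    rw [wd, bld, bld_append, ih (Is_bld _ (Is_rot hT)), MM_tw v a (Is_rot hT), MM_rot v hT]
    rfl

lemma Is_tl (l : List ℤ) : Is 2 2 (tl l) := by
  cases l with
  | nil => exact Is_rot Is_nil2
  | cons a l => exact Is_bld _ Is_nil2

lemma MM_tl {v : ℂ} (hv : Adm N v) (l : List ℤ) : MM N v (tl l) = op N v l (rho v 1) := by
  cases l with
  | nil =>
    change MM N v (rot []) = rho v 1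
    rw [MM_rot v Is_nil2, MM_nil]
  | cons a l =>
    change MM N v (bld (tw a ++ wd l) []) = op N v l (Xz N v a * rho v (rho v 1))
    rw [bld_append, MM_wd v l (Is_bld _ Is_nil2), MM_tw v a Is_nil2, MM_nil, rho_rho_one hv]

lemma tb_eq (a : ℤ) (l : List ℤ) : tb (a :: l) = denom (tl (a :: l)) := rfl

/-- the value of a two-bridge link -/
lemma val_tb {v : ℂ} (hv : Good N v) (hN : 2 ≤ N) (a : ℤ) (l : List ℤ) :
    val (N := N) v (by omega) (tb (a :: l)) = hf v (rho v 1) (op N v (a :: l) (rho v 1)) := by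
  have hv' := hv.adm
  rw [tb_eq, val_denom v _ (Is_tl _), MM_tl hv']
  have i1 : InA v (rho v (1 : Matrix (I2 N) (I2 N) ℂ)) := InA_rho hv' (InA.one v)
  have i2 := InA_op hv' (a :: l) i1
  have h1 : pt v (by omega) (op N v (a :: l) (rho v 1)) =
      BB v (by omega) (rho v 1) (op N v (a :: l) (rho v 1)) := by
    unfold BB
    rw [rho_rho_one hv', mul_one]
  have h2 : stm v (rho v (1 : Matrix (I2 N) (I2 N) ℂ)) = rho v 1 := by
    rw [stm_rho hv' hv.cj, stm_one hv', rhi_eq hv' hN (InA.one v)]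
  rw [h1, ← hf_eq hv hN i1 i2, h2]

/-- palindromic two-bridge links -/
theorem val_pal {v : ℂ} (hv : Good N v) (hN : 2 ≤ N) (a : ℤ) (l : List ℤ) :
    val (N := N) v (by omega) (tb ((a :: l) ++ ((a :: l).map fun a => -a).reverse)) =
      (nq v (MM N v (tl (a :: l))) : ℝ) := by
  have hv' := hv.adm
  have i1 : InA v (rho v (1 : Matrix (I2 N) (I2 N) ℂ)) := InA_rho hv' (InA.one v)
  have i2 := InA_op hv' (a :: l) i1
  have h := val_tb hv hN a (l ++ ((a :: l).map fun a => -a).reverse)
  rw [List.cons_append]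
  rw [h, ← List.cons_append, op_append, hf_op hv hN _ i1 i2]
  have e : ((((a :: l).map fun a => -a).reverse).map fun a => -a).reverse = a :: l := by
    rw [List.map_reverse, List.reverse_reverse, List.map_map]
    have : ((fun a : ℤ => -a) ∘ fun a => -a) = id := by funext a; simp
    rw [this, List.map_id]
  rw [e, MM_tl hv', hf_self]

lemma kv_pal {N : ℕ} (hN : 2 ≤ N) (a : ℤ) (l : List ℤ) :
    kv (tb ((a :: l) ++ ((a :: l).map fun a => -a).reverse)) N = kv (dbl (tl (a :: l))) N := by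
  rw [kv_dbl hN (Is_tl _)]
  unfold kv
  rw [dif_pos (by omega)]
  exact val_pal (Kr_rt (by omega)).good hN a l

/-! ### the Fibonacci links -/

/-- signs alternate -/
def alt : ℤ → List ℕ → List ℤ
  | _, [] => []
  | s, a :: l => (s * a) :: alt (-s) l

lemma alt_append (s : ℤ) (l m : List ℕ) : alt s (l ++ m) = alt s l ++ alt ((-1) ^ l.length * s) m := by
  induction l generalizing s with
  | nil => simp [alt]
  | cons a l ih =>
    rw [List.cons_append, alt, ih, alt, List.cons_append, List.length_cons, pow_succ]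
    congr 3
    ring

lemma alt_rev (s : ℤ) (l : List ℕ) :
    ((alt s l).map fun a => -a).reverse = alt ((-1) ^ l.length * s) l.reverse := by
  induction l generalizing s with
  | nil => rfl
  | cons a l ih =>
    rw [alt, List.map_cons, List.reverse_cons, ih, List.reverse_cons, alt_append, List.length_reverse,
      List.length_cons, pow_succ]
    have h1 : (-1 : ℤ) ^ l.length * (-1 : ℤ) ^ l.length = 1 := by rw [← mul_pow]; norm_num
    have e1 : (-1 : ℤ) ^ l.length * -1 * s = (-1) ^ l.length * -s := by ring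
    have e2 : (-1 : ℤ) ^ l.length * ((-1) ^ l.length * -s) = -s := by
      rw [← mul_assoc, h1, one_mul]
    rw [e1, e2]
    simp [alt]

/-- the tangle of the first half of a Fibonacci link is a zigzag tangle -/
lemma tl_zig (n : ℕ) : tl (alt (-1) (2 :: List.replicate n 1)) = zig n := by
  have key : ∀ n, bld (wd (alt 1 (List.replicate n 1))) (zig 0) = zig n := by
    intro n
    induction n with
    | zero => rfl
    | succ n ih =>
      rw [List.replicate_succ', alt_append, wd_append, bld_append, ih, List.length_replicate, mul_one]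
      rcases Nat.mod_two_eq_zero_or_one n with h | h
      · have h2 : (-1 : ℤ) ^ n = 1 := Even.neg_one_pow (Nat.even_iff.2 h)
        rw [h2]
        change rot (zig n) ++ [Pc.cross 0 true] = rot (zig n) ++ [Pc.cross 0 (decide (n % 2 = 0))]
        rw [h]
        rfl
      · have h2 : (-1 : ℤ) ^ n = -1 := Odd.neg_one_pow (Nat.odd_iff.2 h)
        rw [h2]
        change rot (zig n) ++ [Pc.cross 0 false] = rot (zig n) ++ [Pc.cross 0 (decide (n % 2 = 0))]
        rw [h]
        rfl
  have h1 : alt (-1) (2 :: List.replicate n 1) = -2 :: alt 1 (List.replicate n 1) := by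
    rw [alt]
    norm_num
  rw [h1]
  change bld (tw (-2) ++ wd (alt 1 (List.replicate n 1))) [] = _
  rw [bld_append, ← key n]
  rfl

lemma fib_eq (n : ℕ) : alt (-1) (2 :: (List.replicate (2 * n) 1 ++ [2])) =
    alt (-1) (2 :: List.replicate n 1) ++
      ((alt (-1) (2 :: List.replicate n 1)).map fun a => -a).reverse := by
  rw [alt_rev, ← alt_append]
  congr 1
  rw [List.reverse_cons, List.reverse_replicate, List.cons_append, two_mul, List.replicate_add,
    List.append_assoc]

/-- the Fibonacci link -/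
lemma kv_fib {N : ℕ} (hN : 2 ≤ N) (n : ℕ) :
    kv (tb (alt (-1) (2 :: (List.replicate (2 * n) 1 ++ [2])))) N = kv (dbl (zig n)) N := by
  rw [fib_eq]
  have h1 : alt (-1) (2 :: List.replicate n 1) = (-1 * ((2 : ℕ) : ℤ)) :: alt (- -1) (List.replicate n 1) := rfl
  have h2 := kv_pal hN (-1 * ((2 : ℕ) : ℤ)) (alt (- -1) (List.replicate n 1))
  rw [← h1, tl_zig] at h2
  exact h2

end Pool.Agent.Q191.RP
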