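import Pool.Agent.Q191.RP.Rot

/-!
# The Newton basis of the commutant
-/

set_option autoImplicit false

namespace Pool.Agent.Q191.RP

open Matrix Finset
open scoped Kronecker
open Pool.Agent.H550R3.Jones (WM IsMod IsInt Gen br brf tens irr W crossP crossN Adm)
open Pool.Agent.Q191.FT (lam lam_sub lam_neg Cas Cas_E Cas_F)
open Pool.Agent.H927R2.J.SanYB (brf_ne)
open Pool.Agent.W715.VC (brf_succ')

variable {N : ℕ}

/-- the Newton basis -/
noncomputable def PP (N : ℕ) (v : ℂ) : ℕ → Matrix (I2 N) (I2 N) ℂ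
  | 0 => 1
  | j + 1 => xx N v * PP N v j - lam v (2 * j + 1) • PP N v j

lemma InA_PP {v : ℂ} (hv : v ≠ 0) : ∀ j, InA v (PP N v j)
  | 0 => InA.one v
  | j + 1 => ((InA_xx hv).mul (InA_PP hv j)).sub ((InA_PP hv j).smul _)

/-- the coordinates of the Newton basis -/
noncomputable def cjk (N : ℕ) (v : ℂ) (j k : ℕ) : ℂ :=
  if k ≤ j ∧ j < N then brf v j ^ 2 * v ^ (-(((j : ℤ) - k) * ((N : ℤ) - 1 - k))) *
    (brf v (N - 1 - k) / (brf v (N - 1 - j) * brf v (j - k))) else 0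

/-- the intermediate coordinates -/
noncomputable def zjk (N : ℕ) (v : ℂ) (j a : ℕ) : ℂ :=
  if a ≤ j ∧ j < N then br v ((j : ℤ) + 1) * brf v j ^ 2 * v ^ (-(((j : ℤ) - a) * ((N : ℤ) - 2 - a))) *
    (brf v (N - 1 - a) / (brf v (N - 1 - j) * brf v (j - a))) else 0

lemma br_add {v : ℂ} (hv : v ≠ 0) (m n : ℤ) : v ^ m * br v n + v ^ (-n) * br v m = br v (m + n) := by
  unfold br
  rw [zpow_add₀ hv, neg_add, zpow_add₀ hv]
  ring

lemma yv_cjk {v : ℂ} (hv : Adm N v) {j a : ℕ} (hj : j < N) (ha : a + 1 < N) :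
    yv N v (cjk N v j) a = zjk N v j a := by
  unfold yv
  rcases lt_trichotomy a j with h | h | h
  · -- generic
    unfold cjk zjk
    rw [if_pos (by omega), if_pos (by omega), if_pos (by omega)]
    obtain ⟨d, hd⟩ : ∃ d, j = a + 1 + d := ⟨j - a - 1, by omega⟩
    have e1 : j - (a + 1) = d := by omega
    have e2 : j - a = d + 1 := by omega
    have e3 : N - 1 - a = (N - 1 - (a + 1)) + 1 := by omega
    have e4 : (((N - 1 - (a + 1) : ℕ) : ℤ) + 1) = (N : ℤ) - 1 - a := by omega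
    rw [e1, e2, e3, brf_succ', brf_succ', e4]
    have e5 : ((d : ℤ) + 1) = (j : ℤ) - a := by omega
    rw [e5]
    have e6 : v ^ (-(((j : ℤ) - ((a + 1 : ℕ) : ℤ)) * ((N : ℤ) - 1 - ((a + 1 : ℕ) : ℤ)))) =
        v ^ (-(((j : ℤ) - a) * ((N : ℤ) - 2 - a))) * v ^ ((N : ℤ) - 2 - a) := by
      rw [← zpow_add₀ hv.1]
      congr 1
      push_cast
      ring
    have e7 : v ^ (-(((j : ℤ) - a) * ((N : ℤ) - 1 - a))) =
        v ^ (-(((j : ℤ) - a) * ((N : ℤ) - 2 - a))) * v ^ (-((j : ℤ) - a)) := by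
      rw [← zpow_add₀ hv.1]
      congr 1
      ring
    have e8 : v ^ (2 * (a : ℤ) + 3 - N) * v ^ ((N : ℤ) - 2 - a) = v ^ ((a : ℤ) + 1) := by
      rw [← zpow_add₀ hv.1]
      congr 1
      ring
    rw [e6, e7]
    have h1 := br_add hv.1 ((a : ℤ) + 1) ((j : ℤ) - a)
    have e9 : (a : ℤ) + 1 + ((j : ℤ) - a) = (j : ℤ) + 1 := by ring
    rw [e9] at h1
    have n1 : brf v d ≠ 0 := brf_ne hv (by omega)
    have n2 : brf v (N - 1 - j) ≠ 0 := brf_ne hv (by omega)
    have n3 : br v ((j : ℤ) - a) ≠ 0 := by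
      have := hv.2 (d + 1) (by omega) (by omega)
      push_cast at this
      rwa [e5] at this
    rw [← h1, ← e8]
    field_simp
  · subst h
    unfold cjk zjk
    rw [if_neg (by omega), if_pos (by omega), if_pos (by omega), Nat.sub_self]
    have n2 : brf v (N - 1 - a) ≠ 0 := brf_ne hv (by omega)
    simp only [sub_self, zero_mul, neg_zero, zpow_zero]
    ring
  · unfold cjk zjk
    rw [if_neg (by omega), if_neg (by omega), if_neg (by omega)]
    ring

/-- the identity behind the Newton basis -/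
lemma id2 {v : ℂ} (hv : v ≠ 0) (m k j : ℤ) :
    br v k * br v (m - k + 1) + v ^ j * br v (m - k) * br v (j + 1 - k) =
      v ^ (m - k) * br v j * br v (j + 1 - k) + br v (j + 1) * br v (m - j) := by
  unfold br
  have f1 : m - k + 1 = m + (-k + 1) := by ring
  have f2 : m - k = m + -k := by ring
  have f3 : j + 1 - k = j + (1 + -k) := by ring
  have f4 : m - j = m + -j := by ring
  rw [f1, f2, f3, f4]
  simp only [neg_add, neg_neg, zpow_add₀ hv, _root_.zpow_neg, zpow_one]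
  have g1 : v ^ k ≠ 0 := zpow_ne_zero _ hv
  have g2 : v ^ m ≠ 0 := zpow_ne_zero _ hv
  have g3 : v ^ j ≠ 0 := zpow_ne_zero _ hv
  generalize v ^ k = A at *
  generalize v ^ m = B at *
  generalize v ^ j = C at *
  field_simp
  ring

lemma cjk_succ {v : ℂ} (hv : Adm N v) {j k : ℕ} (hj : j + 1 < N) (hk : k < N) :
    br v k * zjk N v j (k - 1) + v ^ (2 * (k : ℤ) + 1 - N) * br v ((N : ℤ) - 1 - k) * zjk N v j k =
      br v j * br v ((j : ℤ) + 1) * cjk N v j k + cjk N v (j + 1) k := by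
  have hid := id2 hv.1 ((N : ℤ) - 1) k j
  by_cases h : k ≤ j
  · unfold cjk zjk
    rw [if_pos (by omega), if_pos (by omega), if_pos (by omega), if_pos (by omega)]
    have n2 : brf v (N - 1 - (j + 1)) ≠ 0 := brf_ne hv (by omega)
    have n4 : brf v (j - k) ≠ 0 := brf_ne hv (by omega)
    have e1 : j + 1 - k = (j - k) + 1 := by omega
    have e2 : N - 1 - j = (N - 1 - (j + 1)) + 1 := by omega
    have e3 : ((N - 1 - (j + 1) : ℕ) : ℤ) + 1 = (N : ℤ) - 1 - j := by omega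
    have e4 : ((j - k : ℕ) : ℤ) + 1 = (j : ℤ) + 1 - k := by omega
    have n3 : br v ((N : ℤ) - 1 - j) ≠ 0 := by
      have := hv.2 (N - 1 - (j + 1) + 1) (by omega) (by omega)
      push_cast at this
      rwa [e3] at this
    have n5 : br v ((j : ℤ) + 1 - k) ≠ 0 := by
      have := hv.2 (j - k + 1) (by omega) (by omega)
      push_cast at this
      rwa [e4] at this
    have e6 : v ^ (-((((j + 1 : ℕ) : ℤ) - k) * ((N : ℤ) - 1 - k))) =
        v ^ (-(((j : ℤ) - k) * ((N : ℤ) - 1 - k))) * v ^ (-((N : ℤ) - 1 - k)) := by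
      rw [← zpow_add₀ hv.1]
      congr 1
      push_cast
      ring
    have e7 : v ^ (-(((j : ℤ) - k) * ((N : ℤ) - 2 - k))) =
        v ^ (-(((j : ℤ) - k) * ((N : ℤ) - 1 - k))) * v ^ ((j : ℤ) - k) := by
      rw [← zpow_add₀ hv.1]
      congr 1
      ring
    have e8 : v ^ (2 * (k : ℤ) + 1 - N) * v ^ ((j : ℤ) - k) = v ^ (j : ℤ) * v ^ (-((N : ℤ) - 1 - k)) := by
      rw [← zpow_add₀ hv.1, ← zpow_add₀ hv.1]
      congr 1
      ring
    have e9 : v ^ ((N : ℤ) - 1 - k) * v ^ (-((N : ℤ) - 1 - k)) = 1 := by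
      rw [← zpow_add₀ hv.1, add_neg_cancel, zpow_zero]
    have hz : br v k * (br v ((j : ℤ) + 1) * brf v j ^ 2 *
          v ^ (-(((j : ℤ) - ((k - 1 : ℕ) : ℤ)) * ((N : ℤ) - 2 - ((k - 1 : ℕ) : ℤ)))) *
          (brf v (N - 1 - (k - 1)) / (brf v (N - 1 - j) * brf v (j - (k - 1))))) =
        br v k * (br v ((j : ℤ) + 1) * brf v j ^ 2 *
          (v ^ (-(((j : ℤ) - k) * ((N : ℤ) - 1 - k))) * v ^ (-((N : ℤ) - 1 - k))) *
          (brf v (N - 1 - k) * br v ((N : ℤ) - 1 - k + 1) /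
            (brf v (N - 1 - j) * (brf v (j - k) * br v ((j : ℤ) + 1 - k))))) := by
      rcases Nat.eq_zero_or_pos k with h0 | h0
      · rw [h0]; push_cast; rw [br_zero', zero_mul, zero_mul]
      · have d1 : j - (k - 1) = (j - k) + 1 := by omega
        have d2 : N - 1 - (k - 1) = (N - 1 - k) + 1 := by omega
        have d3 : ((N - 1 - k : ℕ) : ℤ) + 1 = (N : ℤ) - 1 - k + 1 := by omega
        have d4 : ((k - 1 : ℕ) : ℤ) = (k : ℤ) - 1 := by omega
        rw [d1, d2, brf_succ', brf_succ', d3, e4, d4, ← zpow_add₀ hv.1]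
        have d5 : -(((j : ℤ) - ((k : ℤ) - 1)) * ((N : ℤ) - 2 - ((k : ℤ) - 1))) =
            -(((j : ℤ) - k) * ((N : ℤ) - 1 - k)) + -((N : ℤ) - 1 - k) := by ring
        rw [d5]
    rw [hz, e6, e7, e1, e2, brf_succ' v (N - 1 - (j + 1)), brf_succ' v j, brf_succ' v (j - k), e3, e4]
    generalize brf v (N - 1 - (j + 1)) = B1 at *
    generalize brf v (N - 1 - k) = B2 at *
    generalize brf v (j - k) = B3 at *
    generalize brf v j = B4 at *
    generalize v ^ (-(((j : ℤ) - k) * ((N : ℤ) - 1 - k))) = X0 at *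
    field_simp
    linear_combination (br v ((j : ℤ) + 1) * B4 ^ 2 * X0 * B2) * (v ^ (-((N : ℤ) - 1 - k))) * hid +
      (br v ((j : ℤ) + 1) * B4 ^ 2 * X0 * B2) * (br v ((N : ℤ) - 1 - k) * br v ((j : ℤ) + 1 - k)) * e8 +
      (br v ((j : ℤ) + 1) * B4 ^ 2 * X0 * B2) * (br v j * br v ((j : ℤ) + 1 - k)) * e9
  · by_cases h1 : k = j + 1
    · subst h1
      unfold cjk zjk
      rw [if_pos (by omega), if_neg (by omega), if_neg (by omega), if_pos (by omega),
        Nat.add_sub_cancel, Nat.sub_self, Nat.sub_self, brf_succ' v j]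
      have n2 : brf v (N - 1 - j) ≠ 0 := brf_ne hv (by omega)
      have n3 : brf v (N - 1 - (j + 1)) ≠ 0 := brf_ne hv (by omega)
      have n4 : brf v 0 ≠ 0 := brf_ne hv (by omega)
      have n5 : brf v 0 = 1 := by simp [brf]
      simp only [sub_self, zero_mul, neg_zero, zpow_zero, n5]
      push_cast
      field_simp
      ring
    · unfold cjk zjk
      rw [if_neg (by omega), if_neg (by omega), if_neg (by omega), if_neg (by omega)]
      ring

lemma cjk_zero {v : ℂ} (hv : Adm N v) (hN : 0 < N) (k : ℕ) :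
    cjk N v 0 k = if k = 0 then 1 else 0 := by
  unfold cjk
  by_cases h : k = 0
  · subst h
    rw [if_pos (by omega), if_pos rfl]
    have n2 : brf v (N - 1) ≠ 0 := brf_ne hv (by omega)
    have n5 : brf v 0 = 1 := by simp [brf]
    simp [n5, div_self n2]
  · rw [if_neg (by omega), if_neg h]

lemma tv_one (hN : 0 < N) {k : ℕ} (hk : k < N) : tv (1 : Matrix (I2 N) (I2 N) ℂ) k = if k = 0 then 1 else 0 := by
  rw [tv_eq (k := k) 1 (⟨k, hk⟩, ⟨N - 1 - k, by omega⟩) (⟨0, hN⟩, ⟨N - 1, by omega⟩) rfl rfl rfl rfl,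
    Matrix.one_apply]
  by_cases h : k = 0
  · subst h
    rw [if_pos rfl, if_pos]
    simp
  · rw [if_neg h, if_neg]
    intro h1
    rw [Prod.mk.injEq, Fin.mk.injEq] at h1
    exact h h1.1

/-- K4 -/
lemma tv_PP {v : ℂ} (hv : Adm N v) (hN : 0 < N) : ∀ j, j < N → ∀ k, k < N →
    tv (PP N v j) k = cjk N v j k := by
  intro j
  induction j with
  | zero =>
    intro _ k hk
    rw [cjk_zero hv hN]
    exact tv_one hN hk
  | succ j ih =>
    intro hj k hk
    have ih' := ih (by omega)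
    have hy : ∀ a, a + 1 < N → yv N v (tv (PP N v j)) a = zjk N v j a := by
      intro a ha
      rw [← yv_cjk hv (by omega) ha]
      unfold yv
      rw [ih' a (by omega), ih' (a + 1) ha]
    change tv (xx N v * PP N v j - lam v (2 * j + 1) • PP N v j) k = _
    rw [tv_sub, tv_smul, tv_xx hk, ih' k hk]
    have h1 : br v k * yv N v (tv (PP N v j)) (k - 1) = br v k * zjk N v j (k - 1) := by
      rcases Nat.eq_zero_or_pos k with h0 | h0
      · rw [h0]; push_cast; rw [br_zero', zero_mul, zero_mul]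
      · rw [hy _ (by omega)]
    have h2 : br v ((N : ℤ) - 1 - k) * yv N v (tv (PP N v j)) k =
        br v ((N : ℤ) - 1 - k) * zjk N v j k := by
      by_cases h3 : k = N - 1
      · have h4 : (N : ℤ) - 1 - k = 0 := by omega
        rw [h4, br_zero', zero_mul, zero_mul]
      · rw [hy _ (by omega)]
    have h3 := cjk_succ hv hj hk
    have h4 := lam_sub hv.1 ((j : ℤ) + 1) j
    have e1 : (j : ℤ) + 1 + j = 2 * j + 1 := by ring
    have e2 : (j : ℤ) + 1 - j = 1 := by ring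
    rw [e1, e2] at h4
    linear_combination h1 + v ^ (2 * (k : ℤ) + 1 - N) * h2 + h3 - cjk N v j k * h4

/-- the weights of the form -/
noncomputable def om (N : ℕ) (v : ℂ) (j : ℕ) : ℂ :=
  -(br v j ^ 2 * (br v ((N : ℤ) + j) * br v ((N : ℤ) - j)))

lemma Y_cjk {v : ℂ} (hv : Adm N v) {j k : ℕ} (hj : j + 1 < N) :
    lam v (2 * k + 1) * cjk N v (j + 1) k -
        v ^ (2 * (k : ℤ) + 2) * br v ((N : ℤ) - 1 - k) ^ 2 * cjk N v (j + 1) (k + 1) =
      lam v (2 * ((j + 1 : ℕ) : ℤ) + 1) * cjk N v (j + 1) k + om N v (j + 1) * cjk N v j k := by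
  have h4 := lam_sub hv.1 ((j : ℤ) + 1 + k + 1) ((j : ℤ) + 1 - k)
  have e1 : (j : ℤ) + 1 + k + 1 + ((j : ℤ) + 1 - k) = 2 * ((j + 1 : ℕ) : ℤ) + 1 := by push_cast; ring
  have e2 : (j : ℤ) + 1 + k + 1 - ((j : ℤ) + 1 - k) = 2 * k + 1 := by ring
  rw [e1, e2] at h4
  by_cases h : k ≤ j
  · unfold cjk om
    rw [if_pos (by omega), if_pos (by omega), if_pos (by omega)]
    have n2 : brf v (N - 1 - (j + 1)) ≠ 0 := brf_ne hv (by omega)
    have n4 : brf v (j - k) ≠ 0 := brf_ne hv (by omega)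
    have d1 : j + 1 - k = (j - k) + 1 := by omega
    have d2 : N - 1 - j = (N - 1 - (j + 1)) + 1 := by omega
    have e3 : ((N - 1 - (j + 1) : ℕ) : ℤ) + 1 = (N : ℤ) - 1 - j := by omega
    have e4 : ((j - k : ℕ) : ℤ) + 1 = (j : ℤ) + 1 - k := by omega
    have d3 : j + 1 - (k + 1) = j - k := by omega
    have d4 : N - 1 - k = (N - 1 - (k + 1)) + 1 := by omega
    have e5 : ((N - 1 - (k + 1) : ℕ) : ℤ) + 1 = (N : ℤ) - 1 - k := by omega
    have n3 : br v ((N : ℤ) - 1 - j) ≠ 0 := by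
      have := hv.2 (N - 1 - (j + 1) + 1) (by omega) (by omega)
      push_cast at this
      rwa [e3] at this
    have n5 : br v ((j : ℤ) + 1 - k) ≠ 0 := by
      have := hv.2 (j - k + 1) (by omega) (by omega)
      push_cast at this
      rwa [e4] at this
    rw [d1, d2, d3, d4, brf_succ' v (N - 1 - (j + 1)), brf_succ' v j, brf_succ' v (j - k),
      brf_succ' v (N - 1 - (k + 1)), e3, e4, e5]
    push_cast
    have hb := br_add hv.1 ((j : ℤ) + 1 + k + 1) ((N : ℤ) - 1 - k)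
    have e6 : (j : ℤ) + 1 + k + 1 + ((N : ℤ) - 1 - k) = (N : ℤ) + (j + 1) := by ring
    rw [e6] at hb
    have e7 : (N : ℤ) - (j + 1) = (N : ℤ) - 1 - j := by ring
    rw [e7]
    have e8 : v ^ (-(((j : ℤ) + 1 - k) * ((N : ℤ) - 1 - k))) =
        v ^ (-(((j : ℤ) - k) * ((N : ℤ) - 1 - k))) * v ^ (-((N : ℤ) - 1 - k)) := by
      rw [← zpow_add₀ hv.1]
      congr 1
      ring
    have e9 : v ^ (2 * (k : ℤ) + 2) * v ^ (-(((j : ℤ) + 1 - ((k : ℤ) + 1)) * ((N : ℤ) - 1 - ((k : ℤ) + 1)))) =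
        v ^ (-(((j : ℤ) - k) * ((N : ℤ) - 1 - k))) * v ^ ((j : ℤ) + 1 + k + 1) := by
      rw [← zpow_add₀ hv.1, ← zpow_add₀ hv.1]
      congr 1
      ring
    push_cast at h4
    rw [e8]
    generalize brf v (N - 1 - (j + 1)) = B1 at *
    generalize brf v (N - 1 - (k + 1)) = B2 at *
    generalize brf v (j - k) = B3 at *
    generalize brf v j = B4 at *
    generalize v ^ (-(((j : ℤ) - k) * ((N : ℤ) - 1 - k))) = X0 at *
    generalize v ^ (-(((j : ℤ) + 1 - ((k : ℤ) + 1)) * ((N : ℤ) - 1 - ((k : ℤ) + 1)))) = X1 at *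
    generalize br v ((N : ℤ) - 1 - k) = b at *
    generalize br v ((N : ℤ) - 1 - j) = n at *
    generalize br v ((j : ℤ) + 1 - k) = d at *
    generalize br v ((j : ℤ) + 1 + k + 1) = g at *
    generalize br v ((N : ℤ) + (j + 1)) = e at *
    generalize v ^ ((j : ℤ) + 1 + k + 1) = U at *
    generalize v ^ (-((N : ℤ) - 1 - k)) = U' at *
    generalize v ^ (2 * (k : ℤ) + 2) = V2 at *
    have h4' : lam v (2 * (k : ℤ) + 1) = lam v (2 * ((j : ℤ) + 1) + 1) - g * d := by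
      rw [← h4]; ring
    rw [h4', ← hb]
    field_simp
    linear_combination (-(b ^ 2 * d * B4 ^ 2 * br v ((j : ℤ) + 1) ^ 2 * B2)) * e9
  · by_cases h1 : k = j + 1
    · subst h1
      unfold cjk om
      rw [if_pos (by omega), if_neg (by omega), if_neg (by omega)]
      push_cast
      ring
    · unfold cjk
      rw [if_neg (by omega), if_neg (by omega), if_neg (by omega)]
      ring

end Pool.Agent.Q191.RP
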