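import Pool.Agent.Q191.RP.Adj

/-!
# Positivity
-/

set_option autoImplicit false

namespace Pool.Agent.Q191.RP

open Matrix Finset
open scoped Kronecker
open Pool.Agent.H550R3.Jones (WM IsMod IsInt Gen br brf tens irr W crossP crossN Adm)
open Pool.Agent.H927R2.J.SanYB (brf_ne)
open Pool.Agent.W715.VC (brf_succ')
open Pool.Agent.Q191.FT (lam lam_sub lam_neg Cas Cas_E Cas_F)

variable {N : ℕ}

/-- the points at which the form is positive -/
structure Good (N : ℕ) (v : ℂ) : Prop where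
  adm : Adm N v
  cj : (starRingEnd ℂ) v = v⁻¹
  pos : ∀ k : ℕ, 0 < k → k < N → ∃ r : ℝ, 0 ≤ r ∧ br v ((N : ℤ) + k) * br v ((N : ℤ) - k) = r

lemma neg_br_sq {v : ℂ} (hc : (starRingEnd ℂ) v = v⁻¹) (k : ℤ) :
    -(br v k ^ 2) = ((‖br v k‖ ^ 2 : ℝ) : ℂ) := by
  have h1 := cj_br hc k
  have h2 : br v k * (starRingEnd ℂ) (br v k) = ((‖br v k‖ ^ 2 : ℝ) : ℂ) := by
    rw [Complex.mul_conj, Complex.normSq_eq_norm_sq]
  rw [← h2, h1]
  ring

lemma om_real {v : ℂ} (hv : Good N v) {k : ℕ} (h0 : 0 < k) (hk : k < N) :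
    ∃ r : ℝ, 0 ≤ r ∧ om N v k = r := by
  obtain ⟨r, hr, h⟩ := hv.pos k h0 hk
  refine ⟨‖br v k‖ ^ 2 * r, by positivity, ?_⟩
  unfold om
  rw [h]
  have h1 := neg_br_sq hv.cj k
  push_cast at h1 ⊢
  rw [← h1]
  ring

lemma WW_real {v : ℂ} (hv : Good N v) {i : ℕ} (hi : i < N) : ∃ r : ℝ, 0 ≤ r ∧ WW N v i = r := by
  induction i with
  | zero => exact ⟨1, by norm_num, by simp [WW]⟩
  | succ i ih =>
    obtain ⟨r, hr, h⟩ := ih (by omega)
    obtain ⟨s, hs, h'⟩ := om_real hv (k := i + 1) (by omega) hi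
    refine ⟨r * s, by positivity, ?_⟩
    have h3 : WW N v (i + 1) = WW N v i * om N v (i + 1) := by
      unfold WW; rw [prod_range_succ]
    rw [h3, h, h']
    push_cast
    ring

/-- the weights, as real numbers -/
noncomputable def WR (N : ℕ) (v : ℂ) (i : ℕ) : ℝ := (WW N v i).re

lemma WR_eq {v : ℂ} (hv : Good N v) {i : ℕ} (hi : i < N) : WW N v i = (WR N v i : ℝ) := by
  obtain ⟨r, _, h⟩ := WW_real hv hi
  unfold WR
  rw [h, Complex.ofReal_re]

lemma WR_nonneg {v : ℂ} (hv : Good N v) {i : ℕ} (hi : i < N) : 0 ≤ WR N v i := by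
  obtain ⟨r, hr, h⟩ := WW_real hv hi
  unfold WR
  rw [h, Complex.ofReal_re]
  exact hr

lemma WR_zero (v : ℂ) : WR N v 0 = 1 := by simp [WR, WW]

/-- the square of the norm -/
noncomputable def nq (v : ℂ) (T : Matrix (I2 N) (I2 N) ℂ) : ℝ :=
  ∑ i : Fin N, WR N v i * ‖gam v T i‖ ^ 2

/-- the hermitian form -/
noncomputable def hf (v : ℂ) (S T : Matrix (I2 N) (I2 N) ℂ) : ℂ :=
  ∑ i : Fin N, (WR N v i : ℂ) * (starRingEnd ℂ) (gam v S i) * gam v T i

lemma InA_stm {v : ℂ} (hv : Adm N v) (hc : (starRingEnd ℂ) v = v⁻¹) {T : Matrix (I2 N) (I2 N) ℂ}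
    (hT : InA v T) : InA v (stm v T) := by
  have h1 : ∑ j : Fin N, (starRingEnd ℂ) (gam v T j) • PP N v j = stm v T := by
    conv_rhs => rw [← sum_gam hv hT, stm_sum]
    refine sum_congr rfl fun i _ => ?_
    rw [stm_smul, stm_PP hv hc]
  rw [← h1]
  exact InA.sum univ (fun j : Fin N => (starRingEnd ℂ) (gam v T j) • PP N v j)
    fun j _ => (InA_PP hv.1 j).smul _

lemma hf_eq {v : ℂ} (hv : Good N v) (hN : 2 ≤ N) {S T : Matrix (I2 N) (I2 N) ℂ} (hS : InA v S)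
    (hT : InA v T) : BB v (by omega) (stm v S) T = hf v S T := by
  rw [BB_gam hv.adm hN (InA_stm hv.adm hv.cj hS) hT]
  unfold hf
  refine sum_congr rfl fun i _ => ?_
  rw [gam_stm hv.adm hv.cj hS, WR_eq hv i.2]

lemma hf_self (v : ℂ) (T : Matrix (I2 N) (I2 N) ℂ) : hf v T T = (nq v T : ℝ) := by
  unfold hf nq
  push_cast
  refine sum_congr rfl fun i _ => ?_
  have h2 : gam v T i * (starRingEnd ℂ) (gam v T i) = ((‖gam v T i‖ ^ 2 : ℝ) : ℂ) := by
    rw [Complex.mul_conj, Complex.normSq_eq_norm_sq]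
  push_cast at h2
  rw [← h2]
  ring

lemma nq_nonneg {v : ℂ} (hv : Good N v) (T : Matrix (I2 N) (I2 N) ℂ) : 0 ≤ nq v T := by
  unfold nq
  refine sum_nonneg fun i _ => ?_
  have := WR_nonneg hv i.2
  positivity

/-- Cauchy-Schwarz -/
lemma hf_cs {v : ℂ} (hv : Good N v) (S T : Matrix (I2 N) (I2 N) ℂ) :
    ‖hf v S T‖ ^ 2 ≤ nq v S * nq v T := by
  have h1 : ‖hf v S T‖ ≤ ∑ i : Fin N, (Real.sqrt (WR N v i) * ‖gam v S i‖) *
      (Real.sqrt (WR N v i) * ‖gam v T i‖) := by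
    unfold hf
    refine (norm_sum_le _ _).trans (sum_le_sum fun i _ => ?_)
    have h2 := WR_nonneg hv i.2
    rw [norm_mul, norm_mul, RCLike.norm_conj, Complex.norm_real, Real.norm_of_nonneg h2]
    have h3 := Real.mul_self_sqrt h2
    apply le_of_eq
    linear_combination -(‖gam v S i‖ * ‖gam v T i‖) * h3
  have h4 : (∑ i : Fin N, (Real.sqrt (WR N v i) * ‖gam v S i‖) *
      (Real.sqrt (WR N v i) * ‖gam v T i‖)) ^ 2 ≤
      (∑ i : Fin N, (Real.sqrt (WR N v i) * ‖gam v S i‖) ^ 2) *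
      ∑ i : Fin N, (Real.sqrt (WR N v i) * ‖gam v T i‖) ^ 2 := sum_mul_sq_le_sq_mul_sq _ _ _
  have h5 : ∀ Z : Matrix (I2 N) (I2 N) ℂ,
      ∑ i : Fin N, (Real.sqrt (WR N v i) * ‖gam v Z i‖) ^ 2 = nq v Z := by
    intro Z
    unfold nq
    refine sum_congr rfl fun i _ => ?_
    rw [mul_pow, Real.sq_sqrt (WR_nonneg hv i.2)]
  rw [h5, h5] at h4
  have h6 : ‖hf v S T‖ ^ 2 ≤ (∑ i : Fin N, (Real.sqrt (WR N v i) * ‖gam v S i‖) *
      (Real.sqrt (WR N v i) * ‖gam v T i‖)) ^ 2 := by gcongr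
  exact h6.trans h4

/-! ### symmetry and rotation -/

lemma BB_symm {v : ℂ} (hv : Adm N v) (hN : 2 ≤ N) {S T : Matrix (I2 N) (I2 N) ℂ} (hS : InA v S)
    (hT : InA v T) : BB v (by omega) S T = BB v (by omega) T S := by
  rw [BB_gam hv hN hS hT, BB_gam hv hN hT hS]
  refine sum_congr rfl fun i _ => ?_
  ring

/-- the commutant is commutative -/
lemma PP_comm {v : ℂ} (hv : v ≠ 0) {T : Matrix (I2 N) (I2 N) ℂ} (hT : InA v T) (j : ℕ) :
    PP N v j * T = T * PP N v j := by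
  induction j with
  | zero => change 1 * T = T * 1; rw [one_mul, mul_one]
  | succ j ih =>
    change (xx N v * PP N v j - lam v (2 * j + 1) • PP N v j) * T =
      T * (xx N v * PP N v j - lam v (2 * j + 1) • PP N v j)
    rw [sub_mul, mul_sub, mul_assoc, ih, ← mul_assoc, xx_comm hT, mul_assoc, Matrix.smul_mul,
      Matrix.mul_smul, ih]

lemma InA_comm {v : ℂ} (hv : Adm N v) {S T : Matrix (I2 N) (I2 N) ℂ} (hS : InA v S)
    (hT : InA v T) : S * T = T * S := by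
  conv_lhs => rw [← sum_gam hv hS]
  conv_rhs => rw [← sum_gam hv hS]
  rw [sum_mul, mul_sum]
  refine sum_congr rfl fun j _ => ?_
  rw [Matrix.smul_mul, Matrix.mul_smul, PP_comm hv.1 hT]

lemma BB_rot {v : ℂ} (hv : Adm N v) (hN : 2 ≤ N) {S T : Matrix (I2 N) (I2 N) ℂ} (hS : InA v S)
    (hT : InA v T) : BB v (by omega) (rhi v S) (rho v T) = BB v (by omega) S T := by
  have h1 : BB v (by omega) (rhi v S) (rho v T) = BB v (by omega) T S := by
    unfold BB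
    rw [rho_rhi hv, InA_comm hv (InA_rho hv hT) hS]
  rw [h1, BB_symm hv hN hT hS]

lemma stm_rho {v : ℂ} (hv : Adm N v) (hc : (starRingEnd ℂ) v = v⁻¹) (X : Matrix (I2 N) (I2 N) ℂ) :
    stm v (rho v X) = rhi v (stm v X) := by
  ext p q
  simp only [stm, rho, rhi, rv, Om, Fin.rev_rev, map_mul, map_div₀, rr_rev]
  have a1 := kap_cj hv hc (k := (q.1.rev : Fin N)) q.1.rev.2
  have a2 := kap_cj hv hc (k := (p.2.rev : Fin N)) p.2.rev.2
  rw [rr_rev] at a1 a2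
  have b1 := kap_ne hv (k := (q.1.rev : Fin N)) q.1.rev.2
  have b2 := kap_ne hv (k := (p.2.rev : Fin N)) p.2.rev.2
  have c1 := rr_ne hv p.1.2
  have c2 := rr_ne hv p.2.2
  have c3 := rr_ne hv q.1.2
  have c4 := rr_ne hv q.2.2
  have d1 : (starRingEnd ℂ) (kap N v (q.1.rev : Fin N)) ≠ 0 := (map_ne_zero _).2 b1
  have d2 : (starRingEnd ℂ) (kap N v (p.2.rev : Fin N)) ≠ 0 := (map_ne_zero _).2 b2
  have e1 : (starRingEnd ℂ) (kap N v (q.1.rev : Fin N)) = rr N v q.1 ^ 2 / kap N v (q.1.rev : Fin N) := by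
    rw [← a1]; field_simp
  have e2 : (starRingEnd ℂ) (kap N v (p.2.rev : Fin N)) = rr N v p.2 ^ 2 / kap N v (p.2.rev : Fin N) := by
    rw [← a2]; field_simp
  rw [e1, e2]
  field_simp

/-- the norm is invariant under the rotation -/
lemma nq_rho {v : ℂ} (hv : Good N v) (hN : 2 ≤ N) {T : Matrix (I2 N) (I2 N) ℂ} (hT : InA v T) :
    nq v (rho v T) = nq v T := by
  have h1 := hf_eq hv hN (InA_rho hv.adm hT) (InA_rho hv.adm hT)
  rw [stm_rho hv.adm hv.cj, BB_rot hv.adm hN (InA_stm hv.adm hv.cj hT) hT, hf_eq hv hN hT hT,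
    hf_self, hf_self] at h1
  exact_mod_cast h1.symm

lemma nq_stm {v : ℂ} (hv : Good N v) {T : Matrix (I2 N) (I2 N) ℂ} (hT : InA v T) :
    nq v (stm v T) = nq v T := by
  unfold nq
  refine sum_congr rfl fun i _ => ?_
  rw [gam_stm hv.adm hv.cj hT, RCLike.norm_conj]

end Pool.Agent.Q191.RP
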