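import Pool.Agent.Q191.RP.Crs

/-!
# Roots of unity
-/

set_option autoImplicit false

namespace Pool.Agent.Q191.RP

open Matrix Finset
open scoped Kronecker
open Pool.Agent.H550R3.Jones (WM IsMod IsInt Gen br brf tens irr W crossP crossN Adm)
open Pool.Agent.H927R2.J.SanYB (brf_ne)
open Pool.Agent.W715.VC (brf_succ' sb sb_zero sb_closed qbin sb_self)

variable {N : ℕ}

/-- `v` is a root of unity with `v ^ (2 N) = 1` and `{k} ≠ 0` for `0 < k < N` -/
structure Kr (N : ℕ) (v : ℂ) : Prop where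
  adm : Adm N v
  cj : (starRingEnd ℂ) v = v⁻¹
  vN : v ^ (2 * (N : ℤ)) = 1

lemma br_NN {v : ℂ} (hv : Kr N v) (k : ℤ) :
    br v ((N : ℤ) + k) * br v ((N : ℤ) - k) = -(br v k ^ 2) := by
  have h0 := hv.adm.1
  have h1 := hv.vN
  have h2 : v ^ (2 * (N : ℤ)) = v ^ (N : ℤ) * v ^ (N : ℤ) := by
    rw [← zpow_add₀ h0]; congr 1; ring
  rw [h2] at h1
  unfold br
  have g1 : (N : ℤ) - k = N + -k := by ring
  rw [g1]
  simp only [neg_add, neg_neg, zpow_add₀ h0, _root_.zpow_neg]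
  have p1 : v ^ (N : ℤ) ≠ 0 := zpow_ne_zero _ h0
  have p2 : v ^ k ≠ 0 := zpow_ne_zero _ h0
  have h3 : (v ^ (N : ℤ))⁻¹ = v ^ (N : ℤ) := by
    rw [inv_eq_iff_eq_inv, eq_comm, inv_eq_iff_eq_inv]
    exact (eq_inv_of_mul_eq_one_left h1)
  rw [h3]
  generalize v ^ (N : ℤ) = A at *
  generalize v ^ k = B at *
  field_simp
  linear_combination (B ^ 2 * 2 - 1 - B ^ 4) * h1

lemma Kr.good {v : ℂ} (hv : Kr N v) : Good N v := by
  refine ⟨hv.adm, hv.cj, fun k _ _ => ⟨‖br v k‖ ^ 2, by positivity, ?_⟩⟩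
  rw [br_NN hv, neg_br_sq hv.cj]

lemma om_root {v : ℂ} (hv : Kr N v) (k : ℕ) : om N v k = ((‖br v k‖ ^ 4 : ℝ) : ℂ) := by
  unfold om
  rw [br_NN hv]
  have h1 := neg_br_sq hv.cj k
  have h2 : ((‖br v k‖ ^ 4 : ℝ) : ℂ) = ((‖br v k‖ ^ 2 : ℝ) : ℂ) * ((‖br v k‖ ^ 2 : ℝ) : ℂ) := by
    push_cast; ring
  rw [h2, ← h1]
  ring

lemma WW_root {v : ℂ} (hv : Kr N v) (i : ℕ) : WW N v i = ((‖brf v i‖ ^ 4 : ℝ) : ℂ) := by
  induction i with
  | zero => simp [WW, brf]
  | succ i ih =>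
    have h3 : WW N v (i + 1) = WW N v i * om N v (i + 1) := by
      unfold WW; rw [prod_range_succ]
    rw [h3, ih, om_root hv, brf_succ', norm_mul]
    push_cast
    ring

lemma WR_root {v : ℂ} (hv : Kr N v) (i : ℕ) : WR N v i = ‖brf v i‖ ^ 4 := by
  unfold WR
  rw [WW_root hv, Complex.ofReal_re]

lemma norm_v {v : ℂ} (hv : (starRingEnd ℂ) v = v⁻¹) (h0 : v ≠ 0) : ‖v‖ = 1 := by
  have h1 : v * (starRingEnd ℂ) v = 1 := by rw [hv, mul_inv_cancel₀ h0]
  rw [Complex.mul_conj, Complex.normSq_eq_norm_sq] at h1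
  have h2 : ‖v‖ ^ 2 = 1 := by exact_mod_cast h1
  have h3 : ‖v‖ * ‖v‖ = 1 := by rw [← sq]; exact h2
  rcases mul_self_eq_one_iff.1 h3 with h | h
  · exact h
  · have := norm_nonneg v
    linarith

lemma norm_zp {v : ℂ} (hv : Kr N v) (n : ℤ) : ‖v ^ n‖ = 1 := by
  rw [norm_zpow, norm_v hv.cj hv.adm.1, _root_.one_zpow]

lemma norm_sg {v : ℂ} (hv : Kr N v) (i j : ℕ) : ‖sg N v i j‖ =
    if j ≤ i then ‖brf v j‖ / (‖brf v (i - j)‖ * ‖brf v i‖) else 0 := by
  unfold sg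
  split_ifs with h
  · unfold Cst
    rw [norm_mul, norm_mul, norm_mul, norm_mul, norm_zp hv, norm_zp hv, norm_pow, norm_pow, norm_neg,
      norm_one, one_pow, one_pow, norm_div, norm_mul]
    ring
  · exact norm_zero

/-- adding a positive crossing -/
lemma nq_P {v : ℂ} (hv : Kr N v) {B : ℝ} (hB0 : 0 ≤ B)
    (hB : ∀ i j : ℕ, j ≤ i → i < N → ‖brf v i‖ ≤ B * (‖brf v (i - j)‖ * ‖brf v j‖))
    {T : Matrix (I2 N) (I2 N) ℂ} (hT : InA v T) :
    nq v (crossP N v * T) ≤ ((N : ℝ) * B) ^ 2 * nq v T := by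
  have hne : ∀ i : ℕ, i < N → 0 < ‖brf v i‖ := fun i hi => norm_pos_iff.2 (brf_ne hv.adm hi)
  have key : ∀ i : Fin N, ‖brf v i‖ ^ 2 * ‖gam v (crossP N v * T) i‖ ≤
      B * ∑ j : Fin N, ‖brf v j‖ ^ 2 * ‖gam v T j‖ := by
    intro i
    rw [gam_P hv.adm hT]
    calc ‖brf v i‖ ^ 2 * ‖∑ j : Fin N, sg N v i j * gam v T j‖
        ≤ ‖brf v i‖ ^ 2 * ∑ j : Fin N, ‖sg N v i j * gam v T j‖ := by
          gcongr
          exact norm_sum_le _ _
      _ = ∑ j : Fin N, ‖brf v i‖ ^ 2 * (‖sg N v i j‖ * ‖gam v T j‖) := by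
          rw [mul_sum]
          refine sum_congr rfl fun j _ => ?_
          rw [norm_mul]
      _ ≤ ∑ j : Fin N, B * (‖brf v j‖ ^ 2 * ‖gam v T j‖) := by
          refine sum_le_sum fun j _ => ?_
          rw [norm_sg hv]
          split_ifs with h
          · have h1 := hB i j h i.2
            have p1 := hne i i.2
            have p2 := hne j j.2
            have p3 := hne (i - j : ℕ) (by have := i.2; omega)
            have p4 := norm_nonneg (gam v T j)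
            have e1 : ‖brf v i‖ ^ 2 * (‖brf v j‖ / (‖brf v ((i : ℕ) - j)‖ * ‖brf v i‖) * ‖gam v T j‖) =
                ‖brf v i‖ * (‖brf v j‖ * ‖gam v T j‖ / ‖brf v ((i : ℕ) - j)‖) := by
              field_simp
            have e2 : B * (‖brf v j‖ ^ 2 * ‖gam v T j‖) =
                (B * (‖brf v ((i : ℕ) - j)‖ * ‖brf v j‖)) *
                  (‖brf v j‖ * ‖gam v T j‖ / ‖brf v ((i : ℕ) - j)‖) := by
              field_simp
            rw [e1, e2]
            exact mul_le_mul_of_nonneg_right h1 (by positivity)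
          · have p4 := norm_nonneg (gam v T j)
            rw [zero_mul, mul_zero]
            positivity
      _ = B * ∑ j : Fin N, ‖brf v j‖ ^ 2 * ‖gam v T j‖ := by rw [mul_sum]
  have hcs : (∑ j : Fin N, ‖brf v j‖ ^ 2 * ‖gam v T j‖) ^ 2 ≤ N * nq v T := by
    have h1 := sq_sum_le_card_mul_sum_sq (s := (univ : Finset (Fin N)))
      (f := fun j : Fin N => ‖brf v j‖ ^ 2 * ‖gam v T j‖)
    rw [card_univ, Fintype.card_fin] at h1
    refine h1.trans (le_of_eq ?_)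
    congr 1
    unfold nq
    refine sum_congr rfl fun j _ => ?_
    rw [WR_root hv]
    ring
  have hle : nq v (crossP N v * T) ≤ ∑ _i : Fin N, B ^ 2 * (N * nq v T) := by
    unfold nq
    refine sum_le_sum fun i _ => ?_
    rw [WR_root hv]
    have h1 : ‖brf v i‖ ^ 4 * ‖gam v (crossP N v * T) i‖ ^ 2 =
        (‖brf v i‖ ^ 2 * ‖gam v (crossP N v * T) i‖) ^ 2 := by ring
    rw [h1]
    have h2 : 0 ≤ ‖brf v i‖ ^ 2 * ‖gam v (crossP N v * T) i‖ := by positivity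
    calc (‖brf v i‖ ^ 2 * ‖gam v (crossP N v * T) i‖) ^ 2 ≤
        (B * ∑ j : Fin N, ‖brf v j‖ ^ 2 * ‖gam v T j‖) ^ 2 := by
          have := key i
          gcongr
      _ = B ^ 2 * (∑ j : Fin N, ‖brf v j‖ ^ 2 * ‖gam v T j‖) ^ 2 := by ring
      _ ≤ B ^ 2 * (N * nq v T) := by gcongr
  rw [sum_const, card_univ, Fintype.card_fin, nsmul_eq_mul] at hle
  refine hle.trans (le_of_eq ?_)
  ring

/-- adding a negative crossing -/
lemma nq_N {v : ℂ} (hv : Kr N v) {B : ℝ} (hB0 : 0 ≤ B)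
    (hB : ∀ i j : ℕ, j ≤ i → i < N → ‖brf v i‖ ≤ B * (‖brf v (i - j)‖ * ‖brf v j‖))
    {T : Matrix (I2 N) (I2 N) ℂ} (hT : InA v T) :
    nq v (crossN N v * T) ≤ ((N : ℝ) * B) ^ 2 * nq v T := by
  have h1 : stm v (crossN N v * T) = crossP N v * stm v T := by
    rw [stm_mul hv.adm, stm_N hv.adm hv.cj,
      InA_comm hv.adm (InA_stm hv.adm hv.cj hT) (InA_P hv.adm)]
  rw [← nq_stm hv.good ((InA_N hv.adm).mul hT), h1, ← nq_stm hv.good hT]
  exact nq_P hv hB0 hB (InA_stm hv.adm hv.cj hT)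

/-! ### values -/

lemma gam_one {v : ℂ} (hv : Adm N v) (i : Fin N) :
    gam v (1 : Matrix (I2 N) (I2 N) ℂ) i = if (i : ℕ) = 0 then 1 else 0 := by
  have hN : 0 < N := by have := i.2; omega
  have h1 : ∑ j : Fin N, (if (j : ℕ) = 0 then (1 : ℂ) else 0) • PP N v j = 1 := by
    rw [sum_eq_single (⟨0, hN⟩ : Fin N)]
    · rw [if_pos rfl, one_smul]; rfl
    · intro j _ hj
      rw [if_neg (fun h => hj (Fin.ext h)), zero_smul]
    · intro h; exact absurd (mem_univ _) h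
  rw [gam_of hv _ h1]

lemma nq_one {v : ℂ} (hv : Adm N v) (hN : 0 < N) : nq v (1 : Matrix (I2 N) (I2 N) ℂ) = 1 := by
  unfold nq
  rw [sum_eq_single (⟨0, hN⟩ : Fin N)]
  · rw [gam_one hv, if_pos rfl, WR_zero]
    simp
  · intro j _ hj
    rw [gam_one hv, if_neg (fun h => hj (Fin.ext h))]
    simp
  · intro h; exact absurd (mem_univ _) h

lemma gam_cross {v : ℂ} (hv : Adm N v) (i : Fin N) : gam v (crossP N v) i = sg N v i 0 := by
  have h1 : ∑ j : Fin N, sg N v j 0 • PP N v j = crossP N v := by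
    rw [P_exp0 hv (by have := i.2; omega), Fin.sum_univ_eq_sum_range
      (fun i => sg N v i 0 • PP N v i) N]
  rw [gam_of hv _ h1]

lemma norm_qprod {v : ℂ} (hv : Kr N v) (n : ℕ) :
    ‖∏ j ∈ range n, (1 - (1 : ℂ) * v ^ (2 * (j + 1)))‖ = ‖brf v n‖ := by
  unfold brf
  rw [norm_prod, norm_prod]
  refine prod_congr rfl fun j _ => ?_
  have h1 : (1 : ℂ) - 1 * v ^ (2 * (j + 1)) = -(v ^ ((j : ℤ) + 1) * br v ((j : ℤ) + 1)) := by
    unfold br
    rw [mul_sub, ← zpow_add₀ hv.adm.1, ← zpow_add₀ hv.adm.1, add_neg_cancel, zpow_zero, one_mul,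
      neg_sub, ← zpow_natCast]
    congr 2
    push_cast
    ring
  rw [h1, norm_neg, norm_mul, norm_zp hv, one_mul]

/-- two crossings -/
lemma norm_gam_two {v : ℂ} (hv : Kr N v) (i : Fin N) :
    ‖gam v (crossP N v * crossP N v) i‖ = 1 / ‖brf v i‖ := by
  rw [gam_P hv.adm (InA_P hv.adm)]
  have hne : ∀ i : ℕ, i < N → brf v i ≠ 0 := fun i hi => brf_ne hv.adm hi
  have h0 := hv.adm.1
  have h1 : ∑ j : Fin N, sg N v i j * gam v (crossP N v) j =
      ∑ j ∈ range N, sg N v i j * sg N v j 0 := by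
    rw [← Fin.sum_univ_eq_sum_range (fun j => sg N v i j * sg N v j 0) N]
    refine sum_congr rfl fun j _ => ?_
    rw [gam_cross hv.adm]
  have h2 : ∑ j ∈ range N, sg N v i j * sg N v j 0 =
      ∑ j ∈ range ((i : ℕ) + 1), sg N v i j * sg N v j 0 := by
    symm
    apply sum_subset
    · intro j hj
      rw [mem_range] at *
      have := i.2
      omega
    · intro j _ hj
      rw [mem_range] at hj
      unfold sg
      rw [if_neg (by omega), zero_mul]
  have h3 : ∀ j ∈ range ((i : ℕ) + 1), sg N v i j * sg N v j 0 =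
      Cst N v ^ 2 * (-1) ^ (i : ℕ) * v ^ ((i : ℕ) : ℤ) / (brf v i ^ 2) *
        ((-1) ^ j * sb v i j * v ^ (((i : ℕ) + 1) * j) * 1 ^ j) := by
    intro j hj
    rw [mem_range] at hj
    unfold sg
    rw [if_pos (by omega), if_pos (Nat.zero_le j), Nat.sub_zero]
    have n0 : brf v 0 = 1 := by simp [brf]
    have n1 := hne i i.2
    have n2 := hne j (by have := i.2; omega)
    have n3 := hne ((i : ℕ) - j) (by have := i.2; omega)
    have h4 := sb_closed h0 i j (by omega)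
    have h5 : sb v i j = brf v i / (brf v j * brf v ((i : ℕ) - j)) := by
      rw [← h4]; field_simp
    have h6 : v ^ (((j : ℤ) + 1) * ((i : ℕ) : ℤ)) * v ^ ((((0 : ℕ) : ℤ) + 1) * (j : ℤ)) =
        v ^ ((i : ℕ) : ℤ) * v ^ (((i : ℕ) + 1) * j) := by
      rw [← zpow_natCast v (((i : ℕ) + 1) * j), ← zpow_add₀ h0, ← zpow_add₀ h0]
      congr 1
      push_cast
      ring
    rw [h5, n0, one_pow]
    field_simp
    linear_combination (Cst N v ^ 2) * h6
  rw [h1, h2, sum_congr rfl h3, ← mul_sum, ← qbin h0 1 i, norm_mul, norm_qprod hv, norm_div, norm_mul,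
    norm_mul, norm_zp hv, norm_pow, norm_pow, norm_pow, norm_neg, norm_one, one_pow]
  have h7 : ‖Cst N v‖ = 1 := by
    unfold Cst
    rw [norm_mul, norm_zp hv, norm_pow, norm_neg, norm_one, one_pow, one_mul]
  have h8 : ‖brf v i‖ ≠ 0 := norm_ne_zero_iff.2 (hne i i.2)
  rw [h7]
  field_simp

lemma nq_cross {v : ℂ} (hv : Kr N v) : nq v (crossP N v) = N := by
  unfold nq
  have h1 : ∀ i : Fin N, WR N v i * ‖gam v (crossP N v) i‖ ^ 2 = 1 := by
    intro i
    have h8 : ‖brf v i‖ ≠ 0 := norm_ne_zero_iff.2 (brf_ne hv.adm i.2)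
    have n0 : brf v 0 = 1 := by simp [brf]
    rw [WR_root hv, gam_cross hv.adm, norm_sg hv, if_pos (Nat.zero_le _), Nat.sub_zero, n0, norm_one]
    field_simp
  rw [sum_congr rfl fun i _ => h1 i, sum_const, card_univ, Fintype.card_fin, nsmul_eq_mul, mul_one]

lemma nq_two {v : ℂ} (hv : Kr N v) :
    nq v (crossP N v * crossP N v) = ∑ i : Fin N, ‖brf v i‖ ^ 2 := by
  unfold nq
  refine sum_congr rfl fun i _ => ?_
  have h8 : ‖brf v i‖ ≠ 0 := norm_ne_zero_iff.2 (brf_ne hv.adm i.2)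
  rw [WR_root hv, norm_gam_two hv]
  field_simp

end Pool.Agent.Q191.RP
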