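import Pool.Agent.Q191.RP.Alg1

/-!
# The rotation of matrices in the commutant
-/

set_option autoImplicit false

namespace Pool.Agent.Q191.RP

open Matrix Finset
open scoped Kronecker
open Pool.Agent.H550R3.Jones (WM IsMod IsInt Gen br brf tens irr W crossP crossN Adm)
open Pool.Agent.Q191.FT (lam lam_sub lam_neg Cas Cas_E Cas_F)

variable {N : ℕ}

/-- the rotation by a quarter turn -/
noncomputable def rho (v : ℂ) (X : Matrix (I2 N) (I2 N) ℂ) : Matrix (I2 N) (I2 N) ℂ :=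
  fun p q => kap N v p.1 / kap N v q.2 * X (p.2, q.2.rev) (p.1.rev, q.1)

/-- the inverse rotation -/
noncomputable def rhi (v : ℂ) (X : Matrix (I2 N) (I2 N) ℂ) : Matrix (I2 N) (I2 N) ℂ :=
  fun p q => kap N v p.2.rev / kap N v q.1.rev * X (q.1.rev, p.1) (q.2, p.2.rev)

lemma rho_rhi {v : ℂ} (hv : Adm N v) (X : Matrix (I2 N) (I2 N) ℂ) : rho v (rhi v X) = X := by
  ext p q
  have h1 := kap_ne hv p.1.2
  have h2 := kap_ne hv q.2.2
  simp only [rho, rhi, Fin.rev_rev]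
  rw [← mul_assoc, div_mul_div_comm, mul_comm (kap N v p.1), div_self (mul_ne_zero h2 h1), one_mul]

lemma rhi_rho {v : ℂ} (hv : Adm N v) (X : Matrix (I2 N) (I2 N) ℂ) : rhi v (rho v X) = X := by
  ext p q
  have h1 := kap_ne hv p.2.rev.2
  have h2 := kap_ne hv q.1.rev.2
  simp only [rho, rhi, Fin.rev_rev]
  rw [← mul_assoc, div_mul_div_comm, mul_comm (kap N v p.2.rev), div_self (mul_ne_zero h2 h1),
    one_mul]

lemma sum_capv (v : ℂ) (G : I2 N → ℂ) :
    ∑ q : I2 N, capv N v q * G q = ∑ d : Fin N, (kap N v d)⁻¹ * G (d.rev, d) := by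
  rw [Fintype.sum_prod_type_right]
  refine sum_congr rfl fun d _ => ?_
  rw [sum_eq_single d.rev]
  · unfold capv
    rw [if_pos]
    simp only [Fin.val_rev]
    have := d.2
    omega
  · intro x _ hx
    unfold capv
    rw [if_neg, zero_mul]
    intro h
    apply hx
    apply Fin.ext
    simp only [Fin.val_rev]
    simp only [] at h
    omega
  · intro h; exact absurd (mem_univ _) h

lemma sum_cupv1 (v : ℂ) (a : Fin N) (G : Fin N → ℂ) :
    ∑ x : Fin N, cupv N v (a, x) * G x = kap N v a * G a.rev := by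
  rw [sum_eq_single a.rev]
  · unfold cupv
    rw [if_pos]
    simp only [Fin.val_rev]
    have := a.2
    omega
  · intro x _ hx
    unfold cupv
    rw [if_neg, zero_mul]
    intro h
    apply hx
    apply Fin.ext
    simp only [Fin.val_rev]
    simp only [] at h
    omega
  · intro h; exact absurd (mem_univ _) h

lemma sum_cupv2 (v : ℂ) (b : Fin N) (G : Fin N → ℂ) :
    ∑ x : Fin N, cupv N v (x, b) * G x = kap N v b.rev * G b.rev := by
  rw [sum_eq_single b.rev]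
  · unfold cupv
    rw [if_pos]
    simp only [Fin.val_rev]
    have := b.2
    omega
  · intro x _ hx
    unfold cupv
    rw [if_neg, zero_mul]
    intro h
    apply hx
    apply Fin.ext
    simp only [Fin.val_rev]
    simp only [] at h
    omega
  · intro h; exact absurd (mem_univ _) h

/-- the rotated operator -/
noncomputable def rotL (v : ℂ) (A : LF N →ₗ[ℂ] LF N) : LF N →ₗ[ℂ] LF N :=
  sh (sh (capL N v)) ∘ₗ sh A ∘ₗ cupL N v

/-- the inverse rotated operator -/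
noncomputable def torL (v : ℂ) (A : LF N →ₗ[ℂ] LF N) : LF N →ₗ[ℂ] LF N :=
  capL N v ∘ₗ sh A ∘ₗ sh (sh (cupL N v))

lemma Rp_rho_aux (v : ℂ) (X : Matrix (I2 N) (I2 N) ℂ) : Rp (rotL v (matL X)) (rho v X) := by
  intro f a b
  change ∑ q : I2 N, capv N v q * (∑ q' : I2 N, X (b, q.1) q' *
    (cupv N v (a, q'.1) * f [q'.2, q.2])) = _
  rw [sum_capv v (fun q => ∑ q' : I2 N, X (b, q.1) q' * (cupv N v (a, q'.1) * f [q'.2, q.2])),
    Fintype.sum_prod_type_right]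
  refine sum_congr rfl fun d _ => ?_
  simp only []
  rw [Fintype.sum_prod_type_right, mul_sum]
  refine sum_congr rfl fun c _ => ?_
  have h1 : ∑ x : Fin N, X (b, d.rev) (x, c) * (cupv N v (a, x) * f [c, d]) =
      ∑ x : Fin N, cupv N v (a, x) * (X (b, d.rev) (x, c) * f [c, d]) := by
    refine sum_congr rfl fun x _ => ?_
    ring
  rw [h1, sum_cupv1 v a (fun x => X (b, d.rev) (x, c) * f [c, d])]
  simp only [rho]
  ring

lemma Rp_rhi_aux (v : ℂ) (X : Matrix (I2 N) (I2 N) ℂ) : Rp (torL v (matL X)) (rhi v X) := by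
  intro f a b
  change ∑ q : I2 N, capv N v q * (∑ q' : I2 N, X (q.2, a) q' *
    (cupv N v (q'.2, b) * f [q.1, q'.1])) = _
  rw [sum_capv v (fun q => ∑ q' : I2 N, X (q.2, a) q' * (cupv N v (q'.2, b) * f [q.1, q'.1])),
    Fintype.sum_prod_type, ← Equiv.sum_comp Fin.revPerm]
  refine sum_congr rfl fun c _ => ?_
  simp only [Fin.revPerm_apply, Fin.rev_rev]
  rw [Fintype.sum_prod_type, mul_sum]
  refine sum_congr rfl fun d _ => ?_
  have h1 : ∑ x : Fin N, X (c.rev, a) (d, x) * (cupv N v (x, b) * f [c, d]) =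
      ∑ x : Fin N, cupv N v (x, b) * (X (c.rev, a) (d, x) * f [c, d]) := by
    refine sum_congr rfl fun x _ => ?_
    ring
  rw [h1, sum_cupv2 v b (fun x => X (c.rev, a) (d, x) * f [c, d])]
  simp only [rhi]
  ring

lemma Cm_rot {v : ℂ} (hv : Adm N v) {A : LF N →ₗ[ℂ] LF N} (hA : Cm v A) : Cm v (rotL v A) :=
  ((Cm_cap hv).sh.sh).comp (hA.sh.comp (Cm_cup hv))

lemma Cm_tor {v : ℂ} (hv : Adm N v) {A : LF N →ₗ[ℂ] LF N} (hA : Cm v A) : Cm v (torL v A) :=
  (Cm_cap hv).comp (hA.sh.comp ((Cm_cup hv).sh.sh))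

lemma InA_rho {v : ℂ} (hv : Adm N v) {X : Matrix (I2 N) (I2 N) ℂ} (hX : InA v X) :
    InA v (rho v X) :=
  InA_of hv.1 (Cm_rot hv (Cm_mat hv.1 hX)) (Rp_rho_aux v X)

lemma InA_rhi {v : ℂ} (hv : Adm N v) {X : Matrix (I2 N) (I2 N) ℂ} (hX : InA v X) :
    InA v (rhi v X) :=
  InA_of hv.1 (Cm_tor hv (Cm_mat hv.1 hX)) (Rp_rhi_aux v X)

lemma rho_smul (v : ℂ) (r : ℂ) (X : Matrix (I2 N) (I2 N) ℂ) : rho v (r • X) = r • rho v X := by
  ext p q
  simp only [rho, Matrix.smul_apply, smul_eq_mul]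
  ring

lemma rho_add (v : ℂ) (X Y : Matrix (I2 N) (I2 N) ℂ) : rho v (X + Y) = rho v X + rho v Y := by
  ext p q
  simp only [rho, Matrix.add_apply]
  ring

lemma rho_sub (v : ℂ) (X Y : Matrix (I2 N) (I2 N) ℂ) : rho v (X - Y) = rho v X - rho v Y := by
  ext p q
  simp only [rho, Matrix.sub_apply]
  ring

lemma rho_sum (v : ℂ) {ι : Type} (S : Finset ι) (X : ι → Matrix (I2 N) (I2 N) ℂ) :
    rho v (∑ i ∈ S, X i) = ∑ i ∈ S, rho v (X i) := by
  ext p q
  simp only [rho, Matrix.sum_apply, mul_sum]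

/-! ### conjugating the Casimir operator by the rotation -/

lemma tv_eq (Z : Matrix (I2 N) (I2 N) ℂ) {k : ℕ} (p q : I2 N) (h1 : (p.1 : ℕ) = k)
    (h2 : (p.2 : ℕ) = N - 1 - k) (h3 : (q.1 : ℕ) = 0) (h4 : (q.2 : ℕ) = N - 1) :
    tv Z k = Z p q := by
  have h5 := ht_of (col Z 0 (N - 1)) p
  rw [h1, h2] at h5
  rw [tv, h5]
  have h6 : ht (Z p) q.1 q.2 = Z p q := ht_of _ _
  rw [h3, h4] at h6
  exact h6

/-- the second column -/
lemma col_one {v : ℂ} {X : Matrix (I2 N) (I2 N) ℂ} (hX : InA v X) {k : ℕ} (hk : k + 1 < N)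
    (p q : I2 N) (h1 : (p.1 : ℕ) = k + 1) (h2 : (p.2 : ℕ) = N - 1 - k) (h3 : (q.1 : ℕ) = 1)
    (h4 : (q.2 : ℕ) = N - 1) : br v 1 * X p q =
      br v ((k : ℤ) + 1) * tv X k +
        v ^ (2 * (k : ℤ) + 3 - N) * (br v ((N : ℤ) - 1 - k) * tv X (k + 1)) := by
  have h5 := col_F hX.f (c := 0) (d := N - 1) (by omega) (by omega) p
  rw [col_out X (c := 0) (d := N - 1 + 1) (by omega)] at h5
  simp only [Nat.cast_zero, zero_add, Pi.zero_apply, mul_zero, add_zero] at h5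
  have h6 : col X 1 (N - 1) p = X p q := by
    have h7 : ht (X p) q.1 q.2 = X p q := ht_of _ _
    rw [h3, h4] at h7
    exact h7
  rw [h6] at h5
  rw [← h5, ← ht_of ((W v N).F *ᵥ col X 0 (N - 1)) p, h1, h2, W_F_vec v _ hk (by omega),
    Nat.add_sub_cancel, ht_tv (by omega), ht_tv (by omega)]
  push_cast
  have e1 : -((N : ℤ) - 1 - 2 * ((k : ℤ) + 1)) = 2 * (k : ℤ) + 3 - N := by ring
  have e2 : ((N - 1 - k : ℕ) : ℤ) = (N : ℤ) - 1 - k := by omega
  rw [e1, e2]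

/-- K3 -/
lemma tv_Y {v : ℂ} (hv : Adm N v) (hN : 2 ≤ N) {X : Matrix (I2 N) (I2 N) ℂ} (hX : InA v X) {k : ℕ}
    (hk : k < N) : tv (rhi v (xx N v * rho v X)) k =
      lam v (2 * k + 1) * tv X k - v ^ (2 * (k : ℤ) + 2) * br v ((N : ℤ) - 1 - k) ^ 2 * tv X (k + 1) := by
  have hv0 := hv.1
  obtain ⟨m, rfl⟩ : ∃ m, N = m + 2 := ⟨N - 2, by omega⟩
  -- the indices
  have hk' : k < m + 2 := hk
  set K : Fin (m + 2) := ⟨k, hk⟩ with hK
  set L : Fin (m + 2) := Fin.last (m + 1) with hL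
  have hLv : (L : ℕ) = m + 1 := rfl
  have hL0 : (L.rev : ℕ) = 0 := by rw [Fin.val_rev, hLv]; omega
  have hKr : (K.rev : ℕ) = m + 1 - k := by rw [Fin.val_rev]; simp only [hK]; omega
  rw [tv_eq (k := k) (rhi v (xx (m + 2) v * rho v X)) (K, K.rev) (L.rev, L) rfl
    (by change (K.rev : ℕ) = _; rw [hKr]; omega) hL0 (by change (L : ℕ) = _; rw [hLv]; omega)]
  simp only [rhi, Fin.rev_rev]
  -- the column of the rotated matrix
  have h1 : (xx (m + 2) v * rho v X) (L, K) (L, K) =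
      ht (xx (m + 2) v *ᵥ (fun p => rho v X p (L, K))) (m + 1) k := by
    have h2 := ht_of (xx (m + 2) v *ᵥ (fun p => rho v X p (L, K))) (L, K)
    simp only [hLv, hK] at h2
    rw [h2]
    rfl
  rw [h1]
  set z : I2 (m + 2) → ℂ := fun p => rho v X p (L, K) with hz
  have z1 : ht z (m + 1) k = kap (m + 2) v (m + 1) / kap (m + 2) v k * tv X k := by
    have h2 := ht_of z (L, K)
    simp only [hLv, hK] at h2
    rw [h2]
    simp only [hz, rho]
    rw [tv_eq (k := k) X (K, K.rev) (L.rev, L) rfl (by change (K.rev : ℕ) = _; rw [hKr]; omega) hL0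
      (by change (L : ℕ) = _; rw [hLv]; omega)]
    rfl
  have z2 : br v 1 * (br v (((m + 2 : ℕ) : ℤ) - 1 - k) * ht z m (k + 1)) =
      br v (((m + 2 : ℕ) : ℤ) - 1 - k) * (kap (m + 2) v m / kap (m + 2) v k * (br v ((k : ℤ) + 1) * tv X k +
        v ^ (2 * (k : ℤ) + 3 - ((m + 2 : ℕ) : ℤ)) * (br v (((m + 2 : ℕ) : ℤ) - 1 - k) * tv X (k + 1)))) := by
    by_cases hkm : k = m + 1
    · have h3 : ((m + 2 : ℕ) : ℤ) - 1 - k = 0 := by omega
      rw [h3, br_zero', zero_mul, zero_mul, mul_zero]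
    · have hk1 : k + 1 < m + 2 := by omega
      set K' : Fin (m + 2) := ⟨k + 1, hk1⟩ with hK'
      set L' : Fin (m + 2) := ⟨m, by omega⟩ with hL'
      have h2 := ht_of z (L', K')
      simp only [hL', hK'] at h2
      rw [h2]
      have h4 := col_one hX hk1 (K', K.rev) (L'.rev, L) rfl (by change (K.rev : ℕ) = _; rw [hKr]; omega)
        (by change (L'.rev : ℕ) = _; rw [Fin.val_rev]; simp only [hL']; omega)
        (by change (L : ℕ) = _; rw [hLv]; omega)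
      rw [← h4]
      simp only [hz, rho]
      ring
  unfold xx Cas
  rw [add_mulVec, ht_add, ← mulVec_mulVec, W_F_vec v _ (by omega) hk, Nat.add_sub_cancel,
    W_E_vec v _ (by omega) hk]
  have h3 : br v (k : ℤ) * ht ((W v (m + 2)).E *ᵥ z) (m + 1) (k - 1) =
      br v (k : ℤ) * (br v (((m + 2 : ℕ) : ℤ) - k) * ht z (m + 1) k) := by
    rcases Nat.eq_zero_or_pos k with h0 | h0
    · rw [h0]; push_cast; rw [br_zero', zero_mul, zero_mul]
    · rw [W_E_vec v _ (by omega) (by omega), ht_out z (a := m + 1 + 1) (by omega), mul_zero, zero_add]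
      have e1 : ((m + 2 : ℕ) : ℤ) - ((k - 1 : ℕ) : ℤ) - 1 = ((m + 2 : ℕ) : ℤ) - k := by omega
      have e2 : k - 1 + 1 = k := by omega
      rw [e1, e2]
  rw [h3]
  have h4 : ht ((diagonal fun i => lam v ((W v (m + 2)).wt i + 1)) *ᵥ z) (m + 1) k =
      lam v (1 - 2 * k) * ht z (m + 1) k := by
    rw [ht_in _ (by omega) hk, ht_in _ (by omega) hk, mulVec_diagonal, W_wt]
    congr 2
    push_cast
    ring
  rw [h4, z1]
  have hk1 := kap_ne hv (k := k) hk
  have hk2 := kap_ne hv (k := m + 1) (by omega)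
  have hk3 := kap_ne hv (k := m) (by omega)
  have hb1 := hv.2 1 (by omega) (by omega)
  have hbm := hv.2 (m + 1) (by omega) (by omega)
  have hks := kap_succ hv (k := m) (by omega)
  have hKv : ((K : Fin (m + 2)) : ℕ) = k := rfl
  rw [hLv, hKv]
  generalize ht z m (k + 1) = S at *
  generalize tv X k = T at *
  generalize tv X (k + 1) = T' at *
  have e1 : ((m + 2 : ℕ) : ℤ) - 1 - m = 1 := by push_cast; ring
  have e2 : ((m + 2 : ℕ) : ℤ) - m - 1 = 1 := by push_cast; ring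
  have e3 : ((m + 2 : ℕ) : ℤ) - 3 - 2 * m = -((m : ℤ) + 1) := by push_cast; ring
  have e4 : ((m + 2 : ℕ) : ℤ) - 1 - k = (m : ℤ) + 1 - k := by push_cast; ring
  have e5 : ((m + 2 : ℕ) : ℤ) - k - 1 = (m : ℤ) + 1 - k := by push_cast; ring
  have e6 : ((m + 2 : ℕ) : ℤ) - 1 - 2 * k = (m : ℤ) + 1 - 2 * k := by push_cast; ring
  have e7 : -(((m + 2 : ℕ) : ℤ) - 1 - 2 * ((m + 1 : ℕ) : ℤ)) = (m : ℤ) + 1 := by push_cast; ring
  have e8 : ((m + 2 : ℕ) : ℤ) - k = (m : ℤ) + 2 - k := by push_cast; ring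
  have e9 : 2 * (k : ℤ) + 3 - ((m + 2 : ℕ) : ℤ) = 2 * (k : ℤ) + 1 - m := by push_cast; ring
  rw [e1, e3] at hks
  rw [e4, e9] at z2
  rw [e2, e5, e6, e7, e8, e4]
  have h5 : kap (m + 2) v k / kap (m + 2) v (m + 1) * (br v ((m + 1 : ℕ) : ℤ) *
      (br v ((m : ℤ) + 1 - k) * S)) = -(v ^ ((m : ℤ) + 1) * (br v ((m : ℤ) + 1 - k) *
        (br v ((k : ℤ) + 1) * T + v ^ (2 * (k : ℤ) + 1 - m) * (br v ((m : ℤ) + 1 - k) * T')))) := by
    have hvm : v ^ ((m : ℤ) + 1) ≠ 0 := zpow_ne_zero _ hv0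
    rw [_root_.zpow_neg] at hks
    have hb1' : br v 1 ≠ 0 := by simpa using hb1
    have hM : br v ((m + 1 : ℕ) : ℤ) = br v ((m : ℤ) + 1) := by push_cast; rfl
    rw [hM] at *
    have hS : br v ((m : ℤ) + 1 - k) * S = br v ((m : ℤ) + 1 - k) *
        (kap (m + 2) v m / kap (m + 2) v k * (br v ((k : ℤ) + 1) * T + v ^ (2 * (k : ℤ) + 1 - m) *
          (br v ((m : ℤ) + 1 - k) * T'))) / br v 1 := by
      rw [← z2]; field_simp
    rw [hS]
    generalize (br v ((k : ℤ) + 1) * T + v ^ (2 * (k : ℤ) + 1 - m) *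
          (br v ((m : ℤ) + 1 - k) * T')) = Z
    generalize v ^ ((m : ℤ) + 1) = U at *
    generalize kap (m + 2) v m = A0 at *
    generalize kap (m + 2) v (m + 1) = A1 at *
    generalize kap (m + 2) v k = A2 at *
    generalize br v ((m : ℤ) + 1 - k) = B1 at *
    generalize br v ((m : ℤ) + 1) = B2 at *
    generalize br v 1 = B3 at *
    field_simp at hks ⊢
    linear_combination (Z * B1) * hks
  have h6 : br v ((m + 1 : ℕ) : ℤ) * (br v 1 * v ^ ((m : ℤ) + 1 - 2 * k)) +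
      v ^ ((m : ℤ) + 1) * (br v (k : ℤ) * br v ((m : ℤ) + 2 - k)) + lam v (1 - 2 * k) -
      v ^ ((m : ℤ) + 1) * (br v ((m : ℤ) + 1 - k) * br v ((k : ℤ) + 1)) = lam v (2 * k + 1) := by
    unfold br lam
    have f1 : ((m + 1 : ℕ) : ℤ) = (m : ℤ) + 1 := by push_cast; ring
    have f2 : (1 : ℤ) - 2 * k = 1 + (-(k : ℤ) + -(k : ℤ)) := by ring
    have f3 : (2 : ℤ) * k + 1 = 1 + ((k : ℤ) + k) := by ring
    have f4 : (m : ℤ) + 1 - 2 * k = m + (1 + (-(k : ℤ) + -(k : ℤ))) := by ring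
    have f5 : (m : ℤ) + 2 - k = m + (1 + (1 + -(k : ℤ))) := by ring
    have f6 : (m : ℤ) + 1 - k = m + (1 + -(k : ℤ)) := by ring
    rw [f1, f2, f3, f4, f5, f6]
    simp only [neg_add, neg_neg, zpow_add₀ hv0, _root_.zpow_neg, zpow_one]
    have g1 : v ^ (k : ℤ) ≠ 0 := zpow_ne_zero _ hv0
    have g2 : v ^ (m : ℤ) ≠ 0 := zpow_ne_zero _ hv0
    generalize v ^ (k : ℤ) = A at *
    generalize v ^ (m : ℤ) = B at *
    field_simp
    ring
  have h7 : v ^ ((m : ℤ) + 1) * v ^ (2 * (k : ℤ) + 1 - m) = v ^ (2 * (k : ℤ) + 2) := by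
    rw [← zpow_add₀ hv0]
    congr 1
    ring
  have h8 : kap (m + 2) v k / kap (m + 2) v (m + 1) * (kap (m + 2) v (m + 1) / kap (m + 2) v k) = 1 := by
    field_simp
  rw [← h7]
  linear_combination h5 + T * h6 + (br v ((m + 1 : ℕ) : ℤ) * (br v 1 * v ^ ((m : ℤ) + 1 - 2 * k)) +
      v ^ ((m : ℤ) + 1) * (br v (k : ℤ) * br v ((m : ℤ) + 2 - k)) + lam v (1 - 2 * k)) * T * h8

end Pool.Agent.Q191.RP
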