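import Pool.Agent.Q191.RP.Fin

/-!
# The tangle `C(2,1)`: a lower bound for its norm by an exponential sum
-/

set_option autoImplicit false

namespace Pool.Agent.Q191.RP

open Matrix Finset
open scoped Kronecker
open Pool.Agent.H550R3.Jones (WM IsMod IsInt Gen br brf tens irr W crossP crossN Adm)
open Pool.Agent.H927R2.J.SanYB (brf_ne)
open Pool.Agent.W715.VC (brf_succ' rt sb sb_zero sb_closed qbin sb_self br_rt sn)

variable {N : ℕ}

/-- triangular numbers -/
def tri (n : ℕ) : ℕ := ∑ j ∈ range n, (j + 1)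

lemma tri_succ (n : ℕ) : tri (n + 1) = tri n + (n + 1) := by
  unfold tri
  rw [sum_range_succ]

lemma tri_two (n : ℕ) : 2 * tri n = n * (n + 1) := by
  induction n with
  | zero => rfl
  | succ n ih => rw [tri_succ, mul_add, ih]; ring

lemma tri_add (m n : ℕ) : tri (m + n) = tri m + tri n + m * n := by
  have h1 := tri_two (m + n)
  have h2 := tri_two m
  have h3 := tri_two n
  have h4 : 2 * tri (m + n) = 2 * (tri m + tri n + m * n) := by
    calc 2 * tri (m + n) = m * (m + 1) + n * (n + 1) + 2 * (m * n) := by rw [h1]; ring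
      _ = 2 * tri m + 2 * tri n + 2 * (m * n) := by rw [h2, h3]
      _ = _ := by ring
  omega

lemma qprod_eq {v : ℂ} (hv : v ≠ 0) (n : ℕ) :
    ∏ j ∈ range n, (1 - (1 : ℂ) * v ^ (2 * (j + 1))) = (-1) ^ n * v ^ (tri n : ℤ) * brf v n := by
  induction n with
  | zero => simp [brf, tri]
  | succ n ih =>
    rw [prod_range_succ, ih, brf_succ', tri_succ, pow_succ]
    have h1 : (1 : ℂ) - 1 * v ^ (2 * (n + 1)) = -(v ^ ((n : ℤ) + 1) * br v ((n : ℤ) + 1)) := by
      unfold br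
      rw [mul_sub, ← zpow_add₀ hv, ← zpow_add₀ hv, add_neg_cancel, zpow_zero, one_mul,
        neg_sub, ← zpow_natCast]
      congr 2
      push_cast
      ring
    have h2 : v ^ ((tri n + (n + 1) : ℕ) : ℤ) = v ^ (tri n : ℤ) * v ^ ((n : ℤ) + 1) := by
      rw [← zpow_add₀ hv]; congr 1
    rw [h1, h2]
    ring

/-- the coordinates of two crossings -/
lemma gam_two {v : ℂ} (hv : Kr N v) (i : Fin N) :
    gam v (crossP N v * crossP N v) i =
      Cst N v ^ 2 * v ^ (((i : ℕ) : ℤ) + tri i) / brf v i := by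
  rw [gam_P hv.adm (InA_P hv.adm)]
  have hne : ∀ i : ℕ, i < N → brf v i ≠ 0 := fun i hi => brf_ne hv.adm hi
  have h0 := hv.adm.1
  have h1 : ∑ j : Fin N, sg N v i j * gam v (crossP N v) j =
      ∑ j ∈ range N, sg N v i j * sg N v j 0 := by
    rw [← Fin.sum_univ_eq_sum_range (fun j => sg N v i j * sg N v j 0) N]
    refine sum_congr rfl fun j _ => ?_
    rw [gam_cross hv.adm]
  have h2 : ∑ j ∈ range N, sg N v i j * sg N v j 0 =
      ∑ j ∈ range ((i : ℕ) + 1), sg N v i j * sg N v j 0 := by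
    symm
    apply sum_subset
    · intro j hj
      rw [mem_range] at *
      have := i.2
      omega
    · intro j _ hj
      rw [mem_range] at hj
      unfold sg
      rw [if_neg (by omega), zero_mul]
  have h3 : ∀ j ∈ range ((i : ℕ) + 1), sg N v i j * sg N v j 0 =
      Cst N v ^ 2 * (-1) ^ (i : ℕ) * v ^ ((i : ℕ) : ℤ) / (brf v i ^ 2) *
        ((-1) ^ j * sb v i j * v ^ (((i : ℕ) + 1) * j) * 1 ^ j) := by
    intro j hj
    rw [mem_range] at hj
    unfold sg
    rw [if_pos (by omega), if_pos (Nat.zero_le j), Nat.sub_zero]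
    have n0 : brf v 0 = 1 := by simp [brf]
    have n1 := hne i i.2
    have n2 := hne j (by have := i.2; omega)
    have n3 := hne ((i : ℕ) - j) (by have := i.2; omega)
    have h4 := sb_closed h0 i j (by omega)
    have h5 : sb v i j = brf v i / (brf v j * brf v ((i : ℕ) - j)) := by
      rw [← h4]; field_simp
    have h6 : v ^ (((j : ℤ) + 1) * ((i : ℕ) : ℤ)) * v ^ ((((0 : ℕ) : ℤ) + 1) * (j : ℤ)) =
        v ^ ((i : ℕ) : ℤ) * v ^ (((i : ℕ) + 1) * j) := by
      rw [← zpow_natCast v (((i : ℕ) + 1) * j), ← zpow_add₀ h0, ← zpow_add₀ h0]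
      congr 1
      push_cast
      ring
    rw [h5, n0, one_pow]
    field_simp
    linear_combination (Cst N v ^ 2) * h6
  have h8 := hne i i.2
  rw [h1, h2, sum_congr rfl h3, ← mul_sum, ← qbin h0 1 i, qprod_eq h0, zpow_add₀ h0]
  have h9 : ((-1 : ℂ) ^ (i : ℕ)) * (-1) ^ (i : ℕ) = 1 := by rw [← mul_pow]; norm_num
  field_simp
  linear_combination (Cst N v ^ 2) * h9

lemma gam_PP {v : ℂ} (hv : Adm N v) (i : Fin N) (j : Fin N) :
    gam v (PP N v i) j = if j = i then 1 else 0 := by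
  have h1 : ∑ j : Fin N, (if j = i then (1 : ℂ) else 0) • PP N v j = PP N v i := by
    rw [sum_eq_single i]
    · rw [if_pos rfl, one_smul]
    · intro j _ hj
      rw [if_neg hj, zero_smul]
    · intro h; exact absurd (mem_univ _) h
  rw [gam_of hv _ h1]

lemma nq_PP {v : ℂ} (hv : Adm N v) (i : Fin N) : nq v (PP N v i) = WR N v i := by
  unfold nq
  rw [sum_eq_single i]
  · rw [gam_PP hv, if_pos rfl, norm_one]; ring
  · intro j _ hj
    rw [gam_PP hv, if_neg hj, norm_zero]; ring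
  · intro h; exact absurd (mem_univ _) h

/-- the adjoint of the crossing -/
lemma hf_adj {v : ℂ} (hv : Good N v) (hN : 2 ≤ N) {X Y : Matrix (I2 N) (I2 N) ℂ}
    (hX : InA v X) (hY : InA v Y) :
    hf v (rho v X) (crossP N v * rho v Y) = hf v (crossN N v * X) Y := by
  have hA := hv.adm
  have hc := hv.cj
  have hrX := InA_rho hA hX
  have hrY := InA_rho hA hY
  have hsX := InA_stm hA hc hX
  have hNX := (InA_N hA).mul hX
  rw [← hf_eq hv hN hrX ((InA_P hA).mul hrY), ← hf_eq hv hN hNX hY, stm_rho hA hc,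
    BB_symm hA hN (InA_stm hA hc hNX) hY, stm_mul hA, stm_N hA hc]
  unfold BB
  rw [rho_rhi hA, InA_comm hA hsX (InA_P hA), mul_assoc, mul_assoc, InA_comm hA hsX hrY]

/-- the coordinates of the product of the negative crossing and an element of the Newton basis -/
lemma gam_NPP {v : ℂ} (hv : Adm N v) (hc : (starRingEnd ℂ) v = v⁻¹) (i j : Fin N) :
    gam v (crossN N v * PP N v i) j = (starRingEnd ℂ) (sg N v j i) := by
  have h1 : crossN N v * PP N v i = stm v (crossP N v * PP N v i) := by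
    rw [stm_mul hv, stm_P hv hc, stm_PP hv hc, PP_comm hv.1 (InA_N hv)]
  rw [h1, gam_stm hv hc ((InA_P hv).mul (InA_PP hv.1 i)), gam_P hv (InA_PP hv.1 i), sum_eq_single i]
  · rw [gam_PP hv, if_pos rfl, mul_one]
  · intro l _ hl
    rw [gam_PP hv, if_neg hl, mul_zero]
  · intro h; exact absurd (mem_univ _) h

lemma gam_NN {v : ℂ} (hv : Adm N v) (hc : (starRingEnd ℂ) v = v⁻¹) (j : Fin N) :
    gam v (crossN N v * crossN N v) j = (starRingEnd ℂ) (gam v (crossP N v * crossP N v) j) := by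
  have h1 : crossN N v * crossN N v = stm v (crossP N v * crossP N v) := by
    rw [stm_mul hv, stm_P hv hc]
  rw [h1, gam_stm hv hc ((InA_P hv).mul (InA_P hv))]

/-- the factorials at the first root -/
lemma brf_rt {m : ℕ} (hm : m < N) : brf (rt N) m = Complex.I ^ m * (‖brf (rt N) m‖ : ℝ) := by
  induction m with
  | zero => simp [brf]
  | succ m ih =>
    rw [brf_succ', ih (by omega), br_rt, norm_mul, norm_mul, norm_mul, norm_mul, norm_pow,
      Complex.norm_I, Complex.norm_real, Complex.norm_real]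
    have h1 : 0 ≤ sn N ((m : ℤ) + 1) := by
      unfold sn
      apply Real.sin_nonneg_of_nonneg_of_le_pi
      · push_cast; positivity
      · have hN : (0 : ℝ) < N := by exact_mod_cast (by omega : 0 < N)
        rw [div_le_iff₀ hN]
        apply mul_le_mul_of_nonneg_left _ Real.pi_pos.le
        push_cast
        exact_mod_cast hm.le
    rw [Real.norm_of_nonneg h1, norm_norm]
    have h2 : ‖(2 : ℂ)‖ = 2 := by simp
    rw [h2, pow_succ]
    push_cast
    ring

/-- the exponential sum -/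
noncomputable def Sx (N i : ℕ) : ℂ := ∑ n ∈ range (N - i),
  Complex.I ^ n * rt N ^ (-(tri n : ℤ)) * ((‖brf (rt N) (i + n)‖ ^ 2 / ‖brf (rt N) n‖ : ℝ) : ℂ)

lemma hf_six (hN : 2 ≤ N) (i : Fin N) :
    ‖hf (N := N) (rt N) (crossN N (rt N) * PP N (rt N) i) (crossN N (rt N) * crossN N (rt N))‖ =
      ‖brf (rt N) i‖ * ‖Sx N i‖ := by
  have hKr := Kr_rt (N := N) (by omega)
  have h0 := hKr.adm.1
  set v := rt N with hv
  set K : ℂ := Cst N v * (starRingEnd ℂ) (Cst N v) ^ 2 * (-1) ^ (i : ℕ) * Complex.I ^ (i : ℕ) *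
    (‖brf v i‖ : ℝ) * v ^ (((i : ℕ) : ℤ) ^ 2 - tri i) with hK
  have hCst : ‖Cst N v‖ = 1 := by
    unfold Cst
    rw [norm_mul, norm_zp hKr, norm_pow, norm_neg, norm_one, one_pow, one_mul]
  have hKn : ‖K‖ = ‖brf v i‖ := by
    rw [hK, norm_mul, norm_mul, norm_mul, norm_mul, norm_mul, norm_pow, norm_pow, norm_pow,
      RCLike.norm_conj, hCst, norm_neg, norm_one, Complex.norm_I, Complex.norm_real, norm_norm,
      norm_zp hKr]
    ring
  have h1 : hf (N := N) v (crossN N v * PP N v i) (crossN N v * crossN N v) =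
      ∑ j ∈ range N, (WR N v j : ℂ) * sg N v j i *
        (starRingEnd ℂ) (Cst N v ^ 2 * v ^ ((j : ℤ) + tri j) / brf v j) := by
    unfold hf
    rw [← Fin.sum_univ_eq_sum_range (fun j => (WR N v j : ℂ) * sg N v j i *
        (starRingEnd ℂ) (Cst N v ^ 2 * v ^ ((j : ℤ) + tri j) / brf v j)) N]
    refine sum_congr rfl fun j _ => ?_
    rw [gam_NPP hKr.adm hKr.cj, gam_NN hKr.adm hKr.cj, gam_two hKr, Complex.conj_conj]
  have h2 : ∑ j ∈ range N, (WR N v j : ℂ) * sg N v j i *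
        (starRingEnd ℂ) (Cst N v ^ 2 * v ^ ((j : ℤ) + tri j) / brf v j) = K * Sx N i := by
    have hNi : N = (i : ℕ) + (N - i) := by have := i.2; omega
    rw [show range N = range ((i : ℕ) + (N - i)) from by rw [← hNi], sum_range_add]
    have h3 : ∑ j ∈ range (i : ℕ), (WR N v j : ℂ) * sg N v j i *
        (starRingEnd ℂ) (Cst N v ^ 2 * v ^ ((j : ℤ) + tri j) / brf v j) = 0 := by
      apply sum_eq_zero
      intro j hj
      rw [mem_range] at hj
      unfold sg
      rw [if_neg (by omega)]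
      ring
    rw [h3, zero_add]
    unfold Sx
    rw [mul_sum]
    refine sum_congr rfl fun n hn => ?_
    rw [mem_range] at hn
    have hj : (i : ℕ) + n < N := by omega
    have hi : (i : ℕ) < N := i.2
    have hn' : n < N := by omega
    unfold sg
    rw [if_pos (by omega), Nat.add_sub_cancel_left, WR_root hKr, map_div₀, map_mul, map_pow,
      cj_zpow hKr.cj, cj_brf hKr.cj]
    have e1 := brf_rt hj
    have e2 := brf_rt hi
    have e3 := brf_rt hn'
    rw [← hv] at e1 e2 e3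
    have n1 : (‖brf v ((i : ℕ) + n)‖ : ℂ) ≠ 0 := by
      exact_mod_cast norm_ne_zero_iff.2 (brf_ne hKr.adm hj)
    have n3 : (‖brf v n‖ : ℂ) ≠ 0 := by
      exact_mod_cast norm_ne_zero_iff.2 (brf_ne hKr.adm hn')
    rw [hK]
    obtain ⟨aj, haj⟩ : ∃ a, a = ‖brf v ((i : ℕ) + n)‖ := ⟨_, rfl⟩
    obtain ⟨ai, hai⟩ : ∃ a, a = ‖brf v (i : ℕ)‖ := ⟨_, rfl⟩
    obtain ⟨an, han⟩ : ∃ a, a = ‖brf v n‖ := ⟨_, rfl⟩
    rw [← haj] at e1 n1 ⊢
    rw [← hai] at e2 ⊢
    rw [← han] at e3 n3 ⊢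
    rw [e1, e2, e3]
    have hI : Complex.I ≠ 0 := Complex.I_ne_zero
    have g1 : v ^ ((((i : ℕ) : ℤ) + 1) * (((i : ℕ) + n : ℕ) : ℤ)) *
        v ^ (-((((i : ℕ) + n : ℕ) : ℤ) + (tri ((i : ℕ) + n) : ℤ))) =
        v ^ (((i : ℕ) : ℤ) ^ 2 - tri i) * v ^ (-(tri n : ℤ)) := by
      rw [← zpow_add₀ h0, ← zpow_add₀ h0, tri_add]
      congr 1
      push_cast
      ring
    push_cast at g1 ⊢
    simp only [pow_add]
    have u2 : ((-1 : ℂ) ^ (i : ℕ)) * (-1) ^ (i : ℕ) = 1 := by rw [← mul_pow]; norm_num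
    have t2 : ((-1 : ℂ) ^ n) * (-1) ^ n = 1 := by rw [← mul_pow]; norm_num
    have D2 : Complex.I ^ (i : ℕ) * Complex.I ^ (i : ℕ) = (-1) ^ (i : ℕ) := by
      rw [← mul_pow, Complex.I_mul_I]
    have B2 : Complex.I ^ n * Complex.I ^ n = (-1) ^ n := by
      rw [← mul_pow, Complex.I_mul_I]
    have D0 : Complex.I ^ (i : ℕ) ≠ 0 := pow_ne_zero _ hI
    have B0 : Complex.I ^ n ≠ 0 := pow_ne_zero _ hI
    have u0 : ((-1 : ℂ) ^ (i : ℕ)) ≠ 0 := pow_ne_zero _ (by norm_num)
    have t0 : ((-1 : ℂ) ^ n) ≠ 0 := pow_ne_zero _ (by norm_num)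
    generalize Complex.I ^ (i : ℕ) = D at *
    generalize Complex.I ^ n = B at *
    generalize ((-1 : ℂ) ^ (i : ℕ)) = u at *
    generalize ((-1 : ℂ) ^ n) = t at *
    generalize v ^ ((((i : ℕ) : ℤ) + 1) * (((i : ℕ) : ℤ) + (n : ℤ))) = V1 at *
    generalize v ^ (-(((i : ℕ) : ℤ) + (n : ℤ) + (tri ((i : ℕ) + n) : ℤ))) = V2 at *
    generalize v ^ (((i : ℕ) : ℤ) ^ 2 - (tri (i : ℕ) : ℤ)) = V3 at *
    generalize v ^ (-(tri n : ℤ)) = V4 at *
    generalize (starRingEnd ℂ) (Cst N v) = c' at *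
    generalize Cst N v = c at *
    subst D2
    subst B2
    field_simp
    linear_combination (c * ai * c' ^ 2) * g1 - (c * ai * c' ^ 2 * V3 * V4) * (B ^ 4 * u2 + t2)
  rw [h1, h2, norm_mul, hKn]

lemma Is_NN : Is 2 2 [Pc.cross 0 false, Pc.cross 0 false] := Is_two false

/-- the lower bound of the norm of the tangle `C(2, 1)` -/
lemma nq_zig_one (hN : 2 ≤ N) {i : ℕ} (hi : i < N) : ‖Sx N i‖ ^ 2 ≤
    nq (N := N) (rt N) (MM N (rt N) (zig 1)) * ‖brf (rt N) i‖ ^ 2 := by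
  have hKr := Kr_rt (N := N) (by omega)
  have hA := hKr.adm
  set v := rt N with hv
  have hPP := InA_PP (N := N) hA.1 i
  have hNN := (InA_N hA).mul (InA_N hA)
  have h1 : MM N v (zig 1) = crossP N v * rho v (crossN N v * crossN N v) := by
    change MM N v (rot (zig 0) ++ [Pc.cross 0 (decide (0 % 2 = 0))]) = _
    rw [MM_append v (Is_rot (Is_zig 0)) (Is_cross _), MM_rot v (Is_zig 0), MM_cross]
    have h2 : MM N v (zig 0) = crossN N v * crossN N v := by
      unfold zig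
      rw [MM_two]; simp
    rw [h2]
    simp
  have h2 := hf_cs hKr.good (rho v (PP N v i)) (crossP N v * rho v (crossN N v * crossN N v))
  rw [hf_adj hKr.good hN hPP hNN, ← h1] at h2
  have h3 := hf_six hN ⟨i, hi⟩
  rw [← hv] at h3
  simp only [] at h3
  rw [h3] at h2
  have h4 : nq v (rho v (PP N v i)) = ‖brf v i‖ ^ 4 := by
    rw [nq_rho hKr.good hN hPP]
    have h5 := nq_PP hA ⟨i, hi⟩
    simp only [] at h5
    rw [h5, WR_root hKr]
  rw [h4] at h2
  have h5 : 0 < ‖brf v i‖ := norm_pos_iff.2 (brf_ne hA hi)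
  have h6 : ‖brf v i‖ ^ 2 * ‖Sx N i‖ ^ 2 ≤ ‖brf v i‖ ^ 2 * (nq v (MM N v (zig 1)) * ‖brf v i‖ ^ 2) := by
    calc ‖brf v i‖ ^ 2 * ‖Sx N i‖ ^ 2 = (‖brf v i‖ * ‖Sx N i‖) ^ 2 := by ring
      _ ≤ _ := h2
      _ = _ := by ring
  exact le_of_mul_le_mul_left h6 (by positivity)

end Pool.Agent.Q191.RP
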