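import Mathlib

/-!
# Sums with a Gaussian peak
-/

set_option autoImplicit false

namespace Pool.Agent.Q191.RP.Gs

open Finset Real

/-- lower bound from the ratios -/
lemma low_prod {u : ℕ → ℝ} {h : ℝ} {K : ℕ} (h0 : 0 ≤ h) (hu : 0 ≤ u 0)
    (hK : h * K * (K + 7) ≤ 1)
    (hr : ∀ k, k < K → u k * (1 - 2 * h * (k + 4)) ≤ u (k + 1)) :
    ∀ k, k ≤ K → u 0 * (1 - h * k * (k + 7)) ≤ u k := by
  intro k
  induction k with
  | zero => intro _; simp
  | succ k ih =>
    intro hk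
    have h1 := ih (by omega)
    have h2 := hr k (by omega)
    have hkK : (k : ℝ) + 1 ≤ K := by exact_mod_cast hk
    have hk0 : (0 : ℝ) ≤ k := Nat.cast_nonneg k
    have h3 : 2 * h * (k + 4) ≤ 1 ∨ K < 8 := by
      by_cases h8 : K < 8
      · right; exact h8
      · left
        have : (8 : ℝ) ≤ K := by exact_mod_cast (not_lt.1 h8)
        nlinarith [mul_nonneg h0 hk0, mul_nonneg h0 (by linarith : (0 : ℝ) ≤ (K : ℝ) - k - 1),
          mul_nonneg h0 (mul_nonneg (by linarith : (0 : ℝ) ≤ (K : ℝ) - 8) (by linarith : (0:ℝ) ≤ K))]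
    have h4 : 2 * h * (k + 4) ≤ 1 := by
      rcases h3 with h3 | h3
      · exact h3
      · have hK1 : (1 : ℝ) ≤ K := by linarith
        nlinarith [mul_nonneg h0 hk0, mul_nonneg h0 (by linarith : (0 : ℝ) ≤ (K : ℝ) - k - 1),
          mul_nonneg h0 (mul_nonneg (by linarith : (0 : ℝ) ≤ (K : ℝ) - 1) (by linarith : (0:ℝ) ≤ (K:ℝ)))]
    have h5 : u 0 * (1 - h * k * (k + 7)) * (1 - 2 * h * (k + 4)) ≤ u k * (1 - 2 * h * (k + 4)) :=
      mul_le_mul_of_nonneg_right h1 (by linarith)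
    refine le_trans ?_ (h5.trans h2)
    rw [mul_assoc (u 0) (1 - h * (k : ℝ) * (k + 7))]
    apply mul_le_mul_of_nonneg_left _ hu
    push_cast
    nlinarith [mul_nonneg (mul_nonneg h0 h0) (mul_nonneg (mul_nonneg hk0 (by linarith : (0 : ℝ) ≤ (k : ℝ) + 7))
      (by linarith : (0 : ℝ) ≤ (k : ℝ) + 4))]

/-- upper bound from the ratios -/
lemma up_prod {u : ℕ → ℝ} {h s : ℝ} {K : ℕ}
    (hr : ∀ k, k < K → u (k + 1) ≤ u k * exp (-(h * (k - s)))) :
    ∀ k, k ≤ K → u k ≤ u 0 * exp (-(h * (k * (k - 1) / 2 - s * k))) := by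
  intro k
  induction k with
  | zero => intro _; simp
  | succ k ih =>
    intro hk
    have h1 := ih (by omega)
    have h2 := hr k (by omega)
    refine h2.trans ((mul_le_mul_of_nonneg_right h1 (exp_pos _).le).trans (le_of_eq ?_))
    rw [mul_assoc, ← exp_add]
    congr 2
    push_cast
    ring

/-- geometric tails -/
lemma tail {u : ℕ → ℝ} {ρ : ℝ} (h0 : 0 ≤ ρ) (h1 : ρ < 1) {K M : ℕ} (hu : 0 ≤ u K)
    (hr : ∀ k, K ≤ k → k + 1 < M → u (k + 1) ≤ u k * ρ) :
    ∑ k ∈ Ico K M, u k ≤ u K / (1 - ρ) := by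
  have h2 : ∀ j, K + j < M → u (K + j) ≤ u K * ρ ^ j := by
    intro j
    induction j with
    | zero => intro _; simp
    | succ j ih =>
      intro hj
      have h3 := ih (by omega)
      have h4 := hr (K + j) (by omega) hj
      refine h4.trans ?_
      rw [pow_succ, ← mul_assoc]
      exact mul_le_mul_of_nonneg_right h3 h0
  rw [sum_Ico_eq_sum_range]
  calc ∑ j ∈ range (M - K), u (K + j) ≤ ∑ j ∈ range (M - K), u K * ρ ^ j := by
        refine sum_le_sum fun j hj => ?_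
        rw [mem_range] at hj
        exact h2 j (by omega)
    _ = u K * ∑ j ∈ range (M - K), ρ ^ j := by rw [mul_sum]
    _ ≤ u K * (1 - ρ)⁻¹ := by
        apply mul_le_mul_of_nonneg_left _ hu
        rw [← tsum_geometric_of_lt_one h0 h1]
        exact (summable_geometric_of_lt_one h0 h1).sum_le_tsum _ (fun i _ => pow_nonneg h0 i)
    _ = u K / (1 - ρ) := by rw [div_eq_mul_inv]

/-- one side of the peak -/
lemma side {u c : ℕ → ℝ} {h : ℝ} {D N M : ℕ} (hN : h = π / N) (hD : 10000 ≤ D) (hDN : D * D ≤ N)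
    (hND : N < (D + 1) * (D + 1)) (hu : ∀ k, 0 ≤ u k) (hM : D + D / 5 < M)
    (hlow : ∀ k, k < D / 3 → u k * (1 - 2 * h * (k + 4)) ≤ u (k + 1))
    (hup : ∀ k, k < D + D / 5 → u (k + 1) ≤ u k * exp (-(h * (k - 20))))
    (htail : ∀ k, D + D / 5 ≤ k → k + 1 < M → u (k + 1) ≤ u k * exp (-(h * ((D + D / 5 : ℕ) - 20))))
    (hc1 : ∀ k, |c k| ≤ 1) (hc2 : ∀ k, k < D / 3 → 7 / 10 ≤ c k) (hc3 : ∀ k, k < D + D / 5 → 0 ≤ c k) :
    u 0 ≤ ∑ k ∈ range M, u k * c k := by
  have hpi := pi_gt_three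
  have hpi2 := pi_lt_d2
  have hD' : (10000 : ℝ) ≤ D := by exact_mod_cast hD
  have hDN' : (D : ℝ) * D ≤ N := by exact_mod_cast hDN
  have hND' : (N : ℝ) < (D + 1) * (D + 1) := by exact_mod_cast hND
  have hN0 : (0 : ℝ) < N := by nlinarith
  have hh0 : 0 < h := by rw [hN]; positivity
  have hhN : h * N = π := by rw [hN]; field_simp
  set K := D / 3 with hK
  set L := D + D / 5 with hL
  have hK1 : (K : ℝ) ≤ D / 3 := by rw [hK]; exact Nat.cast_div_le
  have hK2 : (D : ℝ) / 3 - 1 ≤ K := by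
    have : D ≤ 3 * K + 2 := by omega
    have : (D : ℝ) ≤ 3 * K + 2 := by exact_mod_cast this
    linarith
  have hL1 : (L : ℝ) ≤ 6 / 5 * D := by
    have : 5 * L ≤ 6 * D := by omega
    have : (5 : ℝ) * L ≤ 6 * D := by exact_mod_cast this
    linarith
  have hL2 : 6 / 5 * (D : ℝ) - 1 ≤ L := by
    have : 6 * D ≤ 5 * L + 4 := by omega
    have : (6 : ℝ) * D ≤ 5 * L + 4 := by exact_mod_cast this
    linarith
  have hK0 : (0 : ℝ) ≤ K := Nat.cast_nonneg K
  -- the value of `h D²`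
  have hhD : h * (D * D) ≤ 315 / 100 := by nlinarith
  have hhD2 : 3 * (D * D) ≤ h * (D * D) * ((D + 1) * (D + 1)) := by
    have h1 : 3 ≤ h * ((D + 1) * (D + 1)) := by nlinarith
    nlinarith [mul_nonneg (by linarith : (0 : ℝ) ≤ D) (by linarith : (0 : ℝ) ≤ (D : ℝ))]
  have hhD1 : h * D ≤ 1 / 1000 := by nlinarith
  -- center
  have hKK : h * K * (K + 7) ≤ 36 / 100 := by
    have h1 : K * (K + 7) ≤ (D : ℝ) / 3 * (D / 3 + 7) := by nlinarith
    have h2 : h * (K * (K + 7)) ≤ h * ((D : ℝ) / 3 * (D / 3 + 7)) :=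
      mul_le_mul_of_nonneg_left h1 hh0.le
    nlinarith
  have hcen := low_prod hh0.le (hu 0) (by linarith) hlow
  have hcen2 : ∀ k, k < K → u 0 * (64 / 100) ≤ u k := by
    intro k hk
    refine le_trans ?_ (hcen k (by omega))
    apply mul_le_mul_of_nonneg_left _ (hu 0)
    have hk' : (k : ℝ) ≤ K := by exact_mod_cast hk.le
    have hk0 : (0 : ℝ) ≤ k := Nat.cast_nonneg k
    have h1 : (k : ℝ) * (k + 7) ≤ K * (K + 7) := by nlinarith
    have h2 : h * ((k : ℝ) * (k + 7)) ≤ h * (K * (K + 7)) := mul_le_mul_of_nonneg_left h1 hh0.le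
    nlinarith
  -- the value at the end of the middle
  have hend := up_prod (s := 20) hup L (le_refl _)
  have hend2 : u L ≤ u 0 * (14 / 100) := by
    refine hend.trans (mul_le_mul_of_nonneg_left ?_ (hu 0))
    have h1 : 2 ≤ h * (L * (L - 1) / 2 - 20 * L) := by
      have h2 : 7 / 10 * (((D : ℝ) + 1) * (D + 1)) ≤ L * (L - 1) / 2 - 20 * L := by
        have h3 : (0 : ℝ) ≤ (L : ℝ) - (6 / 5 * (D : ℝ) - 1) := by linarith
        nlinarith
      have h3 : h * (7 / 10 * (((D : ℝ) + 1) * (D + 1))) ≤ h * (L * (L - 1) / 2 - 20 * L) :=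
        mul_le_mul_of_nonneg_left h2 hh0.le
      have h4 : π ≤ h * (((D : ℝ) + 1) * (D + 1)) := by
        rw [← hhN]
        exact mul_le_mul_of_nonneg_left hND'.le hh0.le
      nlinarith
    calc exp (-(h * (L * (L - 1) / 2 - 20 * L))) ≤ exp (-2) := by
          rw [exp_le_exp]; linarith
      _ = exp (-1) * exp (-1) := by rw [← exp_add]; norm_num
      _ ≤ 14 / 100 := by
          have := exp_neg_one_lt_d9
          have h5 := exp_pos (-1)
          nlinarith
  -- the tail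
  set ρ := exp (-(h * ((L : ℝ) - 20))) with hρ
  have hρ0 : 0 ≤ ρ := (exp_pos _).le
  set x := h * ((L : ℝ) - 20) with hx
  have hx1 : x ≤ 1 / 100 := by rw [hx]; nlinarith
  have hx2 : 3 / (D : ℝ) ≤ x := by
    rw [hx, div_le_iff₀ (by linarith)]
    have h1 : h * (((D : ℝ) + 1) * (D + 1)) ≤ h * (((L : ℝ) - 20) * D) := by
      apply mul_le_mul_of_nonneg_left _ hh0.le
      nlinarith
    have h4 : π ≤ h * (((D : ℝ) + 1) * (D + 1)) := by
      rw [← hhN]
      exact mul_le_mul_of_nonneg_left hND'.le hh0.le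
    nlinarith
  have hx0 : 0 < x := lt_of_lt_of_le (by positivity) hx2
  have hρ1 : 1 - ρ ≥ 9 / 10 * x := by
    have h1 : ρ ≤ 1 / (1 + x) := by
      rw [hρ, exp_neg, one_div]
      apply inv_anti₀ (by linarith)
      have := add_one_le_exp x
      linarith
    have h2 : 1 / (1 + x) ≤ 1 - 9 / 10 * x := by
      rw [div_le_iff₀ (by linarith)]
      nlinarith
    linarith
  have htl := tail (u := u) hρ0 (by nlinarith : ρ < 1) (K := L) (M := M) (hu L) htail
  have htl2 : ∑ k ∈ Ico L M, u k ≤ u 0 * (6 / 100 * D) := by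
    refine htl.trans ?_
    rw [div_le_iff₀ (by nlinarith)]
    have h1 : 27 / 10 / (D : ℝ) ≤ 1 - ρ := by
      have : 9 / 10 * (3 / (D : ℝ)) = 27 / 10 / D := by ring
      nlinarith
    have h2 : 6 / 100 * D * (27 / 10 / (D : ℝ)) ≤ 6 / 100 * D * (1 - ρ) :=
      mul_le_mul_of_nonneg_left h1 (by linarith)
    have h3 : 6 / 100 * D * (27 / 10 / (D : ℝ)) = 162 / 1000 := by
      field_simp; norm_num
    rw [mul_assoc (u 0)]
    nlinarith [hu 0]
  -- total
  have hsplit : ∑ k ∈ range M, u k * c k = ∑ k ∈ range L, u k * c k + ∑ k ∈ Ico L M, u k * c k := by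
    rw [range_eq_Ico, range_eq_Ico, sum_Ico_consecutive _ (Nat.zero_le L) hM.le]
  have hmid : u 0 * (64 / 100) * (7 / 10) * K ≤ ∑ k ∈ range L, u k * c k := by
    have h1 : ∑ k ∈ range K, u k * c k ≤ ∑ k ∈ range L, u k * c k := by
      apply sum_le_sum_of_subset_of_nonneg
      · intro k hk; rw [mem_range] at *; omega
      · intro k hk _
        rw [mem_range] at hk
        exact mul_nonneg (hu k) (hc3 k hk)
    refine le_trans ?_ h1
    calc u 0 * (64 / 100) * (7 / 10) * K = ∑ _k ∈ range K, u 0 * (64 / 100) * (7 / 10) := by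
          rw [sum_const, card_range, nsmul_eq_mul]; ring
      _ ≤ _ := by
          refine sum_le_sum fun k hk => ?_
          rw [mem_range] at hk
          exact mul_le_mul (hcen2 k hk) (hc2 k hk) (by norm_num) (hu k)
  have htc : -(∑ k ∈ Ico L M, u k) ≤ ∑ k ∈ Ico L M, u k * c k := by
    rw [← sum_neg_distrib]
    refine sum_le_sum fun k _ => ?_
    have := (abs_le.1 (hc1 k)).1
    nlinarith [hu k]
  rw [hsplit]
  have h9 : u 0 * (64 / 100) * (7 / 10) * K ≥ u 0 * (14 / 100 * D) := by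
    have : (14 : ℝ) / 100 * D ≤ 64 / 100 * (7 / 10) * K := by nlinarith
    nlinarith [mul_le_mul_of_nonneg_left this (hu 0)]
  have h10 : u 0 * (14 / 100 * D) - u 0 * (6 / 100 * D) = u 0 * (8 / 100 * D) := by ring
  have h11 : u 0 * 1 ≤ u 0 * (8 / 100 * D) := mul_le_mul_of_nonneg_left (by linarith) (hu 0)
  linarith

end Pool.Agent.Q191.RP.Gs
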