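import Mathlib

/-!
# The ratios of the terms near and away from the peak
-/

set_option autoImplicit false

namespace Pool.Agent.Q191.RP.Gs

open Finset Real

lemma cos_sub_sin {w : ℝ} (h0 : 0 ≤ w) (h1 : w ≤ π / 4) : cos w - sin w ≤ 1 - w := by
  rcases h0.eq_or_lt with h | h
  · rw [← h]; simp
  · have hpi := pi_gt_three
    have hpi2 := pi_lt_d2
    have h2 := cos_le_one_sub_mul_cos_sq (x := w) (by rw [abs_of_nonneg h0]; linarith)
    have h3 := sin_gt_sub_cube h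
    have h33 := pow_pos h 3
    have h4 : w ^ 3 / 4 ≤ 2 / π ^ 2 * w ^ 2 := by
      have h5 : w ≤ 8 / π ^ 2 := by
        rw [le_div_iff₀ (by positivity)]
        have h6 : π ^ 2 ≤ 3.15 ^ 2 := by gcongr
        have h7 : w ≤ 3.15 / 4 := by linarith
        nlinarith
      have h8 : w ^ 3 / 4 = w / 4 * w ^ 2 := by ring
      rw [h8]
      apply mul_le_mul_of_nonneg_right _ (by positivity)
      have h9 : 2 / π ^ 2 = 8 / π ^ 2 / 4 := by ring
      rw [h9]
      linarith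
    linarith

lemma sin_le_cos {w : ℝ} (h0 : 0 ≤ w) (h1 : w ≤ π / 4) : sin w ≤ cos w := by
  have hpi := pi_pos
  have h2 : sin w ≤ sin (π / 4) := sin_le_sin_of_le_of_le_pi_div_two (by linarith) (by linarith) h1
  have h3 : cos (π / 4) ≤ cos w := cos_le_cos_of_nonneg_of_le_pi h0 (by linarith) h1
  rw [sin_pi_div_four] at h2
  rw [cos_pi_div_four] at h3
  linarith

lemma inv_exp {x : ℝ} (h0 : 0 ≤ x) (h1 : x ≤ 1 / 2) : 1 / (1 - x) ≤ exp (2 * x) := by
  rw [div_le_iff₀ (by linarith)]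
  have h2 := add_one_le_exp (2 * x)
  nlinarith

/-- ratios on the right, upper bound -/
lemma right_up {h δ e : ℝ} {k : ℕ} (hh0 : 0 < h) (hh : h ≤ 1 / 100) (hδ0 : 0 ≤ δ) (hδ : δ ≤ h)
    (he1 : h * (k + 1 / 2) ≤ e) (he2 : e ≤ h * (k + 1)) (hw : e - δ ≤ π / 4) :
    (1 - sin (2 * (e - δ))) / cos e ≤ exp (-(h * (k - 20))) := by
  have hk0 : (0 : ℝ) ≤ k := Nat.cast_nonneg k
  have hpi := pi_gt_three
  rcases le_or_gt (e - δ) 0 with hw0 | hw0
  · -- `k = 0`
    have hk : k = 0 := by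
      by_contra hk
      have h1 : (1 : ℝ) ≤ k := by exact_mod_cast Nat.one_le_iff_ne_zero.2 hk
      nlinarith
    subst hk
    push_cast at *
    have he3 : e ≤ h := by linarith
    have he0 : 0 ≤ e := by nlinarith
    have hce : 1 - e ^ 2 / 2 ≤ cos e := one_sub_sq_div_two_le_cos
    have hce2 : 1 - h / 2 ≤ cos e := by nlinarith
    have hs : sin (2 * (e - δ)) ≥ -(2 * h) := by
      have h1 := abs_sin_le_abs (x := 2 * (e - δ))
      have h2 : |2 * (e - δ)| ≤ 2 * h := by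
        rw [abs_le]; constructor <;> nlinarith
      linarith [neg_abs_le (sin (2 * (e - δ)))]
    rw [div_le_iff₀ (by linarith)]
    have h3 := add_one_le_exp (-(h * (0 - 20)))
    nlinarith
  · have hcw : 0 < cos (e - δ) := cos_pos_of_mem_Ioo ⟨by linarith, by linarith⟩
    have hsw : 0 ≤ sin (e - δ) := sin_nonneg_of_nonneg_of_le_pi hw0.le (by linarith)
    have h1 := cos_sub_sin hw0.le hw
    have h2 := sin_le_cos hw0.le hw
    have h3 : 1 - sin (2 * (e - δ)) = (cos (e - δ) - sin (e - δ)) ^ 2 := by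
      rw [sin_two_mul]
      have := sin_sq_add_cos_sq (e - δ)
      linear_combination -this
    have h4 : (cos (e - δ) - sin (e - δ)) ^ 2 ≤ (1 - (e - δ)) * cos (e - δ) := by
      rw [sq]
      apply mul_le_mul h1 (by linarith) (by linarith)
      linarith
    have h5 : cos (e - δ) * (1 - 2 * δ) ≤ cos e := by
      have h6 : e = (e - δ) + δ := by ring
      conv_rhs => rw [h6, cos_add]
      have h7 : 1 - δ ^ 2 / 2 ≤ cos δ := one_sub_sq_div_two_le_cos
      have h8 : sin δ ≤ δ := sin_le hδ0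
      have h9 : 0 ≤ sin δ := sin_nonneg_of_nonneg_of_le_pi hδ0 (by linarith)
      have h10 : sin (e - δ) * sin δ ≤ cos (e - δ) * δ := mul_le_mul h2 h8 h9 hcw.le
      have h11 : cos (e - δ) * (1 - δ) ≤ cos (e - δ) * cos δ := by
        apply mul_le_mul_of_nonneg_left _ hcw.le
        nlinarith
      nlinarith
    have hd : 0 < 1 - 2 * δ := by linarith
    have hce : 0 < cos e := lt_of_lt_of_le (mul_pos hcw hd) h5
    rw [h3]
    have hw1 : 0 ≤ 1 - (e - δ) := by linarith [pi_lt_d2]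
    calc (cos (e - δ) - sin (e - δ)) ^ 2 / cos e ≤ (1 - (e - δ)) * cos (e - δ) /
          (cos (e - δ) * (1 - 2 * δ)) := by
          apply div_le_div₀ (by positivity) h4 (by positivity) h5
      _ = (1 - (e - δ)) * (1 / (1 - 2 * δ)) := by field_simp
      _ ≤ exp (-(e - δ)) * exp (2 * (2 * δ)) := by
          apply mul_le_mul _ (inv_exp (by linarith) (by linarith)) (by positivity) (exp_pos _).le
          have := add_one_le_exp (-(e - δ))
          linarith
      _ = exp (-(e - δ) + 2 * (2 * δ)) := by rw [exp_add]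
      _ ≤ exp (-(h * (k - 20))) := by
          rw [exp_le_exp]
          nlinarith

/-- ratios on the right, lower bound -/
lemma right_low {h δ e : ℝ} {k : ℕ} (hδ0 : 0 ≤ δ) (hδ : δ ≤ h)
    (he0 : 0 ≤ e) (he2 : e ≤ h * (k + 1)) (hce : 0 < cos e) :
    1 - 2 * h * (k + 4) ≤ (1 - sin (2 * (e - δ))) / cos e := by
  have hk0 : (0 : ℝ) ≤ k := Nat.cast_nonneg k
  have hh : 0 ≤ h := by linarith
  have h1 : |2 * (e - δ)| ≤ 2 * h * (k + 4) := by
    rw [abs_le]; constructor <;> nlinarith [mul_nonneg hh hk0]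
  have h2 := abs_sin_le_abs (x := 2 * (e - δ))
  have h3 := le_abs_self (sin (2 * (e - δ)))
  have h4 : (0 : ℝ) ≤ 1 - sin (2 * (e - δ)) := by linarith [sin_le_one (2 * (e - δ))]
  have h5 : 1 - sin (2 * (e - δ)) ≤ (1 - sin (2 * (e - δ))) / cos e := by
    rw [le_div_iff₀ hce]
    nlinarith [cos_le_one e]
  linarith

/-- the basic bound on the left -/
lemma left_aux {h δ z : ℝ} (hh : h ≤ 1 / 100) (hδ0 : 0 ≤ δ) (hδ : δ ≤ h) (hz0 : 0 ≤ z)
    (hz : z < π / 2) : cos z / (1 + sin (2 * z + 2 * δ)) ≤ exp (-(z / (1 + z)) + 6 * δ) := by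
  have hpi := pi_gt_three
  have hpi2 := pi_lt_d2
  have hcz : 0 < cos z := cos_pos_of_mem_Ioo ⟨by linarith, hz⟩
  have hs2 : 0 ≤ sin (2 * z) := sin_nonneg_of_nonneg_of_le_pi (by linarith) (by linarith)
  have h1 : (1 + z) * cos z ≤ 1 + sin (2 * z) := by
    have h2 := mul_le_sin hz0 hz.le
    have h3 : z ≤ 2 * sin z := by
      have h4 : 2 / π * z * 2 ≤ 2 * sin z := by linarith
      have h5 : z ≤ 2 / π * z * 2 := by
        have h6 : 1 ≤ 2 / π * 2 := by rw [div_mul_eq_mul_div, le_div_iff₀ (by linarith)]; linarith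
        nlinarith
      linarith
    rw [sin_two_mul]
    nlinarith [cos_le_one z]
  have h2 : 1 + sin (2 * z) - 3 * δ ≤ 1 + sin (2 * z + 2 * δ) := by
    rw [sin_add]
    have h3 : 1 - (2 * δ) ^ 2 / 2 ≤ cos (2 * δ) := one_sub_sq_div_two_le_cos
    have h4 : sin (2 * δ) ≤ 2 * δ := sin_le (by linarith)
    have h5 : 0 ≤ sin (2 * δ) := sin_nonneg_of_nonneg_of_le_pi (by linarith) (by linarith)
    have h6 : -1 ≤ cos (2 * z) := neg_one_le_cos _
    have h7 : -(2 * δ) ≤ cos (2 * z) * sin (2 * δ) := by nlinarith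
    have h8 : sin (2 * z) * (1 - δ) ≤ sin (2 * z) * cos (2 * δ) := by
      apply mul_le_mul_of_nonneg_left _ hs2
      nlinarith
    nlinarith [sin_le_one (2 * z)]
  have h3 : (1 + sin (2 * z)) * (1 - 3 * δ) ≤ 1 + sin (2 * z) - 3 * δ := by nlinarith
  have hd : 0 < 1 - 3 * δ := by linarith
  have h4 : (1 + z) * cos z * (1 - 3 * δ) ≤ 1 + sin (2 * z + 2 * δ) := by
    refine le_trans ?_ (h3.trans h2)
    exact mul_le_mul_of_nonneg_right h1 hd.le
  have h5 : 0 < (1 + z) * cos z * (1 - 3 * δ) := by positivity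
  calc cos z / (1 + sin (2 * z + 2 * δ)) ≤ cos z / ((1 + z) * cos z * (1 - 3 * δ)) :=
        div_le_div_of_nonneg_left hcz.le h5 h4
    _ = (1 - z / (1 + z)) * (1 / (1 - 3 * δ)) := by field_simp; ring
    _ ≤ exp (-(z / (1 + z))) * exp (2 * (3 * δ)) := by
        apply mul_le_mul _ (inv_exp (by linarith) (by linarith)) (by positivity) (exp_pos _).le
        have := add_one_le_exp (-(z / (1 + z)))
        linarith
    _ = exp (-(z / (1 + z)) + 6 * δ) := by rw [← exp_add]; congr 1; ring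

/-- ratios on the left, upper bound -/
lemma left_up {h δ z z₁ : ℝ} {k : ℝ} (hh : h ≤ 1 / 100) (hδ0 : 0 ≤ δ) (hδ : δ ≤ h)
    (hz1 : 0 ≤ z₁) (hzz : z₁ ≤ z) (hz : z < π / 2) (hk : h * (k + 1) ≤ z₁) (hsq : z₁ ^ 2 ≤ 15 * h) :
    cos z / (1 + sin (2 * z + 2 * δ)) ≤ exp (-(h * (k - 20))) := by
  refine (left_aux hh hδ0 hδ (hz1.trans hzz) hz).trans ?_
  rw [exp_le_exp]
  have h1 : z₁ / (1 + z₁) ≤ z / (1 + z) := by
    rw [div_le_div_iff₀ (by linarith) (by linarith)]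
    nlinarith
  have h2 : z₁ - z₁ ^ 2 ≤ z₁ / (1 + z₁) := by
    rw [le_div_iff₀ (by linarith)]
    nlinarith [pow_nonneg hz1 3]
  nlinarith

/-- ratios on the left, lower bound -/
lemma left_low {h δ z : ℝ} {k : ℕ} (hδ0 : 0 ≤ δ) (hδ : δ ≤ h) (hz0 : 0 ≤ z)
    (hz : z ≤ h * (k + 3 / 2)) (hz2 : z ^ 2 ≤ h) (hz3 : z ≤ 1) (hδ3 : δ ≤ 1 / 2) :
    1 - 2 * h * (k + 4) ≤ cos z / (1 + sin (2 * z + 2 * δ)) := by
  have hpi := pi_gt_three
  have hs0 : 0 ≤ sin (2 * z + 2 * δ) := sin_nonneg_of_nonneg_of_le_pi (by linarith) (by linarith)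
  have hs1 : sin (2 * z + 2 * δ) ≤ 2 * z + 2 * δ := sin_le (by linarith)
  have hs2 := sin_le_one (2 * z + 2 * δ)
  have hc : 1 - z ^ 2 / 2 ≤ cos z := one_sub_sq_div_two_le_cos
  rw [le_div_iff₀ (by linarith)]
  have hh : 0 ≤ h := by linarith
  have hk0 : (0 : ℝ) ≤ k := Nat.cast_nonneg k
  have h1 : (1 - 2 * h * (k + 4)) * (1 + sin (2 * z + 2 * δ)) ≤
      1 + sin (2 * z + 2 * δ) - 2 * h * (k + 4) := by
    nlinarith [mul_nonneg (mul_nonneg hh (by linarith : (0 : ℝ) ≤ (k : ℝ) + 4)) hs0]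
  nlinarith

end Pool.Agent.Q191.RP.Gs
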