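import Pool.Agent.Q191.RP.SixA
import Pool.Agent.Q191.RP.SixB
import Pool.Agent.Q191.RP.SixC

/-!
# The lower bound of the exponential sum
-/

set_option autoImplicit false

namespace Pool.Agent.Q191.RP

open Matrix Finset Filter Topology
open scoped Kronecker Real
open Pool.Agent.H550R3.Jones (WM IsMod IsInt Gen br brf tens irr W crossP crossN Adm)
open Pool.Agent.H927R2.J.SanYB (brf_ne)
open Pool.Agent.W715.VC (brf_succ' rt br_rt sn rt_zpow)

/-- the absolute values of the factorials -/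
noncomputable def aa (N m : ℕ) : ℝ := ‖brf (rt N) m‖

lemma aa_nonneg (N m : ℕ) : 0 ≤ aa N m := norm_nonneg _

lemma aa_pos {N m : ℕ} (hm : m < N) : 0 < aa N m :=
  norm_pos_iff.2 (brf_ne (Kr_rt (N := N) (by omega)).adm hm)

lemma aa_succ {N m : ℕ} (hm : m + 1 < N) :
    aa N (m + 1) = aa N m * (2 * Real.sin (π / N * (m + 1))) := by
  unfold aa
  rw [brf_succ', norm_mul, br_rt, norm_mul, norm_mul, Complex.norm_I, Complex.norm_real, mul_one]
  have h1 : 0 ≤ sn N ((m : ℤ) + 1) := by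
    unfold sn
    apply Real.sin_nonneg_of_nonneg_of_le_pi
    · push_cast; positivity
    · have hN : (0 : ℝ) < N := by exact_mod_cast (by omega : 0 < N)
      rw [div_le_iff₀ hN]
      apply mul_le_mul_of_nonneg_left _ Real.pi_pos.le
      push_cast
      exact_mod_cast hm.le
  rw [Real.norm_of_nonneg h1]
  have h2 : ‖(2 : ℂ)‖ = 2 := by simp
  rw [h2]
  unfold sn
  push_cast
  congr 3
  ring

/-- the terms -/
noncomputable def tm (N i n : ℕ) : ℝ := aa N (i + n) ^ 2 / aa N n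

lemma tm_nonneg (N i n : ℕ) : 0 ≤ tm N i n := div_nonneg (sq_nonneg _) (aa_nonneg _ _)

lemma tm_pos {N i n : ℕ} (h : i + n < N) : 0 < tm N i n := by
  have h1 := aa_pos h
  have h2 := aa_pos (N := N) (m := n) (by omega)
  unfold tm
  positivity

lemma tm_succ {N i n : ℕ} (h : i + n + 1 < N) :
    tm N i (n + 1) = tm N i n * ((1 - Real.cos (2 * (π / N * ((i : ℝ) + n + 1)))) /
      Real.sin (π / N * (n + 1))) := by
  unfold tm
  rw [show i + (n + 1) = (i + n) + 1 by ring, aa_succ h, aa_succ (N := N) (m := n) (by omega)]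
  have h1 := aa_pos (N := N) (m := i + n) (by omega)
  have h2 := aa_pos (N := N) (m := n) (by omega)
  have hN : (0 : ℝ) < N := by exact_mod_cast (by omega : 0 < N)
  have h3 : 0 < Real.sin (π / N * ((n : ℝ) + 1)) := by
    apply Real.sin_pos_of_pos_of_lt_pi
    · have := Real.pi_pos; positivity
    · rw [div_mul_eq_mul_div, div_lt_iff₀ hN]
      apply mul_lt_mul_of_pos_left _ Real.pi_pos
      exact_mod_cast (by omega : n + 1 < N)
  have h4 : Real.cos (2 * (π / N * ((i : ℝ) + n + 1))) =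
      1 - 2 * Real.sin (π / N * ((i : ℝ) + n + 1)) ^ 2 := by
    rw [Real.cos_two_mul, Real.cos_sq']
    ring
  rw [h4]
  push_cast
  field_simp
  ring

/-- the real part of the terms -/
lemma phase_re (N n : ℕ) (hN : 0 < N) :
    (Complex.exp (((π / 4 - π / (2 * N) * (((N : ℝ) - 1) / 2) ^ 2 : ℝ) : ℂ) * Complex.I) *
      (Complex.I ^ n * rt N ^ (-(tri n : ℤ)))).re =
      Real.cos (π / 4 - π / (2 * N) * ((n : ℝ) - ((N : ℝ) - 1) / 2) ^ 2) := by
  have hN' : (N : ℝ) ≠ 0 := by exact_mod_cast hN.ne'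
  have h1 : Complex.I ^ n = Complex.exp (((π / 2 * n : ℝ) : ℂ) * Complex.I) := by
    have h2 : Complex.exp (((π / 2 : ℝ) : ℂ) * Complex.I) = Complex.I := by
      push_cast
      exact Complex.exp_pi_div_two_mul_I
    conv_lhs => rw [← h2]
    rw [← Complex.exp_nat_mul]
    congr 1
    push_cast
    ring
  have h2 : (2 * (tri n : ℝ)) = n * (n + 1) := by exact_mod_cast tri_two n
  rw [h1, rt_zpow, ← Complex.exp_add, ← Complex.exp_add, ← add_mul, ← add_mul, ← Complex.ofReal_add,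
    ← Complex.ofReal_add, Complex.exp_ofReal_mul_I_re]
  congr 1
  push_cast
  field_simp
  linear_combination (-16 : ℝ) * h2

/-- the ratio on the right of the peak -/
lemma ratio_right {N i m k : ℕ} {h δ η : ℝ} (hh : h = π / N) (hδ : δ = π / 4 - h * i)
    (hη : η = π / 2 - h * m) (hk : i + (m + k) + 1 < N) :
    tm N i (m + (k + 1)) = tm N i (m + k) * ((1 - Real.sin (2 * ((h * (k + 1) - η) - δ))) /
      Real.cos (h * (k + 1) - η)) := by
  rw [← add_assoc m k 1, tm_succ hk, ← hh]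
  have h1 : 2 * (h * ((i : ℝ) + ((m + k : ℕ) : ℝ) + 1)) =
      2 * ((h * (k + 1) - η) - δ) - π / 2 + 2 * π := by
    push_cast
    rw [hη, hδ]
    ring
  have h2 : h * (((m + k : ℕ) : ℝ) + 1) = (h * (k + 1) - η) + π / 2 := by
    push_cast
    rw [hη]
    ring
  rw [h1, h2, Real.cos_add_two_pi, Real.cos_sub_pi_div_two, Real.sin_add_pi_div_two]

/-- the ratio on the left of the peak -/
lemma ratio_left {N i m k : ℕ} {h δ η : ℝ} (hh : h = π / N) (hδ : δ = π / 4 - h * i)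
    (hη : η = π / 2 - h * m) (hk : k + 1 < m) (hm : i + m < N)
    (hp : 0 < 1 + Real.sin (2 * (η + h * (k + 1)) + 2 * δ)) (hc : 0 < Real.cos (η + h * (k + 1))) :
    tm N i (m - 1 - (k + 1)) = tm N i (m - 1 - k) * (Real.cos (η + h * (k + 1)) /
      (1 + Real.sin (2 * (η + h * (k + 1)) + 2 * δ))) := by
  obtain ⟨n, rfl⟩ : ∃ n, m = n + 2 + k := ⟨m - 2 - k, by omega⟩
  rw [show n + 2 + k - 1 - (k + 1) = n by omega, show n + 2 + k - 1 - k = n + 1 by omega,
    tm_succ (by omega), ← hh]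
  have h1 : 2 * (h * ((i : ℝ) + (n : ℝ) + 1)) =
      -(2 * (η + h * (k + 1)) + 2 * δ) - π / 2 + 2 * π := by
    rw [hη, hδ]
    push_cast
    ring
  have h2 : h * ((n : ℝ) + 1) = -(η + h * (k + 1)) + π / 2 := by
    rw [hη]
    push_cast
    ring
  rw [h1, h2, Real.cos_add_two_pi, Real.cos_sub_pi_div_two, Real.sin_add_pi_div_two,
    Real.sin_neg, Real.cos_neg, sub_neg_eq_add]
  generalize 1 + Real.sin (2 * (η + h * (k + 1)) + 2 * δ) = s at *
  generalize Real.cos (η + h * (k + 1)) = c at *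
  field_simp

lemma wt_low {N D k : ℕ} {x : ℝ} (hN : 0 < N) (hDN : D * D ≤ N) (hk : k < D / 3)
    (hx : |x| ≤ k + 1) : 7 / 10 ≤ Real.cos (π / 4 - π / (2 * N) * x ^ 2) := by
  have hpi := Real.pi_pos
  have hN' : (0 : ℝ) < N := by exact_mod_cast hN
  have h1 : (3 * ((k : ℝ) + 1)) ≤ D := by exact_mod_cast (by omega : 3 * (k + 1) ≤ D)
  have h2 : (D : ℝ) * D ≤ N := by exact_mod_cast hDN
  have hk0 : (0 : ℝ) ≤ k := Nat.cast_nonneg k
  have h3 : x ^ 2 ≤ ((k : ℝ) + 1) ^ 2 := sq_le_sq' (by linarith [neg_abs_le x]) ((le_abs_self x).trans hx)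
  have h4 : x ^ 2 ≤ N := by nlinarith
  have h5 : π / (2 * N) * x ^ 2 ≤ π / 2 := by
    rw [div_mul_eq_mul_div, div_le_div_iff₀ (by positivity) (by norm_num)]
    nlinarith
  have h6 : 0 ≤ π / (2 * N) * x ^ 2 := by positivity
  have h7 : Real.cos (π / 4) ≤ Real.cos (π / 4 - π / (2 * N) * x ^ 2) := by
    rw [← Real.cos_abs (π / 4 - π / (2 * N) * x ^ 2)]
    apply Real.cos_le_cos_of_nonneg_of_le_pi (abs_nonneg _) (by linarith)
    rw [abs_le]
    constructor <;> linarith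
  refine le_trans ?_ h7
  rw [Real.cos_pi_div_four]
  have h8 : (1.4 : ℝ) ≤ √2 := by
    apply Real.le_sqrt_of_sq_le; norm_num
  linarith

lemma wt_nonneg {N D k : ℕ} {x : ℝ} (hN : 0 < N) (hDN : D * D ≤ N) (hk : k < D + D / 5)
    (hx : |x| ≤ k + 1) : 0 ≤ Real.cos (π / 4 - π / (2 * N) * x ^ 2) := by
  have hpi := Real.pi_pos
  have hN' : (0 : ℝ) < N := by exact_mod_cast hN
  have h1 : (5 * ((k : ℝ) + 1)) ≤ 6 * D := by exact_mod_cast (by omega : 5 * (k + 1) ≤ 6 * D)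
  have h2 : (D : ℝ) * D ≤ N := by exact_mod_cast hDN
  have hk0 : (0 : ℝ) ≤ k := Nat.cast_nonneg k
  have hD0 : (0 : ℝ) ≤ D := Nat.cast_nonneg D
  have h3 : x ^ 2 ≤ ((k : ℝ) + 1) ^ 2 := sq_le_sq' (by linarith [neg_abs_le x]) ((le_abs_self x).trans hx)
  have h4 : x ^ 2 ≤ 3 / 2 * N := by nlinarith
  have h5 : π / (2 * N) * x ^ 2 ≤ 3 * π / 4 := by
    rw [div_mul_eq_mul_div, div_le_div_iff₀ (by positivity) (by norm_num)]
    nlinarith
  have h6 : 0 ≤ π / (2 * N) * x ^ 2 := by positivity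
  apply Real.cos_nonneg_of_neg_pi_div_two_le_of_le <;> linarith

theorem Sx_lower {N : ℕ} (hN : 100000000 ≤ N) : tm N (N / 4) (N / 2) ≤ ‖Sx N (N / 4)‖ := by
  have hpi := Real.pi_gt_three
  have hpi2 := Real.pi_lt_d2
  obtain ⟨i, hi⟩ : ∃ i, i = N / 4 := ⟨_, rfl⟩
  obtain ⟨m, hm⟩ : ∃ m, m = N / 2 := ⟨_, rfl⟩
  rw [← hi, ← hm]
  obtain ⟨D, hD⟩ : ∃ D, D = Nat.sqrt N := ⟨_, rfl⟩
  have hDN : D * D ≤ N := by rw [hD]; exact Nat.sqrt_le N
  have hND : N < (D + 1) * (D + 1) := by rw [hD]; exact Nat.lt_succ_sqrt N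
  have hD4 : 10000 ≤ D := by rw [hD, Nat.le_sqrt]; omega
  have hN0 : (0 : ℝ) < N := by exact_mod_cast (by omega : 0 < N)
  have hD4' : (10000 : ℝ) ≤ D := by exact_mod_cast hD4
  have hDN' : (D : ℝ) * D ≤ N := by exact_mod_cast hDN
  obtain ⟨h, hh⟩ : ∃ h, h = π / N := ⟨_, rfl⟩
  have hh0 : 0 < h := by rw [hh]; positivity
  have hhN : h * N = π := by rw [hh]; field_simp
  have hh1 : h ≤ 1 / 100 := by
    have h1 : (100000000 : ℝ) ≤ N := by exact_mod_cast hN
    nlinarith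
  obtain ⟨δ, hδ⟩ : ∃ δ, δ = π / 4 - h * i := ⟨_, rfl⟩
  obtain ⟨η, hη⟩ : ∃ η, η = π / 2 - h * m := ⟨_, rfl⟩
  have hi1 : (4 : ℝ) * i ≤ N := by exact_mod_cast (by omega : 4 * i ≤ N)
  have hi2 : (N : ℝ) ≤ 4 * i + 3 := by exact_mod_cast (by omega : N ≤ 4 * i + 3)
  have hm1 : (2 : ℝ) * m ≤ N := by exact_mod_cast (by omega : 2 * m ≤ N)
  have hm2 : (N : ℝ) ≤ 2 * m + 1 := by exact_mod_cast (by omega : N ≤ 2 * m + 1)
  have hδ0 : 0 ≤ δ := by rw [hδ]; nlinarith
  have hδ1 : δ ≤ h := by rw [hδ]; nlinarith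
  have hη0 : 0 ≤ η := by rw [hη]; nlinarith
  have hη1 : η ≤ h / 2 := by rw [hη]; nlinarith
  have hDD : 10000 * D ≤ N := le_trans (Nat.mul_le_mul_right D hD4) hDN
  have hhD : h * D ^ 2 ≤ π := by rw [← hhN]; nlinarith
  -- the sides
  have hR : tm N i m ≤ ∑ k ∈ range (N - i - m), tm N i (m + k) *
      Real.cos (π / 4 - π / (2 * N) * (((m + k : ℕ) : ℝ) - ((N : ℝ) - 1) / 2) ^ 2) := by
    have hx : ∀ k : ℕ, |((m + k : ℕ) : ℝ) - ((N : ℝ) - 1) / 2| ≤ k + 1 := by
      intro k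
      have hk0 : (0 : ℝ) ≤ k := Nat.cast_nonneg k
      push_cast
      rw [abs_le]; constructor <;> linarith
    have hr : ∀ k : ℕ, i + (m + k) + 1 < N → ∃ e : ℝ, h * (k + 1 / 2) ≤ e ∧ e ≤ h * (k + 1) ∧
        e - δ ≤ π / 4 ∧ 0 < Real.cos e ∧
        tm N i (m + (k + 1)) = tm N i (m + k) * ((1 - Real.sin (2 * (e - δ))) / Real.cos e) := by
      intro k hk
      have hk0 : (0 : ℝ) ≤ k := Nat.cast_nonneg k
      have hk' : (i : ℝ) + (m + k) + 1 ≤ N := by exact_mod_cast hk.le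
      have e3 : (h * (k + 1) - η) - δ ≤ π / 4 := by
        rw [hη, hδ]
        nlinarith
      refine ⟨h * (k + 1) - η, by linarith, by linarith, e3, ?_, ratio_right hh hδ hη hk⟩
      apply Real.cos_pos_of_mem_Ioo
      constructor
      · nlinarith
      · linarith
    have := Gs.side (u := fun k => tm N i (m + k))
      (c := fun k => Real.cos (π / 4 - π / (2 * N) * (((m + k : ℕ) : ℝ) - ((N : ℝ) - 1) / 2) ^ 2))
      (M := N - i - m) hh hD4 hDN hND (fun k => tm_nonneg _ _ _) (by omega) ?_ ?_ ?_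
      (fun k => Real.abs_cos_le_one _) (fun k hk => wt_low (by omega) hDN hk (hx k))
      (fun k hk => wt_nonneg (by omega) hDN hk (hx k))
    · simpa using this
    · intro k hk
      obtain ⟨e, e1, e2, e3, e4, e5⟩ := hr k (by omega)
      rw [e5]
      apply mul_le_mul_of_nonneg_left _ (tm_nonneg _ _ _)
      exact Gs.right_low hδ0 hδ1 (by have hk0 : (0 : ℝ) ≤ k := Nat.cast_nonneg k; nlinarith) e2 e4
    · intro k hk
      obtain ⟨e, e1, e2, e3, e4, e5⟩ := hr k (by omega)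
      rw [e5]
      apply mul_le_mul_of_nonneg_left _ (tm_nonneg _ _ _)
      exact Gs.right_up hh0 hh1 hδ0 hδ1 e1 e2 e3
    · intro k hk hkM
      obtain ⟨e, e1, e2, e3, e4, e5⟩ := hr k (by omega)
      rw [e5]
      apply mul_le_mul_of_nonneg_left _ (tm_nonneg _ _ _)
      refine (Gs.right_up hh0 hh1 hδ0 hδ1 e1 e2 e3).trans ?_
      rw [Real.exp_le_exp]
      have hk' : ((D + D / 5 : ℕ) : ℝ) ≤ k := by exact_mod_cast hk
      nlinarith
  have hL : tm N i (m - 1) ≤ ∑ k ∈ range m, tm N i (m - 1 - k) *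
      Real.cos (π / 4 - π / (2 * N) * (((m - 1 - k : ℕ) : ℝ) - ((N : ℝ) - 1) / 2) ^ 2) := by
    -- outside the range of summation the weights are changed
    obtain ⟨c, hc⟩ : ∃ c : ℕ → ℝ, ∀ k, c k =
        Real.cos (π / 4 - π / (2 * N) * (((m : ℝ) - 1 - k) - ((N : ℝ) - 1) / 2) ^ 2) :=
      ⟨_, fun k => rfl⟩
    have hx : ∀ k : ℕ, |((m : ℝ) - 1 - k) - ((N : ℝ) - 1) / 2| ≤ k + 1 := by
      intro k
      have hk0 : (0 : ℝ) ≤ k := Nat.cast_nonneg k
      rw [abs_le]; constructor <;> linarith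
    have hsum : ∑ k ∈ range m, tm N i (m - 1 - k) *
        Real.cos (π / 4 - π / (2 * N) * (((m - 1 - k : ℕ) : ℝ) - ((N : ℝ) - 1) / 2) ^ 2) =
        ∑ k ∈ range m, tm N i (m - 1 - k) * c k := by
      refine sum_congr rfl fun k hk => ?_
      rw [mem_range] at hk
      rw [hc]
      have : ((m - 1 - k : ℕ) : ℝ) = (m : ℝ) - 1 - k := by
        rw [Nat.cast_sub (by omega), Nat.cast_sub (by omega)]
        push_cast
        ring
      rw [this]
    rw [hsum]
    have hz : ∀ k : ℕ, k + 1 < m → η + h * (k + 1) < π / 2 := by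
      intro k hk
      have hk' : (k : ℝ) + 1 + 1 ≤ m := by exact_mod_cast hk
      rw [hη]
      nlinarith
    have hz0 : ∀ k : ℕ, 0 ≤ η + h * (k + 1) := by
      intro k
      positivity
    have hr : ∀ k : ℕ, k + 1 < m → tm N i (m - 1 - (k + 1)) = tm N i (m - 1 - k) *
        (Real.cos (η + h * (k + 1)) / (1 + Real.sin (2 * (η + h * (k + 1)) + 2 * δ))) := by
      intro k hk
      have h1 := hz k hk
      have h2 := hz0 k
      apply ratio_left hh hδ hη hk (by omega)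
      · have h3 : Real.sin (2 * (η + h * (k + 1)) + 2 * δ) ≥ -(2 * δ) := by
          rcases le_or_gt (2 * (η + h * (k + 1)) + 2 * δ) π with h4 | h4
          · have := Real.sin_nonneg_of_nonneg_of_le_pi (by positivity) h4
            linarith
          · have h5 : Real.sin (2 * (η + h * (k + 1)) + 2 * δ) =
                -Real.sin (2 * (η + h * (k + 1)) + 2 * δ - π) := by
              rw [Real.sin_sub_pi, neg_neg]
            rw [h5]
            have h6 := Real.sin_le (x := 2 * (η + h * (k + 1)) + 2 * δ - π) (by linarith)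
            linarith
        linarith
      · apply Real.cos_pos_of_mem_Ioo
        constructor <;> linarith
    have := Gs.side (u := fun k => tm N i (m - 1 - k)) (c := c)
      (M := m) hh hD4 hDN hND (fun k => tm_nonneg _ _ _) (by omega) ?_ ?_ ?_
      (fun k => by rw [hc]; exact Real.abs_cos_le_one _)
      (fun k hk => by rw [hc]; exact wt_low (by omega) hDN hk (hx k))
      (fun k hk => by rw [hc]; exact wt_nonneg (by omega) hDN hk (hx k))
    · simpa using this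
    · intro k hk
      have hk0 : (0 : ℝ) ≤ k := Nat.cast_nonneg k
      have hk3 : 3 * ((k : ℝ) + 1) ≤ D := by exact_mod_cast (by omega : 3 * (k + 1) ≤ D)
      rw [hr k (by omega)]
      apply mul_le_mul_of_nonneg_left _ (tm_nonneg _ _ _)
      have hz1 : η + h * (k + 1) ≤ h * (k + 3 / 2) := by linarith
      have hz2 : η + h * (k + 1) ≤ h * (D / 2) := by nlinarith
      have hz3 : (η + h * (k + 1)) ^ 2 ≤ h := by
        have h1 : (η + h * (k + 1)) ^ 2 ≤ (h * (D / 2)) ^ 2 :=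
          pow_le_pow_left₀ (hz0 k) hz2 2
        have h2 : (h * ((D : ℝ) / 2)) ^ 2 = h * (h * D ^ 2) / 4 := by ring
        rw [h2] at h1
        nlinarith
      exact Gs.left_low hδ0 hδ1 (hz0 k) hz1 hz3 (by nlinarith) (by linarith)
    · intro k hk
      have hk0 : (0 : ℝ) ≤ k := Nat.cast_nonneg k
      have hk3 : 5 * ((k : ℝ) + 1) ≤ 6 * D := by exact_mod_cast (by omega : 5 * (k + 1) ≤ 6 * D)
      rw [hr k (by omega)]
      apply mul_le_mul_of_nonneg_left _ (tm_nonneg _ _ _)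
      refine Gs.left_up hh1 hδ0 hδ1 (hz0 k) le_rfl (hz k (by omega)) (by linarith) ?_
      have hz2 : η + h * (k + 1) ≤ h * (13 / 10 * D) := by nlinarith
      have h1 : (η + h * (k + 1)) ^ 2 ≤ (h * (13 / 10 * D)) ^ 2 :=
        pow_le_pow_left₀ (hz0 k) hz2 2
      have h2 : (h * (13 / 10 * (D : ℝ))) ^ 2 = h * (h * D ^ 2) * (169 / 100) := by ring
      rw [h2] at h1
      nlinarith
    · intro k hk hkM
      have hk0 : (0 : ℝ) ≤ k := Nat.cast_nonneg k
      have hk' : ((D + D / 5 : ℕ) : ℝ) ≤ k := by exact_mod_cast hk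
      have hk5 : 5 * ((D + D / 5 : ℕ) : ℝ) ≤ 6 * D := by exact_mod_cast (by omega : 5 * (D + D / 5) ≤ 6 * D)
      have hL0 : (0 : ℝ) ≤ ((D + D / 5 : ℕ) : ℝ) := Nat.cast_nonneg _
      rw [hr k hkM]
      apply mul_le_mul_of_nonneg_left _ (tm_nonneg _ _ _)
      refine Gs.left_up (z₁ := h * (((D + D / 5 : ℕ) : ℝ) + 1)) hh1 hδ0 hδ1 (by positivity)
        (by nlinarith) (hz k hkM) le_rfl ?_
      have hz2 : h * (((D + D / 5 : ℕ) : ℝ) + 1) ≤ h * (13 / 10 * D) := by nlinarith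
      have h1 : (h * (((D + D / 5 : ℕ) : ℝ) + 1)) ^ 2 ≤ (h * (13 / 10 * D)) ^ 2 :=
        pow_le_pow_left₀ (by positivity) hz2 2
      have h2 : (h * (13 / 10 * (D : ℝ))) ^ 2 = h * (h * D ^ 2) * (169 / 100) := by ring
      rw [h2] at h1
      nlinarith
  -- the real part
  have hre : (Complex.exp (((π / 4 - π / (2 * N) * (((N : ℝ) - 1) / 2) ^ 2 : ℝ) : ℂ) * Complex.I) *
      Sx N i).re = ∑ n ∈ range (N - i), tm N i n *
        Real.cos (π / 4 - π / (2 * N) * ((n : ℝ) - ((N : ℝ) - 1) / 2) ^ 2) := by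
    unfold Sx
    rw [mul_sum, Complex.re_sum]
    refine sum_congr rfl fun n _ => ?_
    rw [← mul_assoc, Complex.re_mul_ofReal, phase_re N n (by omega), mul_comm]
    rfl
  have hno : ‖Complex.exp (((π / 4 - π / (2 * N) * (((N : ℝ) - 1) / 2) ^ 2 : ℝ) : ℂ) * Complex.I) *
      Sx N i‖ = ‖Sx N i‖ := by
    rw [norm_mul, Complex.norm_exp_ofReal_mul_I, one_mul]
  have hsp : N - i = m + (N - i - m) := by omega
  have h0 := tm_nonneg N i (m - 1)
  rw [← hno]
  refine le_trans ?_ (Complex.re_le_norm _)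
  rw [hre, hsp, sum_range_add, ← sum_range_reflect]
  linarith

end Pool.Agent.Q191.RP
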