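import Pool.Agent.Q191.RP.SixD

/-!
# The growth of the zigzag tangles
-/

set_option autoImplicit false

namespace Pool.Agent.Q191.RP

open Matrix Finset Filter Topology
open scoped Kronecker Real
open Pool.Agent.H550R3.Jones (WM IsMod IsInt Gen br brf tens irr W crossP crossN Adm)
open Pool.Agent.H927R2.J.SanYB (brf_ne)
open Pool.Agent.W715.VC (brf_succ' rt br_rt sn rt_zpow)
open GapVol (lob)

lemma div_tendsto (d : ℕ) : Tendsto (fun M : ℕ => ((M / d : ℕ) : ℝ) / M) atTop (𝓝 (1 / d)) := by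
  have h := tendsto_nat_floor_mul_div_atTop (R := ℝ) (a := 1 / d) (by positivity)
  have h2 := h.comp tendsto_natCast_atTop_atTop
  refine h2.congr ?_
  intro M
  simp only [Function.comp]
  congr 2
  rw [show (1 / d : ℝ) * M = (M : ℝ) / (d : ℕ) by ring]
  exact Nat.floor_div_eq_div M d

/-- the Kashaev invariant of `6_3` grows at least like `3 v_8 / 2` -/
theorem lb_six : LBd (dbl (zig 1)) (12 * lob (π / 4)) := by
  intro ε hε
  have hpi := Real.pi_pos
  set η : ℝ := ε / (32 * π) with hη
  have hη0 : 0 < η := by positivity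
  have hS := Pool.Agent.Q191.FT.S_bound 1 η hη0
  have t4 : Tendsto (fun N : ℕ => π * ((N / 4 : ℕ) : ℝ) / N) atTop (𝓝 (π / 4)) := by
    have := (div_tendsto 4).const_mul π
    refine (this.congr ?_).trans (by push_cast; rw [mul_one_div])
    intro M
    ring
  have t2 : Tendsto (fun N : ℕ => π * ((N / 2 : ℕ) : ℝ) / N) atTop (𝓝 (π / 2)) := by
    have := (div_tendsto 2).const_mul π
    refine (this.congr ?_).trans (by push_cast; rw [mul_one_div])
    intro M
    ring
  have t3 : Tendsto (fun N : ℕ => π * ((N / 4 + N / 2 : ℕ) : ℝ) / N) atTop (𝓝 (π - π / 4)) := by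
    have := t4.add t2
    rw [show π - π / 4 = π / 4 + π / 2 by ring]
    refine this.congr ?_
    intro M
    push_cast
    ring
  have l4 := (GapVol.lob_cont.tendsto (π / 4)).comp t4
  have l2 := (GapVol.lob_cont.tendsto (π / 2)).comp t2
  have l3 := (GapVol.lob_cont.tendsto (π - π / 4)).comp t3
  rw [Pool.Agent.W709.QAT.lob_pi_sub] at l3
  rw [GapVol.lob_half] at l2
  have hlim := ((l3.const_mul (-4)).add (l2.const_mul 2)).add (l4.const_mul 2)
  have hval : -4 * (-lob (π / 4)) + 2 * 0 + 2 * lob (π / 4) = 6 * lob (π / 4) := by ring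
  rw [hval] at hlim
  have hev := hlim.eventually (lt_mem_nhds (show 6 * lob (π / 4) - ε / 4 < 6 * lob (π / 4) by
    linarith))
  filter_upwards [hS, hev, eventually_ge_atTop 100000000] with N h1 h2 hN
  have hN0 : (0 : ℝ) < N := by exact_mod_cast (by omega : 0 < N)
  have hKr := Kr_rt (N := N) (by omega)
  have hi : N / 4 < N := by omega
  have hm : N / 2 < N := by omega
  have him : N / 4 + N / 2 < N := by omega
  have h3 := nq_zig_one (N := N) (by omega) hi
  have h4 := Sx_lower hN
  have p1 := aa_pos hi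
  have p2 := aa_pos hm
  have p3 := aa_pos him
  have p4 := tm_pos him
  rw [norm_kv_dbl (by omega) (Is_zig 1)]
  change ‖Sx N (N / 4)‖ ^ 2 ≤ nq (rt N) (MM N (rt N) (zig 1)) * aa N (N / 4) ^ 2 at h3
  have h5 : tm N (N / 4) (N / 2) ^ 2 / aa N (N / 4) ^ 2 ≤ nq (rt N) (MM N (rt N) (zig 1)) := by
    rw [div_le_iff₀ (by positivity)]
    refine le_trans ?_ h3
    exact pow_le_pow_left₀ p4.le h4 2
  refine le_trans ?_ h5
  unfold tm at p4 ⊢
  rw [← Real.le_log_iff_exp_le (by positivity)]
  rw [Real.log_div (by positivity) (by positivity), Real.log_pow, Real.log_div (by positivity)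
    (by positivity), Real.log_pow, Real.log_pow]
  have b1 := abs_le.1 (h1 (N / 4) (by omega))
  have b2 := abs_le.1 (h1 (N / 2) (by omega))
  have b3 := abs_le.1 (h1 (N / 4 + N / 2) (by omega))
  rw [← log_brf hi] at b1
  rw [← log_brf hm] at b2
  rw [← log_brf him] at b3
  change _ ∧ _ at b1
  unfold aa
  simp only [Function.comp] at h2
  have h6 : N / π * (6 * lob (π / 4) - ε / 4) ≤
      N / π * (-4 * lob (π * ((N / 4 + N / 2 : ℕ) : ℝ) / N) + 2 * lob (π * ((N / 2 : ℕ) : ℝ) / N) +
        2 * lob (π * ((N / 4 : ℕ) : ℝ) / N)) :=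
    mul_le_mul_of_nonneg_left h2.le (by positivity)
  have h7 : (N : ℝ) * (12 * lob (π / 4) - ε) / (2 * π) =
      N / π * (6 * lob (π / 4) - ε / 4) - 8 * η * N := by
    rw [hη]
    field_simp
    ring
  rw [h7]
  obtain ⟨b11, b12⟩ := b1
  obtain ⟨b21, b22⟩ := b2
  obtain ⟨b31, b32⟩ := b3
  push_cast at *
  linarith

/-- the improved lower bound for the doubles of the zigzag tangles -/
theorem lb_zig' (n : ℕ) : LBd (dbl (zig n))
    (2 * (3 * lob (π / 3)) + (12 * lob (π / 4) - 2 * (3 * lob (π / 3))) * n) := by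
  rcases n with _ | n
  · have h := lb_zig 0
    have e : 2 * (3 * lob (π / 3)) + (12 * lob (π / 4) - 2 * (3 * lob (π / 3))) * ((0 : ℕ) : ℝ) =
        2 * (3 * lob (π / 3)) * (((0 : ℕ) : ℝ) + 1) := by push_cast; ring
    rw [e]
    exact h
  · intro ε hε
    have hpi := Real.pi_pos
    set η : ℝ := ε / (2 * (n + 1)) with hη
    have hη0 : 0 < η := by positivity
    filter_upwards [lb_six η hη0, ub_two false η hη0, eventually_ge_atTop 2] with N h1 h2 hN
    have hKr := Kr_rt (N := N) (by omega)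
    have hN0 : (0 : ℝ) < N := by exact_mod_cast (by omega : 0 < N)
    rw [norm_kv_dbl hN (Is_zig 1)] at h1
    rw [norm_kv_dbl hN (Is_two false)] at h2
    change _ ≤ zm N (rt N) 2 at h1
    change zm N (rt N) 1 ≤ _ at h2
    have hnn : ∀ k, 0 ≤ zm N (rt N) (k + 1) := fun k => nq_nonneg hKr.good _
    have h0 : 0 < zm N (rt N) 1 := by
      rcases (hnn 0).lt_or_eq with h | h
      · exact h
      · exfalso
        have h3 := zm_logconv hKr.good hN 0
        have h4 := zm_logconv hKr.good hN 1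
        have h5 : 0 < zm N (rt N) 2 := lt_of_lt_of_le (Real.exp_pos _) h1
        simp only [zero_add] at h h4
        rw [← h, zero_mul] at h4
        nlinarith
    have h3 := logconv_pow (m := fun k => zm N (rt N) (k + 1)) h0 hnn
      (fun k => zm_logconv hKr.good hN (k + 1)) n
    simp only [zero_add] at h3
    rw [norm_kv_dbl hN (Is_zig (n + 1))]
    change _ ≤ zm N (rt N) (n + 1 + 1)
    have h5 : Real.exp (N * (12 * lob (π / 4) - η) / (2 * π)) ^ (n + 1) ≤
        zm N (rt N) (n + 1 + 1) * Real.exp (N * (2 * (3 * lob (π / 3)) + η) / (2 * π)) ^ n := by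
      calc Real.exp (N * (12 * lob (π / 4) - η) / (2 * π)) ^ (n + 1) ≤ zm N (rt N) 2 ^ (n + 1) := by
            gcongr
        _ ≤ zm N (rt N) (n + 1 + 1) * zm N (rt N) 1 ^ n := h3
        _ ≤ _ := by
            apply mul_le_mul_of_nonneg_left _ (hnn (n + 1))
            gcongr
    rw [← Real.exp_nat_mul, ← Real.exp_nat_mul] at h5
    have h6 : Real.exp (N * (2 * (3 * lob (π / 3)) + (12 * lob (π / 4) - 2 * (3 * lob (π / 3))) *
        ((n + 1 : ℕ) : ℝ) - ε) / (2 * π)) * Real.exp (n * (N * (2 * (3 * lob (π / 3)) + η) / (2 * π))) ≤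
        Real.exp ((n + 1 : ℕ) * (N * (12 * lob (π / 4) - η) / (2 * π))) := by
      rw [← Real.exp_add, Real.exp_le_exp]
      have e1 : (2 * (n : ℝ) + 1) * η ≤ ε := by
        rw [hη]
        rw [mul_div_assoc', div_le_iff₀ (by positivity)]
        nlinarith
      have e2 : ((n + 1 : ℕ) * ((N : ℝ) * (12 * lob (π / 4) - η) / (2 * π))) -
          (N * (2 * (3 * lob (π / 3)) + (12 * lob (π / 4) - 2 * (3 * lob (π / 3))) *
        ((n + 1 : ℕ) : ℝ) - ε) / (2 * π) + n * (N * (2 * (3 * lob (π / 3)) + η) / (2 * π))) =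
          N / (2 * π) * (ε - (2 * n + 1) * η) := by
        push_cast
        field_simp
        ring
      have e3 : 0 ≤ (N : ℝ) / (2 * π) * (ε - (2 * n + 1) * η) :=
        mul_nonneg (by positivity) (by linarith)
      linarith
    exact le_of_mul_le_mul_right (h6.trans h5) (Real.exp_pos _)

end Pool.Agent.Q191.RP
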