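import Pool.Agent.Q191.RP.Form

/-!
# The involution on the commutant for `|v| = 1`
-/

set_option autoImplicit false

namespace Pool.Agent.Q191.RP

open Matrix Finset
open scoped Kronecker
open Pool.Agent.H550R3.Jones (WM IsMod IsInt Gen br brf tens irr W crossP crossN Adm)
open Pool.Agent.Q191.FT (lam lam_sub lam_neg Cas Cas_E Cas_F)
open Pool.Agent.H927R2.J.SanYB (brf_ne)
open Pool.Agent.W715.VC (brf_succ')

variable {N : ℕ}

/-- the ratio of factorials -/
noncomputable def rr (N : ℕ) (v : ℂ) (k : ℕ) : ℂ := brf v k * brf v (N - 1 - k) / brf v (N - 1)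

lemma rr_ne {v : ℂ} (hv : Adm N v) {k : ℕ} (hk : k < N) : rr N v k ≠ 0 :=
  div_ne_zero (mul_ne_zero (brf_ne hv hk) (brf_ne hv (by omega))) (brf_ne hv (by omega))

lemma rr_rev (v : ℂ) (a : Fin N) : rr N v (a.rev : ℕ) = rr N v a := by
  unfold rr
  have h1 : (a.rev : ℕ) = N - 1 - a := by rw [Fin.val_rev]; omega
  have h2 : N - 1 - (N - 1 - (a : ℕ)) = a := by have := a.2; omega
  rw [h1, h2, mul_comm (brf v (N - 1 - a))]

lemma rr_succ {v : ℂ} (hv : Adm N v) {k : ℕ} (hk : k + 1 < N) :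
    rr N v k * br v ((k : ℤ) + 1) = rr N v (k + 1) * br v ((N : ℤ) - 1 - k) := by
  unfold rr
  have h1 : N - 1 - k = (N - 1 - (k + 1)) + 1 := by omega
  have h2 : (((N - 1 - (k + 1) : ℕ) : ℤ) + 1) = (N : ℤ) - 1 - k := by omega
  rw [h1, brf_succ', brf_succ', h2]
  have h4 : brf v (N - 1) ≠ 0 := brf_ne hv (by omega)
  field_simp

section
variable {v : ℂ} (hc : (starRingEnd ℂ) v = v⁻¹)
include hc

lemma cj_zpow (n : ℤ) : (starRingEnd ℂ) (v ^ n) = v ^ (-n) := by
  rw [map_zpow₀, hc, _root_.inv_zpow']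

lemma cj_pow (n : ℕ) : (starRingEnd ℂ) (v ^ n) = (v ^ n)⁻¹ := by
  rw [map_pow, hc, inv_pow]

lemma cj_br (n : ℤ) : (starRingEnd ℂ) (br v n) = - br v n := by
  rw [br, map_sub, cj_zpow hc, cj_zpow hc, neg_neg]; ring

lemma cj_brf (n : ℕ) : (starRingEnd ℂ) (brf v n) = (-1) ^ n * brf v n := by
  induction n with
  | zero => simp [brf]
  | succ n ih => rw [brf_succ', map_mul, ih, cj_br hc, pow_succ]; ring

lemma cj_lam (n : ℤ) : (starRingEnd ℂ) (lam v n) = lam v n := by
  unfold lam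
  rw [map_add, cj_zpow hc, cj_zpow hc, neg_neg, add_comm]

lemma cj_rr {k : ℕ} (hk : k < N) : (starRingEnd ℂ) (rr N v k) = rr N v k := by
  unfold rr
  rw [map_div₀, map_mul, cj_brf hc, cj_brf hc, cj_brf hc]
  have h1 : ((-1 : ℂ) ^ (N - 1)) = (-1) ^ k * (-1) ^ (N - 1 - k) := by
    rw [← pow_add]
    congr 1
    omega
  rw [h1]
  have h2 : ((-1 : ℂ) ^ k) ≠ 0 := pow_ne_zero _ (by norm_num)
  have h3 : ((-1 : ℂ) ^ (N - 1 - k)) ≠ 0 := pow_ne_zero _ (by norm_num)
  field_simp

end

/-- the weight of a pair -/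
noncomputable def Om (v : ℂ) (p : I2 N) : ℂ := rr N v p.1 * rr N v p.2

lemma Om_ne {v : ℂ} (hv : Adm N v) (p : I2 N) : Om v p ≠ 0 :=
  mul_ne_zero (rr_ne hv p.1.2) (rr_ne hv p.2.2)

/-- the reflected pair -/
def rv (p : I2 N) : I2 N := (p.1.rev, p.2.rev)

lemma rv_rv (p : I2 N) : rv (rv p) = p := by simp [rv]

lemma Om_rv (v : ℂ) (p : I2 N) : Om v (rv p) = Om v p := by
  unfold Om rv
  simp only []
  rw [rr_rev, rr_rev]

lemma cj_Om {v : ℂ} (hc : (starRingEnd ℂ) v = v⁻¹) (p : I2 N) :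
    (starRingEnd ℂ) (Om v p) = Om v p := by
  unfold Om
  rw [map_mul, cj_rr hc p.1.2, cj_rr hc p.2.2]

/-- the equivalence `p ↦ rv p` -/
def rvE : I2 N ≃ I2 N := ⟨rv, rv, rv_rv, rv_rv⟩

/-- the involution -/
noncomputable def stm (v : ℂ) (X : Matrix (I2 N) (I2 N) ℂ) : Matrix (I2 N) (I2 N) ℂ :=
  fun p q => Om v p / Om v q * (starRingEnd ℂ) (X (rv q) (rv p))

lemma stm_mul {v : ℂ} (hv : Adm N v) (X Y : Matrix (I2 N) (I2 N) ℂ) :
    stm v (X * Y) = stm v Y * stm v X := by
  ext p q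
  rw [Matrix.mul_apply]
  simp only [stm]
  rw [Matrix.mul_apply, map_sum, mul_sum, ← Equiv.sum_comp rvE]
  refine sum_congr rfl fun r _ => ?_
  change Om v p / Om v q * (starRingEnd ℂ) (X (rv q) (rv r) * Y (rv r) (rv p)) = _
  have h1 := Om_ne hv r
  have h2 := Om_ne hv q
  rw [map_mul]
  field_simp

lemma stm_add (v : ℂ) (X Y : Matrix (I2 N) (I2 N) ℂ) : stm v (X + Y) = stm v X + stm v Y := by
  ext p q
  simp only [stm, Matrix.add_apply, map_add]
  ring

lemma stm_sub (v : ℂ) (X Y : Matrix (I2 N) (I2 N) ℂ) : stm v (X - Y) = stm v X - stm v Y := by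
  ext p q
  simp only [stm, Matrix.sub_apply, map_sub]
  ring

lemma stm_smul (v r : ℂ) (X : Matrix (I2 N) (I2 N) ℂ) :
    stm v (r • X) = (starRingEnd ℂ) r • stm v X := by
  ext p q
  simp only [stm, Matrix.smul_apply, smul_eq_mul, map_mul]
  ring

lemma stm_sum (v : ℂ) {ι : Type} (S : Finset ι) (X : ι → Matrix (I2 N) (I2 N) ℂ) :
    stm v (∑ i ∈ S, X i) = ∑ i ∈ S, stm v (X i) := by
  ext p q
  simp only [stm, Matrix.sum_apply, map_sum, mul_sum]

lemma stm_one {v : ℂ} (hv : Adm N v) : stm v (1 : Matrix (I2 N) (I2 N) ℂ) = 1 := by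
  ext p q
  simp only [stm, Matrix.one_apply]
  by_cases h : p = q
  · subst h
    rw [if_pos rfl, if_pos rfl, map_one, div_self (Om_ne hv p), mul_one]
  · rw [if_neg h, if_neg, map_zero, mul_zero]
    intro h1
    apply h
    rw [← rv_rv p, ← rv_rv q, h1]

lemma stm_stm {v : ℂ} (hv : Adm N v) (hc : (starRingEnd ℂ) v = v⁻¹) (X : Matrix (I2 N) (I2 N) ℂ) :
    stm v (stm v X) = X := by
  ext p q
  simp only [stm, rv_rv, map_mul, map_div₀, cj_Om hc, Complex.conj_conj, Om_rv]
  have h1 := Om_ne hv p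
  have h2 := Om_ne hv q
  field_simp

lemma W_wt_rv (v : ℂ) (p : I2 N) : (W v N).wt (rv p) = -(W v N).wt p := by
  rw [W_wt, W_wt]
  unfold rv
  simp only [Fin.val_rev]
  have := p.1.2
  have := p.2.2
  omega

lemma stm_E {v : ℂ} (hv : Adm N v) (hc : (starRingEnd ℂ) v = v⁻¹) :
    stm v (W v N).E = -(W v N).E := by
  ext p q
  obtain ⟨a, b⟩ := p
  obtain ⟨c, d⟩ := q
  simp only [stm, rv, Matrix.neg_apply, W_E_apply, map_add, map_mul]
  have ha := a.2
  have hb := b.2
  have hc' := c.2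
  have hd := d.2
  have e1 : ∀ x y : Fin N, (starRingEnd ℂ) ((irr v N).E y.rev x.rev) =
      if (y : ℕ) = x + 1 then -br v (y : ℕ) else 0 := by
    intro x y
    simp only [irr]
    by_cases h : (y : ℕ) = x + 1
    · have h' : ((x.rev : Fin N) : ℕ) = (y.rev : Fin N) + 1 := by
        rw [Fin.val_rev, Fin.val_rev]; have := y.2; omega
      rw [if_pos h', if_pos h, cj_br hc]
      congr 2
      rw [Fin.val_rev]; have := y.2; omega
    · have h' : ¬ ((x.rev : Fin N) : ℕ) = (y.rev : Fin N) + 1 := by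
        rw [Fin.val_rev, Fin.val_rev]; have := y.2; have := x.2; omega
      rw [if_neg h', if_neg h, map_zero]
  have e2 : ∀ x y : Fin N, (irr v N).E x y = if (y : ℕ) = x + 1 then br v ((N : ℤ) - (y : ℕ)) else 0 :=
    fun x y => rfl
  have e3 : ∀ x y : Fin N, (y.rev = x.rev) ↔ (x = y) := by
    intro x y
    rw [Fin.rev_inj]
    exact eq_comm
  have key : ∀ x y : Fin N, (y : ℕ) = x + 1 → rr N v x * br v (y : ℕ) =
      rr N v y * br v ((N : ℤ) - (y : ℕ)) := by
    intro x y h
    have h1 := rr_succ hv (k := x) (by have := y.2; omega)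
    rw [h]
    push_cast
    rw [h1]
    congr 2
    ring
  rw [e1, e1, e2, e2]
  by_cases h1 : (c : ℕ) = a + 1
  · rw [if_pos h1, if_pos h1]
    have h2 : ¬ c.rev = a.rev := by
      rw [Fin.rev_inj]; intro h; rw [h] at h1; omega
    have h3 : ¬ a = c := by intro h; rw [h] at h1; omega
    rw [if_neg h2, if_neg h3, map_zero, zero_mul, zero_mul, add_zero, add_zero]
    by_cases h4 : b = d
    · subst h4
      rw [if_pos rfl, if_pos rfl, cj_zpow hc]
      have h5 : -((N : ℤ) - 1 - 2 * ((b.rev : Fin N) : ℕ)) = (N : ℤ) - 1 - 2 * (b : ℕ) := by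
        rw [Fin.val_rev]; omega
      rw [h5]
      have h6 := key a c h1
      have n1 := rr_ne hv b.2
      have n2 := rr_ne hv c.2
      unfold Om
      simp only []
      field_simp
      linear_combination (-(v ^ ((N : ℤ) - 1 - 2 * (b : ℕ)))) * h6
    · have h5 : ¬ d.rev = b.rev := by rw [e3]; exact h4
      rw [if_neg h4, if_neg h5, map_zero]
      ring
  · rw [if_neg h1, if_neg h1, zero_mul, zero_mul, zero_add, zero_add]
    by_cases h4 : a = c
    · subst h4
      rw [if_pos rfl, if_pos rfl, map_one, one_mul, one_mul]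
      by_cases h5 : (d : ℕ) = b + 1
      · rw [if_pos h5, if_pos h5]
        have h6 := key b d h5
        have n1 := rr_ne hv a.2
        have n2 := rr_ne hv d.2
        unfold Om
        simp only []
        field_simp
        linear_combination (-1 : ℂ) * h6
      · rw [if_neg h5, if_neg h5]
        ring
    · have h5 : ¬ c.rev = a.rev := by rw [e3]; exact h4
      rw [if_neg h4, if_neg h5, map_zero]
      ring

lemma stm_F {v : ℂ} (hv : Adm N v) (hc : (starRingEnd ℂ) v = v⁻¹) :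
    stm v (W v N).F = -(W v N).F := by
  ext p q
  obtain ⟨a, b⟩ := p
  obtain ⟨c, d⟩ := q
  simp only [stm, rv, Matrix.neg_apply, W_F_apply, map_add, map_mul]
  have ha := a.2
  have hb := b.2
  have hc' := c.2
  have hd := d.2
  have e1 : ∀ x y : Fin N, (starRingEnd ℂ) ((irr v N).F y.rev x.rev) =
      if (x : ℕ) = y + 1 then -br v ((N : ℤ) - (x : ℕ)) * (-1) * (-1) else 0 := by
    intro x y
    simp only [irr]
    by_cases h : (x : ℕ) = y + 1
    · have h' : ((y.rev : Fin N) : ℕ) = (x.rev : Fin N) + 1 := by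
        rw [Fin.val_rev, Fin.val_rev]; have := x.2; omega
      rw [if_pos h', if_pos h, cj_br hc]
      have h7 : (((y.rev : Fin N) : ℕ) : ℤ) = (N : ℤ) - (x : ℕ) := by
        rw [Fin.val_rev]; have := x.2; omega
      rw [h7]
      ring
    · have h' : ¬ ((y.rev : Fin N) : ℕ) = (x.rev : Fin N) + 1 := by
        rw [Fin.val_rev, Fin.val_rev]; have := y.2; have := x.2; omega
      rw [if_neg h', if_neg h, map_zero]
  have e2 : ∀ x y : Fin N, (irr v N).F x y = if (x : ℕ) = y + 1 then br v (x : ℕ) else 0 :=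
    fun x y => rfl
  have e3 : ∀ x y : Fin N, (y.rev = x.rev) ↔ (x = y) := by
    intro x y
    rw [Fin.rev_inj]
    exact eq_comm
  have key : ∀ x y : Fin N, (x : ℕ) = y + 1 → rr N v x * br v ((N : ℤ) - (x : ℕ)) =
      rr N v y * br v (x : ℕ) := by
    intro x y h
    have h1 := rr_succ hv (k := y) (by have := x.2; omega)
    rw [h]
    push_cast
    rw [h1]
    congr 2
    ring
  rw [e1, e1, e2, e2]
  by_cases h1 : (a : ℕ) = c + 1
  · rw [if_pos h1, if_pos h1]
    have h2 : ¬ c.rev = a.rev := by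
      rw [Fin.rev_inj]; intro h; rw [h] at h1; omega
    have h3 : ¬ a = c := by intro h; rw [h] at h1; omega
    rw [if_neg h2, if_neg h3, map_zero, zero_mul, zero_mul, add_zero, add_zero]
    by_cases h4 : b = d
    · subst h4
      rw [if_pos rfl, if_pos rfl, map_one]
      have h6 := key a c h1
      have n1 := rr_ne hv b.2
      have n2 := rr_ne hv c.2
      unfold Om
      simp only []
      field_simp
      linear_combination (-1 : ℂ) * h6
    · have h5 : ¬ d.rev = b.rev := by rw [e3]; exact h4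
      rw [if_neg h4, if_neg h5, map_zero]
      ring
  · rw [if_neg h1, if_neg h1, zero_mul, zero_mul, zero_add, zero_add]
    by_cases h4 : a = c
    · subst h4
      rw [if_pos rfl, if_pos rfl, cj_zpow hc]
      have h7 : - -((N : ℤ) - 1 - 2 * ((a.rev : Fin N) : ℕ)) = -((N : ℤ) - 1 - 2 * (a : ℕ)) := by
        rw [Fin.val_rev]; omega
      rw [h7]
      by_cases h5 : (b : ℕ) = d + 1
      · rw [if_pos h5, if_pos h5]
        have h6 := key b d h5
        have n1 := rr_ne hv a.2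
        have n2 := rr_ne hv d.2
        unfold Om
        simp only []
        field_simp
        linear_combination (-(v ^ (-((N : ℤ) - 1 - 2 * (a : ℕ))))) * h6
      · rw [if_neg h5, if_neg h5]
        ring
    · have h5 : ¬ c.rev = a.rev := by rw [e3]; exact h4
      rw [if_neg h4, if_neg h5, map_zero]
      ring

lemma stm_xx {v : ℂ} (hv : Adm N v) (hc : (starRingEnd ℂ) v = v⁻¹) : stm v (xx N v) = xx N v := by
  unfold xx Cas
  rw [stm_add, stm_mul hv, stm_E hv hc, stm_F hv hc, neg_mul_neg]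
  have h1 : (W v N).E * (W v N).F = (W v N).F * (W v N).E +
      diagonal fun i => br v 1 * br v ((W v N).wt i) := by
    rw [← (W_mod hv.1).comm]; abel
  rw [h1, add_assoc]
  congr 1
  ext p q
  rw [Matrix.add_apply, diagonal_apply, diagonal_apply]
  simp only [stm]
  rw [diagonal_apply]
  by_cases h : p = q
  · subst h
    rw [if_pos rfl, if_pos rfl, if_pos rfl, div_self (Om_ne hv p), one_mul, cj_lam hc, W_wt_rv]
    have h3 := lam_sub hv.1 ((W v N).wt p) 1
    have h4 : -(W v N).wt p + 1 = -((W v N).wt p - 1) := by ring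
    rw [h4, lam_neg, eq_add_of_sub_eq h3]
    ring
  · rw [if_neg h, if_neg h, if_neg, map_zero, mul_zero, add_zero]
    intro h1
    apply h
    rw [← rv_rv p, ← rv_rv q, h1]

lemma stm_PP {v : ℂ} (hv : Adm N v) (hc : (starRingEnd ℂ) v = v⁻¹) (j : ℕ) :
    stm v (PP N v j) = PP N v j := by
  induction j with
  | zero => exact stm_one hv
  | succ j ih =>
    change stm v (xx N v * PP N v j - lam v (2 * j + 1) • PP N v j) =
      xx N v * PP N v j - lam v (2 * j + 1) • PP N v j
    rw [stm_sub, stm_mul hv, stm_smul, ih, stm_xx hv hc, cj_lam hc, xx_comm (InA_PP hv.1 j)]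

/-- the coefficients of the image under the involution -/
lemma gam_stm {v : ℂ} (hv : Adm N v) (hc : (starRingEnd ℂ) v = v⁻¹) {T : Matrix (I2 N) (I2 N) ℂ}
    (hT : InA v T) (j : Fin N) : gam v (stm v T) j = (starRingEnd ℂ) (gam v T j) := by
  have h1 : ∑ j : Fin N, (starRingEnd ℂ) (gam v T j) • PP N v j = stm v T := by
    conv_rhs => rw [← sum_gam hv hT, stm_sum]
    refine sum_congr rfl fun i _ => ?_
    rw [stm_smul, stm_PP hv hc]
  rw [gam_of hv _ h1]

end Pool.Agent.Q191.RP
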