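import Pool.Agent.Q191.RP.TwG
import Pool.Agent.W709.QAT.Fin

/-!
# Explicit form of the operators of the pieces
-/

set_option autoImplicit false

namespace Pool.Agent.Q191.RP

open Matrix Finset Filter Topology
open scoped Kronecker Real
open Pool.Agent.H550R3.Jones (WM IsMod IsInt Gen br brf tens irr W crossP crossN Adm)
open Pool.Agent.W715.VC (rt)

variable {N : ℕ}

/-- the operator of a piece, explicitly -/
noncomputable def Pc.act (N : ℕ) (v : ℂ) : Pc → LF N → LF N
  | .cup i, f => fun s => match s.drop i with
      | a :: b :: r => cupv N v (a, b) * f (s.take i ++ r)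
      | _ => 0
  | .cap i, f => fun s => ∑ p : I2 N, capv N v p * f (s.take i ++ p.1 :: p.2 :: s.drop i)
  | .cross i σ, f => fun s => match s.drop i with
      | a :: b :: r => ∑ p : I2 N, (if σ then crossP N v else crossN N v) (a, b) p *
          f (s.take i ++ p.1 :: p.2 :: r)
      | _ => 0

/-- the operator of a list of pieces, explicitly -/
noncomputable def runA (N : ℕ) (v : ℂ) (D : List Pc) (f : LF N) : LF N :=
  D.foldl (fun g P => P.act N v g) f

lemma sh_iter (A : LF N →ₗ[ℂ] LF N) (i : ℕ) : ∀ (f : LF N) (s : List (Fin N)), i ≤ s.length →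
    (sh^[i] A) f s = A (fun t => f (s.take i ++ t)) (s.drop i) := by
  induction i with
  | zero => intro f s _; simp
  | succ i ih =>
    intro f s hs
    rcases s with _ | ⟨a, s⟩
    · simp at hs
    · rw [Function.iterate_succ_apply', sh_cons, ih _ _ (by simpa using hs)]
      rfl

lemma act_op (v : ℂ) (P : Pc) {n m : ℕ} (h : P.strands n = some m) (f g : LF N)
    (hfg : ∀ t : List (Fin N), t.length = n → f t = g t) (s : List (Fin N)) (hs : s.length = m) :
    P.act N v f s = P.op N v g s := by
  rcases P with i | i | ⟨i, σ⟩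
  · simp only [Pc.strands] at h
    split_ifs at h with hi
    have h1 : n + 2 = m := Option.some.inj h
    simp only [Pc.act, Pc.op]
    rw [sh_iter _ _ _ _ (by omega)]
    have hlen : (s.drop i).length = m - i := by rw [List.length_drop, hs]
    change _ = (match s.drop i with
      | a :: b :: r => cupv N v (a, b) * g (s.take i ++ r)
      | _ => 0)
    rcases hd : s.drop i with _ | ⟨a, _ | ⟨b, r⟩⟩
    · rfl
    · rfl
    · simp only []
      rw [hd] at hlen
      simp only [List.length_cons] at hlen
      rw [hfg]
      rw [List.length_append, List.length_take, hs]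
      omega
  · simp only [Pc.strands] at h
    split_ifs at h with hi
    have h1 : n - 2 = m := Option.some.inj h
    simp only [Pc.act, Pc.op]
    rw [sh_iter _ _ _ _ (by omega)]
    change _ = ∑ p : I2 N, capv N v p * g (s.take i ++ p.1 :: p.2 :: s.drop i)
    refine sum_congr rfl fun p _ => ?_
    rw [hfg]
    rw [List.length_append, List.length_take, List.length_cons, List.length_cons, List.length_drop, hs]
    omega
  · simp only [Pc.strands] at h
    split_ifs at h with hi
    have h1 : n = m := Option.some.inj h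
    simp only [Pc.act, Pc.op]
    rw [sh_iter _ _ _ _ (by omega)]
    have hlen : (s.drop i).length = m - i := by rw [List.length_drop, hs]
    change _ = (match s.drop i with
      | a :: b :: r => ∑ p : I2 N, (if σ then crossP N v else crossN N v) (a, b) p *
          g (s.take i ++ p.1 :: p.2 :: r)
      | _ => 0)
    rcases hd : s.drop i with _ | ⟨a, _ | ⟨b, r⟩⟩
    · rfl
    · rfl
    · simp only []
      rw [hd] at hlen
      simp only [List.length_cons] at hlen
      refine sum_congr rfl fun p _ => ?_
      rw [hfg]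
      rw [List.length_append, List.length_take, List.length_cons, List.length_cons, hs]
      omega

lemma run_op (v : ℂ) (D : List Pc) : ∀ {n m : ℕ} (_ : Is n m D) (f g : LF N)
    (_ : ∀ t : List (Fin N), t.length = n → f t = g t) (s : List (Fin N)) (_ : s.length = m),
    runA N v D f s = runL N v D g s := by
  induction D with
  | nil =>
    intro n m h f g hfg s hs
    rw [Is_nil] at h
    exact hfg s (by omega)
  | cons P D ih =>
    intro n m h f g hfg s hs
    rw [Is_cons] at h
    obtain ⟨k, h1, h2⟩ := h
    rw [runL_cons, LinearMap.comp_apply]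
    exact ih h2 (P.act N v f) (P.op N v g) (fun t ht => act_op v P h1 f g hfg t ht) s hs

/-- the coloured Jones polynomial of a (1,1)-tangle, explicitly -/
noncomputable def jon (N : ℕ) (D : List Pc) (v : ℂ) : ℂ :=
  if h : 0 < N then runA N v D (fun s => if s = [⟨0, h⟩] then 1 else 0) [⟨0, h⟩] else 0

lemma jon_val {D : List Pc} (hD : Is 1 1 D) (v : ℂ) {N : ℕ} (hN : 0 < N) :
    jon N D v = val v hN D := by
  unfold jon val
  rw [dif_pos hN]
  exact run_op v D hD _ _ (fun _ _ => rfl) _ rfl

lemma jon_kv {D : List Pc} (hD : Is 1 1 D) (N : ℕ) : jon N D (rt N) = kv D N := by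
  unfold kv
  split_ifs with h
  · exact jon_val hD (rt N) h
  · unfold jon
    rw [dif_neg h]

/-- the pieces of the other library -/
def Pc.q : Pc → Pool.Agent.W709.QAT.Piece
  | .cup i => .cup i
  | .cap i => .cap i
  | .cross i σ => .twist i σ 1

lemma act_q (v : ℂ) (P : Pc) (f : LF N) : P.act N v f = P.q.act N v f := by
  cases P with
  | cup i =>
    funext s
    simp only [Pc.act, Pc.q, Pool.Agent.W709.QAT.Piece.act]
    rcases s.drop i with _ | ⟨a, _ | ⟨b, r⟩⟩ <;> rfl
  | cap i => rfl
  | cross i σ =>
    funext s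
    simp only [Pc.act, Pc.q, Pool.Agent.W709.QAT.Piece.act, pow_one]
    rcases s.drop i with _ | ⟨a, _ | ⟨b, r⟩⟩ <;> rfl

lemma run_q (v : ℂ) (D : List Pc) (f : LF N) :
    runA N v D f = Pool.Agent.W709.QAT.run N v (D.map Pc.q) f := by
  unfold runA Pool.Agent.W709.QAT.run
  induction D generalizing f with
  | nil => rfl
  | cons P D ih => rw [List.map_cons, List.foldl_cons, List.foldl_cons, act_q, ih]

lemma jon_q (D : List Pc) : jon N D = Pool.Agent.W709.QAT.jones N (D.map Pc.q) := by
  funext v
  unfold jon Pool.Agent.W709.QAT.jones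
  split_ifs with h
  · rw [run_q]
  · rfl

theorem jon_cont (D : List Pc) (N : ℕ) (hN : 1 ≤ N) : ContinuousAt (jon N D) (rt N) := by
  rw [jon_q]
  exact Pool.Agent.W709.QAT.cont (D.map Pc.q) N hN

lemma Is_denom {D : List Pc} (hD : Is 2 2 D) : Is 1 1 (denom D) := by
  unfold denom
  refine Is_append (k := 3) (Is_append (k := 3) (Is_single ?_) ?_) (Is_single ?_)
  · simp [Pc.strands]
  · exact Is_pad hD 1
  · simp [Pc.strands]

lemma Is_numer {D : List Pc} (hD : Is 2 2 D) : Is 1 1 (numer D) := by
  unfold numer
  refine Is_append (k := 3) (Is_append (k := 3) (Is_single ?_) ?_) (Is_single ?_)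
  · simp [Pc.strands]
  · exact Is_pad hD 1
  · simp [Pc.strands]

lemma Is_glue {S T : List Pc} (hS : Is 2 2 S) (hT : Is 2 2 T) : Is 1 1 (glue S T) := by
  rw [glue_eq]
  exact Is_denom (Is_append (Is_rot hS) hT)

lemma Is_dbl {T : List Pc} (hT : Is 2 2 T) : Is 1 1 (dbl T) := Is_glue (Is_ds hT) hT

lemma Is_tb (l : List ℤ) : Is 1 1 (tb l) := by
  cases l with
  | nil => exact Is_denom Is_nil2
  | cons a l => exact Is_denom (Is_bld _ Is_nil2)

end Pool.Agent.Q191.RP
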