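import Pool.Agent.Q191.RP.Grw

/-!
# The powers of the crossing: divided differences
-/

set_option autoImplicit false

namespace Pool.Agent.Q191.RP

open Matrix Finset
open scoped Kronecker
open Pool.Agent.H550R3.Jones (WM IsMod IsInt Gen br brf tens irr W crossP crossN Adm)
open Pool.Agent.H927R2.J.SanYB (brf_ne)
open Pool.Agent.W715.VC (brf_succ')
open Pool.Agent.Q191.FT (lam lam_sub lam_neg)

variable {N : ℕ}

/-- the entries of the powers of the crossing in the Newton basis -/
noncomputable def tt (N : ℕ) (v : ℂ) : ℕ → ℕ → ℕ → ℂ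
  | 0, i, j => if i = j then 1 else 0
  | a + 1, i, j => ∑ l ∈ range N, sg N v i l * tt N v a l j

lemma InA_pow {v : ℂ} (hv : Adm N v) (a : ℕ) : InA v (crossP N v ^ a) := by
  induction a with
  | zero => rw [pow_zero]; exact InA.one v
  | succ a ih => rw [pow_succ]; exact ih.mul (InA_P hv)

lemma gam_Ppow {v : ℂ} (hv : Adm N v) {T : Matrix (I2 N) (I2 N) ℂ} (hT : InA v T) (a : ℕ) :
    ∀ i : Fin N, gam v (crossP N v ^ a * T) i = ∑ j : Fin N, tt N v a i j * gam v T j := by
  induction a with
  | zero =>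
    intro i
    rw [pow_zero, one_mul, sum_eq_single i]
    · simp [tt]
    · intro j _ hj
      have : ¬ ((i : ℕ) = (j : ℕ)) := fun h => hj (Fin.ext h.symm)
      simp [tt, this]
    · intro h; exact absurd (mem_univ _) h
  | succ a ih =>
    intro i
    rw [pow_succ', mul_assoc, gam_P hv ((InA_pow hv a).mul hT)]
    simp only [ih, mul_sum]
    rw [sum_comm]
    refine sum_congr rfl fun j _ => ?_
    simp only [tt]
    rw [sum_mul, ← Fin.sum_univ_eq_sum_range (fun l => sg N v i l * tt N v a l j * gam v T j) N]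
    refine sum_congr rfl fun l _ => ?_
    ring

lemma tt_low (v : ℂ) (a : ℕ) : ∀ i j : ℕ, i < j → tt N v a i j = 0 := by
  induction a with
  | zero =>
    intro i j h
    simp only [tt]
    rw [if_neg (by omega)]
  | succ a ih =>
    intro i j h
    simp only [tt]
    apply sum_eq_zero
    intro l _
    by_cases h1 : l ≤ i
    · rw [ih l j (by omega), mul_zero]
    · unfold sg
      rw [if_neg h1, zero_mul]

lemma tt_diag (v : ℂ) (a : ℕ) {i : ℕ} (hi : i < N) : tt N v a i i = sg N v i i ^ a := by
  induction a with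
  | zero => simp [tt]
  | succ a ih =>
    simp only [tt]
    rw [sum_eq_single i, ih, pow_succ, mul_comm]
    · intro l _ hl
      rcases lt_or_gt_of_ne hl with h | h
      · rw [tt_low v a l i h, mul_zero]
      · unfold sg
        rw [if_neg (by omega), zero_mul]
    · intro h
      exact absurd (mem_range.2 hi) h

/-- the nodes -/
noncomputable def nod (v : ℂ) (k : ℕ) : ℂ := lam v (2 * (k : ℤ) + 1)

lemma nod_sub {v : ℂ} (hv : v ≠ 0) (k l : ℕ) :
    nod v k - nod v l = br v ((k : ℤ) + l + 1) * br v ((k : ℤ) - l) := by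
  have h4 := lam_sub hv ((k : ℤ) + l + 1) ((k : ℤ) - l)
  have e1 : (k : ℤ) + l + 1 + ((k : ℤ) - l) = 2 * k + 1 := by ring
  have e2 : (k : ℤ) + l + 1 - ((k : ℤ) - l) = 2 * l + 1 := by ring
  rw [e1, e2] at h4
  exact h4

lemma tt_succ {v : ℂ} (hv : Adm N v) (a : ℕ) : ∀ {i j : ℕ}, i + 1 < N →
    tt N v a i j + (nod v (i + 1) - nod v j) * tt N v a (i + 1) j = tt N v a (i + 1) (j + 1) := by
  induction a with
  | zero =>
    intro i j _
    simp only [tt]
    by_cases h1 : i = j
    · subst h1
      rw [if_pos rfl, if_neg (by omega), if_pos rfl]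
      ring
    · rw [if_neg h1, if_neg (show ¬ i + 1 = j + 1 by omega)]
      by_cases h2 : i + 1 = j
      · subst h2
        rw [if_pos rfl]
        ring
      · rw [if_neg h2]
        ring
  | succ a ih =>
    intro i j hi
    obtain ⟨n, rfl⟩ : ∃ n, N = n + 1 := ⟨N - 1, by omega⟩
    simp only [tt]
    have hR : ∑ l ∈ range (n + 1), sg (n + 1) v (i + 1) l * tt (n + 1) v a l (j + 1) =
        ∑ l ∈ range n, sg (n + 1) v (i + 1) (l + 1) *
          (tt (n + 1) v a l j + (nod v (l + 1) - nod v j) * tt (n + 1) v a (l + 1) j) := by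
      rw [sum_range_succ', tt_low v a 0 (j + 1) (by omega), mul_zero, add_zero]
      refine sum_congr rfl fun l hl => ?_
      rw [mem_range] at hl
      rw [ih (by omega)]
    have hL : ∑ l ∈ range (n + 1), sg (n + 1) v i l * tt (n + 1) v a l j +
        (nod v (i + 1) - nod v j) * ∑ l ∈ range (n + 1), sg (n + 1) v (i + 1) l * tt (n + 1) v a l j =
        ∑ l ∈ range (n + 1), sg (n + 1) v (i + 1) (l + 1) * tt (n + 1) v a l j +
        ∑ l ∈ range (n + 1), (nod v l - nod v j) * sg (n + 1) v (i + 1) l * tt (n + 1) v a l j := by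
      rw [mul_sum, ← sum_add_distrib, ← sum_add_distrib]
      refine sum_congr rfl fun l _ => ?_
      have h := sg_succ hv (i := i) (j := l) hi
      change sg (n + 1) v i l + (nod v (i + 1) - nod v l) * sg (n + 1) v (i + 1) l = _ at h
      rw [← h]
      ring
    rw [hL, hR, sum_range_succ, sum_range_succ' (fun l => (nod v l - nod v j) *
      sg (n + 1) v (i + 1) l * tt (n + 1) v a l j)]
    have h1 : sg (n + 1) v (i + 1) (n + 1) = 0 := by
      unfold sg
      rw [if_neg (by omega)]
    have h2 : (nod v 0 - nod v j) * sg (n + 1) v (i + 1) 0 * tt (n + 1) v a 0 j = 0 := by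
      rcases Nat.eq_zero_or_pos j with h | h
      · subst h; ring
      · rw [tt_low v a 0 j h, mul_zero]
    rw [h1, h2, zero_mul, add_zero, add_zero, ← sum_add_distrib]
    refine sum_congr rfl fun l _ => ?_
    ring

/-! ### divided differences -/

/-- the products of the differences of the nodes -/
noncomputable def prd (c : ℕ → ℂ) (j i k : ℕ) : ℂ := ∏ l ∈ (Icc j i).erase k, (c k - c l)

lemma prd_top (c : ℕ → ℂ) {j i k : ℕ} (hk : k ≤ i) (hj : j ≤ k) :
    prd c j (i + 1) k = prd c j i k * (c k - c (i + 1)) := by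
  unfold prd
  have h : (Icc j (i + 1)).erase k = insert (i + 1) ((Icc j i).erase k) := by
    ext l
    simp only [mem_erase, mem_Icc, mem_insert]
    omega
  rw [h, prod_insert (by simp), mul_comm]

lemma prd_bot (c : ℕ → ℂ) {j i k : ℕ} (hk : k ≤ i) (hj : j + 1 ≤ k) :
    prd c j i k = (c k - c j) * prd c (j + 1) i k := by
  unfold prd
  have h : (Icc j i).erase k = insert j ((Icc (j + 1) i).erase k) := by
    ext l
    simp only [mem_erase, mem_Icc, mem_insert]
    omega
  rw [h, prod_insert (by simp)]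

lemma prd_ne {c : ℕ → ℂ} {M : ℕ} (hc : ∀ k l, k < M → l < M → k ≠ l → c k ≠ c l) {j i k : ℕ}
    (hk : k < M) (hi : i < M) : prd c j i k ≠ 0 := by
  unfold prd
  rw [prod_ne_zero_iff]
  intro l hl
  rw [mem_erase, mem_Icc] at hl
  exact sub_ne_zero.2 (hc k l hk (by omega) (Ne.symm hl.1))

/-- the divided differences -/
noncomputable def gg (c μ : ℕ → ℂ) (j i : ℕ) : ℂ := ∑ k ∈ Icc j i, μ k / prd c j i k

lemma gg_succ {c : ℕ → ℂ} {M : ℕ} (hc : ∀ k l, k < M → l < M → k ≠ l → c k ≠ c l) (μ : ℕ → ℂ)
    {j i : ℕ} (hji : j ≤ i) (hi : i + 1 < M) :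
    gg c μ j i + (c (i + 1) - c j) * gg c μ j (i + 1) = gg c μ (j + 1) (i + 1) := by
  have e1 : gg c μ (j + 1) (i + 1) = ∑ k ∈ Icc j (i + 1), μ k * ((c k - c j) / prd c j (i + 1) k) := by
    have h : Icc j (i + 1) = insert j (Icc (j + 1) (i + 1)) := by
      ext l
      simp only [mem_Icc, mem_insert]
      omega
    rw [h, sum_insert (by simp), sub_self, zero_div, mul_zero, zero_add]
    unfold gg
    refine sum_congr rfl fun k hk => ?_
    rw [mem_Icc] at hk
    rw [prd_bot c hk.2 hk.1]
    have h1 : c k - c j ≠ 0 := sub_ne_zero.2 (hc k j (by omega) (by omega) (by omega))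
    have h2 : prd c (j + 1) (i + 1) k ≠ 0 := prd_ne hc (by omega) hi
    field_simp
  have e2 : gg c μ j i = ∑ k ∈ Icc j (i + 1), μ k * ((c k - c (i + 1)) / prd c j (i + 1) k) := by
    have h : Icc j (i + 1) = insert (i + 1) (Icc j i) := by
      ext l
      simp only [mem_Icc, mem_insert]
      omega
    rw [h, sum_insert (by simp), sub_self, zero_div, mul_zero, zero_add]
    unfold gg
    refine sum_congr rfl fun k hk => ?_
    rw [mem_Icc] at hk
    rw [prd_top c hk.2 hk.1]
    have h1 : c k - c (i + 1) ≠ 0 := sub_ne_zero.2 (hc k (i + 1) (by omega) (by omega) (by omega))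
    have h2 : prd c j i k ≠ 0 := prd_ne hc (by omega) (by omega)
    field_simp
  rw [e1, e2]
  unfold gg
  rw [mul_sum, ← sum_add_distrib]
  refine sum_congr rfl fun k _ => ?_
  ring

lemma gg_diag (c μ : ℕ → ℂ) (i : ℕ) : gg c μ i i = μ i := by
  unfold gg prd
  rw [Icc_self, sum_singleton]
  simp

/-- the entries of the powers of the crossing are divided differences -/
lemma tt_gg {v : ℂ} (hv : Adm N v) (hc : ∀ k l, k < N → l < N → k ≠ l → nod v k ≠ nod v l) (a : ℕ) :
    ∀ d j : ℕ, j + d < N → tt N v a (j + d) j = gg (nod v) (fun k => sg N v k k ^ a) j (j + d) := by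
  intro d
  induction d with
  | zero =>
    intro j hj
    rw [add_zero, tt_diag v a (by omega), gg_diag]
  | succ d ih =>
    intro j hj
    have h1 := tt_succ hv a (i := j + d) (j := j) (by omega)
    have h2 := gg_succ hc (fun k => sg N v k k ^ a) (j := j) (i := j + d) (by omega) (by omega)
    have h3 := ih j (by omega)
    have h4 := ih (j + 1) (by omega)
    rw [show j + 1 + d = j + d + 1 by ring] at h4
    rw [h3, h4] at h1
    have h5 : nod v (j + d + 1) - nod v j ≠ 0 :=
      sub_ne_zero.2 (hc _ _ (by omega) (by omega) (by omega))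
    rw [← add_assoc]
    apply mul_left_cancel₀ h5
    linear_combination h1 - h2

end Pool.Agent.Q191.RP
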