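import Pool.Agent.Q191.RP.TwA

/-!
# Quantum integers near the root of unity
-/

set_option autoImplicit false

namespace Pool.Agent.Q191.RP

open Finset
open scoped Real
open Pool.Agent.H550R3.Jones (WM IsMod IsInt Gen br brf tens irr W crossP crossN Adm)
open Pool.Agent.H927R2.J.SanYB (brf_ne)
open Pool.Agent.W715.VC (brf_succ' rt rt_ne br_rt sn rt_zpow)

variable {N : ℕ}

/-- the radius -/
noncomputable def rad (N : ℕ) : ℝ := 1 / (N : ℝ) ^ 4

lemma norm_rt (N : ℕ) : ‖rt N‖ = 1 := by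
  unfold rt
  have h : (Real.pi * Complex.I / N : ℂ) = ((Real.pi / N : ℝ) : ℂ) * Complex.I := by
    push_cast; ring
  rw [h, Complex.norm_exp_ofReal_mul_I]

lemma rad_pos (hN : 0 < N) : 0 < rad N := by
  unfold rad
  have : (0 : ℝ) < N := by exact_mod_cast hN
  positivity

lemma rad_mul {m : ℕ} (hN : 2 ≤ N) (hm : m ≤ N ^ 3) : (m : ℝ) * rad N ≤ 1 / N := by
  have hN' : (0 : ℝ) < N := by exact_mod_cast (by omega : 0 < N)
  have hm' : (m : ℝ) ≤ (N : ℝ) ^ 3 := by exact_mod_cast hm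
  unfold rad
  rw [mul_one_div, div_le_div_iff₀ (by positivity) hN']
  calc (m : ℝ) * N ≤ (N : ℝ) ^ 3 * N := by gcongr
    _ = 1 * (N : ℝ) ^ 4 := by ring

lemma norm_near {v : ℂ} (hv : ‖v - rt N‖ ≤ rad N) : 1 - rad N ≤ ‖v‖ ∧ ‖v‖ ≤ 1 + rad N := by
  have h1 := norm_rt N
  have h2 : ‖v‖ ≤ ‖v - rt N‖ + ‖rt N‖ := by
    calc ‖v‖ = ‖(v - rt N) + rt N‖ := by rw [sub_add_cancel]
      _ ≤ _ := norm_add_le _ _
  have h3 : ‖rt N‖ ≤ ‖v - rt N‖ + ‖v‖ := by
    calc ‖rt N‖ = ‖v - (v - rt N)‖ := by rw [sub_sub_cancel]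
      _ ≤ ‖v‖ + ‖v - rt N‖ := norm_sub_le _ _
      _ = _ := add_comm _ _
  constructor <;> linarith

lemma norm_pow_le {v : ℂ} (hN : 2 ≤ N) (hv : ‖v - rt N‖ ≤ rad N) {m : ℕ} (hm : m ≤ N ^ 3) :
    ‖v‖ ^ m ≤ 2 := by
  have hN' : (2 : ℝ) ≤ N := by exact_mod_cast hN
  have h1 := rad_mul hN hm
  have h2 := rad_pos (N := N) (by omega)
  calc ‖v‖ ^ m ≤ (1 + rad N) ^ m := pow_le_pow_left₀ (norm_nonneg _) (norm_near hv).2 m
    _ ≤ Real.exp (rad N) ^ m := by
        apply pow_le_pow_left₀ (by linarith)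
        have := Real.add_one_le_exp (rad N)
        linarith
    _ = Real.exp (m * rad N) := by rw [← Real.exp_nat_mul]
    _ ≤ Real.exp (1 / 2) := by
        rw [Real.exp_le_exp]
        refine h1.trans ?_
        rw [div_le_div_iff₀ (by linarith) (by norm_num)]
        linarith
    _ ≤ 2 := by
        have := Real.exp_one_lt_d9
        have h3 : Real.exp (1 / 2) ^ 2 = Real.exp 1 := by
          rw [← Real.exp_nat_mul]; norm_num
        have h4 := Real.exp_pos (1 / 2)
        nlinarith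

lemma norm_pow_ge {v : ℂ} (hN : 2 ≤ N) (hv : ‖v - rt N‖ ≤ rad N) {m : ℕ} (hm : m ≤ N ^ 3) :
    1 / 2 ≤ ‖v‖ ^ m := by
  have hN' : (2 : ℝ) ≤ N := by exact_mod_cast hN
  have h1 := rad_mul hN hm
  have h2 := rad_pos (N := N) (by omega)
  have h3 : rad N ≤ 1 := by
    have := rad_mul (N := N) (m := 1) hN (Nat.one_le_pow _ _ (by omega))
    push_cast at this
    rw [one_mul] at this
    refine this.trans ?_
    rw [div_le_one (by linarith)]
    linarith
  have h4 := one_add_mul_le_pow (show (-2 : ℝ) ≤ -rad N by linarith) m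
  have h5 : (1 + -rad N) ^ m ≤ ‖v‖ ^ m :=
    pow_le_pow_left₀ (by linarith) (by linarith [(norm_near hv).1]) m
  have h6 : 1 / (N : ℝ) ≤ 1 / 2 := by
    rw [div_le_div_iff₀ (by linarith) (by norm_num)]
    linarith
  nlinarith

lemma norm_pos_near {v : ℂ} (hN : 2 ≤ N) (hv : ‖v - rt N‖ ≤ rad N) : 0 < ‖v‖ := by
  have h := norm_pow_ge hN hv (m := 1) (Nat.one_le_pow _ _ (by omega))
  rw [pow_one] at h
  linarith

/-- the difference of powers -/
lemma pow_diff {v : ℂ} (hN : 2 ≤ N) (hv : ‖v - rt N‖ ≤ rad N) {m : ℕ} (hm : m ≤ N ^ 3) :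
    ‖v ^ m - rt N ^ m‖ ≤ 2 * m * rad N := by
  have h2 := rad_pos (N := N) (by omega)
  have key : ∀ m : ℕ, ‖v ^ m - rt N ^ m‖ ≤ m * rad N * (1 + rad N) ^ m := by
    intro m
    induction m with
    | zero => simp
    | succ m ih =>
      have h3 : v ^ (m + 1) - rt N ^ (m + 1) = v * (v ^ m - rt N ^ m) + (v - rt N) * rt N ^ m := by
        ring
      rw [h3]
      refine (norm_add_le _ _).trans ?_
      rw [norm_mul, norm_mul, norm_pow, norm_rt, one_pow, mul_one]
      have h4 := (norm_near hv).2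
      have h5 : 1 ≤ (1 + rad N) ^ (m + 1) := one_le_pow₀ (by linarith)
      calc ‖v‖ * ‖v ^ m - rt N ^ m‖ + ‖v - rt N‖ ≤ (1 + rad N) * (m * rad N * (1 + rad N) ^ m) +
            rad N * (1 + rad N) ^ (m + 1) := by
            apply add_le_add
            · exact mul_le_mul h4 ih (norm_nonneg _) (by linarith)
            · nlinarith
        _ = ((m + 1 : ℕ) : ℝ) * rad N * (1 + rad N) ^ (m + 1) := by push_cast; ring
  refine (key m).trans ?_
  have h6 : (1 + rad N) ^ m ≤ 2 := by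
    have h7 : ‖(((1 + rad N : ℝ) : ℂ) * rt N)‖ = 1 + rad N := by
      rw [norm_mul, norm_rt, mul_one, Complex.norm_real, Real.norm_of_nonneg (by linarith)]
    have h8 := norm_pow_le (v := ((1 + rad N : ℝ) : ℂ) * rt N) hN (by
      have : ((1 + rad N : ℝ) : ℂ) * rt N - rt N = ((rad N : ℝ) : ℂ) * rt N := by push_cast; ring
      rw [this, norm_mul, norm_rt, mul_one, Complex.norm_real, Real.norm_of_nonneg h2.le]) hm
    rw [h7] at h8
    exact h8
  have h9 : (0 : ℝ) ≤ m * rad N := by positivity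
  nlinarith

/-- the difference of the quantum integers -/
lemma br_diff {v : ℂ} (hN : 2 ≤ N) (hv : ‖v - rt N‖ ≤ rad N) {m : ℕ} (hm : m ≤ N ^ 3) :
    ‖br v m - br (rt N) m‖ ≤ 6 * m * rad N := by
  have h1 := pow_diff hN hv hm
  have h2 := norm_pow_ge hN hv hm
  have h0 := norm_pos_near hN hv
  have hv0 : v ≠ 0 := norm_pos_iff.1 h0
  have hr0 := rt_ne N
  have h3 : br v m - br (rt N) m = (v ^ m - rt N ^ m) + (v ^ m - rt N ^ m) / (v ^ m * rt N ^ m) := by
    unfold br
    rw [_root_.zpow_neg, _root_.zpow_neg, zpow_natCast, zpow_natCast]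
    have g1 : v ^ m ≠ 0 := pow_ne_zero _ hv0
    have g2 : rt N ^ m ≠ 0 := pow_ne_zero _ hr0
    field_simp
    ring
  rw [h3]
  refine (norm_add_le _ _).trans ?_
  have h4 : ‖(v ^ m - rt N ^ m) / (v ^ m * rt N ^ m)‖ ≤ 4 * m * rad N := by
    rw [norm_div, norm_mul, norm_pow, norm_pow, norm_rt, one_pow, mul_one,
      div_le_iff₀ (by linarith)]
    have := rad_pos (N := N) (by omega)
    have h5 : (0 : ℝ) ≤ 4 * m * rad N := by positivity
    nlinarith
  linarith

lemma sg_ge {m : ℕ} (hm : ¬ N ∣ m) (hN : 2 ≤ N) (hm2 : m < 2 * N) : 4 / (N : ℝ) ≤ EvenVol.sg N m := by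
  have hN' : (0 : ℝ) < N := by exact_mod_cast (by omega : 0 < N)
  unfold EvenVol.sg
  rw [if_neg hm, abs_mul, abs_two]
  have hm0 : m ≠ 0 := fun h => hm (by rw [h]; exact dvd_zero N)
  have hmN : m ≠ N := fun h => hm (by rw [h])
  -- reduce to `m < N`
  have key : ∀ n : ℕ, 0 < n → n < N → 2 / (N : ℝ) ≤ |Real.sin (π * n / N)| := by
    intro n h0 h1
    have h0' : (1 : ℝ) ≤ n := by exact_mod_cast h0
    have h1' : (n : ℝ) + 1 ≤ N := by exact_mod_cast h1
    have hpi := Real.pi_pos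
    rcases le_or_gt (2 * n) N with h2 | h2
    · have h2' : (2 : ℝ) * n ≤ N := by exact_mod_cast h2
      have h3 := Real.mul_le_sin (x := π * n / N) (by positivity) (by
        rw [div_le_div_iff₀ hN' (by norm_num)]
        nlinarith)
      refine le_trans ?_ (le_trans h3 (le_abs_self _))
      have h4 : 2 / π * (π * n / N) = 2 * n / N := by field_simp
      rw [h4]
      gcongr
      linarith
    · have h2' : (N : ℝ) ≤ 2 * n := by exact_mod_cast h2.le
      have h5 : Real.sin (π * n / N) = Real.sin (π - π * n / N) := (Real.sin_pi_sub _).symm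
      have h6 : π - π * n / N = π * (N - n) / N := by field_simp
      rw [h5, h6]
      have h3 := Real.mul_le_sin (x := π * (N - n) / N) (by
        apply div_nonneg _ hN'.le
        apply mul_nonneg hpi.le
        linarith) (by
        rw [div_le_div_iff₀ hN' (by norm_num)]
        nlinarith)
      refine le_trans ?_ (le_trans h3 (le_abs_self _))
      have h4 : 2 / π * (π * (N - n) / N) = 2 * (N - n) / N := by field_simp
      rw [h4]
      gcongr
      linarith
  rcases lt_or_gt_of_ne hmN with h | h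
  · have := key m (by omega) h
    have e : 4 / (N : ℝ) = 2 * (2 / N) := by ring
    rw [e]
    linarith
  · have h1 := key (m - N) (by omega) (by omega)
    have h2 : Real.sin (π * ((m - N : ℕ) : ℝ) / N) = -Real.sin (π * m / N) := by
      rw [Nat.cast_sub h.le]
      have : π * ((m : ℝ) - N) / N = π * m / N - π := by field_simp
      rw [this, Real.sin_sub_pi]
    rw [h2, abs_neg] at h1
    have e : 4 / (N : ℝ) = 2 * (2 / N) := by ring
    rw [e]
    linarith

lemma norm_br_rt {m : ℕ} (hm : ¬ N ∣ m) : ‖br (rt N) m‖ = EvenVol.sg N m := by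
  unfold EvenVol.sg
  rw [if_neg hm, br_rt, norm_mul, norm_mul, Complex.norm_I, mul_one, Complex.norm_real, abs_mul]
  have h2 : ‖(2 : ℂ)‖ = |(2 : ℝ)| := by simp
  rw [h2, Real.norm_eq_abs]
  unfold sn
  push_cast
  rfl

/-- lower bound of the quantum integers near the root -/
lemma br_near {v : ℂ} (hN : 2 ≤ N) (hv : ‖v - rt N‖ ≤ rad N) {m : ℕ} (hm : ¬ N ∣ m)
    (hm2 : m < 2 * N) : EvenVol.sg N m * (1 - 3 / (N : ℝ) ^ 2) ≤ ‖br v m‖ := by
  have hN' : (2 : ℝ) ≤ N := by exact_mod_cast hN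
  have hm3 : m ≤ N ^ 3 := by
    have : 2 * N ≤ N ^ 3 := by
      calc 2 * N ≤ N * N := Nat.mul_le_mul_right N hN
        _ ≤ N * N * N := Nat.le_mul_of_pos_right _ (by omega)
        _ = N ^ 3 := by ring
    omega
  have h1 := br_diff hN hv hm3
  have h2 := sg_ge hm hN hm2
  have h3 := norm_br_rt (N := N) hm
  have h4 : ‖br (rt N) m‖ ≤ ‖br v m - br (rt N) m‖ + ‖br v m‖ := by
    calc ‖br (rt N) m‖ = ‖br v m - (br v m - br (rt N) m)‖ := by rw [sub_sub_cancel]
      _ ≤ ‖br v m‖ + ‖br v m - br (rt N) m‖ := norm_sub_le _ _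
      _ = _ := add_comm _ _
  have h5 : 6 * (m : ℝ) * rad N ≤ 12 / (N : ℝ) ^ 3 := by
    have hm2' : (m : ℝ) ≤ 2 * N := by exact_mod_cast hm2.le
    unfold rad
    rw [mul_one_div, div_le_div_iff₀ (by positivity) (by positivity)]
    calc 6 * (m : ℝ) * (N : ℝ) ^ 3 ≤ 6 * (2 * N) * (N : ℝ) ^ 3 := by gcongr
      _ = 12 * (N : ℝ) ^ 4 := by ring
  have h6 : 12 / (N : ℝ) ^ 3 = 4 / N * (3 / (N : ℝ) ^ 2) := by
    field_simp
    norm_num
  have h7 : 4 / (N : ℝ) * (3 / (N : ℝ) ^ 2) ≤ EvenVol.sg N m * (3 / (N : ℝ) ^ 2) := by gcongr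
  rw [h3] at h4
  have h8 : EvenVol.sg N m * (1 - 3 / (N : ℝ) ^ 2) =
      EvenVol.sg N m - EvenVol.sg N m * (3 / (N : ℝ) ^ 2) := by ring
  rw [h8]
  linarith

/-- the quantum integer `{N}` on the circle -/
lemma br_N_circle {v : ℂ} (hN : 4 ≤ N) (hv : ‖v - rt N‖ = rad N) : rad N ≤ ‖br v N‖ := by
  have hN2 : 2 ≤ N := by omega
  have hN' : (4 : ℝ) ≤ N := by exact_mod_cast hN
  have h0 := norm_pos_near hN2 hv.le
  have hv0 : v ≠ 0 := norm_pos_iff.1 h0
  have hr := rad_pos (N := N) (by omega)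
  have hNN : 2 * N ≤ N ^ 3 := by
    calc 2 * N ≤ N * N := Nat.mul_le_mul_right N hN2
      _ ≤ N * N * N := Nat.le_mul_of_pos_right _ (by omega)
      _ = N ^ 3 := by ring
  -- `rt N ^ (2 N) = 1`
  have hrt : rt N ^ (2 * N) = 1 := by
    have h1 := (Kr_rt (N := N) (by omega)).vN
    have h2 : rt N ^ (2 * N) = rt N ^ (2 * (N : ℤ)) := by
      rw [← zpow_natCast]
      push_cast
      rfl
    rw [h2, h1]
  -- the geometric sum
  have hg : (v - rt N) * ∑ l ∈ range (2 * N), v ^ l * rt N ^ (2 * N - 1 - l) = v ^ (2 * N) - rt N ^ (2 * N) := by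
    have := (Commute.all v (rt N)).geom_sum₂_mul (2 * N)
    rw [mul_comm]
    exact this
  have hs : (N : ℝ) ≤ ‖∑ l ∈ range (2 * N), v ^ l * rt N ^ (2 * N - 1 - l)‖ := by
    have h3 : ∑ l ∈ range (2 * N), v ^ l * rt N ^ (2 * N - 1 - l) =
        ((2 * N : ℕ) : ℂ) * rt N ^ (2 * N - 1) +
        ∑ l ∈ range (2 * N), (v ^ l - rt N ^ l) * rt N ^ (2 * N - 1 - l) := by
      have h4 : ((2 * N : ℕ) : ℂ) * rt N ^ (2 * N - 1) = ∑ l ∈ range (2 * N), rt N ^ l * rt N ^ (2 * N - 1 - l) := by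
        rw [sum_congr rfl (g := fun _ => rt N ^ (2 * N - 1))]
        · rw [sum_const, card_range, nsmul_eq_mul]
        · intro l hl
          rw [mem_range] at hl
          rw [← pow_add]
          congr 1
          omega
      rw [h4, ← sum_add_distrib]
      refine sum_congr rfl fun l _ => ?_
      ring
    have h5 : ‖∑ l ∈ range (2 * N), (v ^ l - rt N ^ l) * rt N ^ (2 * N - 1 - l)‖ ≤ N := by
      refine (norm_sum_le _ _).trans ?_
      have h6 : ∀ l ∈ range (2 * N), ‖(v ^ l - rt N ^ l) * rt N ^ (2 * N - 1 - l)‖ ≤ 1 / 2 := by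
        intro l hl
        rw [mem_range] at hl
        rw [norm_mul, norm_pow, norm_rt, one_pow, mul_one]
        have h7 := pow_diff hN2 hv.le (m := l) (by omega)
        have h8 := rad_mul (N := N) (m := l) hN2 (by omega)
        have h9 : 1 / (N : ℝ) ≤ 1 / 4 := by
          rw [div_le_div_iff₀ (by linarith) (by norm_num)]
          linarith
        linarith
      refine (sum_le_sum h6).trans ?_
      rw [sum_const, card_range, nsmul_eq_mul]
      push_cast
      linarith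
    have h10 : ‖((2 * N : ℕ) : ℂ) * rt N ^ (2 * N - 1)‖ = 2 * N := by
      rw [norm_mul, norm_pow, norm_rt, one_pow, mul_one, Complex.norm_natCast]
      push_cast
      rfl
    rw [h3]
    have h11 := norm_sub_norm_le (((2 * N : ℕ) : ℂ) * rt N ^ (2 * N - 1))
      (-(∑ l ∈ range (2 * N), (v ^ l - rt N ^ l) * rt N ^ (2 * N - 1 - l)))
    rw [norm_neg, sub_neg_eq_add, h10] at h11
    linarith
  have h12 : br v (N : ℤ) = (v ^ (2 * N) - 1) / v ^ N := by
    unfold br
    rw [_root_.zpow_neg, zpow_natCast]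
    have g1 : v ^ N ≠ 0 := pow_ne_zero _ hv0
    have g2 : v ^ (2 * N) = v ^ N * v ^ N := by rw [← pow_add]; congr 1; ring
    rw [g2]
    field_simp
  rw [h12, norm_div, norm_pow]
  have h13 := norm_pow_le hN2 hv.le (m := N) (by
    calc N ≤ 2 * N := by omega
      _ ≤ N ^ 3 := hNN)
  rw [hrt] at hg
  rw [← hg, norm_mul, hv]
  rw [le_div_iff₀ (by positivity)]
  nlinarith

end Pool.Agent.Q191.RP
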