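import Pool.Agent.Q191.RP.TwB

/-!
# The entries of the powers of the crossing: growth
-/

set_option autoImplicit false

namespace Pool.Agent.Q191.RP

open Finset Filter Topology
open scoped Real
open Pool.Agent.H550R3.Jones (WM IsMod IsInt Gen br brf tens irr W crossP crossN Adm)
open Pool.Agent.H927R2.J.SanYB (brf_ne)
open Pool.Agent.W715.VC (brf_succ' rt rt_ne br_rt sn rt_zpow)
open GapVol (lob)

variable {N : ℕ}

/-- the logarithms -/
noncomputable def ls (N m : ℕ) : ℝ := Real.log (EvenVol.sg N m)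

lemma S_succ (N m : ℕ) : EvenVol.S N (m + 1) = EvenVol.S N m + ls N (m + 1) := by
  unfold EvenVol.S ls
  rw [sum_range_succ]

lemma S_zero' (N : ℕ) : EvenVol.S N 0 = 0 := by
  unfold EvenVol.S
  simp

lemma sum_ls (N k j i : ℕ) (h : j ≤ i) :
    ∑ l ∈ Icc j i, ls N (k + l + 1) = EvenVol.S N (i + k + 1) - EvenVol.S N (j + k) := by
  induction i, h using Nat.le_induction with
  | base =>
    rw [Icc_self, sum_singleton, S_succ, show k + j + 1 = j + k + 1 by ring]
    ring
  | succ i hi ih =>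
    rw [sum_Icc_succ_top (by omega), ih, show i + 1 + k + 1 = (i + 1 + k) + 1 by ring, S_succ N (i + 1 + k),
      show k + (i + 1) + 1 = i + 1 + k + 1 by ring, show i + k + 1 = i + 1 + k by ring]
    ring

lemma sum_ls_low (N : ℕ) : ∀ d j : ℕ, ∑ l ∈ Ico j (j + d), ls N (j + d - l) = EvenVol.S N d := by
  intro d
  induction d with
  | zero => intro j; simp [S_zero']
  | succ d ih =>
    intro j
    rw [sum_eq_sum_Ico_succ_bot (by omega), S_succ]
    have h := ih (j + 1)
    rw [show j + 1 + d = j + (d + 1) by ring] at h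
    rw [h, show j + (d + 1) - j = d + 1 by omega]
    ring

lemma sum_ls_abs (N : ℕ) {k j i : ℕ} (h1 : j ≤ k) (h2 : k ≤ i) :
    ∑ l ∈ (Icc j i).erase k, ls N ((k - l) + (l - k)) = EvenVol.S N (k - j) + EvenVol.S N (i - k) := by
  induction i, h2 using Nat.le_induction with
  | base =>
    have e : (Icc j k).erase k = Ico j k := by
      ext l; simp only [mem_erase, mem_Icc, mem_Ico]; omega
    rw [e, Nat.sub_self, S_zero', add_zero]
    have h := sum_ls_low N (k - j) j
    rw [show j + (k - j) = k by omega] at h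
    rw [← h]
    refine sum_congr rfl fun l hl => ?_
    rw [mem_Ico] at hl
    congr 1
    omega
  | succ i hi ih =>
    have e : (Icc j (i + 1)).erase k = insert (i + 1) ((Icc j i).erase k) := by
      ext l; simp only [mem_erase, mem_Icc, mem_insert]; omega
    rw [e, sum_insert (by simp), ih, show i + 1 - k = (i - k) + 1 by omega, S_succ]
    have : (k - (i + 1)) + (i - k + 1) = i - k + 1 := by omega
    rw [this]
    ring

lemma sg_pos' (N m : ℕ) (hN : 2 ≤ N) (hm : m < 2 * N) : 0 < EvenVol.sg N m := by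
  by_cases h : N ∣ m
  · unfold EvenVol.sg; rw [if_pos h]; norm_num
  · refine lt_of_lt_of_le ?_ (sg_ge h hN hm)
    have : (0 : ℝ) < N := by exact_mod_cast (by omega : 0 < N)
    positivity

lemma sg_le_two (N m : ℕ) : EvenVol.sg N m ≤ 2 := by
  unfold EvenVol.sg
  split_ifs
  · norm_num
  · rw [abs_mul, abs_two]
    have := Real.abs_sin_le_one (π * m / N)
    linarith

/-- the quantum integers on the circle -/
lemma log_br {v : ℂ} (hN : 4 ≤ N) (hv : ‖v - rt N‖ = rad N) {m : ℕ} (hm0 : 0 < m) (hm : m < 2 * N) :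
    0 < ‖br v m‖ ∧ ls N m - 6 / (N : ℝ) ^ 2 + (if m = N then Real.log (rad N) else 0) ≤
      Real.log ‖br v m‖ := by
  have hN' : (4 : ℝ) ≤ N := by exact_mod_cast hN
  have hr := rad_pos (N := N) (by omega)
  have h6 : 0 ≤ 6 / (N : ℝ) ^ 2 := by positivity
  by_cases h : m = N
  · subst h
    have h1 := br_N_circle hN hv
    have h2 : 0 < ‖br v m‖ := lt_of_lt_of_le hr h1
    refine ⟨h2, ?_⟩
    rw [if_pos rfl]
    have h3 : ls m m = 0 := by
      unfold ls EvenVol.sg
      rw [if_pos dvd_rfl, Real.log_one]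
    have h4 := Real.log_le_log hr h1
    rw [h3]
    linarith
  · have hd : ¬ N ∣ m := by
      rintro ⟨c, hc⟩
      have hc2 : c < 2 := by
        by_contra hc3
        have : N * 2 ≤ N * c := Nat.mul_le_mul_left N (by omega)
        omega
      interval_cases c <;> omega
    have h1 := br_near (by omega) hv.le hd hm
    have h2 := sg_pos' N m (by omega) hm
    have h3 : 3 / (N : ℝ) ^ 2 ≤ 1 / 2 := by
      rw [div_le_div_iff₀ (by positivity) (by norm_num)]
      nlinarith
    have h4 : 0 < 1 - 3 / (N : ℝ) ^ 2 := by linarith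
    have h5 : 0 < EvenVol.sg N m * (1 - 3 / (N : ℝ) ^ 2) := mul_pos h2 h4
    refine ⟨lt_of_lt_of_le h5 h1, ?_⟩
    rw [if_neg h, add_zero]
    have h7 := Real.log_le_log h5 h1
    rw [Real.log_mul h2.ne' h4.ne'] at h7
    have h8 := Real.one_sub_inv_le_log_of_pos h4
    have h9 : -(6 / (N : ℝ) ^ 2) ≤ 1 - (1 - 3 / (N : ℝ) ^ 2)⁻¹ := by
      have h10 : (1 - 3 / (N : ℝ) ^ 2)⁻¹ ≤ 1 + 6 / (N : ℝ) ^ 2 := by
        rw [inv_le_comm₀ h4 (by positivity), inv_eq_one_div, div_le_iff₀ (by positivity)]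
        have h11 : 6 / (N : ℝ) ^ 2 = 2 * (3 / (N : ℝ) ^ 2) := by ring
        rw [h11]
        have h12 : 0 ≤ 3 / (N : ℝ) ^ 2 := by positivity
        nlinarith
      linarith
    unfold ls
    linarith

lemma Adm_near {v : ℂ} (hN : 4 ≤ N) (hv : ‖v - rt N‖ ≤ rad N) : Adm N v := by
  refine ⟨norm_pos_iff.1 (norm_pos_near (by omega) hv), fun m hm0 hm => ?_⟩
  have hN' : (4 : ℝ) ≤ N := by exact_mod_cast hN
  have hd : ¬ N ∣ m := fun h => by
    have := Nat.le_of_dvd hm0 h
    omega
  have h1 := br_near (by omega) hv hd (by omega)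
  have h2 := sg_pos' N m (by omega) (by omega)
  have h3 : 3 / (N : ℝ) ^ 2 ≤ 1 / 2 := by
    rw [div_le_div_iff₀ (by positivity) (by norm_num)]
    nlinarith
  have h5 : 0 < EvenVol.sg N m * (1 - 3 / (N : ℝ) ^ 2) := mul_pos h2 (by linarith)
  exact norm_pos_iff.1 (lt_of_lt_of_le h5 h1)

lemma br_abs (v : ℂ) (k l : ℕ) : ‖br v ((k : ℤ) - l)‖ = ‖br v (((k - l) + (l - k) : ℕ) : ℤ)‖ := by
  rcases le_total l k with h | h
  · congr 2
    omega
  · have h1 : (k : ℤ) - l = -(((k - l) + (l - k) : ℕ) : ℤ) := by omega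
    rw [h1]
    have h2 : ∀ m : ℤ, br v (-m) = -br v m := by
      intro m
      unfold br
      rw [neg_neg]; ring
    rw [h2, norm_neg]

/-- lower bound of the products of differences of the nodes on the circle -/
lemma prd_circle {v : ℂ} (hN : 4 ≤ N) (hv : ‖v - rt N‖ = rad N) {j i k : ℕ} (hjk : j ≤ k) (hki : k ≤ i)
    (hi : i < N) : 0 < ‖prd (nod v) j i k‖ ∧
      EvenVol.S N (i + k + 1) - EvenVol.S N (j + k) + EvenVol.S N (k - j) + EvenVol.S N (i - k) -
        1 + Real.log (rad N) - 12 / N ≤ Real.log ‖prd (nod v) j i k‖ := by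
  have hN' : (4 : ℝ) ≤ N := by exact_mod_cast hN
  have hr := rad_pos (N := N) (by omega)
  have hv0 : v ≠ 0 := norm_pos_iff.1 (norm_pos_near (by omega) hv.le)
  have hA : ∀ l ∈ (Icc j i).erase k, 0 < ‖br v ((k + l + 1 : ℕ) : ℤ)‖ ∧
      ls N (k + l + 1) - 6 / (N : ℝ) ^ 2 + (if k + l + 1 = N then Real.log (rad N) else 0) ≤
      Real.log ‖br v ((k + l + 1 : ℕ) : ℤ)‖ := by
    intro l hl
    rw [mem_erase, mem_Icc] at hl
    exact log_br hN hv (by omega) (by omega)
  have hB : ∀ l ∈ (Icc j i).erase k, 0 < ‖br v (((k - l) + (l - k) : ℕ) : ℤ)‖ ∧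
      ls N ((k - l) + (l - k)) - 6 / (N : ℝ) ^ 2 ≤
      Real.log ‖br v (((k - l) + (l - k) : ℕ) : ℤ)‖ := by
    intro l hl
    rw [mem_erase, mem_Icc] at hl
    have h := log_br hN hv (m := (k - l) + (l - k)) (by omega) (by omega)
    rw [if_neg (by omega), add_zero] at h
    exact h
  have hP : ‖prd (nod v) j i k‖ = ∏ l ∈ (Icc j i).erase k, (‖br v ((k + l + 1 : ℕ) : ℤ)‖ *
      ‖br v (((k - l) + (l - k) : ℕ) : ℤ)‖) := by
    unfold prd
    rw [norm_prod]
    refine prod_congr rfl fun l _ => ?_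
    rw [nod_sub hv0, norm_mul, br_abs]
    push_cast
    rfl
  refine ⟨?_, ?_⟩
  · rw [hP]
    exact prod_pos fun l hl => mul_pos (hA l hl).1 (hB l hl).1
  · rw [hP, Real.log_prod (fun l hl => (mul_pos (hA l hl).1 (hB l hl).1).ne')]
    have h1 : ∑ l ∈ (Icc j i).erase k, ((ls N (k + l + 1) - 6 / (N : ℝ) ^ 2 +
        (if k + l + 1 = N then Real.log (rad N) else 0)) + (ls N ((k - l) + (l - k)) - 6 / (N : ℝ) ^ 2)) ≤
        ∑ l ∈ (Icc j i).erase k, Real.log (‖br v ((k + l + 1 : ℕ) : ℤ)‖ *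
          ‖br v (((k - l) + (l - k) : ℕ) : ℤ)‖) := by
      refine sum_le_sum fun l hl => ?_
      rw [Real.log_mul (hA l hl).1.ne' (hB l hl).1.ne']
      exact add_le_add (hA l hl).2 (hB l hl).2
    refine le_trans ?_ h1
    rw [sum_add_distrib, sum_add_distrib, sum_sub_distrib, sum_sub_distrib, sum_ls_abs N hjk hki,
      sum_const, nsmul_eq_mul]
    have h2 : ∑ l ∈ (Icc j i).erase k, ls N (k + l + 1) =
        EvenVol.S N (i + k + 1) - EvenVol.S N (j + k) - ls N (k + k + 1) := by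
      rw [← sum_ls N k j i (by omega), ← sum_erase_add _ _ (mem_Icc.2 ⟨hjk, hki⟩)]
      ring
    have h3 : ls N (k + k + 1) ≤ 1 := by
      unfold ls
      have h4 := Real.log_le_sub_one_of_pos (sg_pos' N (k + k + 1) (by omega) (by omega))
      linarith [sg_le_two N (k + k + 1)]
    have h5 : Real.log (rad N) ≤ ∑ l ∈ (Icc j i).erase k, (if k + l + 1 = N then Real.log (rad N) else 0) := by
      have hlr : Real.log (rad N) ≤ 0 := by
        apply Real.log_nonpos hr.le
        unfold rad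
        rw [div_le_one (by positivity)]
        exact one_le_pow₀ (by linarith)
      by_cases h6 : N - 1 - k ∈ (Icc j i).erase k
      · rw [sum_eq_single (N - 1 - k)]
        · rw [if_pos (by omega)]
        · intro b _ hb
          rw [if_neg (by omega)]
        · intro h; exact absurd h6 h
      · rw [sum_eq_zero]
        · exact hlr
        · intro l hl
          rw [if_neg]
          intro h7
          apply h6
          have : l = N - 1 - k := by omega
          rwa [← this]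
    have h8 : (((Icc j i).erase k).card : ℝ) ≤ N := by
      have : ((Icc j i).erase k).card ≤ N := by
        calc ((Icc j i).erase k).card ≤ (Icc j i).card := card_le_card (erase_subset _ _)
          _ = i + 1 - j := Nat.card_Icc j i
          _ ≤ N := by omega
      exact_mod_cast this
    have h9 : (((Icc j i).erase k).card : ℝ) * (6 / (N : ℝ) ^ 2) ≤ 6 / (N : ℝ) := by
      calc (((Icc j i).erase k).card : ℝ) * (6 / (N : ℝ) ^ 2) ≤ N * (6 / (N : ℝ) ^ 2) := by gcongr
        _ = 6 / (N : ℝ) := by field_simp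
    have h10 : (12 : ℝ) / N = 6 / N + 6 / N := by ring
    rw [h2, h10]
    linarith

lemma norm_sg_diag {v : ℂ} (hN : 4 ≤ N) (hv : ‖v - rt N‖ ≤ rad N) {k : ℕ} (hk : k < N) :
    ‖sg N v k k‖ ≤ 4 := by
  have hv0 : v ≠ 0 := norm_pos_iff.1 (norm_pos_near (by omega) hv)
  have hne : brf v k ≠ 0 := brf_ne (Adm_near hN hv) hk
  have n0 : brf v 0 = 1 := by simp [brf]
  unfold sg Cst
  rw [if_pos le_rfl, Nat.sub_self, n0, one_mul, div_self hne, mul_one, norm_mul, norm_mul, norm_mul,
    norm_pow, norm_pow, norm_neg, norm_one, one_pow, one_pow, one_mul, mul_one]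
  have h1 : ‖v ^ (-(((N : ℤ) - 1) * ((N : ℤ) + 1)))‖ ≤ 2 := by
    have e : ((N : ℤ) - 1) * ((N : ℤ) + 1) = (((N - 1) * (N + 1) : ℕ) : ℤ) := by
      rw [Nat.cast_mul, Nat.cast_sub (by omega)]
      push_cast
      ring
    rw [e, _root_.zpow_neg, zpow_natCast, norm_inv, norm_pow]
    have h2 := norm_pow_ge (by omega) hv (m := (N - 1) * (N + 1)) (by
      calc (N - 1) * (N + 1) ≤ N * N ^ 2 := by
            apply Nat.mul_le_mul (by omega)
            nlinarith
        _ = N ^ 3 := by ring)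
    rw [inv_le_comm₀ (by linarith) (by norm_num)]
    linarith
  have h2 : ‖v ^ (((k : ℤ) + 1) * k)‖ ≤ 2 := by
    have e : ((k : ℤ) + 1) * k = (((k + 1) * k : ℕ) : ℤ) := by push_cast; ring
    rw [e, zpow_natCast, norm_pow]
    apply norm_pow_le (by omega) hv
    calc (k + 1) * k ≤ N * N ^ 2 := by
          apply Nat.mul_le_mul (by omega)
          nlinarith
      _ = N ^ 3 := by ring
  calc ‖v ^ (-(((N : ℤ) - 1) * ((N : ℤ) + 1)))‖ * ‖v ^ (((k : ℤ) + 1) * k)‖ ≤ 2 * 2 :=
        mul_le_mul h1 h2 (norm_nonneg _) (by norm_num)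
    _ = 4 := by norm_num

end Pool.Agent.Q191.RP
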