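import Pool.Agent.Q191.RP.TwC
import Pool.Agent.Q191.RP.Fin

/-!
# The entries of the powers of the crossing: growth at the root of unity
-/

set_option autoImplicit false

namespace Pool.Agent.Q191.RP

open Finset Filter Topology
open scoped Real
open Pool.Agent.H550R3.Jones (WM IsMod IsInt Gen br brf tens irr W crossP crossN Adm)
open Pool.Agent.H927R2.J.SanYB (brf_ne)
open Pool.Agent.W715.VC (brf_succ' rt rt_ne br_rt sn rt_zpow)
open GapVol (lob)
open EvenVol.LobIneq (FF FF_le)

variable {N : ℕ}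

lemma brf_diffAt {v : ℂ} (hv : v ≠ 0) (m : ℕ) : DifferentiableAt ℂ (fun v => brf v m) v := by
  induction m with
  | zero =>
    have : (fun v : ℂ => brf v 0) = fun _ => 1 := by funext v; simp [brf]
    rw [this]
    exact differentiableAt_const _
  | succ m ih =>
    have : (fun v : ℂ => brf v (m + 1)) = fun v => brf v m * br v ((m : ℤ) + 1) := by
      funext v; exact brf_succ' v m
    rw [this]
    refine ih.mul ?_
    unfold br
    exact (differentiableAt_zpow.2 (Or.inl hv)).sub (differentiableAt_zpow.2 (Or.inl hv))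

lemma sg_diffAt {v : ℂ} (hv : Adm N v) {i : ℕ} (hi : i < N) (j : ℕ) :
    DifferentiableAt ℂ (fun v => sg N v i j) v := by
  unfold sg Cst
  by_cases h : j ≤ i
  · simp only [if_pos h]
    have hz : ∀ e : ℤ, DifferentiableAt ℂ (fun v : ℂ => v ^ e) v := fun e =>
      differentiableAt_zpow.2 (Or.inl hv.1)
    refine ((((differentiableAt_const _).mul (hz _)).mul (differentiableAt_const _)).mul (hz _)).mul ?_
    refine (brf_diffAt hv.1 j).div ((brf_diffAt hv.1 (i - j)).mul (brf_diffAt hv.1 i)) ?_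
    exact mul_ne_zero (brf_ne hv (by omega)) (brf_ne hv hi)
  · simp only [if_neg h]
    exact differentiableAt_const _

lemma tt_diffAt {v : ℂ} (hv : Adm N v) (a : ℕ) : ∀ {i : ℕ} (_ : i < N) (j : ℕ),
    DifferentiableAt ℂ (fun v => tt N v a i j) v := by
  induction a with
  | zero =>
    intro i _ j
    simp only [tt]
    exact differentiableAt_const _
  | succ a ih =>
    intro i hi j
    simp only [tt]
    apply DifferentiableAt.fun_sum
    intro l hl
    rw [mem_range] at hl
    exact (sg_diffAt hv hi l).mul (ih hl j)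

/-- the maximum principle -/
lemma tt_max (hN : 4 ≤ N) (a : ℕ) {i j : ℕ} (hi : i < N) {C : ℝ}
    (hC : ∀ v : ℂ, ‖v - rt N‖ = rad N → ‖tt N v a i j‖ ≤ C) : ‖tt N (rt N) a i j‖ ≤ C := by
  have hr := rad_pos (N := N) (by omega)
  have hd : DifferentiableOn ℂ (fun v => tt N v a i j) (Metric.closedBall (rt N) (rad N)) := by
    intro v hv
    rw [Metric.mem_closedBall, dist_eq_norm] at hv
    exact (tt_diffAt (Adm_near hN hv) a hi j).differentiableWithinAt
  refine Complex.norm_le_of_forall_mem_frontier_norm_le (U := Metric.ball (rt N) (rad N))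
    Metric.isBounded_ball (hd.diffContOnCl_ball subset_rfl) ?_ ?_
  · intro z hz
    rw [frontier_ball _ hr.ne', mem_sphere_iff_norm] at hz
    exact hC z hz
  · exact subset_closure (Metric.mem_ball_self hr)

/-- the bound on the circle -/
lemma tt_circle (a : ℕ) (ε : ℝ) (hε : 0 < ε) : ∀ᶠ N : ℕ in atTop, ∀ v : ℂ, ‖v - rt N‖ = rad N →
    ∀ j i : ℕ, j ≤ i → i < N → ∀ c : ℝ, (∀ x : ℝ, FF (-(π * j / N)) x ≤ c) →
    ‖tt N v a i j‖ ≤ Real.exp (N / π * (4 * lob (π / 4) + c) + ε * N + 2 * EvenVol.S N j -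
      2 * EvenVol.S N i) := by
  have hpi := Real.pi_pos
  have hS := Pool.Agent.Q191.FT.S_bound 2 (ε / 16) (by positivity)
  have hK : ∀ᶠ N : ℕ in atTop, (4 : ℝ) ^ a * Real.exp 13 ≤ Real.exp (ε / 4 * N) := by
    have h1 : Tendsto (fun N : ℕ => Real.exp (ε / 4 * N)) atTop atTop :=
      Real.tendsto_exp_atTop.comp (Tendsto.const_mul_atTop (by positivity) tendsto_natCast_atTop_atTop)
    exact h1.eventually_ge_atTop _
  filter_upwards [hS, hK, pow_le_exp 6 (show 0 < ε / 4 by positivity), eventually_ge_atTop 4]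
    with N h1 h2 h3 hN v hv j i hji hi c hc
  have hN' : (4 : ℝ) ≤ N := by exact_mod_cast hN
  have hN0 : (0 : ℝ) < N := by linarith
  have hAdm := Adm_near hN hv.le
  -- the nodes are different
  have hne : ∀ k l, k < N → l < N → k ≠ l → nod v k ≠ nod v l := by
    intro k l hk hl hkl h
    have h4 : nod v k - nod v l = 0 := sub_eq_zero.2 h
    rw [nod_sub hAdm.1] at h4
    have h5 := (log_br hN hv (m := k + l + 1) (by omega) (by omega)).1
    have h6 := (log_br hN hv (m := (k - l) + (l - k)) (by omega) (by omega)).1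
    have h7 : 0 < ‖br v ((k : ℤ) + l + 1) * br v ((k : ℤ) - l)‖ := by
      rw [norm_mul, br_abs]
      have h8 : ((k : ℤ) + l + 1) = ((k + l + 1 : ℕ) : ℤ) := by push_cast; ring
      rw [h8]
      exact mul_pos h5 h6
    rw [h4, norm_zero] at h7
    exact lt_irrefl _ h7
  obtain ⟨d, rfl⟩ : ∃ d, i = j + d := ⟨i - j, by omega⟩
  rw [tt_gg hAdm hne a d j hi]
  set X : ℝ := N / π * (4 * lob (π / 4) + c) + ε / 2 * N + 2 * EvenVol.S N j -
      2 * EvenVol.S N (j + d) + 1 + 5 * Real.log N + 12 / N with hX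
  have hterm : ∀ k ∈ Icc j (j + d), ‖sg N v k k ^ a / prd (nod v) j (j + d) k‖ ≤ 4 ^ a * Real.exp X := by
    intro k hk
    rw [mem_Icc] at hk
    obtain ⟨p1, p2⟩ := prd_circle hN hv hk.1 hk.2 hi
    rw [norm_div, norm_pow, div_eq_mul_inv]
    refine mul_le_mul (pow_le_pow_left₀ (norm_nonneg _) (norm_sg_diag hN hv.le (by omega)) a) ?_
      (by positivity) (by positivity)
    rw [← Real.exp_log p1, ← Real.exp_neg, Real.exp_le_exp]
    have b1 := abs_le.1 (h1 (j + d) (by omega))
    have b2 := abs_le.1 (h1 j (by omega))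
    have b3 := abs_le.1 (h1 (j + d + k) (by omega))
    have b4 := abs_le.1 (h1 (j + d - k) (by omega))
    have b5 := abs_le.1 (h1 (k - j) (by omega))
    have b6 := abs_le.1 (h1 (j + k) (by omega))
    have f1 := FF_le (π * ((j + d : ℕ) : ℝ) / N) (π * (k : ℝ) / N)
    have f2 := hc (π * (k : ℝ) / N)
    unfold FF at f1 f2
    have e1 : π * ((j + d : ℕ) : ℝ) / N + π * (k : ℝ) / N = π * ((j + d + k : ℕ) : ℝ) / N := by
      push_cast; ring
    have e2 : π * ((j + d : ℕ) : ℝ) / N - π * (k : ℝ) / N = π * ((j + d - k : ℕ) : ℝ) / N := by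
      rw [Nat.cast_sub hk.2]; ring
    have e3 : -(π * (j : ℝ) / N) + π * (k : ℝ) / N = π * ((k - j : ℕ) : ℝ) / N := by
      rw [Nat.cast_sub hk.1]; ring
    have e4 : -(π * (j : ℝ) / N) - π * (k : ℝ) / N = -(π * ((j + k : ℕ) : ℝ) / N) := by
      push_cast; ring
    rw [e1, e2] at f1
    rw [e3, e4, EvenVol.LobIneq.lob_neg, EvenVol.LobIneq.lob_neg] at f2
    have g1 : (N : ℝ) / π * (lob (π * ((j + d + k : ℕ) : ℝ) / N) + lob (π * ((j + d - k : ℕ) : ℝ) / N) -
        2 * lob (π * ((j + d : ℕ) : ℝ) / N)) ≤ N / π * (4 * lob (π / 4)) :=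
      mul_le_mul_of_nonneg_left f1 (by positivity)
    have g2 : (N : ℝ) / π * (lob (π * ((k - j : ℕ) : ℝ) / N) + -lob (π * ((j + k : ℕ) : ℝ) / N) -
        2 * -lob (π * (j : ℝ) / N)) ≤ N / π * c :=
      mul_le_mul_of_nonneg_left f2 (by positivity)
    have s1 : EvenVol.S N (j + d + k + 1) = EvenVol.S N (j + d + k) + ls N (j + d + k + 1) := S_succ _ _
    have s2 : -Real.log N ≤ ls N (j + d + k + 1) := by
      unfold ls
      rw [← Real.log_inv]
      apply Real.log_le_log (by positivity)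
      by_cases hd : N ∣ j + d + k + 1
      · unfold EvenVol.sg
        rw [if_pos hd]
        rw [inv_le_one₀ hN0]
        linarith
      · refine le_trans ?_ (sg_ge hd (by omega) (by omega))
        rw [inv_eq_one_div]
        gcongr
        norm_num
    have s3 : Real.log (rad N) = -(4 * Real.log N) := by
      unfold rad
      rw [one_div, Real.log_inv, Real.log_pow]
      push_cast
      ring
    rw [s1, s3] at p2
    rw [mul_sub, mul_add] at g1 g2
    rw [hX, mul_add]
    linarith [b1.1, b1.2, b2.1, b2.2, b3.1, b3.2, b4.1, b4.2, b5.1, b5.2, b6.1, b6.2]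
  unfold gg
  refine (norm_sum_le _ _).trans ((sum_le_sum hterm).trans ?_)
  rw [sum_const, nsmul_eq_mul, Nat.card_Icc]
  have hcard : ((j + d + 1 - j : ℕ) : ℝ) ≤ N := by
    have : j + d + 1 - j ≤ N := by omega
    exact_mod_cast this
  have hXe : Real.exp X = Real.exp (N / π * (4 * lob (π / 4) + c) + ε / 2 * N + 2 * EvenVol.S N j -
      2 * EvenVol.S N (j + d)) * ((N : ℝ) ^ 5 * Real.exp (1 + 12 / N)) := by
    have h5 : (N : ℝ) ^ 5 = Real.exp (5 * Real.log N) := by
      rw [mul_comm, Real.exp_mul, Real.exp_log hN0]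
      norm_cast
    rw [h5, ← Real.exp_add, ← Real.exp_add]
    congr 1
    rw [hX]
    ring
  have h13 : Real.exp (1 + 12 / N) ≤ Real.exp 13 := by
    rw [Real.exp_le_exp]
    have : 12 / (N : ℝ) ≤ 12 := by
      rw [div_le_iff₀ hN0]; nlinarith
    linarith
  calc ((j + d + 1 - j : ℕ) : ℝ) * (4 ^ a * Real.exp X) ≤ N * (4 ^ a * Real.exp X) := by gcongr
    _ = Real.exp (N / π * (4 * lob (π / 4) + c) + ε / 2 * N + 2 * EvenVol.S N j -
      2 * EvenVol.S N (j + d)) * ((4 ^ a * Real.exp (1 + 12 / N)) * (N : ℝ) ^ 6) := by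
        rw [hXe]; ring
    _ ≤ Real.exp (N / π * (4 * lob (π / 4) + c) + ε / 2 * N + 2 * EvenVol.S N j -
      2 * EvenVol.S N (j + d)) * (Real.exp (ε / 4 * N) * Real.exp (ε / 4 * N)) := by
        apply mul_le_mul_of_nonneg_left _ (Real.exp_pos _).le
        apply mul_le_mul _ h3 (by positivity) (Real.exp_pos _).le
        refine le_trans ?_ h2
        gcongr
    _ = _ := by
        rw [← Real.exp_add, ← Real.exp_add]
        congr 1
        ring

end Pool.Agent.Q191.RP
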