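import Pool.Agent.Q191.RP.TwD
import Pool.Agent.Q191.RP.SixE

/-!
# Norm growth of moves
-/

set_option autoImplicit false

namespace Pool.Agent.Q191.RP

open Matrix Finset Filter Topology
open scoped Kronecker Real
open Pool.Agent.H550R3.Jones (WM IsMod IsInt Gen br brf tens irr W crossP crossN Adm)
open Pool.Agent.H927R2.J.SanYB (brf_ne)
open Pool.Agent.W715.VC (brf_succ' rt rt_ne adm br_rt sn rt_zpow)
open GapVol (lob)
open EvenVol.LobIneq (FF FF_le)

variable {N : ℕ}

/-! ### powers of the crossing -/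

/-- a power of the positive crossing -/
lemma nq_Ppow {v : ℂ} (hv : Kr N v) (a : ℕ) {B : ℝ} (hB0 : 0 ≤ B)
    (hB : ∀ i j : ℕ, j ≤ i → i < N → ‖brf v i‖ ^ 2 * ‖tt N v a i j‖ ≤ B * ‖brf v j‖ ^ 2)
    {T : Matrix (I2 N) (I2 N) ℂ} (hT : InA v T) :
    nq v (crossP N v ^ a * T) ≤ ((N : ℝ) * B) ^ 2 * nq v T := by
  have key : ∀ i : Fin N, ‖brf v i‖ ^ 2 * ‖gam v (crossP N v ^ a * T) i‖ ≤
      B * ∑ j : Fin N, ‖brf v j‖ ^ 2 * ‖gam v T j‖ := by
    intro i
    rw [gam_Ppow hv.adm hT]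
    calc ‖brf v i‖ ^ 2 * ‖∑ j : Fin N, tt N v a i j * gam v T j‖
        ≤ ‖brf v i‖ ^ 2 * ∑ j : Fin N, ‖tt N v a i j * gam v T j‖ := by
          gcongr
          exact norm_sum_le _ _
      _ = ∑ j : Fin N, (‖brf v i‖ ^ 2 * ‖tt N v a i j‖) * ‖gam v T j‖ := by
          rw [mul_sum]
          refine sum_congr rfl fun j _ => ?_
          rw [norm_mul, mul_assoc]
      _ ≤ ∑ j : Fin N, B * (‖brf v j‖ ^ 2 * ‖gam v T j‖) := by
          refine sum_le_sum fun j _ => ?_
          rcases le_or_gt (j : ℕ) i with h | h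
          · rw [← mul_assoc]
            exact mul_le_mul_of_nonneg_right (hB i j h i.2) (norm_nonneg _)
          · rw [tt_low v a i j h, norm_zero, mul_zero, zero_mul]
            have p4 := norm_nonneg (gam v T j)
            positivity
      _ = B * ∑ j : Fin N, ‖brf v j‖ ^ 2 * ‖gam v T j‖ := by rw [mul_sum]
  have hcs : (∑ j : Fin N, ‖brf v j‖ ^ 2 * ‖gam v T j‖) ^ 2 ≤ N * nq v T := by
    have h1 := sq_sum_le_card_mul_sum_sq (s := (univ : Finset (Fin N)))
      (f := fun j : Fin N => ‖brf v j‖ ^ 2 * ‖gam v T j‖)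
    rw [card_univ, Fintype.card_fin] at h1
    refine h1.trans (le_of_eq ?_)
    congr 1
    unfold nq
    refine sum_congr rfl fun j _ => ?_
    rw [WR_root hv]
    ring
  have hle : nq v (crossP N v ^ a * T) ≤ ∑ _i : Fin N, B ^ 2 * (N * nq v T) := by
    unfold nq
    refine sum_le_sum fun i _ => ?_
    rw [WR_root hv]
    have h1 : ‖brf v i‖ ^ 4 * ‖gam v (crossP N v ^ a * T) i‖ ^ 2 =
        (‖brf v i‖ ^ 2 * ‖gam v (crossP N v ^ a * T) i‖) ^ 2 := by ring
    rw [h1]
    have h2 : 0 ≤ ‖brf v i‖ ^ 2 * ‖gam v (crossP N v ^ a * T) i‖ := by positivity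
    calc (‖brf v i‖ ^ 2 * ‖gam v (crossP N v ^ a * T) i‖) ^ 2 ≤
        (B * ∑ j : Fin N, ‖brf v j‖ ^ 2 * ‖gam v T j‖) ^ 2 := by
          have := key i
          gcongr
      _ = B ^ 2 * (∑ j : Fin N, ‖brf v j‖ ^ 2 * ‖gam v T j‖) ^ 2 := by ring
      _ ≤ B ^ 2 * (N * nq v T) := by gcongr
  rw [sum_const, card_univ, Fintype.card_fin, nsmul_eq_mul] at hle
  refine hle.trans (le_of_eq ?_)
  ring

lemma InA_powN {v : ℂ} (hv : Adm N v) (a : ℕ) : InA v (crossN N v ^ a) := by
  induction a with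
  | zero => rw [pow_zero]; exact InA.one v
  | succ a ih => rw [pow_succ]; exact ih.mul (InA_N hv)

lemma stm_Npow {v : ℂ} (hv : Adm N v) (hc : (starRingEnd ℂ) v = v⁻¹) (a : ℕ)
    {T : Matrix (I2 N) (I2 N) ℂ} (hT : InA v T) :
    stm v (crossN N v ^ a * T) = crossP N v ^ a * stm v T := by
  have hsT := InA_stm hv hc hT
  induction a with
  | zero => rw [pow_zero, pow_zero, one_mul, one_mul]
  | succ a ih =>
    rw [pow_succ', mul_assoc, stm_mul hv, stm_N hv hc, ih,
      InA_comm hv ((InA_pow hv a).mul hsT) (InA_P hv), pow_succ', mul_assoc]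

/-- the crossing of a sign -/
noncomputable def Xs (N : ℕ) (v : ℂ) (σ : Bool) : Matrix (I2 N) (I2 N) ℂ :=
  if σ then crossP N v else crossN N v

lemma nq_Xpow {v : ℂ} (hv : Kr N v) (σ : Bool) (a : ℕ) {B : ℝ} (hB0 : 0 ≤ B)
    (hB : ∀ i j : ℕ, j ≤ i → i < N → ‖brf v i‖ ^ 2 * ‖tt N v a i j‖ ≤ B * ‖brf v j‖ ^ 2)
    {T : Matrix (I2 N) (I2 N) ℂ} (hT : InA v T) :
    nq v (Xs N v σ ^ a * T) ≤ ((N : ℝ) * B) ^ 2 * nq v T := by
  cases σ with
  | true => exact nq_Ppow hv a hB0 hB hT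
  | false =>
    change nq v (crossN N v ^ a * T) ≤ _
    rw [← nq_stm hv.good ((InA_powN hv.adm a).mul hT), stm_Npow hv.adm hv.cj a hT,
      ← nq_stm hv.good hT]
    exact nq_Ppow hv a hB0 hB (InA_stm hv.adm hv.cj hT)

lemma MM_rep (v : ℂ) (σ : Bool) {T : List Pc} (hT : Is 2 2 T) (n : ℕ) :
    Is 2 2 (T ++ List.replicate n (Pc.cross 0 σ)) ∧
    MM N v (T ++ List.replicate n (Pc.cross 0 σ)) = Xs N v σ ^ n * MM N v T := by
  induction n with
  | zero => rw [List.replicate_zero, List.append_nil, pow_zero, one_mul]; exact ⟨hT, rfl⟩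
  | succ n ih =>
    rw [List.replicate_succ', ← List.append_assoc]
    refine ⟨Is_append ih.1 (Is_cross σ), ?_⟩
    rw [MM_append v ih.1 (Is_cross σ), MM_cross, ih.2, pow_succ', mul_assoc]
    rfl

lemma MM_nil (v : ℂ) : MM N v [] = 1 := by
  apply Rp_unique (Rp_MM v (by rw [Is_nil]))
  rw [runL_nil]
  exact Rp_id

/-- the entries at the root of unity -/
lemma tt_root (a : ℕ) (ε : ℝ) (hε : 0 < ε) : ∀ᶠ N : ℕ in atTop,
    ∀ j i : ℕ, j ≤ i → i < N → ∀ c : ℝ, (∀ x : ℝ, FF (-(π * j / N)) x ≤ c) →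
    ‖brf (rt N) i‖ ^ 2 * ‖tt N (rt N) a i j‖ ≤
      Real.exp (N / π * (4 * lob (π / 4) + c) + ε * N) * ‖brf (rt N) j‖ ^ 2 := by
  filter_upwards [tt_circle a ε hε, eventually_ge_atTop 4] with N h1 hN j i hji hi c hc
  have h2 := tt_max hN a hi (fun v hv => h1 v hv j i hji hi c hc)
  have p1 : 0 < ‖brf (rt N) i‖ := norm_pos_iff.2 (brf_ne (adm N) hi)
  have p2 : 0 < ‖brf (rt N) j‖ := norm_pos_iff.2 (brf_ne (adm N) (by omega))
  have e1 : ‖brf (rt N) i‖ ^ 2 = Real.exp (2 * EvenVol.S N i) := by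
    rw [← log_brf hi, mul_comm, Real.exp_mul, Real.exp_log p1]
    norm_cast
  have e2 : ‖brf (rt N) j‖ ^ 2 = Real.exp (2 * EvenVol.S N j) := by
    rw [← log_brf (by omega), mul_comm, Real.exp_mul, Real.exp_log p2]
    norm_cast
  rw [e1, e2]
  calc Real.exp (2 * EvenVol.S N i) * ‖tt N (rt N) a i j‖ ≤ Real.exp (2 * EvenVol.S N i) *
        Real.exp (N / π * (4 * lob (π / 4) + c) + ε * N + 2 * EvenVol.S N j - 2 * EvenVol.S N i) :=
        mul_le_mul_of_nonneg_left h2 (Real.exp_pos _).le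
    _ = _ := by
        rw [← Real.exp_add, ← Real.exp_add]
        congr 1
        ring

/-! ### moves -/

/-- a move whose norm grows at most like `exp (N c / 2 π)` -/
def NB (f : List Pc → List Pc) (c : ℝ) : Prop :=
  (∀ T, Is 2 2 T → Is 2 2 (f T)) ∧ ∀ ε : ℝ, 0 < ε → ∀ᶠ N : ℕ in atTop, ∀ T, Is 2 2 T →
    nq (N := N) (rt N) (MM N (rt N) (f T)) ≤
      Real.exp (N * (2 * c + ε) / (2 * π)) * nq (N := N) (rt N) (MM N (rt N) T)

lemma NB.comp {f g : List Pc → List Pc} {c d : ℝ} (hf : NB f c) (hg : NB g d) :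
    NB (fun T => f (g T)) (c + d) := by
  refine ⟨fun T hT => hf.1 _ (hg.1 T hT), fun ε hε => ?_⟩
  filter_upwards [hf.2 (ε / 2) (by positivity), hg.2 (ε / 2) (by positivity)] with N h1 h2 T hT
  refine (h1 _ (hg.1 T hT)).trans ?_
  refine (mul_le_mul_of_nonneg_left (h2 T hT) (Real.exp_pos _).le).trans (le_of_eq ?_)
  rw [← mul_assoc, ← Real.exp_add]
  congr 2
  ring

lemma NB_id : NB (fun T => T) 0 := by
  refine ⟨fun T hT => hT, fun ε hε => ?_⟩
  filter_upwards [eventually_ge_atTop 1] with N hN T _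
  have h1 := nq_nonneg (Kr_rt (N := N) (by omega)).good (MM N (rt N) T)
  have h2 : 1 ≤ Real.exp (N * (2 * 0 + ε) / (2 * π)) := by
    apply Real.one_le_exp
    have := Real.pi_pos
    positivity
  nlinarith

lemma NB_rot : NB rot 0 := by
  refine ⟨fun T hT => Is_rot hT, fun ε hε => ?_⟩
  filter_upwards [eventually_ge_atTop 2] with N hN T hT
  have hG := (Kr_rt (N := N) (by omega)).good
  have h1 := nq_nonneg hG (MM N (rt N) T)
  have h2 : 1 ≤ Real.exp (N * (2 * 0 + ε) / (2 * π)) := by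
    apply Real.one_le_exp
    have := Real.pi_pos
    positivity
  rw [nq_rot hG hN hT]
  nlinarith

lemma NB_cross (σ : Bool) : NB (fun T => T ++ [Pc.cross 0 σ]) (2 * (3 * lob (π / 3))) := by
  have hpi := Real.pi_pos
  refine ⟨fun T hT => Is_append hT (Is_cross σ), fun ε hε => ?_⟩
  filter_upwards [qbin_growth (ε / (8 * π)) (by positivity), pow_le_exp 1 (show 0 < ε / (8 * π) by
    positivity), eventually_ge_atTop 2] with N h1 h2 hN T hT
  have hKr := Kr_rt (N := N) (by omega)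
  refine (nq_crossing hKr (Real.exp_pos _).le h1 hT σ).trans ?_
  refine mul_le_mul_of_nonneg_right ?_ (nq_nonneg hKr.good _)
  rw [pow_one] at h2
  calc ((N : ℝ) * Real.exp (N / π * (3 * lob (π / 3)) + ε / (8 * π) * N)) ^ 2 ≤
      (Real.exp (ε / (8 * π) * N) * Real.exp (N / π * (3 * lob (π / 3)) + ε / (8 * π) * N)) ^ 2 := by
        gcongr
    _ = Real.exp (N * (2 * (2 * (3 * lob (π / 3))) + ε) / (2 * π)) := by
        rw [← Real.exp_add, ← Real.exp_nat_mul]
        congr 1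
        push_cast
        field_simp
        ring

lemma NB_rep1 (σ : Bool) (n : ℕ) :
    NB (fun T => T ++ List.replicate n (Pc.cross 0 σ)) (2 * (3 * lob (π / 3)) * n) := by
  induction n with
  | zero =>
    have h := NB_id
    simpa using h
  | succ n ih =>
    have h := (NB_cross σ).comp ih
    have e : (fun T : List Pc => (T ++ List.replicate n (Pc.cross 0 σ)) ++ [Pc.cross 0 σ]) =
        fun T => T ++ List.replicate (n + 1) (Pc.cross 0 σ) := by
      funext T
      rw [List.replicate_succ', List.append_assoc]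
    rw [e] at h
    have e2 : 2 * (3 * lob (π / 3)) + 2 * (3 * lob (π / 3)) * n =
        2 * (3 * lob (π / 3)) * ((n + 1 : ℕ) : ℝ) := by push_cast; ring
    rw [e2] at h
    exact h

/-- a twist region costs at most `2 v_8` -/
lemma NB_rep2 (σ : Bool) (n : ℕ) :
    NB (fun T => T ++ List.replicate n (Pc.cross 0 σ)) (2 * (8 * lob (π / 4))) := by
  have hpi := Real.pi_pos
  refine ⟨fun T hT => (MM_rep (N := 1) 1 σ hT n).1, fun ε hε => ?_⟩
  filter_upwards [tt_root n (ε / (8 * π)) (by positivity), pow_le_exp 1 (show 0 < ε / (8 * π) by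
    positivity), eventually_ge_atTop 2] with N h1 h2 hN T hT
  have hKr := Kr_rt (N := N) (by omega)
  rw [(MM_rep (N := N) (rt N) σ hT n).2]
  refine (nq_Xpow hKr σ n (Real.exp_pos _).le (fun i j hji hi => h1 j i hji hi (4 * lob (π / 4))
    (fun x => FF_le _ _)) (InA_MM hKr.adm hT)).trans ?_
  refine mul_le_mul_of_nonneg_right ?_ (nq_nonneg hKr.good _)
  rw [pow_one] at h2
  calc ((N : ℝ) * Real.exp (N / π * (4 * lob (π / 4) + 4 * lob (π / 4)) + ε / (8 * π) * N)) ^ 2 ≤
      (Real.exp (ε / (8 * π) * N) *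
        Real.exp (N / π * (4 * lob (π / 4) + 4 * lob (π / 4)) + ε / (8 * π) * N)) ^ 2 := by
        gcongr
    _ = Real.exp (N * (2 * (2 * (8 * lob (π / 4))) + ε) / (2 * π)) := by
        rw [← Real.exp_add, ← Real.exp_nat_mul]
        congr 1
        push_cast
        field_simp
        ring

/-- the cost of a twist region -/
noncomputable def cost (a : ℤ) : ℝ := min (2 * (3 * lob (π / 3)) * a.natAbs) (2 * (8 * lob (π / 4)))

lemma NB_tw (a : ℤ) : NB (bld (tw a)) (cost a) := by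
  have e : bld (tw a) = fun T => T ++ List.replicate a.natAbs (Pc.cross 0 (decide (0 < a))) := by
    funext T
    exact bld_rep _ _ _
  rw [e]
  unfold cost
  rcases min_choice (2 * (3 * lob (π / 3)) * (a.natAbs : ℝ)) (2 * (8 * lob (π / 4))) with h | h
  · rw [h]; exact NB_rep1 _ _
  · rw [h]; exact NB_rep2 _ _

/-- the cost of a rational region -/
noncomputable def costs (l : List ℤ) : ℝ := (l.map cost).sum

lemma NB_wd (l : List ℤ) : NB (bld (wd l)) (costs l) := by
  induction l with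
  | nil =>
    have h := NB_id
    simpa [costs, wd, bld] using h
  | cons a l ih =>
    have h := ih.comp ((NB_tw a).comp NB_rot)
    have e : (fun T => bld (wd l) (bld (tw a) (rot T))) = bld (wd (a :: l)) := by
      funext T
      rw [wd, bld, bld_append]
    rw [e] at h
    have e2 : costs l + (cost a + 0) = costs (a :: l) := by
      unfold costs
      rw [List.map_cons, List.sum_cons]
      ring
    rw [e2] at h
    exact h

lemma NB.ub {f : List Pc → List Pc} {c : ℝ} (hf : NB f c) {T : List Pc} (hT : Is 2 2 T) {a : ℝ}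
    (h : UB (dbl T) a) : UB (dbl (f T)) (a + 2 * c) := by
  intro ε hε
  filter_upwards [hf.2 (ε / 2) (by positivity), h (ε / 2) (by positivity), eventually_ge_atTop 2]
    with N h1 h2 hN
  rw [norm_kv_dbl hN hT] at h2
  rw [norm_kv_dbl hN (hf.1 T hT)]
  refine (h1 T hT).trans ?_
  refine (mul_le_mul_of_nonneg_left h2 (Real.exp_pos _).le).trans (le_of_eq ?_)
  rw [← Real.exp_add]
  congr 1
  ring

/-- the Cauchy-Schwarz inequality for the growth rates -/
theorem ub_cs {S T : List Pc} (hS : Is 2 2 S) (hT : Is 2 2 T) {a b : ℝ} (ha : UB (dbl S) a)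
    (hb : UB (dbl T) b) : UB (glue S T) ((a + b) / 2) := by
  intro ε hε
  filter_upwards [ha ε hε, hb ε hε, eventually_ge_atTop 2] with N h1 h2 hN
  have hKr := Kr_rt (N := N) (by omega)
  rw [norm_kv_dbl hN hS] at h1
  rw [norm_kv_dbl hN hT] at h2
  have n0 := val_cs hKr.good hN hS hT
  have q2 := nq_nonneg hKr.good (MM N (rt N) T)
  have e1 : ‖kv (glue S T) N‖ ^ 2 ≤ Real.exp (N * ((a + b) / 2 + ε) / (2 * π)) ^ 2 := by
    unfold kv
    rw [dif_pos (by omega : 0 < N)]
    refine n0.trans ((mul_le_mul h1 h2 q2 (Real.exp_pos _).le).trans (le_of_eq ?_))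
    rw [← Real.exp_add, ← Real.exp_nat_mul]
    congr 1
    push_cast
    ring
  exact le_of_sq_le_sq e1 (Real.exp_pos _).le

/-- the norm of the end regions -/
lemma ub_end (a : ℤ) : UB (dbl (bld (tw a) [])) (2 * (8 * lob (π / 4))) := by
  intro ε hε
  have hpi := Real.pi_pos
  filter_upwards [tt_root a.natAbs (ε / (8 * π)) (by positivity), pow_le_exp 1 (show 0 < ε / (8 * π) by
    positivity), eventually_ge_atTop 2] with N h1 h2 hN
  have hKr := Kr_rt (N := N) (by omega)
  have hnil : Is 2 2 ([] : List Pc) := by rw [Is_nil]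
  have e : bld (tw a) [] = [] ++ List.replicate a.natAbs (Pc.cross 0 (decide (0 < a))) := bld_rep _ _ _
  obtain ⟨g1, g2⟩ := MM_rep (N := N) (rt N) (decide (0 < a)) hnil a.natAbs
  rw [e, norm_kv_dbl hN g1, g2, MM_nil]
  -- reduce to the positive crossing
  have h3 : nq (N := N) (rt N) (Xs N (rt N) (decide (0 < a)) ^ a.natAbs * 1) =
      nq (N := N) (rt N) (crossP N (rt N) ^ a.natAbs * 1) := by
    cases decide (0 < a) with
    | true => rfl
    | false =>
      change nq (N := N) (rt N) (crossN N (rt N) ^ a.natAbs * 1) = _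
      rw [← nq_stm hKr.good ((InA_powN hKr.adm _).mul (InA.one _)),
        stm_Npow hKr.adm hKr.cj _ (InA.one _), stm_one hKr.adm]
  rw [h3]
  unfold nq
  rw [pow_one] at h2
  have h4 : ∀ i : Fin N, WR N (rt N) i * ‖gam (rt N) (crossP N (rt N) ^ a.natAbs * 1) i‖ ^ 2 ≤
      Real.exp (N / π * (4 * lob (π / 4)) + ε / (8 * π) * N) ^ 2 := by
    intro i
    rw [WR_root hKr, gam_Ppow hKr.adm (InA.one _), sum_eq_single (⟨0, by omega⟩ : Fin N)]
    · rw [gam_one hKr.adm, if_pos rfl, mul_one]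
      have h5 := h1 0 i (Nat.zero_le _) i.2 0 (fun x => by
        unfold FF
        rw [Nat.cast_zero, mul_zero, zero_div, neg_zero, zero_add, zero_sub,
          EvenVol.LobIneq.lob_neg]
        have : lob 0 = 0 := by
          have := EvenVol.LobIneq.lob_neg 0
          rw [neg_zero] at this
          linarith
        rw [this]
        linarith)
      have n0 : brf (rt N) 0 = 1 := by simp [brf]
      rw [n0, norm_one, one_pow, mul_one, add_zero] at h5
      have e5 : ‖brf (rt N) i‖ ^ 4 * ‖tt N (rt N) a.natAbs i 0‖ ^ 2 =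
          (‖brf (rt N) i‖ ^ 2 * ‖tt N (rt N) a.natAbs i 0‖) ^ 2 := by ring
      simp only []
      rw [e5]
      gcongr
    · intro j _ hj
      rw [gam_one hKr.adm, if_neg (fun h => hj (Fin.ext h)), mul_zero]
    · intro h; exact absurd (mem_univ _) h
  refine (sum_le_sum fun i _ => h4 i).trans ?_
  rw [sum_const, card_univ, Fintype.card_fin, nsmul_eq_mul, ← Real.exp_nat_mul]
  refine (mul_le_mul_of_nonneg_right h2 (Real.exp_pos _).le).trans ?_
  rw [← Real.exp_add, Real.exp_le_exp]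
  have e6 : N * (2 * (8 * lob (π / 4)) + ε) / (2 * π) - (ε / (8 * π) * N + ((2 : ℕ) : ℝ) *
      (N / π * (4 * lob (π / 4)) + ε / (8 * π) * N)) = N * ε / (8 * π) := by
    push_cast
    field_simp
    ring
  have e7 : (0 : ℝ) ≤ N * ε / (8 * π) := by positivity
  linarith

end Pool.Agent.Q191.RP
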