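import Pool.Agent.Q191.RP.TwE

/-!
# Two-bridge links and chains
-/

set_option autoImplicit false

namespace Pool.Agent.Q191.RP

open Matrix Finset Filter Topology
open scoped Kronecker Real
open Pool.Agent.H550R3.Jones (WM IsMod IsInt Gen br brf tens irr W crossP crossN Adm)
open Pool.Agent.H927R2.J.SanYB (brf_ne)
open Pool.Agent.W715.VC (brf_succ' rt rt_ne adm br_rt sn rt_zpow)
open GapVol (lob)

variable {N : ℕ}

lemma Is_nil2 : Is 2 2 ([] : List Pc) := by rw [Is_nil]

/-- the cost of an end region -/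
noncomputable def ecost (a : ℤ) : ℝ :=
  min (3 * lob (π / 3) * (2 * a.natAbs - 3)) (8 * lob (π / 4))

lemma UB.mono {D : List Pc} {a b : ℝ} (h : UB D a) (hab : a ≤ b) : UB D b := by
  intro ε hε
  have hpi := Real.pi_pos
  filter_upwards [h ε hε] with N h1
  refine h1.trans ?_
  rw [Real.exp_le_exp]
  gcongr

lemma ub_ecost (a : ℤ) (ha : 2 ≤ a.natAbs) : UB (dbl (bld (tw a) [])) (2 * ecost a) := by
  unfold ecost
  rcases min_choice (3 * lob (π / 3) * (2 * a.natAbs - 3)) (8 * lob (π / 4)) with h | h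
  · rw [h]
    obtain ⟨n, hn⟩ : ∃ n, a.natAbs = n + 2 := ⟨a.natAbs - 2, by omega⟩
    have e : bld (tw a) [] = [Pc.cross 0 (decide (0 < a)), Pc.cross 0 (decide (0 < a))] ++
        List.replicate n (Pc.cross 0 (decide (0 < a))) := by
      unfold tw
      rw [bld_rep, hn, List.replicate_succ, List.replicate_succ]
      rfl
    have h2 := (NB_rep1 (decide (0 < a)) n).ub (Is_two (decide (0 < a))) (ub_two (decide (0 < a)))
    rw [e, hn]
    refine h2.mono (le_of_eq ?_)
    push_cast
    ring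
  · rw [h]
    exact ub_end a

/-- two tangles joined by a rational region -/
theorem ub_join {S T : List Pc} (hS : Is 2 2 S) (hT : Is 2 2 T) {a b : ℝ} (ha : UB (dbl S) a)
    (hb : UB (dbl T) b) (l : List ℤ) : UB (glue (bld (wd l) S) T) ((a + b) / 2 + costs l) := by
  have h := ub_cs ((NB_wd l).1 S hS) hT ((NB_wd l).ub hS ha) hb
  refine h.mono (le_of_eq ?_)
  ring

/-- the bound for the two-bridge links -/
theorem ub_tb2 (a b : ℤ) (m : List ℤ) (ha : 2 ≤ a.natAbs) (hb : 2 ≤ b.natAbs) :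
    UB (tb (a :: (m ++ [b]))) (ecost a + ecost b + costs m) := by
  have h1 : tb (a :: (m ++ [b])) = glue (bld (wd m) (bld (tw a) [])) (bld (tw b) []) := by
    change denom (bld (tw a ++ wd (m ++ [b])) []) = _
    rw [glue_eq, wd_append, ← List.append_assoc, bld_append, bld_append]
    congr 1
    unfold wd wd tw
    rw [List.append_nil, bld, bld_rep, bld_rep, bld_rep]
    simp
  rw [h1]
  have i1 : Is 2 2 (bld (tw a) []) := Is_bld _ Is_nil2
  have i2 : Is 2 2 (bld (tw b) []) := Is_bld _ Is_nil2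
  refine (ub_join i1 i2 (ub_ecost a ha) (ub_ecost b hb) m).mono (le_of_eq ?_)
  ring

lemma costs_le1 (l : List ℤ) : costs l ≤ 2 * (3 * lob (π / 3)) * ((l.map Int.natAbs).sum : ℕ) := by
  unfold costs
  induction l with
  | nil => simp
  | cons a l ih =>
    rw [List.map_cons, List.sum_cons, List.map_cons, List.sum_cons]
    have h : cost a ≤ 2 * (3 * lob (π / 3)) * a.natAbs := min_le_left _ _
    push_cast at *
    linarith

lemma costs_le2 (l : List ℤ) : costs l ≤ 2 * (8 * lob (π / 4)) * l.length := by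
  unfold costs
  induction l with
  | nil => simp
  | cons a l ih =>
    rw [List.map_cons, List.sum_cons, List.length_cons]
    have h : cost a ≤ 2 * (8 * lob (π / 4)) := min_le_right _ _
    push_cast at *
    linarith

/-- the bound by the number of crossings -/
theorem ub_tb_cr (a b : ℤ) (m : List ℤ) (ha : 2 ≤ a.natAbs) (hb : 2 ≤ b.natAbs) :
    UB (tb (a :: (m ++ [b]))) (2 * (3 * lob (π / 3)) *
      (((a :: (m ++ [b])).map Int.natAbs).sum - 3 : ℕ)) := by
  refine (ub_tb2 a b m ha hb).mono ?_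
  have h1 : ecost a ≤ 3 * lob (π / 3) * (2 * a.natAbs - 3) := min_le_left _ _
  have h2 : ecost b ≤ 3 * lob (π / 3) * (2 * b.natAbs - 3) := min_le_left _ _
  have h3 := costs_le1 m
  have e3 : (((a :: (m ++ [b])).map Int.natAbs).sum - 3 : ℕ) =
      (a.natAbs - 2 + (m.map Int.natAbs).sum + (b.natAbs - 2)) + 1 := by
    rw [List.map_cons, List.sum_cons, List.map_append, List.sum_append, List.map_cons, List.map_nil,
      List.sum_cons, List.sum_nil]
    omega
  rw [e3]
  have e4 : ((a.natAbs - 2 : ℕ) : ℝ) = a.natAbs - 2 := by rw [Nat.cast_sub ha]; norm_num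
  have e5 : ((b.natAbs - 2 : ℕ) : ℝ) = b.natAbs - 2 := by rw [Nat.cast_sub hb]; norm_num
  push_cast [e4, e5] at *
  linarith

/-- the bound by the number of twist regions -/
theorem ub_tb_tw (a b : ℤ) (m : List ℤ) (ha : 2 ≤ a.natAbs) (hb : 2 ≤ b.natAbs) :
    UB (tb (a :: (m ++ [b]))) (2 * (8 * lob (π / 4)) * (m.length + 1)) := by
  refine (ub_tb2 a b m ha hb).mono ?_
  have h1 : ecost a ≤ 8 * lob (π / 4) := min_le_right _ _
  have h2 : ecost b ≤ 8 * lob (π / 4) := min_le_right _ _
  have h3 := costs_le2 m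
  linarith

/-! ### chains -/

/-- supermultiplicativity -/
theorem chain_ge {v : ℂ} (hv : Good N v) (hN : 2 ≤ N) {R : List Pc} (hR : Is 2 2 R) (n : ℕ) :
    nq v (MM N v R) ^ n ≤ nq v (MM N v (chain R (rot []) n)) := by
  have hrn : Is 2 2 (rot []) := Is_rot Is_nil2
  have h0 : mm N v R (rot []) 0 = 1 := by
    change nq v (MM N v (rot [])) = 1
    rw [nq_rot hv hN Is_nil2, MM_nil, nq_one hv.adm (by omega)]
  have h1 : mm N v R (rot []) 1 = nq v (MM N v R) := by
    change nq v (MM N v (step (if 0 % 2 = 0 then ds R else R) (rot []))) = _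
    rw [if_pos rfl, MM_step v (Is_ds hR) hrn, MM_rot v Is_nil2, MM_nil, rho_rho_one hv.adm, mul_one,
      MM_ds hv.adm hv.cj hR, nq_stm hv (InA_MM hv.adm hR)]
  rcases n with _ | n
  · change _ ≤ mm N v R (rot []) 0
    rw [h0, pow_zero]
  · have h2 := logconv_pow (m := mm N v R (rot [])) (by rw [h0]; norm_num)
      (fun k => nq_nonneg hv _) (fun k => mm_logconv hv hN hR hrn k) n
    rw [h0, one_pow, mul_one, h1] at h2
    exact h2

theorem lb_chain {R : List Pc} (hR : Is 2 2 R) {V : ℝ} (h : LBd (dbl R) V) (n : ℕ) :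
    LBd (dbl (chain R (rot []) n)) (n * V) := by
  intro ε hε
  have hpi := Real.pi_pos
  filter_upwards [h (ε / (n + 1)) (by positivity), eventually_ge_atTop 2] with N h1 hN
  have hKr := Kr_rt (N := N) (by omega)
  rw [norm_kv_dbl hN hR] at h1
  rw [norm_kv_dbl hN (Is_chain hR (Is_rot Is_nil2) n)]
  refine le_trans ?_ (chain_ge hKr.good hN hR n)
  refine le_trans ?_ (pow_le_pow_left₀ (Real.exp_pos _).le h1 n)
  rw [← Real.exp_nat_mul, Real.exp_le_exp]
  have h2 : (n : ℝ) * (ε / (n + 1)) ≤ ε := by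
    rw [mul_div_assoc', div_le_iff₀ (by positivity)]
    nlinarith [(Nat.cast_nonneg n : (0 : ℝ) ≤ n)]
  have e : (n : ℝ) * (N * (V - ε / (n + 1)) / (2 * π)) - N * (n * V - ε) / (2 * π) =
      N / (2 * π) * (ε - n * (ε / (n + 1))) := by
    field_simp
    ring
  have e2 : 0 ≤ (N : ℝ) / (2 * π) * (ε - n * (ε / (n + 1))) :=
    mul_nonneg (by positivity) (by linarith)
  linarith

end Pool.Agent.Q191.RP
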