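import Pool.Agent.Q191.RP.TwF
import Pool.Agent.W709.QAT.One

/-!
# Two crossings cost `v_8`
-/

set_option autoImplicit false

namespace Pool.Agent.Q191.RP

open Matrix Finset Filter Topology
open scoped Kronecker Real
open Pool.Agent.H550R3.Jones (WM IsMod IsInt Gen br brf tens irr W crossP crossN Adm)
open Pool.Agent.H927R2.J.SanYB (brf_ne)
open Pool.Agent.W715.VC (brf_succ' rt rt_ne adm br_rt sn rt_zpow sb sb_zero sb_closed qbin sb_self)
open GapVol (lob)

variable {N : ℕ}

/-- the entries of the square of the crossing -/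
lemma tt_two {v : ℂ} (hv : Kr N v) {i j : ℕ} (hji : j ≤ i) (hi : i < N) :
    ‖tt N v 2 i j‖ = 1 / ‖brf v (i - j)‖ := by
  have h0 := hv.adm.1
  have hne : ∀ i : ℕ, i < N → brf v i ≠ 0 := fun i hi => brf_ne hv.adm hi
  obtain ⟨M, rfl⟩ : ∃ M, i = j + M := ⟨i - j, by omega⟩
  have h1 : tt N v 2 (j + M) j = ∑ l ∈ range N, sg N v (j + M) l * sg N v l j := by
    simp only [tt]
    refine sum_congr rfl fun l hl => ?_
    rw [mem_range] at hl
    congr 1
    rw [sum_eq_single j]
    · rw [if_pos rfl, mul_one]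
    · intro b _ hb
      rw [if_neg hb, mul_zero]
    · intro h
      exact absurd (mem_range.2 (by omega)) h
  have h2 : ∑ l ∈ range N, sg N v (j + M) l * sg N v l j =
      ∑ m ∈ range (M + 1), sg N v (j + M) (j + m) * sg N v (j + m) j := by
    have hs : ∑ l ∈ range (j + (M + 1)), sg N v (j + M) l * sg N v l j =
        ∑ l ∈ range N, sg N v (j + M) l * sg N v l j := by
      apply sum_subset
      · intro l hl
        rw [mem_range] at *
        omega
      · intro l _ hl
        rw [mem_range] at hl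
        unfold sg
        rw [if_neg (by omega), zero_mul]
    rw [← hs, sum_range_add, sum_eq_zero, zero_add]
    intro l hl
    rw [mem_range] at hl
    have : sg N v l j = 0 := by
      unfold sg
      rw [if_neg (by omega)]
    rw [this, mul_zero]
  have h3 : ∀ m ∈ range (M + 1), sg N v (j + M) (j + m) * sg N v (j + m) j =
      Cst N v ^ 2 * (-1) ^ M * v ^ (((j : ℤ) + 1) * ((j + M : ℕ) : ℤ) + ((j : ℤ) + 1) * j) *
        (brf v j / (brf v (j + M) * brf v M)) *
        ((-1) ^ m * sb v M m * v ^ ((M + 1) * m) * (v ^ (2 * j)) ^ m) := by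
    intro m hm
    rw [mem_range] at hm
    unfold sg
    rw [if_pos (by omega), if_pos (by omega), show j + M - (j + m) = M - m by omega,
      Nat.add_sub_cancel_left]
    have n1 := hne (j + M) hi
    have n2 := hne (j + m) (by omega)
    have n3 := hne (M - m) (by omega)
    have n4 := hne m (by omega)
    have n5 := hne M (by omega)
    have h4 := sb_closed h0 M m (by omega)
    have h5 : sb v M m = brf v M / (brf v m * brf v (M - m)) := by
      rw [← h4]; field_simp
    have h6 : v ^ ((((j + m : ℕ) : ℤ) + 1) * ((j + M : ℕ) : ℤ)) * v ^ (((j : ℤ) + 1) * ((j + m : ℕ) : ℤ)) =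
        v ^ (((j : ℤ) + 1) * ((j + M : ℕ) : ℤ) + ((j : ℤ) + 1) * j) *
          (v ^ ((M + 1) * m) * (v ^ (2 * j)) ^ m) := by
      rw [← pow_mul, ← zpow_natCast v ((M + 1) * m), ← zpow_natCast v (2 * j * m), ← zpow_add₀ h0,
        ← zpow_add₀ h0, ← zpow_add₀ h0]
      congr 1
      push_cast
      ring
    have h7 : ((-1 : ℂ)) ^ (j + M) * (-1) ^ (j + m) = (-1) ^ M * (-1) ^ m := by
      rw [pow_add, pow_add]
      have : ((-1 : ℂ) ^ j) * (-1) ^ j = 1 := by rw [← mul_pow]; norm_num
      linear_combination ((-1) ^ M * (-1) ^ m) * this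
    rw [h5]
    have e1 : Cst N v * (-1) ^ (j + M) * v ^ ((((j + m : ℕ) : ℤ) + 1) * ((j + M : ℕ) : ℤ)) *
        (brf v (j + m) / (brf v (M - m) * brf v (j + M))) *
        (Cst N v * (-1) ^ (j + m) * v ^ (((j : ℤ) + 1) * ((j + m : ℕ) : ℤ)) *
        (brf v j / (brf v m * brf v (j + m)))) =
        Cst N v ^ 2 * ((-1) ^ (j + M) * (-1) ^ (j + m)) *
        (v ^ ((((j + m : ℕ) : ℤ) + 1) * ((j + M : ℕ) : ℤ)) * v ^ (((j : ℤ) + 1) * ((j + m : ℕ) : ℤ))) *
        (brf v j / (brf v (j + M) * brf v M)) * (brf v M / (brf v m * brf v (M - m))) := by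
      field_simp
    rw [e1, h6, h7]
    ring
  rw [h1, h2, sum_congr rfl h3, ← mul_sum, ← qbin h0 (v ^ (2 * j)) M]
  have hn : ‖∏ l ∈ range M, (1 - v ^ (2 * j) * v ^ (2 * (l + 1)))‖ * ‖brf v j‖ = ‖brf v (j + M)‖ := by
    have : ∀ n : ℕ, ‖∏ l ∈ range n, (1 - v ^ (2 * j) * v ^ (2 * (l + 1)))‖ * ‖brf v j‖ =
        ‖brf v (j + n)‖ := by
      intro n
      induction n with
      | zero => simp
      | succ n ih =>
        rw [prod_range_succ, norm_mul, ← add_assoc, brf_succ', norm_mul, ← ih]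
        have h8 : (1 : ℂ) - v ^ (2 * j) * v ^ (2 * (n + 1)) =
            -(v ^ (((j + n : ℕ) : ℤ) + 1) * br v (((j + n : ℕ) : ℤ) + 1)) := by
          unfold br
          rw [mul_sub, ← zpow_add₀ h0, ← zpow_add₀ h0, add_neg_cancel, zpow_zero, neg_sub,
            ← pow_add, ← zpow_natCast]
          congr 2
          push_cast
          ring
        rw [h8, norm_neg, norm_mul, norm_zp hv]
        ring
    exact this M
  have hC : ‖Cst N v‖ = 1 := by
    unfold Cst
    rw [norm_mul, norm_zp hv, norm_pow, norm_neg, norm_one, one_pow, one_mul]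
  have p1 : 0 < ‖brf v (j + M)‖ := norm_pos_iff.2 (hne _ hi)
  have p2 : 0 < ‖brf v j‖ := norm_pos_iff.2 (hne _ (by omega))
  have p3 : 0 < ‖brf v M‖ := norm_pos_iff.2 (hne _ (by omega))
  rw [norm_mul, norm_mul, norm_mul, norm_mul, norm_pow, hC, norm_pow, norm_neg, norm_one,
    one_pow, one_pow, norm_zp hv, norm_div, norm_mul, Nat.add_sub_cancel_left]
  rw [← hn]
  have p4 : 0 < ‖∏ l ∈ range M, (1 - v ^ (2 * j) * v ^ (2 * (l + 1)))‖ := by
    have := hn ▸ p1
    exact (pos_iff_pos_of_mul_pos this).2 p2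
  field_simp

/-- the growth of the entries of the square of the crossing -/
lemma tt_two_growth (ε : ℝ) (hε : 0 < ε) : ∀ᶠ N : ℕ in atTop, ∀ i j : ℕ, j ≤ i → i < N →
    ‖brf (rt N) i‖ ^ 2 * ‖tt N (rt N) 2 i j‖ ≤
      Real.exp (N / π * (4 * lob (π / 4)) + ε * N) * ‖brf (rt N) j‖ ^ 2 := by
  have h := Pool.Agent.Q191.FT.S_bound 1 (ε / 5) (by positivity)
  filter_upwards [h, eventually_ge_atTop 1] with N hN hN1 i j hji hi
  have hN0 : (0 : ℝ) < N := by exact_mod_cast hN1
  have hKr := Kr_rt (N := N) (by omega)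
  have p1 : 0 < ‖brf (rt N) i‖ := norm_pos_iff.2 (brf_ne (adm N) hi)
  have p2 : 0 < ‖brf (rt N) (i - j)‖ := norm_pos_iff.2 (brf_ne (adm N) (by omega))
  have p3 : 0 < ‖brf (rt N) j‖ := norm_pos_iff.2 (brf_ne (adm N) (by omega))
  have b1 := abs_le.1 (hN i (by omega))
  have b2 := abs_le.1 (hN (i - j) (by omega))
  have b3 := abs_le.1 (hN j (by omega))
  rw [← log_brf (by omega)] at b1 b2 b3
  rw [tt_two hKr hji hi]
  have q1 : 0 < ‖brf (rt N) i‖ ^ 2 * (1 / ‖brf (rt N) (i - j)‖) := by positivity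
  rw [← Real.log_le_log_iff q1 (by positivity), Real.log_mul (by positivity) (by positivity),
    Real.log_mul (Real.exp_ne_zero _) (by positivity), Real.log_exp, Real.log_pow, Real.log_pow,
    one_div, Real.log_inv]
  have e1 : π * (j : ℝ) / N + π * ((i - j : ℕ) : ℝ) / N = π * (i : ℝ) / N := by
    rw [Nat.cast_sub hji]
    ring
  have hpi := Real.pi_pos
  have hlt : π * (j : ℝ) / N + π * ((i - j : ℕ) : ℝ) / N < π := by
    rw [e1, div_lt_iff₀ hN0]
    apply mul_lt_mul_of_pos_left _ hpi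
    exact_mod_cast hi
  have hl := Pool.Agent.W709.QAT.one_calc (x := π * (j : ℝ) / N) (y := π * (j : ℝ) / N)
    (z := π * ((i - j : ℕ) : ℝ) / N) (by positivity) (by positivity) (by positivity) hlt hlt
  rw [e1] at hl
  have h2 := mul_le_mul_of_nonneg_left hl (show 0 ≤ (N : ℝ) / π by positivity)
  push_cast
  linarith [b1.1, b1.2, b2.1, b2.2, b3.1, b3.2]

/-- two crossings cost at most `v_8` -/
lemma NB_two (σ : Bool) : NB (fun T => T ++ List.replicate 2 (Pc.cross 0 σ)) (8 * lob (π / 4)) := by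
  have hpi := Real.pi_pos
  refine ⟨fun T hT => (MM_rep (N := 1) 1 σ hT 2).1, fun ε hε => ?_⟩
  filter_upwards [tt_two_growth (ε / (8 * π)) (by positivity), pow_le_exp 1 (show 0 < ε / (8 * π) by
    positivity), eventually_ge_atTop 2] with N h1 h2 hN T hT
  have hKr := Kr_rt (N := N) (by omega)
  rw [(MM_rep (N := N) (rt N) σ hT 2).2]
  refine (nq_Xpow hKr σ 2 (Real.exp_pos _).le h1 (InA_MM hKr.adm hT)).trans ?_
  refine mul_le_mul_of_nonneg_right ?_ (nq_nonneg hKr.good _)
  rw [pow_one] at h2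
  calc ((N : ℝ) * Real.exp (N / π * (4 * lob (π / 4)) + ε / (8 * π) * N)) ^ 2 ≤
      (Real.exp (ε / (8 * π) * N) *
        Real.exp (N / π * (4 * lob (π / 4)) + ε / (8 * π) * N)) ^ 2 := by
        gcongr
    _ = Real.exp (N * (2 * (8 * lob (π / 4)) + ε) / (2 * π)) := by
        rw [← Real.exp_add, ← Real.exp_nat_mul]
        congr 1
        push_cast
        field_simp
        ring

/-- the cost of a twist region -/
noncomputable def cs : ℕ → ℝ
  | 0 => 0
  | 1 => 2 * (3 * lob (π / 3))
  | 2 => 8 * lob (π / 4)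
  | 3 => 8 * lob (π / 4) + 2 * (3 * lob (π / 3))
  | _ => 2 * (8 * lob (π / 4))

lemma NB_rep (σ : Bool) (n : ℕ) : NB (fun T => T ++ List.replicate n (Pc.cross 0 σ)) (cs n) := by
  match n with
  | 0 =>
    have h := NB_id
    simpa [cs] using h
  | 1 => exact NB_cross σ
  | 2 => exact NB_two σ
  | 3 =>
    have h := (NB_cross σ).comp (NB_two σ)
    have e : (fun T : List Pc => (T ++ List.replicate 2 (Pc.cross 0 σ)) ++ [Pc.cross 0 σ]) =
        fun T => T ++ List.replicate 3 (Pc.cross 0 σ) := by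
      funext T
      rw [List.append_assoc]
      rfl
    rw [e, add_comm] at h
    exact h
  | n + 4 => exact NB_rep2 σ (n + 4)

/-- the cost of a rational region -/
noncomputable def css (l : List ℤ) : ℝ := (l.map fun a => cs a.natAbs).sum

lemma NB_tw' (a : ℤ) : NB (bld (tw a)) (cs a.natAbs) := by
  have e : bld (tw a) = fun T => T ++ List.replicate a.natAbs (Pc.cross 0 (decide (0 < a))) := by
    funext T
    exact bld_rep _ _ _
  rw [e]
  exact NB_rep _ _

lemma NB_wd' (l : List ℤ) : NB (bld (wd l)) (css l) := by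
  induction l with
  | nil =>
    have h := NB_id
    simpa [css, wd, bld] using h
  | cons a l ih =>
    have h := ih.comp ((NB_tw' a).comp NB_rot)
    have e : (fun T => bld (wd l) (bld (tw a) (rot T))) = bld (wd (a :: l)) := by
      funext T
      rw [wd, bld, bld_append]
    rw [e] at h
    have e2 : css l + (cs a.natAbs + 0) = css (a :: l) := by
      unfold css
      rw [List.map_cons, List.sum_cons]
      ring
    rw [e2] at h
    exact h

/-- the cost of an end region -/
noncomputable def ecs : ℕ → ℝ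
  | 0 => 0
  | 1 => 0
  | 2 => 3 * lob (π / 3)
  | 3 => min (3 * (3 * lob (π / 3))) (8 * lob (π / 4))
  | _ => 8 * lob (π / 4)

lemma ub_nil : UB (dbl []) 0 := by
  intro ε hε
  have hpi := Real.pi_pos
  filter_upwards [eventually_ge_atTop 2] with N hN
  have hKr := Kr_rt (N := N) (by omega)
  rw [norm_kv_dbl hN Is_nil2, MM_nil, nq_one hKr.adm (by omega)]
  apply Real.one_le_exp
  positivity

lemma ub_one (σ : Bool) : UB (dbl [Pc.cross 0 σ]) 0 := by
  intro ε hε
  have hpi := Real.pi_pos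
  filter_upwards [eventually_ge_atTop 2, pow_le_exp 1 (show 0 < ε / (2 * π) by positivity)] with N hN h2
  have hKr := Kr_rt (N := N) (by omega)
  rw [norm_kv_dbl hN (Is_cross σ), MM_cross]
  have h1 : nq (N := N) (rt N) (if σ then crossP N (rt N) else crossN N (rt N)) = N := by
    cases σ with
    | true => exact nq_cross hKr
    | false => exact zm_zero hKr
  rw [h1]
  rw [pow_one] at h2
  refine h2.trans (le_of_eq ?_)
  congr 1
  field_simp
  ring

lemma ub_ecs (a : ℤ) : UB (dbl (bld (tw a) [])) (2 * ecs a.natAbs) := by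
  have e : bld (tw a) [] = List.replicate a.natAbs (Pc.cross 0 (decide (0 < a))) := by
    unfold tw
    rw [bld_rep, List.nil_append]
  have h8 := ub_end a
  rw [e] at h8 ⊢
  generalize a.natAbs = n at *
  generalize decide (0 < a) = σ at *
  match n with
  | 0 =>
    have h := ub_nil
    simpa [ecs] using h
  | 1 =>
    have h := ub_one σ
    simpa [ecs] using h
  | 2 => exact ub_two σ
  | 3 =>
    have h := (NB_cross σ).ub (Is_two σ) (ub_two σ)
    change UB _ (2 * min (3 * (3 * lob (π / 3))) (8 * lob (π / 4)))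
    rcases min_choice (3 * (3 * lob (π / 3))) (8 * lob (π / 4)) with h1 | h1
    · rw [h1]
      refine h.mono (le_of_eq ?_)
      ring
    · rw [h1]
      exact h8
  | n + 4 => exact h8

/-- two tangles joined by a rational region -/
theorem ub_join' {S T : List Pc} (hS : Is 2 2 S) (hT : Is 2 2 T) {a b : ℝ} (ha : UB (dbl S) a)
    (hb : UB (dbl T) b) (l : List ℤ) : UB (glue (bld (wd l) S) T) ((a + b) / 2 + css l) := by
  have h := ub_cs ((NB_wd' l).1 S hS) hT ((NB_wd' l).ub hS ha) hb
  refine h.mono (le_of_eq ?_)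
  ring

/-- the bound for the two-bridge links -/
theorem ub_tb3 (a b : ℤ) (m : List ℤ) :
    UB (tb (a :: (m ++ [b]))) (ecs a.natAbs + css m + ecs b.natAbs) := by
  have h1 : tb (a :: (m ++ [b])) = glue (bld (wd m) (bld (tw a) [])) (bld (tw b) []) := by
    change denom (bld (tw a ++ wd (m ++ [b])) []) = _
    rw [glue_eq, wd_append, ← List.append_assoc, bld_append, bld_append]
    congr 1
    unfold wd wd tw
    rw [List.append_nil, bld, bld_rep, bld_rep, bld_rep]
    simp
  rw [h1]
  have i1 : Is 2 2 (bld (tw a) []) := Is_bld _ Is_nil2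
  have i2 : Is 2 2 (bld (tw b) []) := Is_bld _ Is_nil2
  refine (ub_join' i1 i2 (ub_ecs a) (ub_ecs b) m).mono (le_of_eq ?_)
  ring

lemma v8_le : 8 * lob (π / 4) ≤ 4 * (3 * lob (π / 3)) := by
  have h := Pool.Agent.Q191.FT.lobW (π / 4) (π / 2)
  have e : π / 4 + π / 2 = π - π / 4 := by ring
  rw [e, Pool.Agent.W709.QAT.lob_pi_sub, GapVol.lob_half] at h
  linarith

lemma v3_nonneg : 0 ≤ 3 * lob (π / 3) := by
  have hpi := Real.pi_pos
  have := EvenVol.LobIneq.lob_nonneg (x := π / 3) (by positivity) (by linarith)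
  linarith

lemma cs_le1 (n : ℕ) : cs n ≤ 2 * (3 * lob (π / 3)) * n := by
  have h1 := v8_le
  have h2 := v3_nonneg
  match n with
  | 0 => simp [cs]
  | 1 => simp [cs]
  | 2 => simp only [cs]; push_cast; linarith
  | 3 => simp only [cs]; push_cast; linarith
  | n + 4 =>
    simp only [cs]
    push_cast
    nlinarith [(Nat.cast_nonneg n : (0 : ℝ) ≤ n)]

lemma cs_le2 (n : ℕ) : cs n ≤ 2 * (8 * lob (π / 4)) := by
  have h1 := Pool.Agent.Q191.FT.W_le
  have h2 := v3_nonneg
  match n with
  | 0 => simp only [cs]; linarith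
  | 1 => simp only [cs]; linarith
  | 2 => simp only [cs]; linarith
  | 3 => simp only [cs]; linarith
  | n + 4 => exact le_refl _

lemma ecs_le1 (n : ℕ) (hn : 2 ≤ n) : ecs n ≤ (3 * lob (π / 3)) * (2 * n - 3) := by
  have h1 := v8_le
  have h2 := v3_nonneg
  match n, hn with
  | 2, _ => simp only [ecs]; push_cast; linarith
  | 3, _ =>
    simp only [ecs]
    refine (min_le_left _ _).trans (le_of_eq ?_)
    push_cast
    ring
  | n + 4, _ =>
    simp only [ecs]
    push_cast
    nlinarith [(Nat.cast_nonneg n : (0 : ℝ) ≤ n)]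

lemma ecs_le2 (n : ℕ) : ecs n ≤ 8 * lob (π / 4) := by
  have h1 := Pool.Agent.Q191.FT.W_le
  have h2 := v3_nonneg
  match n with
  | 0 => simp only [ecs]; linarith
  | 1 => simp only [ecs]; linarith
  | 2 => simp only [ecs]; linarith
  | 3 => exact min_le_right _ _
  | n + 4 => exact le_refl _

end Pool.Agent.Q191.RP
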